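import Pool.Agent.Lib.MP_53fa4a_an_ST.BPl

/-!
# Bounded functions
-/

set_option autoImplicit false

open scoped BigOperators Topology

noncomputable section

namespace Pool.Agent.ST53

variable {X : Type*} [AddCommGroup X]

private lemma per_of_dif {g : X → ℂ} {v : X} (h : dif v g = 0) (x : X) : g (x + v) = g x := by
  have h1 := congrFun h x
  simp only [dif, Pi.zero_apply] at h1
  exact (sub_eq_zero.mp h1).symm

private lemma dif_of_per {g : X → ℂ} {v : X} (h : ∀ x, g (x + v) = g x) : dif v g = 0 := by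
  funext x
  simp only [dif, Pi.zero_apply]
  rw [h x, sub_self]

private lemma per_smul {g : X → ℂ} {v : X} (h : ∀ x, g (x + v) = g x) (k : ℕ) (x : X) :
    g (x + k • v) = g x := by
  induction k with
  | zero => simp
  | succ k ih =>
    rw [succ_nsmul, ← add_assoc, h, ih]

private lemma Pl_dif (V : List X) (v : X) (f : X → ℂ) : Pl V (dif v f) = dif v (Pl V f) :=
  Pl_comm V [v] f

/-- PROOF: `g = dif v f` has `g (x + v) = g x`, so `f x - f (x + k v) = k g x` for all `k`, and `f`
is bounded. -/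
theorem dif_sq {f : X → ℂ} {C : ℝ} (hf : ∀ x, ‖f x‖ ≤ C) (v : X) (h : dif v (dif v f) = 0) :
    dif v f = 0 := by
  have hg : ∀ x, dif v f (x + v) = dif v f x := per_of_dif h
  have hk : ∀ (k : ℕ) (x : X), f x - f (x + k • v) = (k : ℂ) * dif v f x := by
    intro k
    induction k with
    | zero => intro x; simp
    | succ k ih =>
      intro x
      have h1 := ih x
      have h2 := per_smul hg k x
      have h3 : f (x + k • v) - f (x + k • v + v) = dif v f x := by
        rw [← h2]
        rfl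
      rw [succ_nsmul, ← add_assoc]
      push_cast
      linear_combination h1 + h3
  funext x
  simp only [Pi.zero_apply]
  by_contra hx
  have hpos : 0 < ‖dif v f x‖ := norm_pos_iff.mpr hx
  obtain ⟨k, hk1⟩ := exists_nat_gt (2 * C / ‖dif v f x‖)
  have h1 : ‖f x - f (x + k • v)‖ ≤ 2 * C := by
    calc ‖f x - f (x + k • v)‖ ≤ ‖f x‖ + ‖f (x + k • v)‖ := norm_sub_le _ _
      _ ≤ C + C := add_le_add (hf _) (hf _)
      _ = 2 * C := by ring
  rw [hk k x, norm_mul, Complex.norm_natCast] at h1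
  rw [div_lt_iff₀ hpos] at hk1
  linarith

/-- PROOF: prove for lists `V, V'` and bounded `f`: `Pl V (Pl V (Pl V' f)) = 0` implies
`Pl V (Pl V' f) = 0`, by induction on `V`: for `v :: V`, the function `f' = Pl V (Pl V (Pl V' f))`
is bounded and `dif v (dif v f') = 0`, so `dif v f' = 0`, i.e. `Pl V (Pl V (Pl (v :: V') f)) = 0`;
by induction `Pl V (Pl (v :: V') f) = 0`. -/
theorem Pl_sq {f : X → ℂ} {C : ℝ} (hf : ∀ x, ‖f x‖ ≤ C) (V : List X) (h : Pl V (Pl V f) = 0) :
    Pl V f = 0 := by
  have key : ∀ V V' : List X, Pl V (Pl V (Pl V' f)) = 0 → Pl V (Pl V' f) = 0 := by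
    intro V
    induction V with
    | nil => intro V' h; exact h
    | cons v V ih =>
      intro V' h
      have h1 : dif v (dif v (Pl V (Pl V (Pl V' f)))) = 0 := by
        have h2 : dif v (Pl V (dif v (Pl V (Pl V' f)))) = 0 := h
        rw [Pl_dif] at h2
        exact h2
      have hb : ∀ x, ‖Pl V (Pl V (Pl V' f)) x‖ ≤
          2 ^ V.length * (2 ^ V.length * (2 ^ V'.length * C)) :=
        Pl_bdd V (Pl_bdd V (Pl_bdd V' hf))
      have h3 := dif_sq hb v h1
      have h4 : Pl V (Pl V (Pl (v :: V') f)) = 0 := by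
        show Pl V (Pl V (dif v (Pl V' f))) = 0
        rw [Pl_dif, Pl_dif]
        exact h3
      have h5 := ih (v :: V') h4
      have h6 : Pl V (dif v (Pl V' f)) = 0 := h5
      rw [Pl_dif] at h6
      exact h6
  exact key V [] h

/-- PROOF: `dif (s t v) g x = ∑_{i < s} dif (t v) g (x + i t v)`; induction on `V` for all `f`
(`Pl (tl (s*t) V) f x` is a finite combination of values of `Pl (tl t V) f`). -/
theorem Pl_dvd {f : X → ℂ} (s t : ℕ) (V : List X) (h : Pl (tl t V) f = 0) :
    Pl (tl (s * t) V) f = 0 := by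
  induction V generalizing f with
  | nil => exact h
  | cons v V ih =>
    have h1 : dif (t • v) (Pl (tl t V) f) = 0 := h
    rw [← Pl_dif] at h1
    have h2 := ih h1
    rw [Pl_dif] at h2
    show dif ((s * t) • v) (Pl (tl (s * t) V) f) = 0
    apply dif_of_per
    intro x
    rw [mul_smul]
    exact per_smul (per_of_dif h2) s x

/-- PROOF.  Write `V` as a permutation of `v₀ :: V'`; `w₁ = Pl (tl t V') f` is bounded,
`w = dif (t v₀) w₁` has period `n v₀`.  `w₂ = dif (n t v₀) w₁ = ∑_{i<n} sh (i t v₀) w` has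
`dif (n t v₀) w₂ = 0`, so `w₂ = 0` by `dif_sq`, i.e. `Pl (tl t V') (dif (n t v₀) f) = 0`, and
`Pl_dvd` gives `Pl (tl (n t) V') (dif (n t v₀) f) = 0`. -/
theorem Pl_per {f : X → ℂ} {C : ℝ} (hf : ∀ x, ‖f x‖ ≤ C) {V : List X} {v₀ : X} (hv : v₀ ∈ V)
    {n t : ℕ} (h : ∀ x, Pl (tl t V) f (x + n • v₀) = Pl (tl t V) f x) :
    Pl (tl (n * t) V) f = 0 := by
  classical
  set V' := V.erase v₀ with hV'
  have hp : ∀ s : ℕ, (tl s V).Perm (s • v₀ :: tl s V') := by
    intro s
    have := (List.perm_cons_erase hv).map (s • ·)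
    simpa [tl] using this
  have hw : ∀ s : ℕ, Pl (tl s V) f = dif (s • v₀) (Pl (tl s V') f) := fun s => Pl_perm (hp s) f
  have hper : ∀ x, dif (t • v₀) (Pl (tl t V') f) (x + (n * t) • v₀) =
      dif (t • v₀) (Pl (tl t V') f) x := by
    intro x
    rw [mul_comm n t, mul_smul]
    refine per_smul (fun y => ?_) t x
    rw [← hw t]
    exact h y
  have hsum : ∀ (k : ℕ) (x : X), Pl (tl t V') f x - Pl (tl t V') f (x + k • (t • v₀)) =
      ∑ i ∈ Finset.range k, dif (t • v₀) (Pl (tl t V') f) (x + i • (t • v₀)) := by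
    intro k x
    induction k with
    | zero => simp
    | succ k ih =>
      rw [Finset.sum_range_succ, ← ih, succ_nsmul, ← add_assoc]
      simp only [dif]
      ring
  have h2 : dif ((n * t) • v₀) (dif ((n * t) • v₀) (Pl (tl t V') f)) = 0 := by
    apply dif_of_per
    intro x
    have e1 : ∀ y, dif ((n * t) • v₀) (Pl (tl t V') f) y =
        ∑ i ∈ Finset.range n, dif (t • v₀) (Pl (tl t V') f) (y + i • (t • v₀)) := by
      intro y
      rw [← hsum n y, ← mul_smul]
      rfl
    rw [e1, e1]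
    refine Finset.sum_congr rfl fun i _ => ?_
    rw [add_right_comm]
    exact hper _
  have h3 : dif ((n * t) • v₀) (Pl (tl t V') f) = 0 := dif_sq (Pl_bdd (tl t V') hf) _ h2
  rw [← Pl_dif] at h3
  have h4 := Pl_dvd n t V' h3
  rw [Pl_dif] at h4
  rw [hw (n * t)]
  exact h4

end Pool.Agent.ST53
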