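import Pool.Agent.Lib.MP_53fa4a_an_ST.BPl

/-!
# The class `Cls`: translations, differences
-/

set_option autoImplicit false

open scoped BigOperators Topology

noncomputable section

namespace Pool.Agent.ST53

private lemma bound_of_val {X : Type*} {A : Finset ℂ} {f : X → ℂ}
    (hv : ∀ x, f x = 0 ∨ f x ∈ A) (x : X) : ‖f x‖ ≤ ∑ a ∈ A, ‖a‖ := by
  rcases hv x with h | h
  · rw [h, norm_zero]
    exact Finset.sum_nonneg fun a _ => norm_nonneg a
  · exact Finset.single_le_sum (f := fun a : ℂ => ‖a‖) (fun a _ => norm_nonneg a) h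

private lemma zero_mem_vals (k : ℕ) (A : Finset ℂ) : (0 : ℂ) ∈ vals k A := by
  induction k with
  | zero =>
    rw [vals]
    exact Finset.mem_insert_self _ _
  | succ k ih =>
    rw [vals]
    exact Finset.mem_image.2 ⟨(0, 0), Finset.mem_product.2 ⟨ih, ih⟩, sub_zero 0⟩

private lemma vals_succ' (k : ℕ) (A : Finset ℂ) : vals 1 (vals k A) = vals (k + 1) A := by
  have h1 : vals 1 (vals k A) = (vals 0 (vals k A) ×ˢ vals 0 (vals k A)).image
      fun p => p.1 - p.2 := rfl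
  have h2 : vals 0 (vals k A) = vals k A := by
    rw [vals]
    exact Finset.insert_eq_self.2 (zero_mem_vals k A)
  rw [h1, h2]
  rfl

variable {X : Type*} [NormedAddCommGroup X] [InnerProductSpace ℝ X]

/-- PROOF: `f x ≠ 0` only for `x ∈ D`, and `f` is bounded; `T1`. -/
theorem Cls.summable {𝒟 : Dat X} {A : Finset ℂ} {f : X → ℂ}
    (hs : ∀ x, f x ≠ 0 → x ∈ DD 𝒟.L 𝒟.E) (hv : ∀ x, f x = 0 ∨ f x ∈ A) {r : ℝ} {φ : X → ℂ}
    (hφ : φ ∈ 𝒟.T r) : Summable fun x => ‖f x * φ x‖ := by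
  have h1 := (𝒟.T1 r φ hφ).mul_left (∑ a ∈ A, ‖a‖)
  refine h1.of_nonneg_of_le (fun x => norm_nonneg _) (fun x => ?_)
  by_cases hx : f x = 0
  · rw [hx, zero_mul, norm_zero]
    exact mul_nonneg (Finset.sum_nonneg fun a _ => norm_nonneg a)
      (Set.indicator_nonneg (fun y _ => norm_nonneg _) x)
  · rw [Set.indicator_of_mem (hs x hx), norm_mul]
    exact mul_le_mul_of_nonneg_right (bound_of_val hv x) (norm_nonneg _)

theorem Cls.bdd {𝒟 : Dat X} {ρ : ℝ} {A : Finset ℂ} {f : X → ℂ} (h : Cls 𝒟 ρ A f) :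
    ∃ C : ℝ, ∀ x, ‖f x‖ ≤ C := ⟨_, bound_of_val h.val⟩

theorem Cls.mono {𝒟 : Dat X} {ρ ρ' : ℝ} {A A' : Finset ℂ} {f : X → ℂ} (h : Cls 𝒟 ρ A f)
    (hρ : ρ' ≤ ρ) (hA : A ⊆ A') : Cls 𝒟 ρ' A' f where
  supp := h.supp
  val x := (h.val x).imp id fun h1 => hA h1
  gap r hr := h.gap r (hr.trans_le hρ)

/-- PROOF: `∑' x, f (x+l) φ x = ∑' x, f x φ (x-l)` and `T3`. -/
theorem Cls.sh {𝒟 : Dat X} {ρ : ℝ} {A : Finset ℂ} {f : X → ℂ} (h : Cls 𝒟 ρ A f) {l : X}
    (hl : l ∈ 𝒟.L) : Cls 𝒟 ρ A (sh l f) where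
  supp x hx := by
    obtain ⟨m, hm, a, ha, hxa⟩ := h.supp (x + l) hx
    exact ⟨m - l, 𝒟.L.sub_mem hm hl, a, ha,
      by rw [sub_add_eq_add_sub, ← hxa, add_sub_cancel_right]⟩
  val x := h.val (x + l)
  gap r hr φ hφ := by
    have h1 := h.gap r hr _ (𝒟.T3 r φ hφ l hl)
    rw [← (Equiv.addRight l).tsum_eq] at h1
    simp only [Equiv.coe_addRight, add_sub_cancel_right] at h1
    exact h1

theorem Cls.sub {𝒟 : Dat X} {ρ : ℝ} {A : Finset ℂ} {f g : X → ℂ} (hf : Cls 𝒟 ρ A f)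
    (hg : Cls 𝒟 ρ A g) : Cls 𝒟 ρ (vals 1 A) (fun x => f x - g x) where
  supp x hx := by
    by_cases h1 : f x = 0
    · apply hg.supp x
      intro h2
      exact hx (by rw [h1, h2, sub_zero])
    · exact hf.supp x h1
  val x := by
    right
    rw [vals, vals]
    exact Finset.mem_image.2 ⟨(f x, g x), Finset.mem_product.2
      ⟨Finset.mem_insert.2 (hf.val x), Finset.mem_insert.2 (hg.val x)⟩, rfl⟩
  gap r hr φ hφ := by
    have h1 := hf.gap r hr φ hφ
    have h2 := hg.gap r hr φ hφ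
    have s1 : Summable fun x => f x * φ x := (Cls.summable hf.supp hf.val hφ).of_norm
    have s2 : Summable fun x => g x * φ x := (Cls.summable hg.supp hg.val hφ).of_norm
    simp_rw [sub_mul]
    rw [s1.tsum_sub s2, h1, h2, sub_zero]

/-- PROOF: induction on `V`, `Cls.sh`, `Cls.sub` (`vals 1 (vals k A)` and `vals (k+1) A` agree
because `0 ∈ vals k A`). -/
theorem Cls.Pl {𝒟 : Dat X} {ρ : ℝ} {A : Finset ℂ} {f : X → ℂ} (hf : Cls 𝒟 ρ A f) {V : List X}
    (hV : ∀ v ∈ V, v ∈ 𝒟.L) : Cls 𝒟 ρ (vals V.length A) (Pl V f) := by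
  induction V with
  | nil => exact hf.mono le_rfl (Finset.subset_insert _ _)
  | cons v V ih =>
    have h1 := ih fun w hw => hV w (List.mem_cons_of_mem v hw)
    have h2 := h1.sub (h1.sh (hV v List.mem_cons_self))
    rw [vals_succ'] at h2
    exact h2

theorem OnC.mono {W W' : Submodule ℝ X} {f : X → ℂ} (h : OnC W f) (hW : W ≤ W') : OnC W' f :=
  fun x y hx hy => hW (h x y hx hy)

theorem OnC.sh {W : Submodule ℝ X} {f : X → ℂ} (h : OnC W f) (v : X) : OnC W (sh v f) := by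
  intro x y hx hy
  have := h (x + v) (y + v) hx hy
  simpa using this

/-- PROOF: induction on `V`. -/
theorem OnC.Pl {W : Submodule ℝ X} {f : X → ℂ} (h : OnC W f) {V : List X} (hV : ∀ v ∈ V, v ∈ W) :
    OnC W (Pl V f) := by
  induction V with
  | nil => exact h
  | cons v V ih =>
    have h1 := ih fun w hw => hV w (List.mem_cons_of_mem v hw)
    have hv : v ∈ W := hV v List.mem_cons_self
    have key : ∀ x, Pool.Agent.ST53.Pl (v :: V) f x ≠ 0 →
        ∃ z ∈ W, Pool.Agent.ST53.Pl V f (x + z) ≠ 0 := by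
      intro x hx
      by_cases h2 : Pool.Agent.ST53.Pl V f x = 0
      · refine ⟨v, hv, fun h3 => hx ?_⟩
        show Pool.Agent.ST53.Pl V f x - Pool.Agent.ST53.Pl V f (x + v) = 0
        rw [h2, h3, sub_zero]
      · exact ⟨0, W.zero_mem, by rwa [add_zero]⟩
    intro x y hx hy
    obtain ⟨z, hz, hxz⟩ := key x hx
    obtain ⟨u, hu, hyu⟩ := key y hy
    have h2 := W.add_mem (W.sub_mem (h1 _ _ hxz hyu) hz) hu
    have h3 : x + z - (y + u) - z + u = x - y := by abel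
    rwa [h3] at h2

end Pool.Agent.ST53
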