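import Pool.Agent.Lib.MP_53fa4a_an_ST.BDefs

/-!
# The coefficients of an absolutely convergent exponential sum
-/

set_option autoImplicit false

open scoped BigOperators Topology

noncomputable section

namespace Pool.Agent.ST53

private lemma e_nat_mul (k : ℕ) (t : ℝ) : e ((k : ℝ) * t) = e t ^ k := by
  induction k with
  | zero => simp
  | succ k ih =>
    rw [pow_succ, ← ih, ← e_add]
    congr 1
    push_cast
    ring

private lemma e_eq_one {t : ℝ} (ht : e t = 1) : ∃ n : ℤ, t = n := by
  unfold e at ht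
  rw [Complex.exp_eq_one_iff] at ht
  obtain ⟨n, hn⟩ := ht
  refine ⟨n, ?_⟩
  have h2 : (2 * Real.pi * Complex.I : ℂ) ≠ 0 := Complex.two_pi_I_ne_zero
  have h3 : (2 * Real.pi * Complex.I : ℂ) * (t : ℂ) = (2 * Real.pi * Complex.I : ℂ) * (n : ℂ) := by
    rw [hn]
    ring
  have h4 := mul_left_cancel₀ h2 h3
  exact_mod_cast h4

/-- the averages of the powers -/
private def av (N : ℕ) (ω : ℂ) : ℂ := (N : ℂ)⁻¹ * ∑ k ∈ Finset.range N, ω ^ k

private lemma norm_av_le (N : ℕ) {ω : ℂ} (hω : ‖ω‖ = 1) : ‖av N ω‖ ≤ 1 := by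
  unfold av
  rw [norm_mul, norm_inv, Complex.norm_natCast]
  rcases Nat.eq_zero_or_pos N with rfl | hN
  · simp
  have h1 : ‖∑ k ∈ Finset.range N, ω ^ k‖ ≤ N := by
    refine (norm_sum_le _ _).trans ?_
    simp [hω]
  have h2 : (0 : ℝ) < N := by exact_mod_cast hN
  rw [inv_mul_le_iff₀ h2]
  simpa using h1

private lemma av_one {N : ℕ} (hN : 0 < N) : av N 1 = 1 := by
  unfold av
  have h2 : (N : ℂ) ≠ 0 := by exact_mod_cast hN.ne'
  simp [h2]

private lemma tendsto_av_one : Filter.Tendsto (fun N => av N 1) Filter.atTop (𝓝 1) := by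
  refine tendsto_const_nhds.congr' ?_
  filter_upwards [Filter.eventually_gt_atTop 0] with N hN
  exact (av_one hN).symm

private lemma tendsto_av_zero {ω : ℂ} (hω : ‖ω‖ = 1) (h1 : ω ≠ 1) :
    Filter.Tendsto (fun N => av N ω) Filter.atTop (𝓝 0) := by
  have hb : ∀ N : ℕ, ‖av N ω‖ ≤ (2 / ‖ω - 1‖) * (N : ℝ)⁻¹ := by
    intro N
    unfold av
    rw [norm_mul, norm_inv, Complex.norm_natCast, geom_sum_eq h1, norm_div, mul_comm]
    refine mul_le_mul_of_nonneg_right ?_ (by positivity)
    refine div_le_div_of_nonneg_right ?_ (norm_nonneg _)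
    refine (norm_sub_le _ _).trans ?_
    rw [norm_pow, hω]
    norm_num
  have hz : Filter.Tendsto (fun N : ℕ => (2 / ‖ω - 1‖) * (N : ℝ)⁻¹) Filter.atTop (𝓝 0) := by
    have := (tendsto_inv_atTop_nhds_zero_nat (𝕜 := ℝ)).const_mul (2 / ‖ω - 1‖)
    simpa using this
  exact squeeze_zero_norm hb hz

/-- PROOF: for `N → ∞`, `(1/N) ∫_0^N e (s (h x - γ)) ds → 1` if `h x = γ` and `→ 0` otherwise,
always
of absolute value `≤ 1`; multiply the hypothesis by `e (-s γ)`, integrate over `[0,N]` (interchange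
sum and integral: `intervalIntegral.hasSum_integral_of_summable_norm` or
`integral_tsum_of_summable_integral_norm`), divide by `N`, and let `N → ∞`
(`tendsto_tsum_of_dominated_convergence`).  (Here: averages over the multiples `k t`, `k < N`, of a
number `t` with `t (h x - γ)` not an integer if `h x ≠ γ`, `a x ≠ 0`.) -/
theorem coef_zero {X : Type*} {a : X → ℂ} {h : X → ℝ} (ha : Summable fun x => ‖a x‖)
    (h0 : ∀ s : ℝ, ∑' x, a x * e (s * h x) = 0) (γ : ℝ) :
    ∑' x, (if h x = γ then a x else 0) = 0 := by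
  have hc : (Function.support a).Countable := by
    have := ha.countable_support
    refine this.mono ?_
    intro x hx
    simpa using hx
  -- a good scale
  have hbad : (⋃ x ∈ Function.support a, ⋃ n : ℤ, {t : ℝ | t = n / (h x - γ)}).Countable := by
    refine hc.biUnion fun x _ => Set.countable_iUnion fun n => ?_
    exact Set.countable_singleton _
  obtain ⟨t, ht⟩ := (hbad.dense_compl ℝ).nonempty
  have ht' : ∀ x, a x ≠ 0 → h x ≠ γ → e (t * (h x - γ)) ≠ 1 := by
    intro x hx hg he
    obtain ⟨n, hn⟩ := e_eq_one he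
    apply ht
    have hne : h x - γ ≠ 0 := sub_ne_zero.2 hg
    simp only [Set.mem_iUnion]
    exact ⟨x, hx, n, by
      show t = n / (h x - γ)
      rw [eq_div_iff hne, hn]⟩
  have hsum : ∀ k : ℕ, Summable fun x => a x * e (t * (h x - γ)) ^ k := by
    intro k
    refine Summable.of_norm ?_
    refine ha.congr fun x => ?_
    simp
  have hz : ∀ k : ℕ, ∑' x, a x * e (t * (h x - γ)) ^ k = 0 := by
    intro k
    have h1 : ∀ x, a x * e (t * (h x - γ)) ^ k
        = e (-((k : ℝ) * t * γ)) * (a x * e (((k : ℝ) * t) * h x)) := by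
      intro x
      rw [← e_nat_mul]
      have h2 : (k : ℝ) * (t * (h x - γ)) = -((k : ℝ) * t * γ) + ((k : ℝ) * t) * h x := by ring
      rw [h2, e_add]
      ring
    simp_rw [h1]
    rw [tsum_mul_left, h0, mul_zero]
  have hav : ∀ N : ℕ, ∑' x, a x * av N (e (t * (h x - γ))) = 0 := by
    intro N
    have h1 : ∀ x, a x * av N (e (t * (h x - γ)))
        = (N : ℂ)⁻¹ * ∑ k ∈ Finset.range N, a x * e (t * (h x - γ)) ^ k := by
      intro x
      unfold av
      rw [← Finset.mul_sum]
      ring
    simp_rw [h1]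
    rw [tsum_mul_left, Summable.tsum_finsetSum (fun k _ => hsum k)]
    simp [hz]
  have hlim : Filter.Tendsto (fun N : ℕ => ∑' x, a x * av N (e (t * (h x - γ)))) Filter.atTop
      (𝓝 (∑' x, (if h x = γ then a x else 0))) := by
    refine tendsto_tsum_of_dominated_convergence ha ?_ ?_
    · intro x
      by_cases hx : a x = 0
      · simp [hx]
      by_cases hg : h x = γ
      · have h1 : e (t * (h x - γ)) = 1 := by simp [hg]
        rw [h1, if_pos hg]
        simpa using tendsto_av_one.const_mul (a x)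
      · rw [if_neg hg]
        simpa using (tendsto_av_zero (norm_e _) (ht' x hx hg)).const_mul (a x)
    · refine Filter.Eventually.of_forall fun N x => ?_
      rw [norm_mul]
      exact mul_le_of_le_one_right (norm_nonneg _) (norm_av_le N (norm_e _))
  simp only [hav] at hlim
  exact (tendsto_nhds_unique tendsto_const_nhds hlim).symm

end Pool.Agent.ST53
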