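import Mathlib

/-!
# MP_53fa4a_an, project ST (spectra in finitely many translates of a lattice): definitions, part B

Text: /team-store/TEXT_53fa4a_ST.md, part B (structure theorem).
-/

set_option autoImplicit false

open scoped BigOperators Topology

noncomputable section

namespace Pool.Agent.ST53

/-- `e(t) = exp (2 π i t)` -/
def e (t : ℝ) : ℂ := Complex.exp (2 * Real.pi * Complex.I * (t : ℂ))

lemma e_add (s t : ℝ) : e (s + t) = e s * e t := by
  unfold e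
  rw [← Complex.exp_add]
  congr 1
  push_cast
  ring

@[simp] lemma e_zero : e 0 = 1 := by simp [e]

lemma e_neg (t : ℝ) : e (-t) * e t = 1 := by
  rw [← e_add]
  simp

@[simp] lemma norm_e (t : ℝ) : ‖e t‖ = 1 := by
  have h : (2 * Real.pi * Complex.I * (t : ℂ)) = ((2 * Real.pi * t : ℝ) : ℂ) * Complex.I := by
    push_cast
    ring
  unfold e
  rw [h]
  exact Complex.norm_exp_ofReal_mul_I _

lemma e_ne_zero (t : ℝ) : e t ≠ 0 := Complex.exp_ne_zero _

lemma e_int (n : ℤ) : e (n : ℝ) = 1 := by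
  unfold e
  have h : (2 * Real.pi * Complex.I * ((n : ℝ) : ℂ)) = (n : ℂ) * (2 * Real.pi * Complex.I) := by
    push_cast
    ring
  rw [h]
  exact Complex.exp_int_mul_two_pi_mul_I _

lemma continuous_e : Continuous e := by
  unfold e
  fun_prop

section ops

variable {X : Type*} [AddCommGroup X]

/-- translation `(X^v f)(x) = f(x+v)` -/
def sh (v : X) (f : X → ℂ) : X → ℂ := fun x => f (x + v)

/-- `(1 - X^v) f` -/
def dif (v : X) (f : X → ℂ) : X → ℂ := fun x => f x - f (x + v)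

/-- `∏_{v ∈ V} (1 - X^v) f` -/
def Pl : List X → (X → ℂ) → (X → ℂ)
  | [], f => f
  | v :: V, f => dif v (Pl V f)

/-- the list of the `t v` -/
def tl (t : ℕ) (V : List X) : List X := V.map (t • ·)

/-- the values of `Pl V f`, `k` the length of `V`, if `f` has values in `A ∪ {0}` -/
def vals : ℕ → Finset ℂ → Finset ℂ
  | 0, A => insert 0 A
  | k + 1, A => (vals k A ×ˢ vals k A).image fun p => p.1 - p.2

/-- `D = L + E` -/
def DD (L : AddSubgroup X) (E : Finset X) : Set X := {x | ∃ l ∈ L, ∃ a ∈ E, x = l + a}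

end ops

/-- The data of the structure theorem: a basis `b` of `X`, a subgroup `L` of its dual lattice, a
finite set `E`, and test functions `T r`. -/
structure Dat (X : Type*) [NormedAddCommGroup X] [InnerProductSpace ℝ X] where
  /-- the dimension -/
  n : ℕ
  /-- the basis -/
  b : Module.Basis (Fin n) ℝ X
  /-- the group of translations -/
  L : AddSubgroup X
  hL : ∀ l ∈ L, ∀ i, ∃ m : ℤ, inner ℝ (b i) l = (m : ℝ)
  /-- the offsets -/
  E : Finset X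
  /-- the test functions of radius `r` -/
  T : ℝ → Set (X → ℂ)
  T0 : ∀ r r', r ≤ r' → T r ⊆ T r'
  T1 : ∀ r, ∀ φ ∈ T r, Summable fun x => (DD L E).indicator (fun x => ‖φ x‖) x
  T2 : ∀ r, ∀ φ ∈ T r, ∀ w : X, (fun x => e (inner ℝ w x) * φ x) ∈ T (r + ‖w‖)
  T3 : ∀ r, ∀ φ ∈ T r, ∀ l ∈ L, (fun x => φ (x - l)) ∈ T r
  T4 : ∀ r > 0, ∀ x ∈ DD L E, ∃ φ ∈ T r, φ x ≠ 0

variable {X : Type*} [NormedAddCommGroup X] [InnerProductSpace ℝ X]

/-- the spectral gap of radius `ρ` -/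
def Gap (𝒟 : Dat X) (ρ : ℝ) (f : X → ℂ) : Prop := ∀ r < ρ, ∀ φ ∈ 𝒟.T r, ∑' x, f x * φ x = 0

/-- the class of functions with values in `A ∪ {0}`, supported in `D = L + E`, with gap `ρ` -/
structure Cls (𝒟 : Dat X) (ρ : ℝ) (A : Finset ℂ) (f : X → ℂ) : Prop where
  supp : ∀ x, f x ≠ 0 → x ∈ DD 𝒟.L 𝒟.E
  val : ∀ x, f x = 0 ∨ f x ∈ A
  gap : Gap 𝒟 ρ f

/-- the support is contained in a coset of `W` -/
def OnC (W : Submodule ℝ X) (f : X → ℂ) : Prop := ∀ x y, f x ≠ 0 → f y ≠ 0 → x - y ∈ W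

/-- the structure theorem for functions supported in cosets of `W` -/
def TV (𝒟 : Dat X) (W : Submodule ℝ X) : Prop :=
  ∀ ρ > 0, ∃ V : List X, (∀ v ∈ V, v ∈ 𝒟.L ∧ v ∈ W ∧ v ≠ 0) ∧ ∀ A : Finset ℂ, ∃ t : ℕ, 0 < t ∧
    ∀ f, Cls 𝒟 ρ A f → OnC W f → Pl (tl t V) f = 0

/-- the same, uniformly for all subspaces of `W` of dimension `≤ j` -/
def Low (𝒟 : Dat X) (W : Submodule ℝ X) (j : ℕ) : Prop :=
  ∀ ρ > 0, ∃ V : List X, (∀ v ∈ V, v ∈ 𝒟.L ∧ v ∈ W ∧ v ≠ 0) ∧ ∀ A : Finset ℂ, ∃ t : ℕ, 0 < t ∧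
    ∀ f, Cls 𝒟 ρ A f → ∀ W' : Submodule ℝ X, W' ≤ W → Module.finrank ℝ W' ≤ j → OnC W' f →
      Pl (tl t V) f = 0

end Pool.Agent.ST53
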