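import Pool.Agent.Lib.MP_53fa4a_an_ST.BDefs

/-!
# The set `D = L + E` is locally finite
-/

set_option autoImplicit false

open scoped BigOperators Topology

noncomputable section

namespace Pool.Agent.ST53

variable {X : Type*} [NormedAddCommGroup X] [InnerProductSpace ℝ X] [FiniteDimensional ℝ X]

omit [FiniteDimensional ℝ X] in
private theorem disc_L {n : ℕ} (b : Module.Basis (Fin n) ℝ X) (L : AddSubgroup X)
    (hL : ∀ l ∈ L, ∀ i, ∃ m : ℤ, inner ℝ (b i) l = (m : ℝ)) (R : ℝ) :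
    {l | l ∈ L ∧ ‖l‖ ≤ R}.Finite := by
  have hfl : ∀ l ∈ L, ∀ i, ((⌊(inner ℝ (b i) l : ℝ)⌋ : ℤ) : ℝ) = inner ℝ (b i) l := by
    intro l hl i
    obtain ⟨m, hm⟩ := hL l hl i
    rw [hm, Int.floor_intCast]
  apply Set.Finite.of_finite_image (f := fun l : X => fun i : Fin n => ⌊(inner ℝ (b i) l : ℝ)⌋)
  · refine (Set.Finite.pi (ι := Fin n)
      (t := fun i => Set.Icc (-⌈‖b i‖ * R⌉) ⌈‖b i‖ * R⌉) fun i => Set.finite_Icc _ _).subset ?_
    rintro _ ⟨l, ⟨hl, hR⟩, rfl⟩ i _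
    have h1 : |(inner ℝ (b i) l : ℝ)| ≤ ‖b i‖ * R :=
      (abs_real_inner_le_norm (b i) l).trans (mul_le_mul_of_nonneg_left hR (norm_nonneg _))
    rw [← hfl l hl i] at h1
    have h2 := (abs_le.1 h1).1
    have h3 := (abs_le.1 h1).2
    have h4 : ‖b i‖ * R ≤ ((⌈‖b i‖ * R⌉ : ℤ) : ℝ) := Int.le_ceil _
    constructor
    · have : ((-⌈‖b i‖ * R⌉ : ℤ) : ℝ) ≤ ((⌊(inner ℝ (b i) l : ℝ)⌋ : ℤ) : ℝ) := by
        push_cast
        linarith
      exact_mod_cast this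
    · have : ((⌊(inner ℝ (b i) l : ℝ)⌋ : ℤ) : ℝ) ≤ ((⌈‖b i‖ * R⌉ : ℤ) : ℝ) := h3.trans h4
      exact_mod_cast this
  · intro l hl l' hl' h
    apply InnerProductSpace.ext_inner_left_basis b
    intro i
    have h1 := congrFun h i
    simp only at h1
    rw [← hfl l hl.1 i, ← hfl l' hl'.1 i, h1]

/-- PROOF: `x = l + a`, `a ∈ E`; the integers `⟨b i, l⟩` are bounded, and `l` is determined by them
(`b` is a basis, `InnerProductSpace.ext_inner_left_basis`). -/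
theorem disc {n : ℕ} (b : Module.Basis (Fin n) ℝ X) (L : AddSubgroup X)
    (hL : ∀ l ∈ L, ∀ i, ∃ m : ℤ, inner ℝ (b i) l = (m : ℝ)) (E : Finset X) (R : ℝ) :
    {x | x ∈ DD L E ∧ ‖x‖ ≤ R}.Finite := by
  have h : (⋃ a ∈ (E : Set X), (fun l => l + a) '' {l | l ∈ L ∧ ‖l‖ ≤ R + ‖a‖}).Finite :=
    E.finite_toSet.biUnion fun a _ => (disc_L b L hL (R + ‖a‖)).image _
  refine h.subset ?_
  rintro x ⟨⟨l, hl, a, ha, rfl⟩, hR⟩
  refine Set.mem_biUnion (Finset.mem_coe.2 ha) ⟨l, ⟨hl, ?_⟩, rfl⟩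
  have h1 : ‖l‖ ≤ ‖l + a‖ + ‖a‖ := by
    have := norm_sub_le (l + a) a
    rwa [add_sub_cancel_right] at this
  linarith

open Classical in
/-- Base points of the cosets of `L ∩ W` in `D ∩ (a + W)`.  PROOF: for every `a' ∈ E` such that
`L + a'` meets `a + W` choose one point `p` in the intersection. -/
theorem base_points (L : AddSubgroup X) (E : Finset X) (W : Submodule ℝ X) (a : X) :
    ∃ S : Finset X, (∀ p ∈ S, p - a ∈ W) ∧
      ∀ x ∈ DD L E, x - a ∈ W → ∃ p ∈ S, x - p ∈ L ∧ x - p ∈ W := by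
  let p : X → X := fun a' => if h : ∃ l ∈ L, l + a' - a ∈ W then h.choose + a' else 0
  refine ⟨(E.filter fun a' => ∃ l ∈ L, l + a' - a ∈ W).image p, ?_, ?_⟩
  · intro q hq
    obtain ⟨a', ha', rfl⟩ := Finset.mem_image.1 hq
    have h := (Finset.mem_filter.1 ha').2
    have hp : p a' = h.choose + a' := dif_pos h
    rw [hp]
    exact h.choose_spec.2
  · rintro x ⟨l, hl, a', ha', rfl⟩ hx
    have h : ∃ l ∈ L, l + a' - a ∈ W := ⟨l, hl, hx⟩
    have hp : p a' = h.choose + a' := dif_pos h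
    refine ⟨p a', Finset.mem_image_of_mem _ (Finset.mem_filter.2 ⟨ha', h⟩), ?_, ?_⟩
    · rw [hp, add_sub_add_right_eq_sub]
      exact L.sub_mem hl h.choose_spec.1
    · have h1 := W.sub_mem hx h.choose_spec.2
      rw [hp]
      have h2 : l + a' - a - (h.choose + a' - a) = l + a' - (h.choose + a') := by abel
      rwa [h2] at h1

end Pool.Agent.ST53
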