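import Pool.Agent.Lib.MP_53fa4a_an_ST.BLim
import Pool.Agent.Lib.MP_53fa4a_an_ST.BDisc

/-!
# Finite determinacy (B6 (ii))
-/

set_option autoImplicit false

open Filter
open scoped BigOperators Topology

noncomputable section

namespace Pool.Agent.ST53

variable {X : Type*} [NormedAddCommGroup X] [InnerProductSpace ℝ X] [FiniteDimensional ℝ X]

omit [FiniteDimensional ℝ X] in
private theorem bfin_supp {W : Submodule ℝ X} {a : X} {h : X → ℂ} {V : List X}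
    (hV : ∀ v ∈ V, v ∈ W) (hs : ∀ x, h x ≠ 0 → x - a ∈ W) :
    ∀ x, Pl V h x ≠ 0 → x - a ∈ W := by
  induction V with
  | nil => exact hs
  | cons v V ih =>
    intro x hx
    have ih' := ih (fun v hv => hV v (List.mem_cons_of_mem _ hv))
    rw [Pl, dif] at hx
    by_cases h1 : Pl V h x = 0
    · have h2 : Pl V h (x + v) ≠ 0 := by
        intro h2
        apply hx
        rw [h1, h2, sub_zero]
      have h3 := ih' _ h2
      have h4 := hV v List.mem_cons_self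
      have h5 : x - a = (x + v - a) - v := by abel
      rw [h5]
      exact W.sub_mem h3 h4
    · exact ih' x h1

private theorem bfin_min {𝒟 : Dat X} {z : X → ℂ} (hz : ∀ x, z x ≠ 0 → x ∈ DD 𝒟.L 𝒟.E)
    (h0 : z ≠ 0) : ∃ x, z x ≠ 0 ∧ ∀ y, z y ≠ 0 → ‖x‖ ≤ ‖y‖ := by
  obtain ⟨x0, hx0⟩ : ∃ x, z x ≠ 0 := by
    by_contra hc
    push Not at hc
    exact h0 (funext hc)
  have hfin : {x | z x ≠ 0 ∧ ‖x‖ ≤ ‖x0‖}.Finite :=
    (disc 𝒟.b 𝒟.L 𝒟.hL 𝒟.E ‖x0‖).subset fun x hx => ⟨hz x hx.1, hx.2⟩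
  obtain ⟨x, hx, hmin⟩ := Set.exists_min_image _ (fun x => ‖x‖) hfin ⟨x0, hx0, le_rfl⟩
  refine ⟨x, hx.1, fun y hy => ?_⟩
  by_cases h1 : ‖y‖ ≤ ‖x0‖
  · exact hmin y ⟨hy, h1⟩
  · exact hx.2.trans (le_of_not_ge h1)

omit [FiniteDimensional ℝ X] in
private theorem bfin_geom {U : Filter ℕ} {w : ℕ → X} {u x p : X}
    (h1 : Tendsto (fun j => ‖w j‖) U atTop)
    (h2 : Tendsto (fun j => (‖w j‖)⁻¹ • w j) U (𝓝 u)) (hlt : inner ℝ u x < inner ℝ u p) :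
    ∀ᶠ j in U, ‖x + w j‖ < ‖p + w j‖ := by
  obtain ⟨δ, hδ⟩ : ∃ δ : ℝ, δ = (inner ℝ u p - inner ℝ u x) / 2 := ⟨_, rfl⟩
  have hδ0 : 0 < δ := by
    rw [hδ]
    linarith
  have h3 : Tendsto (fun j => inner ℝ ((‖w j‖)⁻¹ • w j) (x - p)) U
      (𝓝 (inner ℝ u (x - p))) := h2.inner tendsto_const_nhds
  have h4 : ∀ᶠ j in U, inner ℝ ((‖w j‖)⁻¹ • w j) (x - p) < -δ := by
    apply h3.eventually_lt_const
    rw [inner_sub_right]
    linarith
  have h5 : ∀ᶠ j in U, max 1 (‖x‖ ^ 2 / (2 * δ)) < ‖w j‖ := h1.eventually_gt_atTop _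
  filter_upwards [h4, h5] with j hj4 hj5
  have hw0 : 0 < ‖w j‖ := by
    have := le_max_left 1 (‖x‖ ^ 2 / (2 * δ))
    linarith
  have hwx : ‖x‖ ^ 2 / (2 * δ) < ‖w j‖ := lt_of_le_of_lt (le_max_right _ _) hj5
  have hwx' : ‖x‖ ^ 2 < ‖w j‖ * (2 * δ) := by
    rwa [div_lt_iff₀ (by linarith)] at hwx
  have hin : inner ℝ (w j) (x - p) < -δ * ‖w j‖ := by
    rw [real_inner_smul_left, inv_mul_lt_iff₀ hw0] at hj4
    linarith
  have e1 : ‖x + w j‖ ^ 2 = ‖x‖ ^ 2 + 2 * inner ℝ x (w j) + ‖w j‖ ^ 2 :=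
    norm_add_sq_real x (w j)
  have e2 : ‖p + w j‖ ^ 2 = ‖p‖ ^ 2 + 2 * inner ℝ p (w j) + ‖w j‖ ^ 2 :=
    norm_add_sq_real p (w j)
  have e3 : inner ℝ (w j) (x - p) = inner ℝ x (w j) - inner ℝ p (w j) := by
    rw [inner_sub_right, real_inner_comm x, real_inner_comm p]
  have h6 : ‖x + w j‖ ^ 2 < ‖p + w j‖ ^ 2 := by
    have h7 := sq_nonneg ‖p‖
    rw [e1, e2]
    rw [e3] at hin
    linarith
  exact lt_of_pow_lt_pow_left₀ 2 (norm_nonneg _) h6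

/-- PROOF.  Otherwise for every `j : ℕ` there is `h j` with `z j = Pl V (h j) ≠ 0` but `z j = 0` on
the ball of radius `j`.  `z j` is supported in `D ∩ (a + W)` (`Cls.Pl`), a locally finite set
(`disc`), so there is `x j` with `z j (x j) ≠ 0` and `‖x j‖` minimal; `‖x j‖ > j`.
`base_points`: `x j = p j + w j`, `p j ∈ S`, `w j ∈ L ∩ W`.  Let `U` be a nonprincipal ultrafilter
(`Filter.hyperfilter ℕ`); `p j = p` for `U`-almost all `j` (`S` is finite).  `f j = sh (w j) (h j)`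
is in `Cls`, and `exists_lim` gives `g`; `OnC W g` (`lim_OnC`).  `Pl V (f j) = sh (w j) (z j)`
(`Pl_sh`), so `Pl V g p ≠ 0` (`lim_Pl`).  `‖w j‖ → ∞`, `u j = w j / ‖w j‖` is in the compact unit
sphere of `W`, so it converges along `U` to some `u ∈ W`, `‖u‖ = 1`
(`IsCompact.ultrafilter_le_nhds`, finite dimension).  CLAIM: `Pl V g x ≠ 0` implies
`⟨u,p⟩ ≤ ⟨u,x⟩`.  If `⟨u, x - p⟩ < 0`:
`‖x + w j‖² - ‖p + w j‖² = ‖x‖² - ‖p‖² + 2 ‖w j‖ ⟨x - p, u j⟩ → -∞`, so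
`‖x + w j‖ < ‖x j‖` and `z j (x + w j) = 0` for `U`-almost all `j`, so `Pl V g x = 0`.
By `H` (with `c = ⟨u,p⟩`) `Pl V g = 0`, contradiction. -/
theorem fin_det {𝒟 : Dat X} {W : Submodule ℝ X} {ρ : ℝ} {A : Finset ℂ} {V : List X}
    (hV : ∀ v ∈ V, v ∈ 𝒟.L ∧ v ∈ W)
    (H : ∀ h, Cls 𝒟 ρ A h → OnC W h → ∀ u ∈ W, ‖u‖ = 1 → ∀ c : ℝ,
      (∀ x, Pl V h x ≠ 0 → c ≤ inner ℝ u x) → Pl V h = 0) (a : X) :
    ∃ R : ℝ, ∀ h, Cls 𝒟 ρ A h → (∀ x, h x ≠ 0 → x - a ∈ W) → (∀ x, ‖x‖ ≤ R → Pl V h x = 0) →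
      Pl V h = 0 := by
  by_contra hcon
  push Not at hcon
  have hj : ∀ j : ℕ, ∃ (h : X → ℂ) (x : X), Cls 𝒟 ρ A h ∧ (∀ x, h x ≠ 0 → x - a ∈ W) ∧
      (∀ y, ‖y‖ < ‖x‖ → Pl V h y = 0) ∧ Pl V h x ≠ 0 ∧ (j : ℝ) < ‖x‖ := by
    intro j
    obtain ⟨h, h1, h2, h3, h4⟩ := hcon j
    obtain ⟨x, hx, hmin⟩ := bfin_min (h1.Pl fun v hv => (hV v hv).1).supp h4
    refine ⟨h, x, h1, h2, fun y hy => ?_, hx, ?_⟩
    · by_contra hy0
      exact absurd (hmin y hy0) (not_le.2 hy)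
    · by_contra hx0
      exact hx (h3 x (not_lt.1 hx0))
  choose h x h1 h2 h3 h4 h5 using hj
  obtain ⟨S, -, hSx⟩ := base_points 𝒟.L 𝒟.E W a
  have hp : ∀ j, ∃ p ∈ S, x j - p ∈ 𝒟.L ∧ x j - p ∈ W := fun j =>
    hSx (x j) (((h1 j).Pl fun v hv => (hV v hv).1).supp _ (h4 j))
      (bfin_supp (fun v hv => (hV v hv).2) (h2 j) _ (h4 j))
  choose p hpS hpL hpW using hp
  obtain ⟨U, hU⟩ : ∃ U : Ultrafilter ℕ, (U : Filter ℕ) ≤ atTop :=
    ⟨Filter.hyperfilter ℕ, Nat.hyperfilter_le_atTop⟩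
  obtain ⟨q, -, hq⟩ : ∃ q ∈ (S : Set X), ∀ᶠ j in (U : Filter ℕ), p j = q := by
    refine (Ultrafilter.eventually_exists_mem_iff S.finite_toSet).1 ?_
    exact Eventually.of_forall fun j => ⟨p j, hpS j, rfl⟩
  obtain ⟨w, hw⟩ : ∃ w : ℕ → X, ∀ j, w j = x j - p j := ⟨_, fun _ => rfl⟩
  have hwL : ∀ j, w j ∈ 𝒟.L := fun j => by
    rw [hw]
    exact hpL j
  have hwW : ∀ j, w j ∈ W := fun j => by
    rw [hw]
    exact hpW j
  have hqw : ∀ᶠ j in (U : Filter ℕ), q + w j = x j := by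
    filter_upwards [hq] with j hj
    rw [hw, hj]
    abel
  obtain ⟨g, hg, hlim⟩ := exists_lim U (fun j => sh (w j) (h j)) fun j => (h1 j).sh (hwL j)
  have hgW : OnC W g := by
    refine lim_OnC hlim fun j => OnC.sh (fun y y' hy hy' => ?_) _
    have h6 : y - y' = (y - a) - (y' - a) := by abel
    rw [h6]
    exact W.sub_mem (h2 j y hy) (h2 j y' hy')
  have hPl : ∀ y, ∀ᶠ j in (U : Filter ℕ), Pl V (h j) (y + w j) = Pl V g y := by
    intro y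
    filter_upwards [lim_Pl hlim V y] with j hj
    rw [← hj, Pl_sh]
    rfl
  have hgq : Pl V g q ≠ 0 := by
    obtain ⟨j, hj1, hj2⟩ := ((hPl q).and hqw).exists
    rw [← hj1, hj2]
    exact h4 j
  have hwn : Tendsto (fun j => ‖w j‖) (U : Filter ℕ) atTop := by
    have h6 : Tendsto (fun j : ℕ => (j : ℝ) + -‖q‖) (U : Filter ℕ) atTop :=
      tendsto_atTop_add_const_right _ _ (tendsto_natCast_atTop_atTop.mono_left hU)
    refine tendsto_atTop_mono' _ ?_ h6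
    filter_upwards [hqw] with j hj
    have h7 := norm_add_le q (w j)
    rw [hj] at h7
    have h8 := h5 j
    linarith
  have hwne : ∀ᶠ j in (U : Filter ℕ), ‖(‖w j‖)⁻¹ • w j‖ = 1 := by
    filter_upwards [hwn.eventually_gt_atTop 0] with j hj
    rw [norm_smul, norm_inv, norm_norm, inv_mul_cancel₀ hj.ne']
  obtain ⟨u, -, hu⟩ : ∃ u ∈ Metric.closedBall (0 : X) 1,
      ((U.map fun j => (‖w j‖)⁻¹ • w j : Ultrafilter X) : Filter X) ≤ 𝓝 u := by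
    refine (isCompact_closedBall (0 : X) 1).ultrafilter_le_nhds _ ?_
    rw [Filter.le_principal_iff]
    show ∀ᶠ j in (U : Filter ℕ), (‖w j‖)⁻¹ • w j ∈ Metric.closedBall (0 : X) 1
    filter_upwards [hwne] with j hj
    rw [mem_closedBall_zero_iff, hj]
  have hu' : Tendsto (fun j => (‖w j‖)⁻¹ • w j) (U : Filter ℕ) (𝓝 u) := hu
  have huW : u ∈ W := by
    have hcl : IsClosed (W : Set X) := W.closed_of_finiteDimensional
    exact hcl.mem_of_tendsto hu' (Eventually.of_forall fun j => W.smul_mem _ (hwW j))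
  have hu1 : ‖u‖ = 1 := by
    have h6 : Tendsto (fun j => ‖(‖w j‖)⁻¹ • w j‖) (U : Filter ℕ) (𝓝 ‖u‖) := hu'.norm
    have h7 : Tendsto (fun j => ‖(‖w j‖)⁻¹ • w j‖) (U : Filter ℕ) (𝓝 1) :=
      (tendsto_congr' hwne).2 tendsto_const_nhds
    exact tendsto_nhds_unique h6 h7
  have hclaim : ∀ y, Pl V g y ≠ 0 → inner ℝ u q ≤ inner ℝ u y := by
    intro y hy
    by_contra hlt
    have h6 := bfin_geom hwn hu' (not_le.1 hlt)
    obtain ⟨j, hj1, hj2, hj3⟩ := ((hPl y).and (hqw.and h6)).exists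
    rw [hj2] at hj3
    exact hy (by rw [← hj1]; exact h3 j _ hj3)
  have hfin := H g hg hgW u huW hu1 _ hclaim
  exact hgq (by rw [hfin]; rfl)

end Pool.Agent.ST53
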