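import Mathlib

/-!
# A uniqueness theorem for holomorphic functions in the half plane
-/

set_option autoImplicit false

open scoped BigOperators Topology

noncomputable section

namespace Pool.Agent.ST53

private theorem hz_point {G : ℂ → ℂ} (hc : ContinuousOn G {z | 0 ≤ z.im})
    (hd : DifferentiableOn ℂ G {z | 0 < z.im}) {δ : ℝ}
    (h0 : ∀ s : ℝ, |s| < δ → G (s : ℂ) = 0) (w : ℂ) (hw : 0 < w.im)
    (hwδ : |w.re| + w.im < δ) : G w = 0 := by
  set η : ℝ := w.im with hη
  have hU : IsOpen {u : ℂ | |u.re| < η ∧ |u.im| < η} :=
    (isOpen_lt (continuous_abs.comp Complex.continuous_re) continuous_const).inter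
      (isOpen_lt (continuous_abs.comp Complex.continuous_im) continuous_const)
  set U : Set ℂ := {u : ℂ | |u.re| < η ∧ |u.im| < η} with hUdef
  have hcl : closure U ⊆ {u : ℂ | |u.re| ≤ η ∧ |u.im| ≤ η} := by
    apply closure_minimal
    · intro u hu
      exact ⟨hu.1.le, hu.2.le⟩
    · exact (isClosed_le (continuous_abs.comp Complex.continuous_re) continuous_const).inter
        (isClosed_le (continuous_abs.comp Complex.continuous_im) continuous_const)
  have hb : Bornology.IsBounded U := by
    refine (Metric.isBounded_iff_subset_closedBall (0 : ℂ)).2 ⟨η + η, ?_⟩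
    intro u hu
    rw [mem_closedBall_zero_iff]
    exact (Complex.norm_le_abs_re_add_abs_im u).trans (add_le_add hu.1.le hu.2.le)
  -- the real points of a rotated copy
  have hre : ∀ v : ℂ, |v.re| ≤ η → v.im = -η → G (w + v) = 0 := by
    intro v h1 h2
    have h3 : w + v = ((w.re + v.re : ℝ) : ℂ) := by
      apply Complex.ext
      · simp
      · simp [h2, hη]
    rw [h3]
    apply h0
    calc |w.re + v.re| ≤ |w.re| + |v.re| := abs_add_le _ _
      _ ≤ |w.re| + η := by linarith
      _ < δ := hwδ
  -- one factor
  have hfac : ∀ k : ℂ, (∀ u : ℂ, |u.re| ≤ η → |u.im| ≤ η → -η ≤ (k * u).im) →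
      (∀ u : ℂ, |u.re| < η → |u.im| < η → -η < (k * u).im) →
      DiffContOnCl ℂ (fun u => G (w + k * u)) U := by
    intro k hk1 hk2
    constructor
    · apply hd.comp
      · exact ((differentiable_const w).add ((differentiable_const k).mul
          differentiable_id)).differentiableOn
      · intro u hu
        have := hk2 u hu.1 hu.2
        simp only [Set.mem_ofPred_eq, Complex.add_im]
        linarith
    · apply hc.comp
      · exact (continuous_const.add (continuous_const.mul continuous_id)).continuousOn
      · intro u hu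
        have h1 := hcl hu
        have := hk1 u h1.1 h1.2
        simp only [Set.mem_ofPred_eq, Complex.add_im]
        linarith
  have f0 := hfac 1
    (fun u _ h => by rw [one_mul]; exact (abs_le.1 h).1)
    (fun u _ h => by rw [one_mul]; exact (abs_lt.1 h).1)
  have f1 := hfac Complex.I
    (fun u h _ => by rw [Complex.I_mul_im]; exact (abs_le.1 h).1)
    (fun u h _ => by rw [Complex.I_mul_im]; exact (abs_lt.1 h).1)
  have f2 := hfac (-1)
    (fun u _ h => by rw [neg_one_mul, Complex.neg_im]; exact neg_le_neg (abs_le.1 h).2)
    (fun u _ h => by rw [neg_one_mul, Complex.neg_im]; exact neg_lt_neg (abs_lt.1 h).2)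
  have f3 := hfac (-Complex.I)
    (fun u h _ => by
      rw [neg_mul, Complex.neg_im, Complex.I_mul_im]; exact neg_le_neg (abs_le.1 h).2)
    (fun u h _ => by
      rw [neg_mul, Complex.neg_im, Complex.I_mul_im]; exact neg_lt_neg (abs_lt.1 h).2)
  have hH : DiffContOnCl ℂ (fun u => G (w + 1 * u) * G (w + Complex.I * u) *
      (G (w + (-1) * u) * G (w + (-Complex.I) * u))) U := by
    constructor
    · exact (f0.1.mul f1.1).mul (f2.1.mul f3.1)
    · exact (f0.2.mul f1.2).mul (f2.2.mul f3.2)
  have hfr : ∀ u ∈ frontier U, ‖(fun u => G (w + 1 * u) * G (w + Complex.I * u) *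
      (G (w + (-1) * u) * G (w + (-Complex.I) * u))) u‖ ≤ 0 := by
    intro u hu
    rw [hU.frontier_eq] at hu
    obtain ⟨hu1, hu2⟩ := hu
    obtain ⟨hr, hi⟩ := hcl hu1
    have hcase : |u.re| = η ∨ |u.im| = η := by
      by_contra hcon
      rw [not_or] at hcon
      exact hu2 ⟨lt_of_le_of_ne hr hcon.1, lt_of_le_of_ne hi hcon.2⟩
    have hz : G (w + 1 * u) * G (w + Complex.I * u) *
      (G (w + (-1) * u) * G (w + (-Complex.I) * u)) = 0 := by
      rcases hcase with h | h
      · rcases (abs_eq hw.le).1 h with h' | h'
        · have : G (w + (-Complex.I) * u) = 0 := by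
            apply hre
            · simpa using hi
            · simp [h']
          rw [this]; simp
        · have : G (w + Complex.I * u) = 0 := by
            apply hre
            · simpa using hi
            · simp [h']
          rw [this]; simp
      · rcases (abs_eq hw.le).1 h with h' | h'
        · have : G (w + (-1) * u) = 0 := by
            apply hre
            · simpa using hr
            · simp [h']
          rw [this]; simp
        · have : G (w + 1 * u) = 0 := by
            apply hre
            · simpa using hr
            · simp [h']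
          rw [this]; simp
    simp only [hz, norm_zero, le_refl]
  have h0U : (0 : ℂ) ∈ closure U := by
    apply subset_closure
    simp [hUdef, hw]
  have hfin := Complex.norm_le_of_forall_mem_frontier_norm_le hb hH hfr h0U
  simp only [mul_zero, add_zero, norm_le_zero_iff, mul_eq_zero, or_self] at hfin
  exact hfin

/-- A function which is continuous in the closed upper half plane, holomorphic inside and `0` on an
interval of the real line, is `0`.
PROOF.  Let `w₀ = x₀ + i η`, `0 < η`, `|x₀| + η < δ`.  On the closed square `K` with centre `w₀` and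
side `2η` the function `H(z) = ∏_{k<4} G (w₀ + i^k (z - w₀))` is continuous, holomorphic in the
interior, and `0` on the boundary (one of the four rotated points is on the side in the real
interval, where `G = 0`); by the maximum principle
(`Complex.norm_le_of_forall_mem_frontier_norm_le` or `Complex.eqOn_closure_of_eqOn_frontier`)
`H(w₀) = G(w₀)^4 = 0`.  So `G = 0` on a nonempty open set, by the identity theorem
(`AnalyticOnNhd.eqOn_zero_of_preconnected_of_eventuallyEq_zero`) `G = 0` on the open half plane, and
by continuity on the closed one. -/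
theorem hol_zero {G : ℂ → ℂ} (hc : ContinuousOn G {z | 0 ≤ z.im})
    (hd : DifferentiableOn ℂ G {z | 0 < z.im}) {δ : ℝ} (hδ : 0 < δ)
    (h0 : ∀ s : ℝ, |s| < δ → G (s : ℂ) = 0) : ∀ z : ℂ, 0 ≤ z.im → G z = 0 := by
  have hO : IsOpen {z : ℂ | 0 < z.im} := isOpen_lt continuous_const Complex.continuous_im
  have hT : IsOpen {z : ℂ | 0 < z.im ∧ |z.re| + z.im < δ} :=
    hO.inter (isOpen_lt ((continuous_abs.comp Complex.continuous_re).add Complex.continuous_im)
      continuous_const)
  have hz1 : ((δ / 2 : ℝ) : ℂ) * Complex.I ∈ {z : ℂ | 0 < z.im ∧ |z.re| + z.im < δ} := by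
    constructor
    · simp [hδ]
    · simp only [Complex.mul_re, Complex.mul_im, Complex.ofReal_re, Complex.ofReal_im,
        Complex.I_re, Complex.I_im]
      norm_num
      linarith
  have hev : G =ᶠ[𝓝 (((δ / 2 : ℝ) : ℂ) * Complex.I)] 0 := by
    filter_upwards [hT.mem_nhds hz1] with z hz
    exact hz_point hc hd h0 z hz.1 hz.2
  have hA : AnalyticOnNhd ℂ G {z : ℂ | 0 < z.im} := hd.analyticOnNhd hO
  have hpre : IsPreconnected {z : ℂ | 0 < z.im} := (convex_halfSpace_im_gt 0).isPreconnected
  have hE : Set.EqOn G 0 {z : ℂ | 0 < z.im} :=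
    hA.eqOn_zero_of_preconnected_of_eventuallyEq_zero hpre hz1.1 hev
  have hE2 : Set.EqOn G 0 {z : ℂ | 0 ≤ z.im} := by
    apply hE.of_subset_closure hc continuousOn_const
    · intro z hz
      have hz' : 0 < z.im := hz
      exact hz'.le
    · rw [Complex.closure_setOfPred_lt_im]
  intro z hz
  exact hE2 hz

end Pool.Agent.ST53
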