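import Pool.Agent.Lib.MP_53fa4a_an_ST.BDefs
import Pool.Agent.Lib.MP_53fa4a_an_ST.BHol

/-!
# Absolutely convergent exponential sums with frequencies in a half line
-/

set_option autoImplicit false

open scoped BigOperators Topology

noncomputable section

namespace Pool.Agent.ST53

private theorem hs_bound {X : Type*} {a : X → ℂ} {h : X → ℝ} (hh : ∀ x, a x ≠ 0 → 0 ≤ h x)
    (x : X) (z : ℂ) (hz : 0 ≤ z.im) :
    ‖a x * Complex.exp (2 * Real.pi * Complex.I * (z * (h x : ℂ)))‖ ≤ ‖a x‖ := by
  rw [norm_mul]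
  by_cases hx : a x = 0
  · simp [hx]
  · have h1 : ‖Complex.exp (2 * Real.pi * Complex.I * (z * (h x : ℂ)))‖ ≤ 1 := by
      rw [Complex.norm_exp]
      have h2 : (2 * Real.pi * Complex.I * (z * (h x : ℂ))).re = -(2 * Real.pi * (z.im * h x)) := by
        have h3 : (2 * Real.pi * Complex.I * (z * (h x : ℂ))) =
            ((2 * Real.pi * h x : ℝ) : ℂ) * (Complex.I * z) := by
          push_cast
          ring
        rw [h3, Complex.re_ofReal_mul, Complex.I_mul_re]
        ring
      rw [h2, Real.exp_le_one_iff]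
      have h4 : 0 ≤ z.im * h x := mul_nonneg hz (hh x hx)
      have h5 : 0 ≤ 2 * Real.pi * (z.im * h x) := by positivity
      linarith
    calc ‖a x‖ * ‖Complex.exp (2 * Real.pi * Complex.I * (z * (h x : ℂ)))‖ ≤ ‖a x‖ * 1 :=
          mul_le_mul_of_nonneg_left h1 (norm_nonneg _)
      _ = ‖a x‖ := mul_one _

/-- PROOF: `hol_zero` for `G z = ∑' x, a x * exp (2 π i z h x)`: for `0 ≤ Im z` and `a x ≠ 0` the
exponential has absolute value `exp (-2 π (Im z) (h x)) ≤ 1`.  Continuity: `continuousOn_tsum`;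
holomorphic: `differentiableOn_tsum_of_summable_norm` on the open half plane. -/
theorem half_sum {X : Type*} {a : X → ℂ} {h : X → ℝ} (ha : Summable fun x => ‖a x‖)
    (hh : ∀ x, a x ≠ 0 → 0 ≤ h x) {δ : ℝ} (hδ : 0 < δ)
    (h0 : ∀ s : ℝ, |s| < δ → ∑' x, a x * e (s * h x) = 0) :
    ∀ s : ℝ, ∑' x, a x * e (s * h x) = 0 := by
  have hreal : ∀ s : ℝ, ∑' x, a x * Complex.exp (2 * Real.pi * Complex.I * ((s : ℂ) * (h x : ℂ))) =
      ∑' x, a x * e (s * h x) := by
    intro s
    refine tsum_congr fun x => ?_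
    unfold e
    push_cast
    rfl
  have hdiff : ∀ x : X, Differentiable ℂ
      fun z : ℂ => a x * Complex.exp (2 * Real.pi * Complex.I * (z * (h x : ℂ))) := by
    intro x
    fun_prop
  have hc : ContinuousOn (fun z : ℂ => ∑' x, a x *
      Complex.exp (2 * Real.pi * Complex.I * (z * (h x : ℂ)))) {z | 0 ≤ z.im} :=
    continuousOn_tsum (fun x => (hdiff x).continuous.continuousOn) ha
      (fun x z hz => hs_bound hh x z hz)
  have hd : DifferentiableOn ℂ (fun z : ℂ => ∑' x, a x *
      Complex.exp (2 * Real.pi * Complex.I * (z * (h x : ℂ)))) {z | 0 < z.im} := by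
    refine Complex.differentiableOn_tsum_of_summable_norm ha (fun x => (hdiff x).differentiableOn)
      (isOpen_lt continuous_const Complex.continuous_im) (fun x z hz => ?_)
    have hz' : 0 < z.im := hz
    exact hs_bound hh x z hz'.le
  intro s
  rw [← hreal s]
  exact hol_zero hc hd hδ (fun t ht => (hreal t).trans (h0 t ht)) (s : ℂ)
    (by rw [Complex.ofReal_im])

end Pool.Agent.ST53
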