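import Pool.Agent.Lib.MP_53fa4a_an_ST.BCls
import Pool.Agent.Lib.MP_53fa4a_an_ST.BHalfA
import Pool.Agent.Lib.MP_53fa4a_an_ST.BCoef

/-!
# Layers of a function supported in a half space (B1)
-/

set_option autoImplicit false

open scoped BigOperators Topology

noncomputable section

namespace Pool.Agent.ST53

variable {X : Type*} [NormedAddCommGroup X] [InnerProductSpace ℝ X]

/-- PROOF.  Let `φ ∈ T r`, `r < ρ`, `a x = f x φ x` (`Cls.summable`), `h x = ⟨u,x⟩ - c`.  For
`|s| < δ = ρ - r`: `e (s h x) φ x = e (-s c) e ⟨s u, x⟩ φ x` and `e ⟨s u, ·⟩ φ ∈ T (r + |s|)` by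
`T2` (`‖s u‖ = |s|`), `r + |s| < ρ`, so the sum is `0`.  `half_sum`, `coef_zero` (for `γ - c`).
-/
theorem Cls.half {𝒟 : Dat X} {ρ : ℝ} {A : Finset ℂ} {f : X → ℂ} (hf : Cls 𝒟 ρ A f) {u : X}
    (hu : ‖u‖ = 1) {c : ℝ} (hc : ∀ x, f x ≠ 0 → c ≤ inner ℝ u x) (γ : ℝ) :
    Cls 𝒟 ρ A (fun x => if inner ℝ u x = γ then f x else 0) := by
  refine ⟨fun x hx => ?_, fun x => ?_, fun r hr φ hφ => ?_⟩
  · refine hf.supp x fun h => hx ?_
    simp [h]
  · by_cases h : inner ℝ u x = γ
    · simpa [h] using hf.val x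
    · left
      simp [h]
  · have ha : Summable fun x => ‖f x * φ x‖ := Cls.summable hf.supp hf.val hφ
    have hh : ∀ x, f x * φ x ≠ 0 → 0 ≤ inner ℝ u x - c := fun x hx =>
      sub_nonneg.2 (hc x (left_ne_zero_of_mul hx))
    have h0 : ∀ s : ℝ, |s| < ρ - r →
        ∑' x, f x * φ x * e (s * (inner ℝ u x - c)) = 0 := by
      intro s hs
      have h1 : ∀ x, f x * φ x * e (s * (inner ℝ u x - c)) =
          e (-(s * c)) * (f x * (e (inner ℝ (s • u) x) * φ x)) := by
        intro x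
        have h2 : s * (inner ℝ u x - c) = -(s * c) + inner ℝ (s • u) x := by
          rw [real_inner_smul_left]
          ring
        rw [h2, e_add]
        ring
      rw [tsum_congr h1, tsum_mul_left]
      have h3 : r + ‖s • u‖ < ρ := by
        rw [norm_smul, hu, mul_one, Real.norm_eq_abs]
        linarith
      rw [hf.gap _ h3 _ (𝒟.T2 r φ hφ (s • u)), mul_zero]
    have h4 := coef_zero ha (half_sum ha hh (sub_pos.2 hr) h0) (γ - c)
    refine (tsum_congr fun x => ?_).trans h4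
    by_cases h : inner ℝ u x = γ
    · simp [h]
    · simp [h]

end Pool.Agent.ST53
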