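import Pool.Agent.Lib.MP_53fa4a_an_ST.BCls

/-!
# Limits along an ultrafilter
-/

set_option autoImplicit false

open Filter
open scoped BigOperators Topology

noncomputable section

namespace Pool.Agent.ST53

variable {X : Type*} [NormedAddCommGroup X] [InnerProductSpace ℝ X]

/-- PROOF.  For every `x` the values `f n x` are in the finite set `A ∪ {0}`, so exactly one value
`g x` is taken for `U`-almost all `n` (`Ultrafilter.eventually_exists_mem_iff` or
`Ultrafilter.finite_biUnion_mem_iff`).  Support and values are clear; gap: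
`tendsto_tsum_of_dominated_convergence` along the filter `U` (bound
`C * indicator D ‖φ‖`, `T1`). -/
theorem exists_lim {𝒟 : Dat X} {ρ : ℝ} {A : Finset ℂ} (U : Ultrafilter ℕ) (f : ℕ → X → ℂ)
    (hf : ∀ n, Cls 𝒟 ρ A (f n)) :
    ∃ g : X → ℂ, Cls 𝒟 ρ A g ∧ ∀ x, ∀ᶠ n in (U : Filter ℕ), f n x = g x := by
  classical
  have hmem : ∀ n x, f n x ∈ insert 0 A := fun n x => by
    rcases (hf n).val x with h | h
    · rw [h]; exact Finset.mem_insert_self _ _
    · exact Finset.mem_insert_of_mem h
  have hex : ∀ x, ∃ c : ℂ, ∀ᶠ n in (U : Filter ℕ), f n x = c := by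
    intro x
    have h1 : ∀ᶠ n in (U : Filter ℕ), ∃ c ∈ ((insert 0 A : Finset ℂ) : Set ℂ), f n x = c :=
      Eventually.of_forall fun n => ⟨f n x, by exact_mod_cast hmem n x, rfl⟩
    rw [Ultrafilter.eventually_exists_mem_iff (Finset.finite_toSet _)] at h1
    obtain ⟨c, _, hc⟩ := h1
    exact ⟨c, hc⟩
  choose g hg using hex
  refine ⟨g, ⟨?_, ?_, ?_⟩, hg⟩
  · intro x hx
    obtain ⟨n, hn⟩ := (hg x).exists
    exact (hf n).supp x (by rw [hn]; exact hx)
  · intro x
    obtain ⟨n, hn⟩ := (hg x).exists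
    rw [← hn]
    exact (hf n).val x
  · intro r hr φ hφ
    set C : ℝ := ∑ a ∈ A, ‖a‖ with hC
    have hC0 : 0 ≤ C := Finset.sum_nonneg fun a _ => norm_nonneg a
    have hle : ∀ n x, ‖f n x‖ ≤ C := by
      intro n x
      rcases (hf n).val x with h | h
      · rw [h, norm_zero]; exact hC0
      · exact Finset.single_le_sum (f := fun a : ℂ => ‖a‖) (fun a _ => norm_nonneg a) h
    have hsum : Summable fun x => C * (DD 𝒟.L 𝒟.E).indicator (fun x => ‖φ x‖) x :=
      (𝒟.T1 r φ hφ).mul_left C
    have hlim : Tendsto (fun n => ∑' x, f n x * φ x) (U : Filter ℕ) (𝓝 (∑' x, g x * φ x)) := by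
      refine tendsto_tsum_of_dominated_convergence hsum ?_ ?_
      · intro x
        refine Tendsto.congr' ?_ tendsto_const_nhds
        filter_upwards [hg x] with n hn
        rw [hn]
      · refine Eventually.of_forall fun n x => ?_
        by_cases hx : f n x = 0
        · rw [hx, zero_mul, norm_zero]
          exact mul_nonneg hC0 (Set.indicator_nonneg (fun _ _ => norm_nonneg _) _)
        · rw [Set.indicator_of_mem ((hf n).supp x hx), norm_mul]
          exact mul_le_mul_of_nonneg_right (hle n x) (norm_nonneg _)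
    have hz : (fun n => ∑' x, f n x * φ x) = fun _ => 0 := by
      funext n
      exact (hf n).gap r hr φ hφ
    rw [hz] at hlim
    exact (tendsto_nhds_unique hlim tendsto_const_nhds)

/-- PROOF: `Pl_formula`. -/
theorem lim_Pl {U : Ultrafilter ℕ} {f : ℕ → X → ℂ} {g : X → ℂ}
    (h : ∀ x, ∀ᶠ n in (U : Filter ℕ), f n x = g x) (V : List X) (x : X) :
    ∀ᶠ n in (U : Filter ℕ), Pl V (f n) x = Pl V g x := by
  induction V generalizing x with
  | nil => exact h x
  | cons v V ih =>
    filter_upwards [ih x, ih (x + v)] with n h1 h2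
    simp only [Pl, dif]
    rw [h1, h2]

theorem lim_OnC {U : Ultrafilter ℕ} {f : ℕ → X → ℂ} {g : X → ℂ}
    (h : ∀ x, ∀ᶠ n in (U : Filter ℕ), f n x = g x) {W : Submodule ℝ X} (hf : ∀ n, OnC W (f n)) :
    OnC W g := by
  intro x y hx hy
  obtain ⟨n, h1, h2⟩ := ((h x).and (h y)).exists
  exact hf n x y (by rw [h1]; exact hx) (by rw [h2]; exact hy)

end Pool.Agent.ST53
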