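import Pool.Agent.Lib.MP_53fa4a_an_ST.BPigA

/-!
# Short dual vectors, or finitely many subspaces (B3)
-/

set_option autoImplicit false

open scoped BigOperators Topology

noncomputable section

namespace Pool.Agent.ST53

variable {X : Type} [NormedAddCommGroup X] [InnerProductSpace ℝ X] [FiniteDimensional ℝ X]

/-- **B3.**  PROOF.  `n = finrank X`; for every `j < n` take `N₀` from `pigeon_ball` for `j`,
`R = ∑ ‖b i‖`, `c`; `N` = the maximum; `S` = the set of the `∑ (n i) • b i` with `|n i| ≤ N`.  Let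
`W` be a subspace of dimension `j < n`, `K = span (S ∩ Wᗮ) ≤ Wᗮ`.  If `K ≠ Wᗮ` then
`finrank K < n - j`.  The images of the `b i` in `X ⧸ K` span, so a subset `I` of the indices gives
a basis of `X ⧸ K` (`exists_linearIndependent`), `card I = n - finrank K > j`.
`p m = proj_W (∑_{i∈I} m i • b i)` (`W.orthogonalProjection` or `W.starProjection`), norm
`≤ N R`.  `pigeon_ball`: `z = ∑_{i∈I} (m i - m' i) • b i` has `‖proj_W z‖ ≤ c`, `z ∉ K` (nonzero
coefficients, independence in the quotient), `z ∈ S`.  If `proj_W z = 0` then `z ∈ Wᗮ ∩ S ⊆ K`,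
contradiction.  `w = proj_W z`. -/
theorem pigeon {n : ℕ} (b : Module.Basis (Fin n) ℝ X) {c : ℝ} (hc : 0 < c) :
    ∃ S : Finset X, ∀ W : Submodule ℝ X, Module.finrank ℝ W < Module.finrank ℝ X →
      Wᗮ = Submodule.span ℝ ((S : Set X) ∩ Wᗮ) ∨
      ∃ z ∈ Submodule.span ℤ (Set.range b), ∃ w ∈ W, w ≠ 0 ∧ ‖w‖ ≤ c ∧
        ∀ y ∈ W, inner ℝ z y = inner ℝ w y := by
  classical
  set R : ℝ := ∑ i, ‖b i‖ with hR
  choose N₀ hN₀ using fun j : ℕ => pigeon_ball j R c hc
  set N : ℕ := (Finset.range (Module.finrank ℝ X)).sup N₀ with hN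
  refine ⟨(Fintype.piFinset fun _ : Fin n => Finset.Icc (-(N : ℤ)) N).image
    (fun m => ∑ i, (m i : ℝ) • b i), ?_⟩
  intro W hW
  set S : Finset X := (Fintype.piFinset fun _ : Fin n => Finset.Icc (-(N : ℤ)) N).image
    (fun m => ∑ i, (m i : ℝ) • b i) with hS
  by_cases hK : Wᗮ = Submodule.span ℝ ((S : Set X) ∩ Wᗮ)
  · exact Or.inl hK
  right
  set K : Submodule ℝ X := Submodule.span ℝ ((S : Set X) ∩ Wᗮ) with hKdef
  have hKle : K ≤ Wᗮ := Submodule.span_le.2 Set.inter_subset_right
  have hKlt : K < Wᗮ := lt_of_le_of_ne hKle (Ne.symm hK)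
  have hfin : Module.finrank ℝ K < Module.finrank ℝ Wᗮ := Submodule.finrank_lt_finrank_of_lt hKlt
  have hsum : Module.finrank ℝ W + Module.finrank ℝ Wᗮ = Module.finrank ℝ X :=
    Submodule.finrank_add_finrank_orthogonal W
  have hquot : Module.finrank ℝ (X ⧸ K) + Module.finrank ℝ K = Module.finrank ℝ X :=
    Submodule.finrank_quotient_add_finrank K
  obtain ⟨κ, a, ha, hspan, hli⟩ := exists_linearIndependent' ℝ (fun i => K.mkQ (b i))
  have : Fintype κ := Fintype.ofInjective a ha
  have htop : Submodule.span ℝ (Set.range fun i => K.mkQ (b i)) = ⊤ := by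
    have h1 : (Set.range fun i => K.mkQ (b i)) = K.mkQ '' Set.range b := by
      rw [← Set.range_comp]
      rfl
    rw [h1, ← Submodule.map_span, b.span_eq, Submodule.map_top, Submodule.range_mkQ]
  have hcard : Fintype.card κ = Module.finrank ℝ (X ⧸ K) := by
    have B := Module.Basis.mk hli (by rw [hspan, htop])
    exact (Module.finrank_eq_card_basis B).symm
  have hcard' : Module.finrank ℝ W < Fintype.card κ := by omega
  -- the map
  let p : (κ → ℕ) → W := fun m => W.orthogonalProjectionOnto (∑ k, (m k : ℝ) • b (a k))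
  have hNj : N₀ (Module.finrank ℝ W) ≤ N :=
    Finset.le_sup (f := N₀) (Finset.mem_range.2 hW)
  have hRk : ∑ k, ‖b (a k)‖ ≤ R := by
    have h1 : ∑ k, ‖b (a k)‖ = ∑ i ∈ Finset.univ.map ⟨a, ha⟩, ‖b i‖ := by
      rw [Finset.sum_map]
      rfl
    rw [h1, hR]
    exact Finset.sum_le_sum_of_subset_of_nonneg (Finset.subset_univ _)
      (fun i _ _ => norm_nonneg _)
  have hpn : ∀ m : κ → ℕ, (∀ i, m i ≤ N) → ‖p m‖ ≤ N * R := by
    intro m hm
    calc ‖p m‖ ≤ ‖∑ k, (m k : ℝ) • b (a k)‖ := W.norm_orthogonalProjectionOnto_apply_le _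
      _ ≤ ∑ k, ‖(m k : ℝ) • b (a k)‖ := norm_sum_le _ _
      _ ≤ ∑ k, (N : ℝ) * ‖b (a k)‖ := by
        refine Finset.sum_le_sum fun k _ => ?_
        rw [norm_smul, Real.norm_of_nonneg (Nat.cast_nonneg _)]
        exact mul_le_mul_of_nonneg_right (by exact_mod_cast hm k) (norm_nonneg _)
      _ = N * ∑ k, ‖b (a k)‖ := by rw [Finset.mul_sum]
      _ ≤ N * R := mul_le_mul_of_nonneg_left hRk (Nat.cast_nonneg _)
  obtain ⟨m, m', hne, hm, hm', hd⟩ :=
    hN₀ (Module.finrank ℝ W) N hNj κ W p hcard' le_rfl hpn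
  set z : X := ∑ k, (((m k : ℤ) - (m' k : ℤ) : ℤ) : ℝ) • b (a k) with hz
  have hzd : z = ∑ k, (m k : ℝ) • b (a k) - ∑ k, (m' k : ℝ) • b (a k) := by
    rw [hz, ← Finset.sum_sub_distrib]
    refine Finset.sum_congr rfl fun k _ => ?_
    push_cast
    rw [sub_smul]
  have hpz : W.orthogonalProjectionOnto z = p m - p m' := by
    rw [hzd, map_sub]
  have hzspan : z ∈ Submodule.span ℤ (Set.range b) := by
    rw [hz]
    refine Submodule.sum_mem _ fun k _ => ?_
    rw [Int.cast_smul_eq_zsmul]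
    exact Submodule.smul_mem _ _ (Submodule.subset_span ⟨a k, rfl⟩)
  refine ⟨z, hzspan, (W.orthogonalProjectionOnto z : X), Submodule.coe_mem _, ?_, ?_, ?_⟩
  · intro h0
    have h0' : W.orthogonalProjectionOnto z = 0 := by
      exact Subtype.ext h0
    have hzW : z ∈ Wᗮ := by
      rwa [Submodule.orthogonalProjectionOnto_eq_zero_iff] at h0'
    have hzS : z ∈ S := by
      rw [hS, Finset.mem_image]
      refine ⟨Function.extend a (fun k => (m k : ℤ) - (m' k : ℤ)) 0, ?_, ?_⟩
      · rw [Fintype.mem_piFinset]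
        intro i
        rw [Finset.mem_Icc]
        by_cases hi : ∃ k, a k = i
        · obtain ⟨k, rfl⟩ := hi
          rw [ha.extend_apply]
          have h1 := hm k
          have h2 := hm' k
          omega
        · rw [Function.extend_apply' _ _ _ hi]
          simp
      · have h1 : ∀ i, i ∉ Finset.univ.map ⟨a, ha⟩ →
            ((Function.extend a (fun k => (m k : ℤ) - (m' k : ℤ)) 0 i : ℤ) : ℝ) • b i = 0 := by
          intro i hi
          have hi' : ¬ ∃ k, a k = i := by
            rintro ⟨k, rfl⟩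
            exact hi (by simp)
          rw [Function.extend_apply' _ _ _ hi']
          simp
        rw [← Finset.sum_subset (Finset.subset_univ (Finset.univ.map ⟨a, ha⟩))
          (fun i _ hi => h1 i hi), Finset.sum_map, hz]
        refine Finset.sum_congr rfl fun k _ => ?_
        simp only [Function.Embedding.coeFn_mk]
        rw [ha.extend_apply]
    have hzK : z ∈ K := Submodule.subset_span ⟨hzS, hzW⟩
    have hq : ∑ k, (((m k : ℤ) - (m' k : ℤ) : ℤ) : ℝ) • K.mkQ (b (a k)) = 0 := by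
      have h1 : K.mkQ z = 0 := by
        rw [Submodule.mkQ_apply, Submodule.Quotient.mk_eq_zero]
        exact hzK
      rw [hz, map_sum] at h1
      rw [← h1]
      exact Finset.sum_congr rfl fun k _ => (map_smul _ _ _).symm
    have hall := Fintype.linearIndependent_iff.1 hli _ hq
    apply hne
    funext k
    have h1 := hall k
    have h2 : ((m k : ℤ) - (m' k : ℤ) : ℤ) = 0 := by exact_mod_cast h1
    omega
  · rw [hpz]
    exact hd
  · intro y hy
    have h1 := Submodule.sub_starProjection_mem_orthogonal (K := W) z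
    have h2 := h1 y hy
    rw [real_inner_comm, inner_sub_left, sub_eq_zero] at h2
    rw [h2]
    rfl

end Pool.Agent.ST53
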