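import Pool.Agent.Lib.MP_53fa4a_an_ST.BSlice
import Pool.Agent.Lib.MP_53fa4a_an_ST.BPig
import Pool.Agent.Lib.MP_53fa4a_an_ST.BBdd

/-!
# Functions supported in cosets of subspaces of small dimension (B6, Low)
-/

set_option autoImplicit false

open scoped BigOperators Topology

noncomputable section

namespace Pool.Agent.ST53

variable {X : Type} [NormedAddCommGroup X] [InnerProductSpace ℝ X] [FiniteDimensional ℝ X]

/-- PROOF: the empty list.  If `f x ≠ 0` then `f` is `0` off `x` (`OnC ⊥`), `T4` gives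
`φ ∈ T (ρ/2)`, `φ x ≠ 0`, and `∑' y, f y φ y = f x φ x ≠ 0`, contradiction. -/
theorem tv_bot (𝒟 : Dat X) : TV 𝒟 ⊥ := by
  classical
  intro ρ hρ
  refine ⟨[], fun v hv => absurd hv List.not_mem_nil, fun A => ⟨1, one_pos, fun f hf hO => ?_⟩⟩
  show f = 0
  by_contra hne
  obtain ⟨x, hx⟩ := Function.ne_iff.1 hne
  have hx' : f x ≠ 0 := hx
  obtain ⟨φ, hφ, hφx⟩ := 𝒟.T4 (ρ / 2) (half_pos hρ) x (hf.supp x hx')
  have h1 := hf.gap (ρ / 2) (half_lt_self hρ) φ hφ
  rw [tsum_eq_single x] at h1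
  · exact (mul_ne_zero hx' hφx) h1
  · intro y hy
    by_cases hfy : f y = 0
    · rw [hfy, zero_mul]
    · exact absurd (sub_eq_zero.1 ((Submodule.mem_bot ℝ).1 (hO y x hfy hx'))) hy

/-- PROOF: a subspace of dimension `0` is `⊥`; `tv_bot` (its list is empty: its elements are in `⊥`
and nonzero). -/
theorem low_zero (𝒟 : Dat X) (W : Submodule ℝ X) : Low 𝒟 W 0 := by
  intro ρ hρ
  obtain ⟨V, hV, h⟩ := tv_bot 𝒟 ρ hρ
  have hVn : V = [] := by
    cases V with
    | nil => rfl
    | cons v V =>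
      obtain ⟨_, h2, h3⟩ := hV v List.mem_cons_self
      exact absurd ((Submodule.mem_bot ℝ).1 h2) h3
  subst hVn
  refine ⟨[], fun v hv => absurd hv List.not_mem_nil, fun A => ?_⟩
  obtain ⟨t, ht, h2⟩ := h A
  refine ⟨t, ht, fun f hf W' _ hW' hO => h2 f hf ?_⟩
  have h0 : W' = ⊥ := Submodule.finrank_eq_zero.1 (Nat.le_zero.1 hW')
  rw [← h0]
  exact hO

private theorem low_kill {f : X → ℂ} {s t : ℕ} (hd : s ∣ t) {V' V : List X}
    (hs : V'.Sublist V) (h : Pl (tl s V') f = 0) : Pl (tl t V) f = 0 := by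
  obtain ⟨k, rfl⟩ := hd
  obtain ⟨R, hR⟩ := hs.exists_perm_append
  have h1 : Pl (tl (k * s) V') f = 0 := Pl_dvd k s V' h
  have h2 : (tl (s * k) V).Perm (tl (s * k) V' ++ tl (s * k) R) := by
    unfold tl
    rw [← List.map_append]
    exact hR.map _
  rw [Pl_perm h2, Pl_append, Pl_comm, mul_comm s k, h1, Pl_zero]

private theorem low_sublist {α β : Type*} {g : α → List β} {l : List α} {a : α} (h : a ∈ l) :
    (g a).Sublist (l.flatMap g) := by
  induction l with
  | nil => exact absurd h List.not_mem_nil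
  | cons b l ih =>
    rw [List.flatMap_cons]
    rcases List.mem_cons.1 h with rfl | h
    · exact List.sublist_append_left _ _
    · exact (ih h).trans (List.sublist_append_right _ _)

private theorem low_int (𝒟 : Dat X) {z : X} (hz : z ∈ Submodule.span ℤ (Set.range 𝒟.b)) :
    ∀ l ∈ 𝒟.L, ∃ m : ℤ, inner ℝ z l = (m : ℝ) := by
  intro l hl
  induction hz using Submodule.span_induction with
  | mem x hx =>
    obtain ⟨i, rfl⟩ := hx
    exact 𝒟.hL l hl i
  | zero => exact ⟨0, by simp⟩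
  | add x y _ _ hx hy =>
    obtain ⟨m, hm⟩ := hx
    obtain ⟨m', hm'⟩ := hy
    exact ⟨m + m', by rw [inner_add_left, hm, hm']; push_cast; rfl⟩
  | smul a x _ hx =>
    obtain ⟨m, hm⟩ := hx
    refine ⟨a * m, ?_⟩
    rw [← Int.cast_smul_eq_zsmul ℝ, real_inner_smul_left, hm]
    push_cast
    rfl

/-- PROOF.  Let `c = ρ / (2 (E.card + 1))`, `S` from `pigeon 𝒟.b`.  For every subset `S'` of `S` put
`W(S') = (span S')ᗮ`; if `W(S') ≤ W` and `finrank W(S') = j+1` take the list `V(S')` of `TV` for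
`ρ`, otherwise the empty list.  `V` = the list of `Low 𝒟 W j` for `ρ/2` followed by all the `V(S')`
(`Finset.powerset S`, `List.flatMap` over `toList`).  Given `A`, `t` = the product of the `t` of
`Low` and of all the `t(S')`.  Let `f`, `W'` be given.  If `finrank W' ≤ j`: `Low` (`Cls.mono`),
`Pl_dvd`, `Pl_append`, `Pl_comm`.  Let `finrank W' = j+1 < finrank W ≤ finrank X`.  First case of
`pigeon`: `W' = (W'ᗮ)ᗮ = W(S')` with `S' = S ∩ W'ᗮ` (`Submodule.orthogonal_orthogonal`), use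
`V(S')`.  Second case: `z, w`; `⟨z,l⟩ ∈ ℤ` for `l ∈ L` (`hL`, span induction).  All slices
`f_γ` are in `Cls (ρ/2) A` (`Cls.slice`) and `OnC (W' ⊓ (ℝ ∙ w)ᗮ)`: `⟨w, x-y⟩ = ⟨z, x-y⟩ = 0`;
the dimension is `≤ j` because `w ∈ W'` is not orthogonal to itself
(`Submodule.finrank_lt_finrank_of_lt`).  So the operator of `Low` kills all `f_γ`, and
`Pl_classes`. -/
theorem low_step {𝒟 : Dat X} {W : Submodule ℝ X} {j : ℕ} (hj : j + 1 < Module.finrank ℝ W)
    (hT : ∀ W' ≤ W, Module.finrank ℝ W' = j + 1 → TV 𝒟 W') (hL : Low 𝒟 W j) :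
    Low 𝒟 W (j + 1) := by
  classical
  intro ρ hρ
  have hcard : (0 : ℝ) < 𝒟.E.card + 1 := by positivity
  obtain ⟨S, hS⟩ := pigeon 𝒟.b (c := ρ / (2 * (𝒟.E.card + 1))) (by positivity)
  obtain ⟨V0, hV0, hV0'⟩ := hL (ρ / 2) (half_pos hρ)
  have hex : ∀ S' : Finset X, ∃ V : List X, (∀ v ∈ V, v ∈ 𝒟.L ∧ v ∈ W ∧ v ≠ 0) ∧
      ∀ A : Finset ℂ, ∃ t : ℕ, 0 < t ∧ ∀ f, Cls 𝒟 ρ A f →
        (Submodule.span ℝ (S' : Set X))ᗮ ≤ W →
        Module.finrank ℝ (Submodule.span ℝ (S' : Set X))ᗮ = j + 1 →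
        OnC (Submodule.span ℝ (S' : Set X))ᗮ f → Pl (tl t V) f = 0 := by
    intro S'
    by_cases h : (Submodule.span ℝ (S' : Set X))ᗮ ≤ W ∧
        Module.finrank ℝ (Submodule.span ℝ (S' : Set X))ᗮ = j + 1
    · obtain ⟨V, hV, h2⟩ := hT _ h.1 h.2 ρ hρ
      refine ⟨V, fun v hv => ⟨(hV v hv).1, h.1 (hV v hv).2.1, (hV v hv).2.2⟩, fun A => ?_⟩
      obtain ⟨t, ht, h3⟩ := h2 A
      exact ⟨t, ht, fun f hf _ _ hO => h3 f hf hO⟩
    · refine ⟨[], fun v hv => absurd hv List.not_mem_nil, fun A => ⟨1, one_pos, ?_⟩⟩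
      intro f _ h1 h2
      exact absurd ⟨h1, h2⟩ h
  choose VS hVS1 hVS2 using hex
  choose tS htS1 htS2 using hVS2
  choose t0 ht01 ht02 using hV0'
  refine ⟨V0 ++ S.powerset.toList.flatMap VS, ?_, fun A => ?_⟩
  · intro v hv
    rcases List.mem_append.1 hv with hv | hv
    · exact hV0 v hv
    · obtain ⟨S', _, h⟩ := List.mem_flatMap.1 hv
      exact hVS1 S' v h
  refine ⟨t0 A * ∏ S' ∈ S.powerset, tS S' A,
    Nat.mul_pos (ht01 A) (Finset.prod_pos fun S' _ => htS1 S' A), ?_⟩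
  intro f hf W' hW' hfin hO
  have hkill0 : Pl (tl (t0 A) V0) f = 0 →
      Pl (tl (t0 A * ∏ S' ∈ S.powerset, tS S' A) (V0 ++ S.powerset.toList.flatMap VS)) f = 0 :=
    fun h => low_kill (Dvd.intro _ rfl) (List.sublist_append_left _ _) h
  rcases Nat.lt_or_ge j (Module.finrank ℝ W') with hlt | hle
  · have hW'f : Module.finrank ℝ W' = j + 1 := le_antisymm hfin hlt
    have hlX : Module.finrank ℝ W' < Module.finrank ℝ X :=
      hW'f ▸ hj.trans_le (Submodule.finrank_le W)
    rcases hS W' hlX with h1 | ⟨z, hz, w, hw, hw0, hwc, hzw⟩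
    · set S' : Finset X := S.filter fun x => x ∈ W'ᗮ with hS'
      have hcoe : (S' : Set X) = (S : Set X) ∩ W'ᗮ := by
        ext x
        simp [hS']
      have hWS : W' = (Submodule.span ℝ (S' : Set X))ᗮ := by
        rw [hcoe, ← h1, Submodule.orthogonal_orthogonal]
      have hmem : S' ∈ S.powerset := Finset.mem_powerset.2 (Finset.filter_subset _ _)
      have h2 : Pl (tl (tS S' A) (VS S')) f = 0 := by
        refine htS2 S' A f hf ?_ ?_ ?_
        · rw [← hWS]; exact hW'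
        · rw [← hWS]; exact hW'f
        · rw [← hWS]; exact hO
      refine low_kill ((Finset.dvd_prod_of_mem (fun S' => tS S' A) hmem).trans
        (Dvd.intro_left _ rfl)) ?_ h2
      exact (low_sublist (Finset.mem_toList.2 hmem)).trans (List.sublist_append_right _ _)
    · refine hkill0 (Pl_classes (tl (t0 A) V0) (fun x => inner ℝ z x) fun γ => ?_)
      have hc : (𝒟.E.card + 1) * ‖w‖ ≤ ρ / 2 := by
        have h3 : (𝒟.E.card + 1) * ‖w‖ ≤ (𝒟.E.card + 1) * (ρ / (2 * (𝒟.E.card + 1))) :=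
          mul_le_mul_of_nonneg_left hwc hcard.le
        refine h3.trans (le_of_eq ?_)
        field_simp
      have h4 := hf.slice hO (low_int 𝒟 hz) hzw hc γ
      refine ht02 A _ h4 (W' ⊓ (Submodule.span ℝ {w})ᗮ) (inf_le_left.trans hW') ?_ ?_
      · have h5 : Module.finrank ℝ ((W' ⊓ (Submodule.span ℝ {w})ᗮ : Submodule ℝ X)) <
            Module.finrank ℝ W' := by
          apply Submodule.finrank_lt_finrank_of_lt
          refine lt_of_le_of_ne inf_le_left fun h => hw0 ?_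
          have h6 : w ∈ W' ⊓ (Submodule.span ℝ {w})ᗮ := by rw [h]; exact hw
          have h7 := (Submodule.mem_orthogonal_singleton_iff_inner_right.1 h6.2)
          exact inner_self_eq_zero.1 h7
        omega
      · intro x y hx hy
        have hx1 : inner ℝ z x = γ ∧ f x ≠ 0 := by
          by_cases h : inner ℝ z x = γ
          · simp only [h, if_true] at hx
            exact ⟨h, hx⟩
          · simp [h] at hx
        have hy1 : inner ℝ z y = γ ∧ f y ≠ 0 := by
          by_cases h : inner ℝ z y = γ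
          · simp only [h, if_true] at hy
            exact ⟨h, hy⟩
          · simp [h] at hy
        have h8 := hO x y hx1.2 hy1.2
        refine ⟨h8, Submodule.mem_orthogonal_singleton_iff_inner_right.2 ?_⟩
        rw [← hzw _ h8, inner_sub_right, hx1.1, hy1.1, sub_self]
  · exact hkill0 (ht02 A f (hf.mono (by linarith) (Finset.Subset.refl A)) W' hW' hle hO)

/-- PROOF: induction with `low_zero`, `low_step`. -/
theorem low_all {𝒟 : Dat X} {W : Submodule ℝ X} (hW : 0 < Module.finrank ℝ W)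
    (hT : ∀ W' ≤ W, Module.finrank ℝ W' < Module.finrank ℝ W → TV 𝒟 W') :
    Low 𝒟 W (Module.finrank ℝ W - 1) := by
  have h : ∀ j, j < Module.finrank ℝ W → Low 𝒟 W j := by
    intro j
    induction j with
    | zero => exact fun _ => low_zero 𝒟 W
    | succ j ih =>
      intro hj
      exact low_step hj (fun W' hW' hf => hT W' hW' (by omega)) (ih (by omega))
  exact h _ (by omega)

end Pool.Agent.ST53
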