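import Pool.Agent.Lib.MP_53fa4a_an_ST.BCls
import Pool.Agent.Lib.MP_53fa4a_an_ST.BDisc

/-!
# Periods (B6 (iii))
-/

set_option autoImplicit false

open Filter
open scoped BigOperators Topology

noncomputable section

namespace Pool.Agent.ST53

variable {X : Type*} [NormedAddCommGroup X] [InnerProductSpace ℝ X] [FiniteDimensional ℝ X]

omit [InnerProductSpace ℝ X] [FiniteDimensional ℝ X] in
private theorem period_mul {F : X → ℂ} {v : X} (h : ∀ x, F (x + v) = F x) (k : ℕ) (x : X) :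
    F (x + k • v) = F x := by
  induction k with
  | zero => simp
  | succ k ih => rw [succ_nsmul, ← add_assoc, h, ih]

omit [FiniteDimensional ℝ X] in
/-- The period of a single function. -/
private theorem period_one {𝒟 : Dat X} {W : Submodule ℝ X} {ρ : ℝ} {A : Finset ℂ} {V : List X}
    (hV : ∀ v ∈ V, v ∈ 𝒟.L ∧ v ∈ W) {a : X} {R : ℝ}
    (hR : ∀ h, Cls 𝒟 ρ (vals 1 A) h → (∀ x, h x ≠ 0 → x - a ∈ W) →
      (∀ x, ‖x‖ ≤ R → Pl V h x = 0) → Pl V h = 0) {v₀ : X} (hL : v₀ ∈ 𝒟.L) (hW : v₀ ∈ W)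
    {K : Finset X} (hK : ∀ x, x ∈ DD 𝒟.L 𝒟.E → ‖x‖ ≤ R → x ∈ K) {M : ℕ}
    (hM : Nat.card (K → vals V.length A) ≤ M)
    {f : X → ℂ} (hf : Cls 𝒟 ρ A f) (hfW : ∀ x, f x ≠ 0 → x - a ∈ W) :
    ∃ d : ℕ, 0 < d ∧ d ≤ M ∧ ∀ x, Pl V f (x + d • v₀) = Pl V f x := by
  classical
  have hc : ∀ i : ℕ, Cls 𝒟 ρ A (sh (i • v₀) f) := fun i => hf.sh (𝒟.L.nsmul_mem hL i)
  have hcP : ∀ i : ℕ, Cls 𝒟 ρ (vals V.length A) (Pl V (sh (i • v₀) f)) :=
    fun i => (hc i).Pl fun v hv => (hV v hv).1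
  set G : ℕ → K → vals V.length A := fun i y =>
    ⟨Pl V (sh (i • v₀) f) y, Pl_vals V (hc i).val y⟩ with hG
  obtain ⟨i, hi, j, hj, hne, hij⟩ := Finset.exists_ne_map_eq_of_card_lt_of_maps_to
    (s := Finset.range (M + 1)) (t := (Finset.univ : Finset (K → vals V.length A)))
    (by
      rw [Nat.card_eq_fintype_card] at hM
      rw [Finset.card_range, Finset.card_univ]
      omega) (f := G)
    (fun i _ => Finset.mem_coe.2 (Finset.mem_univ _))
  rw [Finset.mem_range] at hi hj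
  -- we may assume that `i < j`
  have key : ∀ i j : ℕ, i < j → j < M + 1 → G i = G j →
      ∃ d : ℕ, 0 < d ∧ d ≤ M ∧ ∀ x, Pl V f (x + d • v₀) = Pl V f x := by
    intro i j hlt hjM hGij
    refine ⟨j - i, by omega, by omega, ?_⟩
    have h1 : Pl V (fun x => sh (i • v₀) f x - sh (j • v₀) f x) = 0 := by
      refine hR _ ((hc i).sub (hc j)) ?_ ?_
      · intro x hx
        have hx' : sh (i • v₀) f x ≠ 0 ∨ sh (j • v₀) f x ≠ 0 := by
          by_contra hcon
          push Not at hcon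
          rw [hcon.1, hcon.2, sub_zero] at hx
          exact hx rfl
        have h2 : ∀ m : ℕ, sh (m • v₀) f x ≠ 0 → x - a ∈ W := by
          intro m hm
          have h3 := hfW _ hm
          have h4 := W.sub_mem h3 (W.nsmul_mem hW m)
          have h5 : x + m • v₀ - a - m • v₀ = x - a := by abel
          rwa [h5] at h4
        rcases hx' with h3 | h3
        · exact h2 i h3
        · exact h2 j h3
      · intro x hx
        rw [Pl_sub]
        show Pl V (sh (i • v₀) f) x - Pl V (sh (j • v₀) f) x = 0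
        by_cases hD : x ∈ DD 𝒟.L 𝒟.E
        · have h2 := congrFun hGij ⟨x, hK x hD hx⟩
          have h3 : Pl V (sh (i • v₀) f) x = Pl V (sh (j • v₀) f) x := congrArg Subtype.val h2
          rw [h3, sub_self]
        · have h2 : ∀ m : ℕ, Pl V (sh (m • v₀) f) x = 0 := by
            intro m
            by_contra hm
            exact hD ((hcP m).supp x hm)
          rw [h2, h2, sub_self]
    rw [Pl_sub, Pl_sh, Pl_sh] at h1
    intro x
    have h2 := congrFun h1 (x - i • v₀)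
    simp only [sh, Pi.zero_apply] at h2
    rw [sub_eq_zero] at h2
    have h3 : x - i • v₀ + i • v₀ = x := sub_add_cancel _ _
    have h4 : x - i • v₀ + j • v₀ = x + (j - i) • v₀ := by
      have h5 : j • v₀ = i • v₀ + (j - i) • v₀ := by
        rw [← add_nsmul]
        congr 1
        omega
      rw [h5]
      abel
    rw [h3, h4] at h2
    exact h2.symm
  rcases lt_or_gt_of_ne hne with h | h
  · exact key i j h hj hij
  · exact key j i h hi hij.symm

/-- PROOF.  For `a ∈ E` let `R a` be given by `hdet`, `K a = D ∩ closedBall 0 (R a)`, finite by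
`disc`, `M a` = the number of functions from `K a` to `vals V.length A`; `n = ∏_{a ∈ E} (M a)!`.
Let `f ≠ 0` (`f = 0` trivial), `f x₀ ≠ 0`, `x₀ = l + a`, `f' = sh l f`; it is in `Cls` and
`f' x ≠ 0` implies `x - a ∈ W` (`OnC`).  The functions `Pl V (sh (i • v₀) f')`, `0 ≤ i ≤ M a`,
restricted to `K a`, have values in `vals V.length A` (`Pl_vals`), so two of them, `i < j`, agree
on `K a`, and everywhere on the ball (they vanish off `D`, `Cls.Pl`).
`h = sh (i • v₀) f' - sh (j • v₀) f'` is in `Cls ρ (vals 1 A)` with `Pl V h = 0` on the ball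
(`Pl_sub`), so `Pl V h = 0`.  So `Pl V f` has the period `(j - i) • v₀` (`Pl_sh`), and
`j - i ∣ (M a)! ∣ n`. -/
theorem exists_period {𝒟 : Dat X} {W : Submodule ℝ X} {ρ : ℝ} {A : Finset ℂ} {V : List X}
    (hV : ∀ v ∈ V, v ∈ 𝒟.L ∧ v ∈ W)
    (hdet : ∀ a : X, ∃ R : ℝ, ∀ h, Cls 𝒟 ρ (vals 1 A) h → (∀ x, h x ≠ 0 → x - a ∈ W) →
      (∀ x, ‖x‖ ≤ R → Pl V h x = 0) → Pl V h = 0) {v₀ : X} (hL : v₀ ∈ 𝒟.L) (hW : v₀ ∈ W) :
    ∃ n : ℕ, 0 < n ∧ ∀ f, Cls 𝒟 ρ A f → OnC W f → ∀ x, Pl V f (x + n • v₀) = Pl V f x := by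
  classical
  choose R hR using hdet
  have hfin : ∀ a : X, {x | x ∈ DD 𝒟.L 𝒟.E ∧ ‖x‖ ≤ R a}.Finite :=
    fun a => disc 𝒟.b 𝒟.L 𝒟.hL 𝒟.E (R a)
  set K : X → Finset X := fun a => (hfin a).toFinset with hKdef
  set M : X → ℕ := fun a => Nat.card (K a → vals V.length A) with hMdef
  refine ⟨∏ a ∈ 𝒟.E, (M a).factorial, Finset.prod_pos fun a _ => Nat.factorial_pos _, ?_⟩
  intro f hf hfW
  by_cases h0 : ∀ x, f x = 0
  · have h1 : f = 0 := funext h0
    intro x
    rw [h1, Pl_zero]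
    simp
  push Not at h0
  obtain ⟨x₀, hx₀⟩ := h0
  obtain ⟨l, hl, a, ha, hla⟩ := hf.supp x₀ hx₀
  have hf' : Cls 𝒟 ρ A (sh l f) := hf.sh hl
  have hfa : ∀ x, sh l f x ≠ 0 → x - a ∈ W := by
    intro x hx
    have h1 := hfW (x + l) x₀ hx hx₀
    have h2 : x + l - x₀ = x - a := by
      rw [hla]
      abel
    rwa [h2] at h1
  obtain ⟨d, hd0, hdM, hd⟩ := period_one hV (hR a) hL hW (K := K a)
    (fun x hx hxR => (hfin a).mem_toFinset.2 ⟨hx, hxR⟩) (M := M a) le_rfl hf' hfa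
  obtain ⟨k, hk⟩ : d ∣ ∏ a ∈ 𝒟.E, (M a).factorial :=
    (Nat.dvd_factorial hd0 hdM).trans (Finset.dvd_prod_of_mem _ ha)
  intro x
  have h1 : ∀ x, Pl V f (x + d • v₀) = Pl V f x := by
    intro x
    have h2 := hd (x - l)
    rw [Pl_sh] at h2
    simp only [sh] at h2
    have h3 : x - l + d • v₀ + l = x + d • v₀ := by abel
    have h4 : x - l + l = x := sub_add_cancel _ _
    rwa [h3, h4] at h2
  rw [hk, mul_comm, mul_nsmul']
  exact period_mul h1 k x

end Pool.Agent.ST53
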