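import Mathlib

/-!
# A pigeonhole argument in a subspace
-/

set_option autoImplicit false

open scoped BigOperators Topology

noncomputable section

namespace Pool.Agent.ST53

/-- **Pigeonhole.**  For `j`, `R`, `c > 0` there is `N₀` such that for all `N ≥ N₀` the following
holds: if `I` is a finite type with more than `j` elements, `W` an inner product space of dimension
`≤ j`, and `p : (I → ℕ) → W` maps the functions with values `≤ N` into the ball of radius `N R`,
then two different such functions have images at distance `≤ c`.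
PROOF.  With an orthonormal basis of `W` (`stdOrthonormalBasis`) cut the cube `[-NR,NR]^j` into
`⌈2NRj/c⌉ + 1` pieces per coordinate, of side `≤ c/(j+1)`; the number of cells
`(2NR(j+1)/c + 3)^j` is less than `(N+1)^(j+1) ≤ (N+1)^|I|` for large `N`
(`Finset.exists_ne_map_eq_of_card_lt_of_maps_to`, or `Fintype.exists_ne_map_eq_of_card_lt`).
Two vectors in one cell have distance `≤ j * c/(j+1) ≤ c`. -/
theorem pigeon_ball (j : ℕ) (R c : ℝ) (hc : 0 < c) : ∃ N₀ : ℕ, ∀ N ≥ N₀,
    ∀ (I : Type) [Fintype I] (W : Type) [NormedAddCommGroup W] [InnerProductSpace ℝ W]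
      [FiniteDimensional ℝ W] (p : (I → ℕ) → W), j < Fintype.card I → Module.finrank ℝ W ≤ j →
      (∀ m : I → ℕ, (∀ i, m i ≤ N) → ‖p m‖ ≤ N * R) →
      ∃ m m' : I → ℕ, m ≠ m' ∧ (∀ i, m i ≤ N) ∧ (∀ i, m' i ≤ N) ∧ ‖p m - p m'‖ ≤ c := by
  classical
  set δ : ℝ := c / (j + 1) with hδ
  have hj1 : (0 : ℝ) < j + 1 := by positivity
  have hδ0 : 0 < δ := div_pos hc hj1
  set B : ℝ := 2 * |R| / δ + 3 with hB
  have hB0 : 3 ≤ B := by
    have : 0 ≤ 2 * |R| / δ := by positivity
    linarith
  refine ⟨max 1 ⌈B ^ j⌉₊, ?_⟩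
  intro N hN I _ W _ _ _ p hI hW hp
  have hN1 : 1 ≤ N := le_trans (le_max_left _ _) hN
  have hNB : B ^ j ≤ N := by
    have h1 : ⌈B ^ j⌉₊ ≤ N := le_trans (le_max_right _ _) hN
    exact le_trans (Nat.le_ceil _) (by exact_mod_cast h1)
  set b := stdOrthonormalBasis ℝ W with hb
  have hco : ∀ (v : W) (i : Fin (Module.finrank ℝ W)), |b.repr v i| ≤ ‖v‖ := by
    intro v i
    rw [b.repr_apply_apply]
    have := abs_real_inner_le_norm (b i) v
    rwa [b.norm_eq_one i, one_mul] at this
  have hno : ∀ v : W, ‖v‖ ≤ ∑ i, |b.repr v i| := by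
    intro v
    calc ‖v‖ = ‖∑ i, b.repr v i • b i‖ := by rw [b.sum_repr]
      _ ≤ ∑ i, ‖b.repr v i • b i‖ := norm_sum_le _ _
      _ = ∑ i, |b.repr v i| := by
        refine Finset.sum_congr rfl fun i _ => ?_
        rw [norm_smul, b.norm_eq_one i, mul_one, Real.norm_eq_abs]
  set K : ℕ := ⌈N * |R| / δ⌉₊ with hK
  have hKr : (N : ℝ) * |R| / δ ≤ K := Nat.le_ceil _
  have hKu : (K : ℝ) < N * |R| / δ + 1 := Nat.ceil_lt_add_one (by positivity)
  let q : (I → ℕ) → (Fin (Module.finrank ℝ W) → ℤ) := fun m i => ⌊b.repr (p m) i / δ⌋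
  set S : Finset (I → ℕ) := Fintype.piFinset (fun _ : I => Finset.range (N + 1)) with hS
  set T : Finset (Fin (Module.finrank ℝ W) → ℤ) :=
    Fintype.piFinset (fun _ => Finset.Icc (-(K : ℤ)) K) with hT
  have hSm : ∀ m ∈ S, ∀ i, m i ≤ N := by
    intro m hm i
    have := Fintype.mem_piFinset.mp hm i
    rw [Finset.mem_range] at this
    omega
  have hmaps : ∀ m ∈ S, q m ∈ T := by
    intro m hm
    rw [hT, Fintype.mem_piFinset]
    intro i
    have h1 : |b.repr (p m) i| ≤ N * |R| := by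
      refine le_trans (hco _ i) (le_trans (hp m (hSm m hm)) ?_)
      exact mul_le_mul_of_nonneg_left (le_abs_self R) (by positivity)
    have h2 := abs_le.mp h1
    rw [Finset.mem_Icc]
    constructor
    · rw [Int.le_floor]
      push_cast
      have h3 : -(N * |R| / δ) ≤ b.repr (p m) i / δ := by
        rw [← neg_div]
        exact div_le_div_of_nonneg_right h2.1 hδ0.le
      linarith
    · have h3 : b.repr (p m) i / δ ≤ N * |R| / δ := div_le_div_of_nonneg_right h2.2 hδ0.le
      have h4 : ((⌊b.repr (p m) i / δ⌋ : ℤ) : ℝ) ≤ (K : ℤ) := by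
        push_cast
        exact le_trans (Int.floor_le _) (le_trans h3 hKr)
      exact_mod_cast h4
  have hcardT : T.card = (2 * K + 1) ^ (Module.finrank ℝ W) := by
    rw [hT, Fintype.card_piFinset, Finset.prod_const, Int.card_Icc, Finset.card_univ,
      Fintype.card_fin]
    congr 1
    omega
  have hcardS : S.card = (N + 1) ^ (Fintype.card I) := by
    rw [hS, Fintype.card_piFinset, Finset.prod_const, Finset.card_range, Finset.card_univ]
  have hlt : T.card < S.card := by
    rw [hcardT, hcardS]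
    have h1 : (2 * K + 1) ^ (Module.finrank ℝ W) ≤ (2 * K + 1) ^ j :=
      Nat.pow_le_pow_right (by omega) hW
    have h2 : (N + 1) ^ (j + 1) ≤ (N + 1) ^ (Fintype.card I) :=
      Nat.pow_le_pow_right (by omega) hI
    have h3 : (((2 * K + 1) ^ j : ℕ) : ℝ) < (((N + 1) ^ (j + 1) : ℕ) : ℝ) := by
      push_cast
      have hNr : (1 : ℝ) ≤ N := by exact_mod_cast hN1
      have h4 : (2 * (K : ℝ) + 1) ≤ N * B := by
        have h5 : (N : ℝ) * B = 2 * (N * |R| / δ) + 3 * N := by
          rw [hB]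
          ring
        rw [h5]
        nlinarith
      calc (2 * (K : ℝ) + 1) ^ j ≤ (N * B) ^ j := pow_le_pow_left₀ (by positivity) h4 j
        _ = (N : ℝ) ^ j * B ^ j := mul_pow _ _ _
        _ ≤ (N : ℝ) ^ j * N := mul_le_mul_of_nonneg_left hNB (by positivity)
        _ = (N : ℝ) ^ (j + 1) := (pow_succ _ _).symm
        _ < ((N : ℝ) + 1) ^ (j + 1) := pow_lt_pow_left₀ (by linarith) (by positivity) (by omega)
    have h6 : (2 * K + 1) ^ j < (N + 1) ^ (j + 1) := by exact_mod_cast h3
    omega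
  obtain ⟨m, hm, m', hm', hne, he⟩ := Finset.exists_ne_map_eq_of_card_lt_of_maps_to hlt hmaps
  refine ⟨m, m', hne, hSm m hm, hSm m' hm', ?_⟩
  refine le_trans (hno _) ?_
  have hcell : ∀ i, |b.repr (p m - p m') i| ≤ δ := by
    intro i
    have h1 : ⌊b.repr (p m) i / δ⌋ = ⌊b.repr (p m') i / δ⌋ := congrFun he i
    have h2 := Int.abs_sub_lt_one_of_floor_eq_floor h1
    rw [← sub_div, abs_div, abs_of_pos hδ0, div_lt_one hδ0] at h2
    rw [map_sub]
    exact h2.le
  calc ∑ i, |b.repr (p m - p m') i| ≤ ∑ _i : Fin (Module.finrank ℝ W), δ :=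
        Finset.sum_le_sum fun i _ => hcell i
    _ = (Module.finrank ℝ W : ℝ) * δ := by
        rw [Finset.sum_const, Finset.card_univ, Fintype.card_fin, nsmul_eq_mul]
    _ ≤ ((j : ℝ) + 1) * δ := by
        refine mul_le_mul_of_nonneg_right ?_ hδ0.le
        have : (Module.finrank ℝ W : ℝ) ≤ j := by exact_mod_cast hW
        linarith
    _ = c := by
        rw [hδ]
        field_simp

end Pool.Agent.ST53
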