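import Pool.Agent.Lib.MP_53fa4a_an_ST.BDefs

/-!
# The operators `Pl V`
-/

set_option autoImplicit false

open scoped BigOperators Topology

noncomputable section

namespace Pool.Agent.ST53

variable {X : Type*} [AddCommGroup X]

theorem dif_comm (v w : X) (f : X → ℂ) : dif v (dif w f) = dif w (dif v f) := by
  funext x
  simp only [dif]
  rw [add_right_comm x v w]
  ring

private theorem bpl_dif (V : List X) (w : X) (f : X → ℂ) : Pl V (dif w f) = dif w (Pl V f) := by
  induction V with
  | nil => rfl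
  | cons v V ih => rw [Pl, Pl, ih, dif_comm]

theorem Pl_append (V V' : List X) (f : X → ℂ) : Pl (V ++ V') f = Pl V (Pl V' f) := by
  induction V with
  | nil => rfl
  | cons v V ih => rw [List.cons_append, Pl, ih, Pl]

theorem Pl_comm (V V' : List X) (f : X → ℂ) : Pl V (Pl V' f) = Pl V' (Pl V f) := by
  induction V with
  | nil => rfl
  | cons v V ih => rw [Pl, Pl, ih, bpl_dif]

theorem Pl_perm {V V' : List X} (h : V.Perm V') (f : X → ℂ) : Pl V f = Pl V' f := by
  induction h with
  | nil => rfl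
  | cons x _ ih => rw [Pl, Pl, ih]
  | swap x y l => rw [Pl, Pl, Pl, Pl, dif_comm]
  | trans _ _ ih1 ih2 => rw [ih1, ih2]

theorem Pl_zero (V : List X) : Pl V (0 : X → ℂ) = 0 := by
  induction V with
  | nil => rfl
  | cons v V ih =>
    rw [Pl, ih]
    funext x
    simp [dif]

theorem Pl_sub (V : List X) (f g : X → ℂ) :
    Pl V (fun x => f x - g x) = fun x => Pl V f x - Pl V g x := by
  induction V with
  | nil => rfl
  | cons v V ih =>
    rw [Pl, ih]
    funext x
    simp only [dif, Pl]
    ring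

theorem Pl_sh (V : List X) (v : X) (f : X → ℂ) : Pl V (sh v f) = sh v (Pl V f) := by
  induction V with
  | nil => rfl
  | cons w V ih =>
    rw [Pl, ih]
    funext x
    simp only [dif, Pl, sh]
    rw [add_right_comm x w v]

private theorem bpl_finsupp (V : List X) : ∃ c : X →₀ ℂ,
    ∀ (f : X → ℂ) (x : X), Pl V f x = c.sum fun y a => a * f (x + y) := by
  induction V with
  | nil =>
    refine ⟨Finsupp.single 0 1, fun f x => ?_⟩
    rw [Finsupp.sum_single_index (by simp)]
    simp [Pl]
  | cons v V ih =>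
    obtain ⟨c, hc⟩ := ih
    refine ⟨c - c.mapDomain (fun y => v + y), fun f x => ?_⟩
    rw [Finsupp.sum_sub_index (by intro a b₁ b₂; ring), Finsupp.sum_mapDomain_index (by simp)
      (by intro a b₁ b₂; ring)]
    rw [Pl, dif, hc f x, hc f (x + v)]
    simp only [add_assoc]

/-- `Pl V f` is a fixed finite combination of translates of `f`.  PROOF: induction on `V`; work with
lists of pairs `(c, y)` or take `s` the image of all partial sums. -/
theorem Pl_formula (V : List X) : ∃ (s : Finset X) (c : X → ℂ),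
    ∀ (f : X → ℂ) (x : X), Pl V f x = ∑ y ∈ s, c y * f (x + y) := by
  obtain ⟨c, hc⟩ := bpl_finsupp V
  exact ⟨c.support, c, fun f x => by rw [hc f x, Finsupp.sum]⟩

theorem Pl_bdd {f : X → ℂ} {C : ℝ} (V : List X) (h : ∀ x, ‖f x‖ ≤ C) (x : X) :
    ‖Pl V f x‖ ≤ 2 ^ V.length * C := by
  induction V generalizing x with
  | nil => simpa [Pl] using h x
  | cons v V ih =>
    rw [Pl, dif]
    calc ‖Pl V f x - Pl V f (x + v)‖ ≤ ‖Pl V f x‖ + ‖Pl V f (x + v)‖ := norm_sub_le _ _
      _ ≤ 2 ^ V.length * C + 2 ^ V.length * C := add_le_add (ih x) (ih (x + v))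
      _ = 2 ^ (v :: V).length * C := by rw [List.length_cons, pow_succ]; ring

theorem Pl_vals {f : X → ℂ} {A : Finset ℂ} (V : List X) (h : ∀ x, f x = 0 ∨ f x ∈ A) (x : X) :
    Pl V f x ∈ vals V.length A := by
  induction V generalizing x with
  | nil =>
    rw [List.length_nil, vals, Pl]
    exact Finset.mem_insert.2 (h x)
  | cons v V ih =>
    rw [List.length_cons, vals, Pl, dif]
    exact Finset.mem_image.2 ⟨(Pl V f x, Pl V f (x + v)),
      Finset.mem_product.2 ⟨ih x, ih (x + v)⟩, rfl⟩

/-- PROOF: `Pl_formula`: only the finitely many `γ = h (x + y)`, `y ∈ s`, matter, and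
`f (x+y) = ∑_γ (if h (x+y) = γ then f (x+y) else 0)`, sum over these `γ`. -/
theorem Pl_classes {f : X → ℂ} (V : List X) (h : X → ℝ)
    (h0 : ∀ γ : ℝ, Pl V (fun x => if h x = γ then f x else 0) = 0) : Pl V f = 0 := by
  classical
  obtain ⟨s, c, hc⟩ := Pl_formula V
  funext x
  have h1 : ∀ γ : ℝ, ∑ y ∈ s, c y * (if h (x + y) = γ then f (x + y) else 0) = 0 := by
    intro γ
    have h2 := congrFun (h0 γ) x
    rw [hc] at h2
    exact h2
  have h3 : ∑ γ ∈ s.image (fun y => h (x + y)),
      ∑ y ∈ s, c y * (if h (x + y) = γ then f (x + y) else 0) = 0 :=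
    Finset.sum_eq_zero fun γ _ => h1 γ
  rw [Finset.sum_comm] at h3
  rw [hc, Pi.zero_apply, ← h3]
  refine Finset.sum_congr rfl fun y hy => ?_
  rw [← Finset.mul_sum, Finset.sum_ite_eq, if_pos (Finset.mem_image_of_mem _ hy)]

end Pool.Agent.ST53
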