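import Pool.Agent.Lib.MP_53fa4a_an_ST.BDefs

/-!
# Exponential sums with frequencies in finitely many cosets of the integers
-/

set_option autoImplicit false

open scoped BigOperators Topology

noncomputable section

namespace Pool.Agent.ST53

private lemma e_pow' (t : ℝ) (k : ℕ) : e t ^ k = e ((k : ℝ) * t) := by
  induction k with
  | zero => simp
  | succ k ih =>
    rw [pow_succ, ih, ← e_add]
    congr 1
    push_cast
    ring

private lemma e_eq_one {t : ℝ} (h : e t = 1) : ∃ n : ℤ, t = n := by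
  unfold e at h
  rw [Complex.exp_eq_one_iff] at h
  obtain ⟨n, hn⟩ := h
  refine ⟨n, ?_⟩
  have h2 : (2 * Real.pi * Complex.I : ℂ) ≠ 0 := Complex.two_pi_I_ne_zero
  have h3 : (2 * Real.pi * Complex.I : ℂ) * (t : ℂ) = (2 * Real.pi * Complex.I : ℂ) * (n : ℂ) := by
    rw [hn]; ring
  have h4 := mul_left_cancel₀ h2 h3
  exact_mod_cast h4

private lemma e_eq_e {s t : ℝ} (h : e s = e t) : ∃ n : ℤ, s = t + n := by
  have h1 : e (s - t) = 1 := by
    have h2 : e (s - t) * e t = 1 * e t := by
      rw [← e_add, one_mul, sub_add_cancel, h]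
    exact mul_right_cancel₀ (e_ne_zero t) h2
  obtain ⟨n, hn⟩ := e_eq_one h1
  exact ⟨n, by linarith⟩

/-- the average of `e (j / M * u)`, `j < M` -/
private def av (M : ℕ) (u : ℝ) : ℂ := (1 / (M : ℂ)) * ∑ j ∈ Finset.range M, e ((j : ℝ) / M * u)

private lemma av_norm (M : ℕ) (u : ℝ) : ‖av M u‖ ≤ 1 := by
  unfold av
  rcases Nat.eq_zero_or_pos M with h | h
  · subst h; simp
  rw [norm_mul]
  have h1 : ‖∑ j ∈ Finset.range M, e ((j : ℝ) / M * u)‖ ≤ (M : ℝ) := by
    refine (norm_sum_le _ _).trans ?_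
    simp
  have h2 : ‖(1 / (M : ℂ))‖ = 1 / (M : ℝ) := by simp
  rw [h2]
  have h3 : (0 : ℝ) < M := by exact_mod_cast h
  calc 1 / (M : ℝ) * ‖∑ j ∈ Finset.range M, e ((j : ℝ) / M * u)‖ ≤ 1 / (M : ℝ) * M :=
        mul_le_mul_of_nonneg_left h1 (by positivity)
    _ = 1 := by field_simp

private lemma av_zero {M : ℕ} (h : 0 < M) : av M 0 = 1 := by
  unfold av
  have h3 : (M : ℂ) ≠ 0 := by exact_mod_cast h.ne'
  simp [h3]

private lemma av_int {M : ℕ} {m : ℤ} (hm : m ≠ 0) (h : |m| < (M : ℤ)) : av M (m : ℝ) = 0 := by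
  have hM : 0 < M := by
    have := abs_nonneg m
    omega
  have hMr : (M : ℝ) ≠ 0 := by exact_mod_cast hM.ne'
  have h1 : ∀ j ∈ Finset.range M, e ((j : ℝ) / M * (m : ℝ)) = e ((m : ℝ) / M) ^ j := by
    intro j _
    rw [e_pow']
    congr 1
    ring
  unfold av
  rw [Finset.sum_congr rfl h1]
  have hne : e ((m : ℝ) / M) ≠ 1 := by
    intro h2
    obtain ⟨n, hn⟩ := e_eq_one h2
    have h3 : (m : ℝ) = n * M := by
      rw [← hn]; field_simp
    have h4 : m = n * M := by exact_mod_cast h3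
    have hn0 : n ≠ 0 := by
      rintro rfl
      apply hm
      rw [h4]; ring
    have h5 : (1 : ℤ) ≤ |n| := Int.one_le_abs hn0
    rw [h4, abs_mul, Nat.abs_cast] at h
    nlinarith
  rw [geom_sum_eq hne, e_pow']
  have h5 : (M : ℝ) * ((m : ℝ) / M) = m := by field_simp
  rw [h5, e_int]
  simp

private lemma sum_comb {X : Type*} {a : X → ℂ} {h : X → ℝ} (ha : Summable fun x => ‖a x‖)
    (R : ℝ) (h0 : ∀ s : ℝ, 0 ≤ s → s ≤ R → ∑' x, a x * e (s * h x) = 0)
    {ι : Type*} (S : Finset ι) (q : ι → ℂ) (s : ι → ℝ) (hs0 : ∀ i ∈ S, 0 ≤ s i)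
    (hs : ∀ i ∈ S, s i ≤ R) : ∑' x, a x * ∑ i ∈ S, q i * e (s i * h x) = 0 := by
  have hsum : ∀ i ∈ S, Summable fun x => q i * (a x * e (s i * h x)) := by
    intro i _
    apply Summable.mul_left
    apply Summable.of_norm
    simpa [norm_mul] using ha
  have h1 : ∀ x, a x * ∑ i ∈ S, q i * e (s i * h x) =
      ∑ i ∈ S, q i * (a x * e (s i * h x)) := by
    intro x
    rw [Finset.mul_sum]
    exact Finset.sum_congr rfl fun i _ => by ring
  simp_rw [h1]
  rw [Summable.tsum_finsetSum hsum]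
  apply Finset.sum_eq_zero
  intro i hi
  rw [tsum_mul_left, h0 _ (hs0 i hi) (hs i hi), mul_zero]

/-- PROOF.  Let `Ω` be the finite set of the numbers `e β`, `β ∈ B` (at most `B.card`); if
`a x ≠ 0` then `e (h x) ∈ Ω`.  If no `x` with `a x ≠ 0` has `h x = γ`, the claim is trivial.
Otherwise `ω := e γ ∈ Ω`.  The polynomial `p = ∏_{ω' ∈ Ω, ω' ≠ ω} (T - ω')/(ω - ω')` has degree
`≤ B.card - 1`, `p(e (h x)) = 1` if `e (h x) = ω` and `0` for the other `x` with `a x ≠ 0`.
Combining the hypothesis for `s, s+1, …, s + deg p`, `0 ≤ s ≤ 1`: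
`∑' x, a x p(e (h x)) e(s h x) = 0` for `0 ≤ s ≤ 1`.  The `x` which remain have `h x - γ ∈ ℤ`;
multiply by `e (-s γ)` and integrate over `s ∈ [0,1]`: `∫_0^1 e (s (h x - γ)) ds = 1` if `h x = γ`
and `0` otherwise. -/
theorem slice_sum {X : Type*} {a : X → ℂ} {h : X → ℝ} (ha : Summable fun x => ‖a x‖)
    (B : Finset ℝ) (hB : ∀ x, a x ≠ 0 → ∃ β ∈ B, ∃ n : ℤ, h x = β + n)
    (h0 : ∀ s : ℝ, 0 ≤ s → s ≤ B.card + 1 → ∑' x, a x * e (s * h x) = 0) (γ : ℝ) :
    ∑' x, (if h x = γ then a x else 0) = 0 := by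
  classical
  obtain ⟨Om, hOm⟩ : ∃ Om : Finset ℂ, Om = B.image e := ⟨_, rfl⟩
  have hin : ∀ x, a x ≠ 0 → e (h x) ∈ Om := by
    intro x hx
    obtain ⟨β, hβ, n, hn⟩ := hB x hx
    rw [hOm, hn, e_add, e_int, mul_one]
    exact Finset.mem_image_of_mem e hβ
  by_cases hγ : e γ ∈ Om
  swap
  · have hz : ∀ x, (if h x = γ then a x else 0) = 0 := by
      intro x
      split_ifs with hx
      · by_contra hne
        exact hγ (hx ▸ hin x hne)
      · rfl
    simp_rw [hz]
    exact tsum_zero
  have hcard : Om.card ≤ B.card := by rw [hOm]; exact Finset.card_image_le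
  have hpos : 0 < Om.card := Finset.card_pos.2 ⟨_, hγ⟩
  obtain ⟨p, hp⟩ : ∃ p : Polynomial ℂ, p = Lagrange.basis Om id (e γ) := ⟨_, rfl⟩
  have hdeg : p.natDegree + 1 ≤ B.card := by
    have h1 : p.degree = ((Om.card - 1 : ℕ) : WithBot ℕ) := by
      rw [hp]
      exact Lagrange.degree_basis (Set.injOn_id _) hγ
    rw [Polynomial.natDegree_eq_of_degree_eq_some h1]
    omega
  have hpself : p.eval (e γ) = 1 := by
    rw [hp]
    exact Lagrange.eval_basis_self (v := id) (Set.injOn_id _) hγ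
  have hpne : ∀ z ∈ Om, z ≠ e γ → p.eval z = 0 := by
    intro z hz hne
    rw [hp]
    exact Lagrange.eval_basis_of_ne (v := id) hne.symm hz
  -- the averaged sums
  have hG : ∀ M : ℕ, ∑' x, a x * (p.eval (e (h x)) * av M (h x - γ)) = 0 := by
    intro M
    have h1 := sum_comb ha (B.card + 1) h0
      (Finset.range (p.natDegree + 1) ×ˢ Finset.range M)
      (fun i => p.coeff i.1 * ((1 / (M : ℂ)) * e (-((i.2 : ℝ) / M * γ))))
      (fun i => (i.1 : ℝ) + (i.2 : ℝ) / M) (fun i _ => by positivity) (fun i hi => by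
        rw [Finset.mem_product, Finset.mem_range, Finset.mem_range] at hi
        have h2 : (i.1 : ℝ) ≤ B.card := by
          have : i.1 ≤ B.card := by omega
          exact_mod_cast this
        have h3 : (i.2 : ℝ) / M ≤ 1 := by
          have hM : (0 : ℝ) < M := by
            have : 0 < M := by omega
            exact_mod_cast this
          rw [div_le_one hM]
          exact_mod_cast hi.2.le
        exact add_le_add h2 h3)
    rw [← h1]
    refine tsum_congr fun x => ?_
    congr 1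
    rw [Finset.sum_product, Polynomial.eval_eq_sum_range, av, Finset.sum_mul]
    refine Finset.sum_congr rfl fun k _ => ?_
    rw [Finset.mul_sum, Finset.mul_sum]
    refine Finset.sum_congr rfl fun j _ => ?_
    dsimp only
    have h5 : e ((j : ℝ) / M * (h x - γ)) = e (-((j : ℝ) / M * γ)) * e ((j : ℝ) / M * h x) := by
      rw [← e_add]; congr 1; ring
    have h6 : e (((k : ℝ) + (j : ℝ) / M) * h x) = e (h x) ^ k * e ((j : ℝ) / M * h x) := by
      rw [e_pow', ← e_add]; congr 1; ring
    rw [h5, h6]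
    ring
  -- bound of the polynomial values
  have hpn : ∀ x, ‖a x * p.eval (e (h x))‖ ≤ ‖a x‖ := by
    intro x
    by_cases hx : a x = 0
    · simp [hx]
    by_cases hx2 : e (h x) = e γ
    · rw [hx2, hpself, mul_one]
    · rw [hpne _ (hin x hx) hx2, mul_zero, norm_zero]
      exact norm_nonneg _
  have hlim : Filter.Tendsto (fun M : ℕ => ∑' x, a x * (p.eval (e (h x)) * av M (h x - γ)))
      Filter.atTop (𝓝 (∑' x, (if h x = γ then a x else 0))) := by
    refine tendsto_tsum_of_dominated_convergence ha (fun x => ?_)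
      (Filter.Eventually.of_forall fun M x => ?_)
    · by_cases hx : a x = 0
      · simp [hx]
      by_cases hx2 : e (h x) = e γ
      · obtain ⟨m, hm⟩ := e_eq_e hx2
        by_cases hm0 : m = 0
        · have hxg : h x = γ := by rw [hm, hm0]; simp
          apply Filter.Tendsto.congr' _ tendsto_const_nhds
          filter_upwards [Filter.eventually_gt_atTop 0] with M hM
          rw [if_pos hxg, hxg, sub_self, av_zero hM, hpself]
          ring
        · have hxg : h x ≠ γ := by
            intro hc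
            apply hm0
            have : (m : ℝ) = 0 := by linarith
            exact_mod_cast this
          apply Filter.Tendsto.congr' _ tendsto_const_nhds
          filter_upwards [Filter.eventually_gt_atTop m.natAbs] with M hM
          have h7 : h x - γ = (m : ℝ) := by rw [hm]; ring
          have h8 : |m| < (M : ℤ) := by
            rw [Int.abs_eq_natAbs]
            exact_mod_cast hM
          rw [if_neg hxg, h7, av_int hm0 h8]
          ring
      · have hxg : h x ≠ γ := fun hc => hx2 (by rw [hc])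
        rw [if_neg hxg, hpne _ (hin x hx) hx2]
        simp
    · rw [← mul_assoc, norm_mul]
      calc ‖a x * p.eval (e (h x))‖ * ‖av M (h x - γ)‖ ≤ ‖a x‖ * 1 :=
            mul_le_mul (hpn x) (av_norm _ _) (norm_nonneg _) (norm_nonneg _)
        _ = ‖a x‖ := mul_one _
  simp_rw [hG] at hlim
  exact (tendsto_nhds_unique hlim tendsto_const_nhds)

end Pool.Agent.ST53
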