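import Pool.Agent.Lib.MP_53fa4a_an_ST.BCls
import Pool.Agent.Lib.MP_53fa4a_an_ST.BSlSum

/-!
# Slices (B2)
-/

set_option autoImplicit false

open scoped BigOperators Topology

noncomputable section

namespace Pool.Agent.ST53

variable {X : Type*} [NormedAddCommGroup X] [InnerProductSpace ℝ X]

/-- PROOF.  If `f = 0` trivial.  Let `f x₀ ≠ 0`; for `x ∈ supp f`: `x - x₀ ∈ W`, so
`⟨z,x⟩ = ⟨w,x⟩ + c₀`, `c₀ = ⟨z-w,x₀⟩` (`hw`: `⟨z,y⟩ = ⟨w,y⟩` for `y ∈ W`).  Let `φ ∈ T r`,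
`r < ρ/2`, `a x = f x φ x`, `h x = ⟨z,x⟩`, `B` = the image of `E` under `⟨z,·⟩`
(`B.card ≤ E.card`).  For `0 ≤ s ≤ B.card + 1`: `e (s h x) a x = e (s c₀) e ⟨s w, x⟩ φ x f x` on the
support, `e ⟨s w,·⟩ φ ∈ T (r + s ‖w‖)`, and `r + s ‖w‖ < ρ`; so the sum is `0`.  `slice_sum`. -/
theorem Cls.slice {𝒟 : Dat X} {ρ : ℝ} {A : Finset ℂ} {f : X → ℂ} (hf : Cls 𝒟 ρ A f)
    {W : Submodule ℝ X} (hW : OnC W f) {z w : X} (hz : ∀ l ∈ 𝒟.L, ∃ m : ℤ, inner ℝ z l = (m : ℝ))
    (hw : ∀ y ∈ W, inner ℝ z y = inner ℝ w y) (hc : (𝒟.E.card + 1) * ‖w‖ ≤ ρ / 2) (γ : ℝ) :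
    Cls 𝒟 (ρ / 2) A (fun x => if inner ℝ z x = γ then f x else 0) := by
  classical
  refine ⟨?_, ?_, ?_⟩
  · intro x hx
    refine hf.supp x ?_
    intro h0
    apply hx
    show (if inner ℝ z x = γ then f x else 0) = 0
    split_ifs
    · exact h0
    · rfl
  · intro x
    show (if inner ℝ z x = γ then f x else 0) = 0 ∨ (if inner ℝ z x = γ then f x else 0) ∈ A
    split_ifs
    · exact hf.val x
    · exact Or.inl rfl
  · intro r hr φ hφ
    by_cases hf0 : ∀ x, f x = 0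
    · have h1 : ∀ x, (if inner ℝ z x = γ then f x else 0) * φ x = 0 := by
        intro x
        rw [hf0 x]
        simp
      show ∑' x, (if inner ℝ z x = γ then f x else 0) * φ x = 0
      simp_rw [h1]
      exact tsum_zero
    push Not at hf0
    obtain ⟨x₀, hx₀⟩ := hf0
    obtain ⟨c₀, hc₀⟩ : ∃ c₀ : ℝ, c₀ = inner ℝ z x₀ - inner ℝ w x₀ := ⟨_, rfl⟩
    have hlin : ∀ x, f x ≠ 0 → inner ℝ z x = inner ℝ w x + c₀ := by
      intro x hx
      have h1 := hw _ (hW x x₀ hx hx₀)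
      rw [inner_sub_right, inner_sub_right] at h1
      rw [hc₀]
      linarith
    obtain ⟨B, hBdef⟩ : ∃ B : Finset ℝ, B = 𝒟.E.image fun y => inner ℝ z y := ⟨_, rfl⟩
    have hBc : B.card ≤ 𝒟.E.card := by rw [hBdef]; exact Finset.card_image_le
    have hBc' : (B.card : ℝ) ≤ 𝒟.E.card := by exact_mod_cast hBc
    have hs := Cls.summable hf.supp hf.val hφ
    have hB : ∀ x, f x * φ x ≠ 0 → ∃ β ∈ B, ∃ n : ℤ, inner ℝ z x = β + n := by
      intro x hx
      obtain ⟨l, hl, y, hy, hxy⟩ := hf.supp x (left_ne_zero_of_mul hx)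
      obtain ⟨m, hm⟩ := hz l hl
      refine ⟨inner ℝ z y, ?_, m, ?_⟩
      · rw [hBdef]
        exact Finset.mem_image_of_mem _ hy
      · rw [hxy, inner_add_right, hm]
        ring
    have h0 : ∀ s : ℝ, 0 ≤ s → s ≤ B.card + 1 →
        ∑' x, f x * φ x * e (s * inner ℝ z x) = 0 := by
      intro s hs0 hs1
      have h1 : ∀ x, f x * φ x * e (s * inner ℝ z x) =
          e (s * c₀) * (f x * (e (inner ℝ (s • w) x) * φ x)) := by
        intro x
        by_cases hx : f x = 0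
        · rw [hx]; ring
        · have h2 : s * inner ℝ z x = s * c₀ + inner ℝ (s • w) x := by
            rw [hlin x hx, real_inner_smul_left]
            ring
          rw [h2, e_add]
          ring
      simp_rw [h1]
      rw [tsum_mul_left]
      have h3 : r + ‖s • w‖ < ρ := by
        have h4 : ‖s • w‖ = s * ‖w‖ := by
          rw [norm_smul, Real.norm_eq_abs, abs_of_nonneg hs0]
        have h5 : s * ‖w‖ ≤ (𝒟.E.card + 1) * ‖w‖ :=
          mul_le_mul_of_nonneg_right (by linarith) (norm_nonneg _)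
        rw [h4]
        linarith
      have h6 := hf.gap _ h3 _ (𝒟.T2 r φ hφ (s • w))
      rw [h6, mul_zero]
    have h7 := slice_sum hs B hB h0 γ
    show ∑' x, (if inner ℝ z x = γ then f x else 0) * φ x = 0
    refine Eq.trans (tsum_congr fun x => ?_) h7
    split_ifs
    · rfl
    · rw [zero_mul]

end Pool.Agent.ST53
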