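import Pool.Agent.Lib.MP_53fa4a_an_ST.BLow
import Pool.Agent.Lib.MP_53fa4a_an_ST.BHalf
import Pool.Agent.Lib.MP_53fa4a_an_ST.BFin
import Pool.Agent.Lib.MP_53fa4a_an_ST.BPer

/-!
# The structure theorem (Theorem B)
-/

set_option autoImplicit false

open scoped BigOperators Topology

noncomputable section

namespace Pool.Agent.ST53

variable {X : Type} [NormedAddCommGroup X] [InnerProductSpace ℝ X] [FiniteDimensional ℝ X]

omit [FiniteDimensional ℝ X] in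
/-- Layers of a function on a coset of `W` live on cosets of `W ⊓ uᗮ`. -/
private theorem btv_layer {W : Submodule ℝ X} {f : X → ℂ} (hC : OnC W f) (u : X) (γ : ℝ) :
    OnC (W ⊓ (ℝ ∙ u)ᗮ) (fun x => if inner ℝ u x = γ then f x else 0) := by
  intro x y hx hy
  have hx1 : inner ℝ u x = γ := by
    by_contra h
    exact hx (if_neg h)
  have hy1 : inner ℝ u y = γ := by
    by_contra h
    exact hy (if_neg h)
  have hx2 : f x ≠ 0 := fun h => hx (by simp [h])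
  have hy2 : f y ≠ 0 := fun h => hy (by simp [h])
  refine ⟨hC x y hx2 hy2, ?_⟩
  change x - y ∈ (ℝ ∙ u)ᗮ
  rw [Submodule.mem_orthogonal_singleton_iff_inner_right, inner_sub_right, hx1, hy1, sub_self]

private theorem btv_rank {W : Submodule ℝ X} {u : X} (hu : u ∈ W) (hu1 : ‖u‖ = 1) :
    Module.finrank ℝ (W ⊓ (ℝ ∙ u)ᗮ : Submodule ℝ X) ≤ Module.finrank ℝ W - 1 := by
  have hlt : W ⊓ (ℝ ∙ u)ᗮ < W := by
    refine lt_of_le_of_ne inf_le_left fun h => ?_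
    have h1 : u ∈ W ⊓ (ℝ ∙ u)ᗮ := by
      rw [h]
      exact hu
    have h2 : u ∈ (ℝ ∙ u)ᗮ := h1.2
    rw [Submodule.mem_orthogonal_singleton_iff_inner_right, real_inner_self_eq_norm_sq, hu1] at h2
    norm_num at h2
  have h3 := Submodule.finrank_lt_finrank_of_lt hlt
  omega

/-- B6 (i).  PROOF.  `z = Pl (tl t (v₀ :: V')) h` is in `Cls ρ (vals (V'.length+1) A)` (`Cls.Pl`)
and `OnC W z`.  By `Cls.half` every layer `z_γ` is in this class, and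
`OnC (W ⊓ (ℝ ∙ u)ᗮ) z_γ`; this subspace has dimension `≤ finrank W - 1` because
`u ∈ W`, `u ≠ 0`.  So `Pl (tl t V') z_γ = 0` by `hLow`, `Pl (tl t V') z = 0` by `Pl_classes`,
`Pl (tl t (v₀ :: V')) z = 0` (`Pl_comm`, `Pl_zero`), and `Pl_sq`. -/
theorem half_zero {𝒟 : Dat X} {W : Submodule ℝ X} {ρ : ℝ} {A : Finset ℂ} {V' : List X} {v₀ : X}
    {t : ℕ} (hV : ∀ v ∈ v₀ :: V', v ∈ 𝒟.L ∧ v ∈ W)
    (hLow : ∀ f, Cls 𝒟 ρ (vals (V'.length + 1) A) f → ∀ W' : Submodule ℝ X, W' ≤ W →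
      Module.finrank ℝ W' ≤ Module.finrank ℝ W - 1 → OnC W' f → Pl (tl t V') f = 0)
    {h : X → ℂ} (hh : Cls 𝒟 ρ A h) (hC : OnC W h) {u : X} (hu : u ∈ W) (hu1 : ‖u‖ = 1) {c : ℝ}
    (hc : ∀ x, Pl (tl t (v₀ :: V')) h x ≠ 0 → c ≤ inner ℝ u x) :
    Pl (tl t (v₀ :: V')) h = 0 := by
  have hV1 : ∀ v ∈ tl t (v₀ :: V'), v ∈ 𝒟.L ∧ v ∈ W := by
    intro v hv
    obtain ⟨w, hw, rfl⟩ := List.mem_map.1 hv
    exact ⟨𝒟.L.nsmul_mem (hV w hw).1 t, W.nsmul_mem (hV w hw).2 t⟩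
  have hz : Cls 𝒟 ρ (vals (V'.length + 1) A) (Pl (tl t (v₀ :: V')) h) := by
    have h1 := hh.Pl fun v hv => (hV1 v hv).1
    have h2 : (tl t (v₀ :: V')).length = V'.length + 1 := by
      simp [tl]
    rw [h2] at h1
    exact h1
  have hzC : OnC W (Pl (tl t (v₀ :: V')) h) := hC.Pl fun v hv => (hV1 v hv).2
  have h0 : ∀ γ : ℝ, Pl (tl t V')
      (fun x => if inner ℝ u x = γ then Pl (tl t (v₀ :: V')) h x else 0) = 0 := fun γ =>
    hLow _ (hz.half hu1 hc γ) _ inf_le_left (btv_rank hu hu1) (btv_layer hzC u γ)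
  have h1 : Pl (tl t V') (Pl (tl t (v₀ :: V')) h) = 0 :=
    Pl_classes _ (fun x => inner ℝ u x) h0
  have h2 : Pl (tl t (v₀ :: V')) (Pl (tl t (v₀ :: V')) h) = 0 := by
    have h3 : Pl (tl t (v₀ :: V')) (Pl (tl t (v₀ :: V')) h) =
        dif (t • v₀) (Pl (tl t V') (Pl (tl t (v₀ :: V')) h)) := rfl
    rw [h3, h1]
    exact Pl_zero [t • v₀]
  obtain ⟨C, hC1⟩ := hh.bdd
  exact Pl_sq hC1 _ h2

/-- The case `L ∩ W = 0`.  PROOF.  The empty list.  The list `V` of `Low` is empty.  The support of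
`f` is finite: if `f x₀ ≠ 0`, all points of the support are in `D ∩ (x₀ + W)`, which is contained in
the finite set `S` of `base_points` for `a = x₀` (`x - p ∈ L ∩ W = 0`).  Choose `u ∈ W`, `‖u‖ = 1`,
`c` = the minimum of `⟨u,x⟩` on the support; by `Cls.half` and `Low` all layers are `0`
(`Pl (tl t []) g = g`), so `f = 0`. -/
theorem tv_triv {𝒟 : Dat X} {W : Submodule ℝ X} (hW : 0 < Module.finrank ℝ W)
    (hL : Low 𝒟 W (Module.finrank ℝ W - 1)) (h0 : ∀ v ∈ 𝒟.L, v ∈ W → v = 0) : TV 𝒟 W := by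
  intro ρ hρ
  obtain ⟨V, hV, h⟩ := hL ρ hρ
  have hVn : V = [] := by
    cases V with
    | nil => rfl
    | cons v V =>
      obtain ⟨h1, h2, h3⟩ := hV v List.mem_cons_self
      exact absurd (h0 v h1 h2) h3
  subst hVn
  refine ⟨[], fun v hv => absurd hv List.not_mem_nil, fun A => ?_⟩
  obtain ⟨t, ht, h2⟩ := h A
  refine ⟨t, ht, fun f hf hfC => ?_⟩
  show f = 0
  by_contra hne
  obtain ⟨x₀, hx₀⟩ := Function.ne_iff.1 hne
  have hx1 : f x₀ ≠ 0 := hx₀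
  obtain ⟨S, _, hS⟩ := base_points 𝒟.L 𝒟.E W x₀
  have hsupp : ∀ x, f x ≠ 0 → x ∈ S := by
    intro x hx
    obtain ⟨p, hp, hp1, hp2⟩ := hS x (hf.supp x hx) (hfC x x₀ hx hx1)
    have h3 : x = p := sub_eq_zero.1 (h0 _ hp1 hp2)
    rw [h3]
    exact hp
  have : Nontrivial W := Module.nontrivial_of_finrank_pos hW
  obtain ⟨⟨u, hu⟩, hu1⟩ := exists_norm_eq W (c := 1) zero_le_one
  have hu2 : ‖u‖ = 1 := hu1
  obtain ⟨c, hc⟩ := (S.image fun x => (inner ℝ u x : ℝ)).bddBelow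
  have hc1 : ∀ x, f x ≠ 0 → c ≤ inner ℝ u x := fun x hx =>
    hc (Finset.mem_coe.2 (Finset.mem_image_of_mem _ (hsupp x hx)))
  have h3 : (fun x => if inner ℝ u x = (inner ℝ u x₀ : ℝ) then f x else 0) = 0 :=
    h2 _ (hf.half hu2 hc1 _) _ inf_le_left (btv_rank hu hu2) (btv_layer hfC u _)
  have h4 := congrFun h3 x₀
  simp only [if_true, Pi.zero_apply] at h4
  exact hx1 h4

/-- PROOF.  If `L ∩ W = 0`: `tv_triv`.  Otherwise let `v₀ ∈ L ∩ W`, `v₀ ≠ 0`, `V'` the list of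
`Low` for `ρ`, `V = v₀ :: V'`.  Given `A` let `t` be given by `Low` for
`vals (V'.length + 1) (vals 1 A)`.  `fin_det` (for `vals 1 A` and `tl t V`, hypothesis `H` from
`half_zero`) and `exists_period` (for `tl t V`, `v₀`) give `n`; `Pl_per` gives
`Pl (tl (n * t) V) f = 0`. -/
theorem tv_step {𝒟 : Dat X} {W : Submodule ℝ X} (hW : 0 < Module.finrank ℝ W)
    (hL : Low 𝒟 W (Module.finrank ℝ W - 1)) : TV 𝒟 W := by
  by_cases h0 : ∀ v ∈ 𝒟.L, v ∈ W → v = 0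
  · exact tv_triv hW hL h0
  push Not at h0
  obtain ⟨v₀, hv1, hv2, hv3⟩ := h0
  intro ρ hρ
  obtain ⟨V', hV', hLow⟩ := hL ρ hρ
  have hV : ∀ v ∈ v₀ :: V', v ∈ 𝒟.L ∧ v ∈ W ∧ v ≠ 0 := by
    intro v hv
    rcases List.mem_cons.1 hv with rfl | hv
    · exact ⟨hv1, hv2, hv3⟩
    · exact hV' v hv
  refine ⟨v₀ :: V', hV, fun A => ?_⟩
  obtain ⟨t, ht, hLow'⟩ := hLow (vals (V'.length + 1) (vals 1 A))
  have htV : ∀ v ∈ tl t (v₀ :: V'), v ∈ 𝒟.L ∧ v ∈ W := by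
    intro v hv
    obtain ⟨w, hw, rfl⟩ := List.mem_map.1 hv
    exact ⟨𝒟.L.nsmul_mem (hV w hw).1 t, W.nsmul_mem (hV w hw).2.1 t⟩
  have hdet : ∀ a : X, ∃ R : ℝ, ∀ h, Cls 𝒟 ρ (vals 1 A) h → (∀ x, h x ≠ 0 → x - a ∈ W) →
      (∀ x, ‖x‖ ≤ R → Pl (tl t (v₀ :: V')) h x = 0) → Pl (tl t (v₀ :: V')) h = 0 := by
    intro a
    refine fin_det htV ?_ a
    intro h hh hC u hu hu1 c hc
    exact half_zero (fun v hv => ⟨(hV v hv).1, (hV v hv).2.1⟩) hLow' hh hC hu hu1 hc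
  obtain ⟨n, hn, hper⟩ := exists_period htV hdet hv1 hv2
  refine ⟨n * t, Nat.mul_pos hn ht, fun f hf hfC => ?_⟩
  obtain ⟨C, hC⟩ := hf.bdd
  exact Pl_per hC (List.mem_cons_self) (hper f hf hfC)

theorem tv_all (𝒟 : Dat X) (W : Submodule ℝ X) : TV 𝒟 W := by
  have h : ∀ n : ℕ, ∀ W : Submodule ℝ X, Module.finrank ℝ W = n → TV 𝒟 W := by
    intro n
    induction n using Nat.strong_induction_on with
    | _ n ih =>
      intro W hW
      rcases Nat.eq_zero_or_pos n with h0 | h0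
      · have : W = ⊥ := Submodule.finrank_eq_zero.1 (by omega)
        rw [this]
        exact tv_bot 𝒟
      · exact tv_step (by omega) (low_all (by omega) fun W' _ hf => ih _ (by omega) W' rfl)
  exact h _ W rfl

/-- **Theorem B** (structure theorem). -/
theorem structure_thm (𝒟 : Dat X) {ρ : ℝ} (hρ : 0 < ρ) :
    ∃ V : List X, (∀ v ∈ V, v ∈ 𝒟.L ∧ v ≠ 0) ∧ ∀ A : Finset ℂ, ∃ t : ℕ, 0 < t ∧
      ∀ f, Cls 𝒟 ρ A f → Pl (tl t V) f = 0 := by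
  obtain ⟨V, hV, h⟩ := tv_all 𝒟 ⊤ ρ hρ
  refine ⟨V, fun v hv => ⟨(hV v hv).1, (hV v hv).2.2⟩, fun A => ?_⟩
  obtain ⟨t, ht, h'⟩ := h A
  exact ⟨t, ht, fun f hf => h' f hf fun _ _ _ _ => Submodule.mem_top⟩

end Pool.Agent.ST53
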