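import Pool.Agent.Lib.MP_53fa4a_an_ST.GSum

/-!
# MP_53fa4a_an, project ST, part C4: the convolution of `F_φ` with a Schwartz function
-/

set_option autoImplicit false

open MeasureTheory Set Filter
open scoped ENNReal Topology ComplexConjugate BigOperators SchwartzMap

noncomputable section

namespace Pool.Agent.ST53

variable {X : Type*} [NormedAddCommGroup X] [InnerProductSpace ℝ X] [FiniteDimensional ℝ X]
  [MeasurableSpace X] [BorelSpace X]

omit [FiniteDimensional ℝ X] [MeasurableSpace X] [BorelSpace X] in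
/-- `D = L + E` is countable -/
theorem DD_countable {n : ℕ} (b : Module.Basis (Fin n) ℝ X) (L : AddSubgroup X)
    (hL : ∀ l ∈ L, ∀ i, ∃ m : ℤ, inner ℝ (b i) l = (m : ℝ)) (F : Finset X) :
    (DD L F).Countable := by
  have hLc : (L : Set X).Countable := by
    have hinj : Function.Injective fun (x : X) (i : Fin n) => inner ℝ (b i) x := by
      intro x y hxy
      have h1 : ∀ i, inner ℝ (b i) (x - y) = 0 := by
        intro i
        have h2 := congrFun hxy i
        simp only at h2
        rw [inner_sub_right, h2, sub_self]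
      have h3 : x - y = 0 := by
        have h4 : ∀ z : X, inner ℝ z (x - y) = 0 := by
          intro z
          rw [← b.sum_repr z, sum_inner]
          refine Finset.sum_eq_zero fun i _ => ?_
          rw [real_inner_smul_left, h1 i, mul_zero]
        exact inner_self_eq_zero.1 (h4 (x - y))
      exact sub_eq_zero.1 h3
    have hc : (Set.range fun (m : Fin n → ℤ) (i : Fin n) => ((m i : ℤ) : ℝ)).Countable :=
      Set.countable_range _
    refine (hc.preimage hinj).mono ?_
    intro l hl
    choose m hm using hL l hl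
    exact ⟨m, by funext i; exact (hm i).symm⟩
  have h2 : DD L F ⊆ ⋃ a ∈ (F : Set X), (fun l => l + a) '' (L : Set X) := by
    rintro x ⟨l, hl, a, ha, rfl⟩
    exact Set.mem_biUnion (show a ∈ (F : Set X) from ha) ⟨l, hl, rfl⟩
  exact (F.countable_toSet.biUnion fun a _ => hLc.image _).mono h2

theorem FF_conv {n : ℕ} (b : Module.Basis (Fin n) ℝ X) (L : AddSubgroup X)
    (hL : ∀ l ∈ L, ∀ i, ∃ m : ℤ, inner ℝ (b i) l = (m : ℝ)) (F : Finset X) {A : Finset ℂ}
    {f : X → ℂ} (hf : Sig L F A f) (φ χ : 𝓢(X, ℂ)) (x : X) :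
    ∫ v, FF f φ (x + v) * χ v = ∑' y, f y * ∫ v, φ (y - x - v) * χ v := by
  set D := DD L F with hD
  have : Countable D := (DD_countable b L hL F).to_subtype
  obtain ⟨C, hC⟩ := DD_bound b L hL F φ
  obtain ⟨M, hM0, hM⟩ : ∃ M : ℝ, 0 ≤ M ∧ ∀ y, ‖f y‖ ≤ M := by
    refine ⟨∑ a ∈ A, ‖a‖, Finset.sum_nonneg fun _ _ => norm_nonneg _, fun y => ?_⟩
    rcases hf.val y with h | h
    · rw [h, norm_zero]
      exact Finset.sum_nonneg fun _ _ => norm_nonneg _
    · exact Finset.single_le_sum (f := fun a : ℂ => ‖a‖) (fun _ _ => norm_nonneg _) h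
  -- the functions
  set G : D → X → ℂ := fun y v => f y * φ (y - x - v) * χ v with hG
  have hGc : ∀ y : D, Continuous (G y) := by
    intro y
    have h1 : Continuous fun v : X => φ ((y : X) - x - v) := φ.continuous.comp (by fun_prop)
    exact (continuous_const.mul h1).mul χ.continuous
  have hsum : ∀ v, ∑' y : D, ‖G y v‖ₑ ≤ ENNReal.ofReal (M * C) * ‖χ v‖ₑ := by
    intro v
    obtain ⟨hs, hle⟩ := hC (x + v)
    have hs2 : Summable fun y : D => ‖φ ((y : X) - (x + v))‖ :=
      summable_subtype_iff_indicator.2 hs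
    have hle2 : ∑' y : D, ‖φ ((y : X) - (x + v))‖ ≤ C := by
      rw [tsum_subtype D fun y => ‖φ (y - (x + v))‖]
      exact hle
    have h3 : ∀ y : D, ‖G y v‖ₑ ≤ ENNReal.ofReal (M * ‖φ ((y : X) - (x + v))‖) * ‖χ v‖ₑ := by
      intro y
      simp only [hG]
      rw [enorm_mul]
      refine mul_le_mul_left ?_ _
      rw [← ofReal_norm, norm_mul, sub_sub]
      exact ENNReal.ofReal_le_ofReal (mul_le_mul_of_nonneg_right (hM _) (norm_nonneg _))
    refine (ENNReal.tsum_le_tsum h3).trans ?_
    rw [ENNReal.tsum_mul_right]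
    refine mul_le_mul_left ?_ _
    rw [← ENNReal.ofReal_tsum_of_nonneg (fun y => mul_nonneg hM0 (norm_nonneg _))
      (hs2.mul_left M), tsum_mul_left]
    exact ENNReal.ofReal_le_ofReal (mul_le_mul_of_nonneg_left hle2 hM0)
  have htot : ∑' y : D, ∫⁻ v, ‖G y v‖ₑ ≠ ∞ := by
    rw [← lintegral_tsum fun y => (hGc y).enorm.aemeasurable]
    refine ne_top_of_le_ne_top ?_ (lintegral_mono hsum)
    rw [lintegral_const_mul' _ _ ENNReal.ofReal_ne_top]
    exact ENNReal.mul_ne_top ENNReal.ofReal_ne_top χ.integrable.2.ne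
  have hFi : ∀ y, Integrable (G y) volume := fun y =>
    ⟨(hGc y).aestronglyMeasurable, lt_top_iff_ne_top.2 (ENNReal.ne_top_of_tsum_ne_top htot y)⟩
  have hFs : Summable fun y => ∫ v, ‖G y v‖ := by
    have h1 := ENNReal.summable_toReal htot
    refine h1.congr fun y => ?_
    rw [integral_norm_eq_lintegral_enorm (hGc y).aestronglyMeasurable]
  have key := integral_tsum_of_summable_integral_norm hFi hFs
  have hsupp : ∀ g : X → ℂ, Function.support (fun y => f y * g y) ⊆ D := by
    intro g y hy
    exact hf.supp y (left_ne_zero_of_mul hy)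
  have hR : ∑' y, f y * ∫ v, φ (y - x - v) * χ v = ∑' y : D, ∫ v, G y v := by
    rw [← tsum_subtype_eq_of_support_subset (hsupp _)]
    refine tsum_congr fun y => ?_
    rw [← integral_const_mul]
    simp only [hG, mul_assoc]
  have hLe : ∀ v, FF f φ (x + v) * χ v = ∑' y : D, G y v := by
    intro v
    unfold FF
    rw [← tsum_subtype_eq_of_support_subset (hsupp _), ← tsum_mul_right]
    refine tsum_congr fun y => ?_
    simp only [hG]
    rw [sub_sub]
  rw [hR, key]
  exact integral_congr_ae (Eventually.of_forall hLe)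

end Pool.Agent.ST53
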