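import Pool.Agent.Lib.MP_53fa4a_an_ST.BDefs

/-!
# MP_53fa4a_an, project ST: definitions, part C

Text: /team-store/TEXT_53fa4a_ST.md, part C (exactness).
-/

set_option autoImplicit false

open MeasureTheory
open scoped BigOperators Topology SchwartzMap ContDiff

noncomputable section

namespace Pool.Agent.ST53

variable {X : Type*} [NormedAddCommGroup X] [InnerProductSpace ℝ X]

/-- the test functions with spectrum in the closed ball `B(κ,r)` -/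
def TT [MeasureSpace X] (κ : X) (r : ℝ) : Set (X → ℂ) :=
  {φ | ∃ ψ : X → ℂ, ContDiff ℝ ∞ ψ ∧ (∀ ζ, ψ ζ ≠ 0 → ‖ζ - κ‖ ≤ r) ∧
    ∀ x, φ x = ∫ ζ, ψ ζ * e (-(inner ℝ ζ x))}

/-- `F_φ(x) = ∑_y f(y) φ(y-x)` -/
def FF (f φ : X → ℂ) (x : X) : ℂ := ∑' y, f y * φ (y - x)

/-- `∫_0^1 e(-s⟨κ,q⟩) G(x+sq) ds` -/
def av (κ q : X) (G : X → ℂ) (x : X) : ℂ :=
  ∫ s in (0 : ℝ)..1, e (-(s * inner ℝ κ q)) * G (x + s • q)

open Classical in
/-- the product of the `av κ q` for the `q` in `W` with `⟨κ,q⟩ ∈ ℤ` and the `1 - X^q` for the other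
`q` in the list -/
def Op (W : Submodule ℝ X) (κ : X) : List X → (X → ℂ) → (X → ℂ)
  | [], G => G
  | q :: Q, G => if q ∈ W ∧ ∃ n : ℤ, inner ℝ κ q = (n : ℝ) then av κ q (Op W κ Q G)
      else dif q (Op W κ Q G)

/-- functions on `D = L + E` with values in `A ∪ {0}` -/
structure Sig (L : AddSubgroup X) (E : Finset X) (A : Finset ℂ) (f : X → ℂ) : Prop where
  supp : ∀ x, f x ≠ 0 → x ∈ DD L E
  val : ∀ x, f x = 0 ∨ f x ∈ A

/-- the gap of radius `ρ` at `κ` -/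
def GapAt [MeasureSpace X] (κ : X) (ρ : ℝ) (f : X → ℂ) : Prop :=
  ∀ r < ρ, ∀ φ ∈ TT κ r, ∑' x, f x * φ x = 0

/-- the class `Y(A)` -/
structure YY [MeasureSpace X] (L : AddSubgroup X) (E : Finset X) (U : Set X) (rad : X → ℝ)
    (A : Finset ℂ) (f : X → ℂ) : Prop where
  sig : Sig L E A f
  gap : ∀ κ ∈ U, GapAt κ (rad κ) f

/-- bounded continuous functions -/
structure BC (G : X → ℂ) : Prop where
  cont : Continuous G
  bdd : ∃ C, ∀ x, ‖G x‖ ≤ C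

/-- `G` is `W`-equivariant: `G (x+w) = e⟨κ,w⟩ G x` for `w ∈ W` -/
def Eqv (W : Submodule ℝ X) (κ : X) (G : X → ℂ) : Prop :=
  ∀ w ∈ W, ∀ x, G (x + w) = e (inner ℝ κ w) * G x

end Pool.Agent.ST53
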