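import Pool.Agent.Lib.MP_53fa4a_an_ST.COps

/-!
# MP_53fa4a_an, project ST, part C2: the differences `Dl`
-/

set_option autoImplicit false

open MeasureTheory
open scoped BigOperators Topology

noncomputable section

namespace Pool.Agent.ST53

set_option linter.unusedSectionVars false

variable {X : Type*} [NormedAddCommGroup X] [InnerProductSpace ℝ X]

/-- the product of the `Dl κ q s` over the pairs `(q,s)` of the list -/
def Dls (κ : X) : List (X × ℝ) → (X → ℂ) → (X → ℂ)
  | [], G => G
  | p :: P, G => Dl κ p.1 p.2 (Dls κ P G)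

theorem BC.dls {G : X → ℂ} (hG : BC G) (κ : X) (P : List (X × ℝ)) : BC (Dls κ P G) := by
  induction P with
  | nil => exact hG
  | cons p P ih => exact ih.dl κ p.1 p.2

theorem dls_zero (κ : X) (P : List (X × ℝ)) : Dls κ P (0 : X → ℂ) = 0 := by
  induction P with
  | nil => rfl
  | cons p P ih => rw [Dls, ih, dl_zero]

theorem dls_neg (κ : X) (P : List (X × ℝ)) (G : X → ℂ) : Dls κ P (-G) = -Dls κ P G := by
  induction P with
  | nil => rfl
  | cons p P ih => rw [Dls, Dls, ih, dl_neg]

theorem dl_dls (κ κ' q : X) (s : ℝ) (P : List (X × ℝ)) (G : X → ℂ) :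
    Dl κ' q s (Dls κ P G) = Dls κ P (Dl κ' q s G) := by
  induction P with
  | nil => rfl
  | cons p P ih => rw [Dls, Dls, ← ih, dl_dl]

theorem jt_dls (κ κ' q : X) (t : ℝ) (P : List (X × ℝ)) {G : X → ℂ} (hG : BC G) :
    Jt t κ' q (Dls κ P G) = Dls κ P (Jt t κ' q G) := by
  induction P with
  | nil => rfl
  | cons p P ih => rw [Dls, Dls, ← ih, jt_dl _ _ _ _ _ _ (hG.dls κ P).cont]

theorem dls_op (W : Submodule ℝ X) (κ κ' : X) (P : List (X × ℝ)) (Q : List X) {G : X → ℂ}
    (hG : BC G) : Dls κ' P (Op W κ Q G) = Op W κ Q (Dls κ' P G) := by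
  induction P with
  | nil => rfl
  | cons p P ih => rw [Dls, Dls, ih, dl_op W κ κ' p.1 p.2 Q (hG.dls κ' P)]

/-- C2 -/
theorem dl_av {κ q : X} (hq : ∃ n : ℤ, inner ℝ κ q = (n : ℝ)) (s : ℝ) {G : X → ℂ}
    (hG : Continuous G) : Dl κ q s (av κ q G) = -Jt s κ q (dif q G) := by
  obtain ⟨n, hn⟩ := hq
  funext x
  set g : ℝ → ℂ := fun u => e (-(u * inner ℝ κ q)) * G (x + u • q) with hg
  have hgc : Continuous g := jt_cont1 κ q hG x
  have hper : ∀ u, g (u + 1) = e (-(u * inner ℝ κ q)) * G (x + q + u • q) := by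
    intro u
    simp only [hg]
    have h1 : -((u + 1) * inner ℝ κ q) = -(u * inner ℝ κ q) + ((-n : ℤ) : ℝ) := by
      push_cast
      rw [← hn]
      ring
    rw [h1, e_add, e_int, mul_one]
    congr 2
    rw [add_smul, one_smul]
    abel
  have h1 : e (-(s * inner ℝ κ q)) * av κ q G (x + s • q) = ∫ u in (s : ℝ)..(s + 1), g u := by
    have h2 : ∫ u in (s : ℝ)..(s + 1), g u = ∫ u in (0 : ℝ)..1, g (u + s) := by
      rw [intervalIntegral.integral_comp_add_right (fun u => g u) s]
      congr 1 <;> ring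
    rw [h2]
    unfold av
    rw [← intervalIntegral.integral_const_mul]
    congr 1
    funext u
    simp only [hg]
    rw [← mul_assoc, ← e_add]
    congr 2
    · ring
    · rw [add_smul]
      abel
  have h3 : Jt s κ q (dif q G) x = (∫ u in (0 : ℝ)..s, g u) - ∫ u in (1 : ℝ)..(s + 1), g u := by
    have h4 : ∫ u in (1 : ℝ)..(s + 1), g u = ∫ u in (0 : ℝ)..s, g (u + 1) := by
      rw [intervalIntegral.integral_comp_add_right (fun u => g u) 1]
      congr 1
      ring
    have hgc1 : Continuous fun u => g (u + 1) := hgc.comp (continuous_id.add continuous_const)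
    rw [h4, ← intervalIntegral.integral_sub (hgc.intervalIntegrable _ _)
      (hgc1.intervalIntegrable _ _)]
    unfold Jt
    congr 1
    funext u
    rw [hper u]
    simp only [hg, dif]
    rw [add_right_comm x (u • q) q]
    ring
  have h5 : av κ q G x = ∫ u in (0 : ℝ)..1, g u := rfl
  rw [Pi.neg_apply, h3]
  show e (-(s * inner ℝ κ q)) * av κ q G (x + s • q) - av κ q G x = _
  rw [h1, h5]
  have i1 : ∀ a b : ℝ, IntervalIntegrable g volume a b := fun a b => hgc.intervalIntegrable a b
  have e1 := intervalIntegral.integral_add_adjacent_intervals (i1 0 s) (i1 s (s + 1))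
  have e2 := intervalIntegral.integral_add_adjacent_intervals (i1 0 1) (i1 1 (s + 1))
  linear_combination e1 - e2

/-- a bounded function with `Δ Δ G = 0` satisfies `Δ G = 0` -/
theorem dl_dl_zero {κ q : X} {s : ℝ} {G : X → ℂ} (hG : BC G) (h : Dl κ q s (Dl κ q s G) = 0) :
    Dl κ q s G = 0 := by
  obtain ⟨_, C, hC⟩ := hG
  funext x
  set a : ℂ := e (-(s * inner ℝ κ q)) with ha
  set D : ℂ := Dl κ q s G x with hD
  have hstep : ∀ y, a * Dl κ q s G (y + s • q) = Dl κ q s G y := by
    intro y
    have h1 := congrFun h y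
    simp only [Pi.zero_apply] at h1
    rw [Dl] at h1
    exact sub_eq_zero.1 h1
  have hD2 : ∀ n : ℕ, a ^ n * Dl κ q s G (x + (n : ℝ) • s • q) = D := by
    intro n
    induction n with
    | zero => simp [hD]
    | succ n ih =>
      rw [← ih, pow_succ, mul_assoc, ← hstep (x + (n : ℝ) • s • q)]
      congr 3
      push_cast
      rw [add_smul, one_smul]
      abel
  have hG2 : ∀ n : ℕ, a ^ n * G (x + (n : ℝ) • s • q) = G x + n * D := by
    intro n
    induction n with
    | zero => simp
    | succ n ih =>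
      have h2 := hD2 n
      rw [Dl] at h2
      have h3 : (x + (n : ℝ) • s • q + s • q) = x + ((n + 1 : ℕ) : ℝ) • s • q := by
        push_cast
        rw [add_smul, one_smul]
        abel
      rw [h3] at h2
      push_cast at h2 ⊢
      rw [pow_succ]
      linear_combination h2 + ih
  have hn : ∀ n : ℕ, (n : ℝ) * ‖D‖ ≤ 2 * C := by
    intro n
    have h4 : (n : ℂ) * D = a ^ n * G (x + (n : ℝ) • s • q) - G x := by
      rw [hG2 n]; ring
    have h5 : ‖(n : ℂ) * D‖ ≤ C + C := by
      rw [h4]
      refine (norm_sub_le _ _).trans (add_le_add ?_ (hC _))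
      rw [norm_mul, norm_pow, ha, norm_e, one_pow, one_mul]
      exact hC _
    rw [norm_mul, Complex.norm_natCast] at h5
    linarith
  by_contra hne
  have hpos : 0 < ‖D‖ := norm_pos_iff.2 hne
  obtain ⟨n, hn'⟩ := exists_nat_gt (2 * C / ‖D‖)
  rw [div_lt_iff₀ hpos] at hn'
  exact absurd (hn n) (not_le.2 hn')

open Classical in
/-- the elements of the list for which the operators of `V` and `W` differ -/
def diffs (V W : Submodule ℝ X) (κ : X) (Q : List X) : List X :=
  Q.filter fun q => q ∈ V ∧ q ∉ W ∧ ∃ n : ℤ, inner ℝ κ q = (n : ℝ)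

/-- If `Op W κ Q G = 0` then the product of the `Dl` over the elements of `diffs V W κ Q`
annihilates `Op V κ Q G`. -/
theorem dls_diffs {V W : Submodule ℝ X} (hWV : W ≤ V) (κ : X) (Q : List X) :
    ∀ {G : X → ℂ}, BC G → Op W κ Q G = 0 → ∀ S : List ℝ, S.length = (diffs V W κ Q).length →
      Dls κ ((diffs V W κ Q).zip S) (Op V κ Q G) = 0 := by
  classical
  induction Q with
  | nil =>
    intro G _ h S _
    have h1 : G = 0 := h
    rw [h1]
    exact dls_zero κ _
  | cons q Q ih =>
    intro G hG h S hS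
    by_cases hd : q ∈ V ∧ q ∉ W ∧ ∃ n : ℤ, inner ℝ κ q = (n : ℝ)
    · have hdl : diffs V W κ (q :: Q) = q :: diffs V W κ Q := by
        unfold diffs
        rw [List.filter_cons_of_pos]
        simpa using hd
      rw [hdl] at hS ⊢
      obtain ⟨s, S, rfl⟩ : ∃ s S', S = s :: S' := by
        cases S with
        | nil => simp at hS
        | cons s S' => exact ⟨s, S', rfl⟩
      have hS' : S.length = (diffs V W κ Q).length := by simpa using hS
      have h1 : Op W κ Q (dif q G) = 0 := by
        rw [← dif_op W κ q Q hG]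
        rw [Op, if_neg (fun hh => hd.2.1 hh.1)] at h
        exact h
      have h2 := ih (hG.dif q) h1 S hS'
      have h3 : Op V κ (q :: Q) G = av κ q (Op V κ Q G) := by
        rw [Op, if_pos ⟨hd.1, hd.2.2⟩]
      rw [h3, List.zip_cons_cons, Dls, dl_dls,
        dl_av hd.2.2 s (hG.op V κ Q).cont, dls_neg, dif_op V κ q Q hG,
        ← jt_dls κ κ q s _ ((hG.dif q).op V κ Q), h2, jt_zero, neg_zero]
    · have hdl : diffs V W κ (q :: Q) = diffs V W κ Q := by
        unfold diffs
        rw [List.filter_cons_of_neg]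
        simpa using hd
      rw [hdl] at hS ⊢
      by_cases hc : q ∈ W ∧ ∃ n : ℤ, inner ℝ κ q = (n : ℝ)
      · have h1 : Op W κ Q (av κ q G) = 0 := by
          rw [av_eq_Jt, ← jt_op W κ κ q 1 Q hG, ← av_eq_Jt]
          rw [Op, if_pos hc] at h
          exact h
        have h2 := ih (hG.av κ q) h1 S hS
        rw [Op, if_pos ⟨hWV hc.1, hc.2⟩, av_eq_Jt, jt_op V κ κ q 1 Q hG, ← av_eq_Jt]
        exact h2
      · have hc' : ¬ (q ∈ V ∧ ∃ n : ℤ, inner ℝ κ q = (n : ℝ)) := by
          rintro ⟨h1, h2⟩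
          by_cases hqW : q ∈ W
          · exact hc ⟨hqW, h2⟩
          · exact hd ⟨h1, hqW, h2⟩
        have h1 : Op W κ Q (dif q G) = 0 := by
          rw [← dif_op W κ q Q hG]
          rw [Op, if_neg hc] at h
          exact h
        have h2 := ih (hG.dif q) h1 S hS
        rw [Op, if_neg hc', dif_op V κ q Q hG]
        exact h2

end Pool.Agent.ST53
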