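import Pool.Agent.Lib.MP_53fa4a_an_ST.CDefs

/-!
# Sums of Schwartz functions over `D = L + E`
-/

set_option autoImplicit false

open MeasureTheory Set Filter
open scoped ENNReal Topology ComplexConjugate BigOperators SchwartzMap ContDiff FourierTransform

noncomputable section

namespace Pool.Agent.ST53

variable {X : Type*} [NormedAddCommGroup X] [InnerProductSpace ℝ X] [FiniteDimensional ℝ X]
  [MeasurableSpace X] [BorelSpace X]

private lemma sumZ : Summable (fun k : ℤ => (1 + (k : ℝ) ^ 2)⁻¹) := by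
  have h1 : Summable (fun k : ℤ => 1 / (k : ℝ) ^ 2) :=
    Real.summable_one_div_int_pow.2 (by norm_num)
  refine h1.of_norm_bounded_eventually ?_
  have h2 : ∀ᶠ k : ℤ in cofinite, k ≠ 0 := by
    rw [Filter.eventually_cofinite]
    simp
  filter_upwards [h2] with k hk
  have hk2 : (0 : ℝ) < (k : ℝ) ^ 2 := by positivity
  rw [Real.norm_of_nonneg (by positivity), one_div]
  exact inv_anti₀ hk2 (by linarith)

private lemma fin_box {n : ℕ} (T : Finset (Fin n → ℤ)) :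
    ∑ k ∈ T, ∏ i, (1 + (k i : ℝ) ^ 2)⁻¹ ≤ (∑' k : ℤ, (1 + (k : ℝ) ^ 2)⁻¹) ^ n := by
  classical
  let U : Fin n → Finset ℤ := fun i => T.image (fun k => k i)
  have hsub : T ⊆ Fintype.piFinset U := by
    intro k hk
    rw [Fintype.mem_piFinset]
    intro i
    exact Finset.mem_image_of_mem _ hk
  calc ∑ k ∈ T, ∏ i, (1 + (k i : ℝ) ^ 2)⁻¹
      ≤ ∑ k ∈ Fintype.piFinset U, ∏ i, (1 + (k i : ℝ) ^ 2)⁻¹ :=
        Finset.sum_le_sum_of_subset_of_nonneg hsub fun k _ _ =>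
          Finset.prod_nonneg fun i _ => by positivity
    _ = ∏ i : Fin n, ∑ j ∈ U i, (1 + (j : ℝ) ^ 2)⁻¹ := by
        rw [Finset.prod_univ_sum]
    _ ≤ ∏ _i : Fin n, ∑' k : ℤ, (1 + (k : ℝ) ^ 2)⁻¹ :=
        Finset.prod_le_prod (fun i _ => Finset.sum_nonneg fun j _ => by positivity)
          fun i _ => sumZ.sum_le_tsum _ fun j _ => by positivity
    _ = _ := by rw [Finset.prod_const, Finset.card_univ, Fintype.card_fin]

omit [FiniteDimensional ℝ X] [MeasurableSpace X] [BorelSpace X] in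
private lemma fin_coset {n : ℕ} (b : Module.Basis (Fin n) ℝ X) (L : AddSubgroup X)
    (hL : ∀ l ∈ L, ∀ i, ∃ m : ℤ, inner ℝ (b i) l = (m : ℝ)) (a x : X) (g : X → ℝ) (K : ℝ)
    (hg : ∀ z, 0 ≤ g z) (hK : ∀ z, g z * ∏ i, (1 + (inner ℝ (b i) z) ^ 2) ≤ K) (T : Finset X)
    (hT : ∀ y ∈ T, y - a ∈ L) :
    ∑ y ∈ T, g (y - x) ≤ (3 ^ n * K) * (∑' k : ℤ, (1 + (k : ℝ) ^ 2)⁻¹) ^ n := by
  classical
  have hK0 : 0 ≤ K := le_trans (mul_nonneg (hg 0) (Finset.prod_nonneg fun i _ => by positivity))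
    (hK 0)
  let κ : X → (Fin n → ℤ) := fun y i => ⌊inner ℝ (b i) (y - a)⌋ + ⌊inner ℝ (b i) (a - x)⌋
  have hinj : Set.InjOn κ (T : Set X) := by
    intro y hy y' hy' hyy
    have h1 : y - a = y' - a := by
      refine InnerProductSpace.ext_inner_left_basis b fun i => ?_
      obtain ⟨m, hm⟩ := hL _ (hT y hy) i
      obtain ⟨m', hm'⟩ := hL _ (hT y' hy') i
      have h2 := congrFun hyy i
      simp only [κ] at h2
      rw [hm, hm', Int.floor_intCast, Int.floor_intCast] at h2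
      have h3 : m = m' := by omega
      rw [hm, hm', h3]
    exact sub_left_injective h1
  have hbd : ∀ y ∈ T, g (y - x) ≤ (3 ^ n * K) * ∏ i, (1 + (κ y i : ℝ) ^ 2)⁻¹ := by
    intro y hy
    have h1 : ∏ i, (1 + (κ y i : ℝ) ^ 2) ≤ 3 ^ n * ∏ i, (1 + (inner ℝ (b i) (y - x)) ^ 2) := by
      have h2 : (3 : ℝ) ^ n * ∏ i, (1 + (inner ℝ (b i) (y - x)) ^ 2) =
          ∏ i, (3 * (1 + (inner ℝ (b i) (y - x)) ^ 2)) := by
        rw [Finset.prod_mul_distrib, Finset.prod_const, Finset.card_univ, Fintype.card_fin]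
      rw [h2]
      refine Finset.prod_le_prod (fun i _ => by positivity) fun i _ => ?_
      obtain ⟨m, hm⟩ := hL _ (hT y hy) i
      have h3 : inner ℝ (b i) (y - x) = (m : ℝ) + inner ℝ (b i) (a - x) := by
        rw [← hm, ← inner_add_right]
        congr 1
        abel
      have h4 : (κ y i : ℝ) = (m : ℝ) + (⌊(inner ℝ (b i) (a - x) : ℝ)⌋ : ℝ) := by
        simp only [κ]
        rw [hm, Int.floor_intCast]
        push_cast
        rfl
      have h5 := Int.floor_le (inner ℝ (b i) (a - x) : ℝ)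
      have h6 := Int.lt_floor_add_one (inner ℝ (b i) (a - x) : ℝ)
      rw [h3, h4]
      generalize (inner ℝ (b i) (a - x) : ℝ) = t at h5 h6
      generalize ((⌊t⌋ : ℤ) : ℝ) = N at h5 h6
      nlinarith [sq_nonneg ((m : ℝ) + t + (t - N)), sq_nonneg (t - N)]
    have hpos : 0 < ∏ i, (1 + (κ y i : ℝ) ^ 2) := Finset.prod_pos fun i _ => by positivity
    rw [Finset.prod_inv_distrib, ← div_eq_mul_inv, le_div_iff₀ hpos]
    calc g (y - x) * ∏ i, (1 + (κ y i : ℝ) ^ 2)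
        ≤ g (y - x) * (3 ^ n * ∏ i, (1 + (inner ℝ (b i) (y - x)) ^ 2)) :=
          mul_le_mul_of_nonneg_left h1 (hg _)
      _ = 3 ^ n * (g (y - x) * ∏ i, (1 + (inner ℝ (b i) (y - x)) ^ 2)) := by ring
      _ ≤ 3 ^ n * K := mul_le_mul_of_nonneg_left (hK _) (by positivity)
  calc ∑ y ∈ T, g (y - x) ≤ ∑ y ∈ T, (3 ^ n * K) * ∏ i, (1 + (κ y i : ℝ) ^ 2)⁻¹ :=
        Finset.sum_le_sum hbd
    _ = (3 ^ n * K) * ∑ k ∈ T.image κ, ∏ i, (1 + (k i : ℝ) ^ 2)⁻¹ := by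
        rw [Finset.sum_image hinj, Finset.mul_sum]
    _ ≤ _ := mul_le_mul_of_nonneg_left (fin_box _) (by positivity)

omit [FiniteDimensional ℝ X] [MeasurableSpace X] [BorelSpace X] in
private lemma fin_sum {n : ℕ} (b : Module.Basis (Fin n) ℝ X) (L : AddSubgroup X)
    (hL : ∀ l ∈ L, ∀ i, ∃ m : ℤ, inner ℝ (b i) l = (m : ℝ)) (F : Finset X) (x : X) (g : X → ℝ)
    (K : ℝ) (hg : ∀ z, 0 ≤ g z) (hK : ∀ z, g z * ∏ i, (1 + (inner ℝ (b i) z) ^ 2) ≤ K)
    (T : Finset X) :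
    ∑ y ∈ T, (DD L F).indicator (fun y => g (y - x)) y ≤
      F.card * ((3 ^ n * K) * (∑' k : ℤ, (1 + (k : ℝ) ^ 2)⁻¹) ^ n) := by
  classical
  have h1 : ∀ y ∈ T, (DD L F).indicator (fun y => g (y - x)) y ≤
      ∑ a ∈ F, if y - a ∈ L then g (y - x) else 0 := by
    intro y _
    by_cases hy : y ∈ DD L F
    · rw [Set.indicator_of_mem hy]
      obtain ⟨l, hl, a, ha, rfl⟩ := hy
      have h2 : (if l + a - a ∈ L then g (l + a - x) else 0) = g (l + a - x) := by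
        rw [if_pos]
        rwa [add_sub_cancel_right]
      exact le_trans h2.ge (Finset.single_le_sum
        (f := fun a' => if l + a - a' ∈ L then g (l + a - x) else 0)
        (fun a' _ => by split_ifs; exacts [hg _, le_rfl]) ha)
    · rw [Set.indicator_of_notMem hy]
      exact Finset.sum_nonneg fun a' _ => by split_ifs; exacts [hg _, le_rfl]
  calc ∑ y ∈ T, (DD L F).indicator (fun y => g (y - x)) y
      ≤ ∑ y ∈ T, ∑ a ∈ F, (if y - a ∈ L then g (y - x) else 0) := Finset.sum_le_sum h1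
    _ = ∑ a ∈ F, ∑ y ∈ T, (if y - a ∈ L then g (y - x) else 0) := Finset.sum_comm
    _ = ∑ a ∈ F, ∑ y ∈ T.filter (fun y => y - a ∈ L), g (y - x) :=
        Finset.sum_congr rfl fun a _ => (Finset.sum_filter _ _).symm
    _ ≤ ∑ _a ∈ F, (3 ^ n * K) * (∑' k : ℤ, (1 + (k : ℝ) ^ 2)⁻¹) ^ n :=
        Finset.sum_le_sum fun a _ => fin_coset b L hL a x g K hg hK _
          fun y hy => (Finset.mem_filter.1 hy).2
    _ = _ := by rw [Finset.sum_const, nsmul_eq_mul]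

omit [FiniteDimensional ℝ X] [MeasurableSpace X] [BorelSpace X] in
private lemma decay {n : ℕ} (b : Fin n → X) (φ : 𝓢(X, ℂ)) :
    ∃ K : ℝ, ∀ z : X, ((1 + ‖z‖) * ‖φ z‖) * ∏ i, (1 + (inner ℝ (b i) z) ^ 2) ≤ K := by
  refine ⟨(∏ i, (1 + ‖b i‖ ^ 2)) * (2 ^ (2 * n + 1) *
    (Finset.Iic (2 * n + 1, 0)).sup (fun m => SchwartzMap.seminorm ℝ m.1 m.2) φ), fun z => ?_⟩
  have h1 := SchwartzMap.one_add_le_sup_seminorm_apply (𝕜 := ℝ) (m := (2 * n + 1, 0))
    (k := 2 * n + 1) (n := 0) le_rfl le_rfl φ z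
  rw [norm_iteratedFDeriv_zero] at h1
  have h2 : ∏ i, (1 + (inner ℝ (b i) z) ^ 2) ≤ (∏ i, (1 + ‖b i‖ ^ 2)) * (1 + ‖z‖) ^ (2 * n) := by
    have h3 : (∏ i, (1 + ‖b i‖ ^ 2)) * (1 + ‖z‖) ^ (2 * n) =
        ∏ i, ((1 + ‖b i‖ ^ 2) * (1 + ‖z‖) ^ 2) := by
      rw [Finset.prod_mul_distrib, Finset.prod_const, Finset.card_univ, Fintype.card_fin,
        pow_mul]
    rw [h3]
    refine Finset.prod_le_prod (fun i _ => by positivity) fun i _ => ?_
    have h4 : (inner ℝ (b i) z) ^ 2 ≤ ‖b i‖ ^ 2 * ‖z‖ ^ 2 := by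
      rw [← mul_pow, ← sq_abs (inner ℝ (b i) z)]
      exact pow_le_pow_left₀ (abs_nonneg _) (abs_real_inner_le_norm _ _) 2
    have h5 : 0 ≤ ‖z‖ := norm_nonneg z
    nlinarith [mul_nonneg (sq_nonneg ‖b i‖) h5, sq_nonneg ‖b i‖, sq_nonneg ‖z‖]
  have h0 : 0 ≤ (1 + ‖z‖) * ‖φ z‖ := by positivity
  calc ((1 + ‖z‖) * ‖φ z‖) * ∏ i, (1 + (inner ℝ (b i) z) ^ 2)
      ≤ ((1 + ‖z‖) * ‖φ z‖) * ((∏ i, (1 + ‖b i‖ ^ 2)) * (1 + ‖z‖) ^ (2 * n)) :=
        mul_le_mul_of_nonneg_left h2 h0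
    _ = (∏ i, (1 + ‖b i‖ ^ 2)) * ((1 + ‖z‖) ^ (2 * n + 1) * ‖φ z‖) := by ring
    _ ≤ _ := mul_le_mul_of_nonneg_left h1 (Finset.prod_nonneg fun i _ => by positivity)

/-- PROOF.  `|φ(x)| ≤ C (1 + |c(x)|)^{-n-1}`-type decay with `c(x) = (⟨b_i, x⟩)_i ∈ ℝ^n`; for
`l ∈ L` the vector `c(l)` is an integer vector and determines `l`; for `a ∈ E` put `N = ⌊c(a - x)⌋`
(coordinatewise): `|φ(l + a - x)| ≤ C ∏_i (1 + |c(l)_i + N_i|)^{-2}` up to a constant, since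
`‖x‖^(2n) + 1` dominates the product; the sum over the integer vectors `c(l) + N` is at most
`C (∑_{k ∈ ℤ} (1+|k|)^{-2})^n`, and there are `card E` values of `a`. -/
theorem DD_bound {n : ℕ} (b : Module.Basis (Fin n) ℝ X) (L : AddSubgroup X)
    (hL : ∀ l ∈ L, ∀ i, ∃ m : ℤ, inner ℝ (b i) l = (m : ℝ)) (F : Finset X) (φ : 𝓢(X, ℂ)) :
    ∃ C : ℝ, ∀ x : X, Summable (fun y => (DD L F).indicator (fun y => ‖φ (y - x)‖) y) ∧
      ∑' y, (DD L F).indicator (fun y => ‖φ (y - x)‖) y ≤ C := by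
  obtain ⟨K, hK⟩ := decay (fun i => b i) φ
  have hK' : ∀ z, ‖φ z‖ * ∏ i, (1 + (inner ℝ (b i) z) ^ 2) ≤ K := by
    intro z
    refine le_trans (mul_le_mul_of_nonneg_right ?_
      (Finset.prod_nonneg fun i _ => by positivity)) (hK z)
    have h1 : 0 ≤ ‖z‖ := norm_nonneg z
    have h2 : 0 ≤ ‖φ z‖ := norm_nonneg _
    nlinarith [mul_nonneg h1 h2]
  refine ⟨F.card * ((3 ^ n * K) * (∑' k : ℤ, (1 + (k : ℝ) ^ 2)⁻¹) ^ n), fun x => ?_⟩
  have hs := fun T => fin_sum b L hL F x (fun z => ‖φ z‖) K (fun z => norm_nonneg _) hK' T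
  have h0 : (0 : X → ℝ) ≤ fun y => (DD L F).indicator (fun y => ‖φ (y - x)‖) y := by
    intro y
    exact Set.indicator_nonneg (fun y _ => norm_nonneg _) y
  have hsum : Summable (fun y => (DD L F).indicator (fun y => ‖φ (y - x)‖) y) :=
    summable_of_sum_le h0 hs
  exact ⟨hsum, hsum.tsum_le_of_sum_le hs⟩

/-- uniform convergence: outside a large ball around `x` the sum is small -/
theorem DD_tail {n : ℕ} (b : Module.Basis (Fin n) ℝ X) (L : AddSubgroup X)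
    (hL : ∀ l ∈ L, ∀ i, ∃ m : ℤ, inner ℝ (b i) l = (m : ℝ)) (F : Finset X) (φ : 𝓢(X, ℂ)) {η : ℝ}
    (hη : 0 < η) :
    ∃ R : ℝ, ∀ x : X, ∑' y, (DD L F ∩ {y | R < ‖y - x‖}).indicator
      (fun y => ‖φ (y - x)‖) y ≤ η := by
  obtain ⟨K, hK⟩ := decay (fun i => b i) φ
  have hK' : ∀ z, (‖z‖ * ‖φ z‖) * ∏ i, (1 + (inner ℝ (b i) z) ^ 2) ≤ K := by
    intro z
    refine le_trans (mul_le_mul_of_nonneg_right ?_
      (Finset.prod_nonneg fun i _ => by positivity)) (hK z)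
    have h2 : 0 ≤ ‖φ z‖ := norm_nonneg _
    nlinarith
  set C := F.card * ((3 ^ n * K) * (∑' k : ℤ, (1 + (k : ℝ) ^ 2)⁻¹) ^ n) with hC
  refine ⟨max 1 (C / η), fun x => ?_⟩
  have hs := fun T => fin_sum b L hL F x (fun z => ‖z‖ * ‖φ z‖) K (fun z => by positivity) hK' T
  rw [← hC] at hs
  have hR0 : 0 < max 1 (C / η) := lt_of_lt_of_le one_pos (le_max_left _ _)
  refine tsum_le_of_sum_le' hη.le fun T => ?_
  have hCR : C ≤ max 1 (C / η) * η := by
    have h1 := mul_le_mul_of_nonneg_right (le_max_right 1 (C / η)) hη.le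
    rwa [div_mul_cancel₀ _ hη.ne'] at h1
  have hle : max 1 (C / η) * ∑ y ∈ T, (DD L F ∩ {y | max 1 (C / η) < ‖y - x‖}).indicator
      (fun y => ‖φ (y - x)‖) y ≤ C := by
    refine le_trans ?_ (hs T)
    rw [Finset.mul_sum]
    refine Finset.sum_le_sum fun y _ => ?_
    by_cases hy : y ∈ DD L F
    · rw [Set.indicator_of_mem hy]
      by_cases hy2 : max 1 (C / η) < ‖y - x‖
      · rw [Set.indicator_of_mem (show y ∈ DD L F ∩ {y | max 1 (C / η) < ‖y - x‖} from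
          ⟨hy, hy2⟩)]
        exact mul_le_mul_of_nonneg_right hy2.le (norm_nonneg _)
      · rw [Set.indicator_of_notMem (fun h => hy2 h.2), mul_zero]
        positivity
    · rw [Set.indicator_of_notMem hy, Set.indicator_of_notMem (fun h => hy h.1), mul_zero]
  have h3 := le_trans hle hCR
  exact le_of_mul_le_mul_left h3 hR0

end Pool.Agent.ST53
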