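import Pool.Agent.Lib.MP_53fa4a_an_ST.CDefs
import Pool.Agent.Lib.MP_53fa4a_an_ST.GSum
import Pool.Agent.Lib.MP_53fa4a_an_ST.BPl

/-!
# Part C: summability over `D = L + E`, the functions `F_φ`
-/

set_option autoImplicit false

open MeasureTheory
open scoped BigOperators Topology SchwartzMap ContDiff

noncomputable section

namespace Pool.Agent.ST53

variable {X : Type*} [NormedAddCommGroup X] [InnerProductSpace ℝ X] [FiniteDimensional ℝ X]

/-- The lattice of the points with integer coordinates. -/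
private theorem csum_lat {n : ℕ} (b : Module.Basis (Fin n) ℝ X) :
    ∃ M : Submodule ℤ X, DiscreteTopology M ∧ Module.finrank ℤ M = n ∧
      ∀ x, (∀ i, ∃ m : ℤ, inner ℝ (b i) x = (m : ℝ)) → x ∈ M := by
  have hfr : Module.finrank ℝ X = n := by
    rw [Module.finrank_eq_card_basis b, Fintype.card_fin]
  set c : X →ₗ[ℝ] (Fin n → ℝ) := LinearMap.pi fun i => innerₗ X (b i) with hc
  have hcx : ∀ x i, c x i = inner ℝ (b i) x := fun x i => rfl
  have hinj : Function.Injective c := by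
    rw [← LinearMap.ker_eq_bot, LinearMap.ker_eq_bot']
    intro x hx
    refine InnerProductSpace.ext_inner_left_basis b fun i => ?_
    rw [← hcx, hx, inner_zero_right]
    rfl
  set ε : X ≃ₗ[ℝ] (Fin n → ℝ) := LinearMap.linearEquivOfInjective c hinj
    (by rw [hfr, Module.finrank_fin_fun]) with hε
  set b'' : Module.Basis (Fin n) ℝ X := (Pi.basisFun ℝ (Fin n)).map ε.symm with hb
  have hrepr : ∀ x i, b''.repr x i = inner ℝ (b i) x := by
    intro x i
    rw [hb, Module.Basis.map_repr, LinearEquiv.trans_apply, LinearEquiv.symm_symm,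
      Pi.basisFun_repr, hε, LinearMap.linearEquivOfInjective_apply, hcx]
  refine ⟨Submodule.span ℤ (Set.range b''), inferInstance, ?_, ?_⟩
  · rw [ZLattice.rank ℝ, hfr]
  · intro x hx
    rw [Module.Basis.mem_span_iff_repr_mem]
    intro i
    obtain ⟨m, hm⟩ := hx i
    exact ⟨m, by rw [hrepr, hm]; rfl⟩

private theorem csum_coset {n : ℕ} {M : Submodule ℤ X} (hd : DiscreteTopology M)
    (hr : Module.finrank ℤ M = n) {Φ : X → ℂ} {C : ℝ}
    (h : ∀ x, ‖Φ x‖ * (1 + ‖x‖) ^ (n + 1) ≤ C) (a : X) :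
    Summable fun m : M => ‖Φ ((m : X) + a)‖ := by
  have hC : 0 ≤ C := (by positivity : 0 ≤ ‖Φ 0‖ * (1 + ‖(0 : X)‖) ^ (n + 1)).trans (h 0)
  have h1 : Summable fun m : M => C * ‖(m : X) - (-a)‖⁻¹ ^ (n + 1) :=
    (ZLattice.summable_norm_sub_inv_pow M (n + 1) (by rw [hr]; exact Nat.lt_succ_self n)
      (-a)).mul_left C
  refine h1.of_norm_bounded_eventually ?_
  have h2 : ∀ᶠ m : M in Filter.cofinite, (m : X) ≠ -a := by
    rw [Filter.eventually_cofinite]
    refine Set.Subsingleton.finite fun m hm m' hm' => ?_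
    simp only [ne_eq, not_not, Set.mem_ofPred_eq] at hm hm'
    exact Subtype.ext (hm.trans hm'.symm)
  filter_upwards [h2] with m hm
  have hz : 0 < ‖(m : X) + a‖ := by
    rw [norm_pos_iff]
    intro h3
    exact hm (eq_neg_of_add_eq_zero_left h3)
  rw [sub_neg_eq_add, norm_norm, inv_pow, ← div_eq_mul_inv, le_div_iff₀ (pow_pos hz _)]
  refine le_trans (mul_le_mul_of_nonneg_left ?_ (norm_nonneg _)) (h _)
  exact pow_le_pow_left₀ hz.le (by linarith) _

/-- PROOF: `M = {x | ∀ i, ⟨b i, x⟩ ∈ ℤ}` is a discrete subgroup of rank `n` (or: the coordinates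
`⟨b i, ·⟩` give an injection of `M` in `ℤ^n` with `‖x‖ ≥ c ‖coordinates‖`), `D ⊆ M + E`;
`ZLattice.summable_norm_rpow` or the sum over `ℤ^n`. -/
theorem summable_DD {n : ℕ} (b : Module.Basis (Fin n) ℝ X) (L : AddSubgroup X)
    (hL : ∀ l ∈ L, ∀ i, ∃ m : ℤ, inner ℝ (b i) l = (m : ℝ)) (E : Finset X) {Φ : X → ℂ} {C : ℝ}
    (h : ∀ x, ‖Φ x‖ * (1 + ‖x‖) ^ (n + 1) ≤ C) :
    Summable fun x => (DD L E).indicator (fun x => ‖Φ x‖) x := by
  classical
  obtain ⟨M, hd, hr, hM⟩ := csum_lat b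
  have h1 : ∀ a ∈ E, Summable fun x : X => if x - a ∈ M then ‖Φ x‖ else 0 := by
    intro a _
    have hinj : Function.Injective fun m : M => (m : X) + a :=
      fun m m' hm => Subtype.ext (add_right_cancel hm)
    rw [← hinj.summable_iff]
    · refine (csum_coset hd hr h a).congr fun m => ?_
      simp only [Function.comp_apply]
      rw [if_pos]
      rw [add_sub_cancel_right]
      exact m.2
    · intro x hx
      rw [if_neg]
      intro h2
      exact hx ⟨⟨x - a, h2⟩, sub_add_cancel x a⟩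
  have h2 := summable_sum h1
  refine Summable.of_nonneg_of_le (fun x => Set.indicator_nonneg (fun _ _ => norm_nonneg _) x)
    (fun x => ?_) h2
  have h0 : ∀ a ∈ E, (0 : ℝ) ≤ if x - a ∈ M then ‖Φ x‖ else 0 := by
    intro a _
    split_ifs
    · exact norm_nonneg _
    · exact le_rfl
  by_cases hx : x ∈ DD L E
  · rw [Set.indicator_of_mem hx]
    obtain ⟨l, hl, a, ha, hla⟩ := hx
    have h3 : x - a ∈ M := by
      rw [hla, add_sub_cancel_right]
      exact hM l (hL l hl)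
    have h4 : (if x - a ∈ M then ‖Φ x‖ else 0) = ‖Φ x‖ := if_pos h3
    calc ‖Φ x‖ = (if x - a ∈ M then ‖Φ x‖ else 0) := h4.symm
      _ ≤ _ := Finset.single_le_sum h0 ha
  · rw [Set.indicator_of_notMem hx]
    exact Finset.sum_nonneg h0

/-- PROOF: `1 + ‖y‖ ≤ (1 + ‖y - x‖) (1 + ‖x‖)` and the decay of `φ`. -/
theorem schwartz_shift (φ : 𝓢(X, ℂ)) (m : ℕ) (R : ℝ) :
    ∃ C, ∀ x, ‖x‖ ≤ R → ∀ y, ‖φ (y - x)‖ * (1 + ‖y‖) ^ m ≤ C := by
  refine ⟨(2 ^ m * (Finset.Iic (m, 0)).sup (fun m => SchwartzMap.seminorm ℝ m.1 m.2) φ) *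
    (1 + |R|) ^ m, fun x hx y => ?_⟩
  have h1 := SchwartzMap.one_add_le_sup_seminorm_apply (𝕜 := ℝ) (m := (m, 0))
    (k := m) (n := 0) le_rfl le_rfl φ (y - x)
  rw [norm_iteratedFDeriv_zero] at h1
  have h2 : 1 + ‖y‖ ≤ (1 + ‖y - x‖) * (1 + |R|) := by
    have h3 : ‖y‖ ≤ ‖y - x‖ + ‖x‖ := by
      calc ‖y‖ = ‖y - x + x‖ := by rw [sub_add_cancel]
        _ ≤ ‖y - x‖ + ‖x‖ := norm_add_le _ _
    have h4 := hx.trans (le_abs_self R)
    have h5 := mul_nonneg (norm_nonneg (y - x)) (abs_nonneg R)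
    linarith
  calc ‖φ (y - x)‖ * (1 + ‖y‖) ^ m ≤ ‖φ (y - x)‖ * ((1 + ‖y - x‖) * (1 + |R|)) ^ m :=
        mul_le_mul_of_nonneg_left (pow_le_pow_left₀ (by positivity) h2 m) (norm_nonneg _)
    _ = ((1 + ‖y - x‖) ^ m * ‖φ (y - x)‖) * (1 + |R|) ^ m := by rw [mul_pow]; ring
    _ ≤ _ := mul_le_mul_of_nonneg_right h1 (by positivity)

/-- a summable bound, uniform for `x` in a ball.  PROOF: `schwartz_shift` and `summable_DD` for
`Φ x = C / (1 + ‖x‖) ^ (n + 1)`. -/
theorem exists_bound {n : ℕ} (b : Module.Basis (Fin n) ℝ X) (L : AddSubgroup X)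
    (hL : ∀ l ∈ L, ∀ i, ∃ m : ℤ, inner ℝ (b i) l = (m : ℝ)) (E : Finset X) (φ : 𝓢(X, ℂ)) (R : ℝ) :
    ∃ B : X → ℝ, Summable B ∧ (∀ y, 0 ≤ B y) ∧
      ∀ x, ‖x‖ ≤ R → ∀ y ∈ DD L E, ‖φ (y - x)‖ ≤ B y := by
  obtain ⟨C, hC⟩ := schwartz_shift φ (n + 1) R
  set Φ : X → ℂ := fun y => ((|C| / (1 + ‖y‖) ^ (n + 1) : ℝ) : ℂ) with hΦ
  have hpos : ∀ y : X, 0 < (1 + ‖y‖) ^ (n + 1) := fun y => by positivity
  have hn : ∀ y, ‖Φ y‖ = |C| / (1 + ‖y‖) ^ (n + 1) := by
    intro y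
    rw [hΦ]
    simp only
    rw [Complex.norm_real, Real.norm_of_nonneg (div_nonneg (abs_nonneg _) (hpos y).le)]
  have h1 := summable_DD b L hL E (Φ := Φ) (C := |C|) (fun y => by
    rw [hn, div_mul_cancel₀ _ (hpos y).ne'])
  refine ⟨_, h1, fun y => Set.indicator_nonneg (fun _ _ => norm_nonneg _) y, ?_⟩
  intro x hx y hy
  rw [Set.indicator_of_mem hy, hn, le_div_iff₀ (hpos y)]
  exact (hC x hx y).trans (le_abs_self C)

omit [FiniteDimensional ℝ X] in
private theorem csum_le {L : AddSubgroup X} {E : Finset X} {f : X → ℂ}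
    {C : ℝ} (hf : ∀ x, ‖f x‖ ≤ C) (hs : ∀ x, f x ≠ 0 → x ∈ DD L E) (φ : 𝓢(X, ℂ)) (x y : X) :
    ‖f y * φ (y - x)‖ ≤ C * (DD L E).indicator (fun y => ‖φ (y - x)‖) y := by
  by_cases hy : y ∈ DD L E
  · rw [Set.indicator_of_mem hy, norm_mul]
    exact mul_le_mul_of_nonneg_right (hf y) (norm_nonneg _)
  · have h1 : f y = 0 := by
      by_contra h2
      exact hy (hs y h2)
    rw [Set.indicator_of_notMem hy, h1, zero_mul, norm_zero, mul_zero]

theorem cFF_summable {n : ℕ} (b : Module.Basis (Fin n) ℝ X) (L : AddSubgroup X)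
    (hL : ∀ l ∈ L, ∀ i, ∃ m : ℤ, inner ℝ (b i) l = (m : ℝ)) (E : Finset X) {f : X → ℂ}
    {C : ℝ} (hf : ∀ x, ‖f x‖ ≤ C) (hs : ∀ x, f x ≠ 0 → x ∈ DD L E) (φ : 𝓢(X, ℂ)) (x : X) :
    Summable fun y => f y * φ (y - x) := by
  let _ : MeasurableSpace X := borel X
  have : BorelSpace X := ⟨rfl⟩
  obtain ⟨K, hK⟩ := DD_bound b L hL E φ
  refine Summable.of_norm_bounded ((hK x).1.mul_left C) fun y => ?_
  exact csum_le hf hs φ x y

/-- PROOF: continuity by `continuous_tsum` locally (`exists_bound`).  Boundedness: for `x` take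
`l` in the dual lattice `L'` of `b` (cocompact) with `‖x - l‖ ≤ R`, and shift the sum by `l`:
`y - l` is in `L' + E`, so use `exists_bound` for `L'`.  (Or from `DD_bound`, `DD_tail`, GSum.) -/
theorem cFF_bc {n : ℕ} (b : Module.Basis (Fin n) ℝ X) (L : AddSubgroup X)
    (hL : ∀ l ∈ L, ∀ i, ∃ m : ℤ, inner ℝ (b i) l = (m : ℝ)) (E : Finset X) {f : X → ℂ}
    {C : ℝ} (hf : ∀ x, ‖f x‖ ≤ C) (hs : ∀ x, f x ≠ 0 → x ∈ DD L E) (φ : 𝓢(X, ℂ)) :
    BC (FF f φ) := by
  have hC0 : 0 ≤ C := (norm_nonneg _).trans (hf 0)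
  constructor
  · rw [continuous_iff_continuousAt]
    intro x₀
    obtain ⟨B, hB, hB0, hB1⟩ := exists_bound b L hL E φ (‖x₀‖ + 1)
    have h1 : ContinuousOn (fun x => ∑' y, f y * φ (y - x)) (Metric.ball x₀ 1) := by
      refine continuousOn_tsum (u := fun y => C * B y) (fun y => ?_) (hB.mul_left C) ?_
      · exact (continuous_const.mul
          (φ.continuous.comp (continuous_const.sub continuous_id))).continuousOn
      · intro y x hx
        have hx' : ‖x‖ ≤ ‖x₀‖ + 1 := by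
          rw [mem_ball_iff_norm] at hx
          calc ‖x‖ = ‖x₀ + (x - x₀)‖ := by rw [add_sub_cancel]
            _ ≤ ‖x₀‖ + ‖x - x₀‖ := norm_add_le _ _
            _ ≤ ‖x₀‖ + 1 := by linarith
        by_cases hy : y ∈ DD L E
        · rw [norm_mul]
          exact mul_le_mul (hf y) (hB1 x hx' y hy) (norm_nonneg _) hC0
        · have h2 : f y = 0 := by
            by_contra h3
            exact hy (hs y h3)
          rw [h2, zero_mul, norm_zero]
          exact mul_nonneg hC0 (hB0 y)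
    exact h1.continuousAt (Metric.ball_mem_nhds x₀ one_pos)
  · let _ : MeasurableSpace X := borel X
    have : BorelSpace X := ⟨rfl⟩
    obtain ⟨K, hK⟩ := DD_bound b L hL E φ
    refine ⟨C * K, fun x => ?_⟩
    have h1 := (hK x).1.mul_left C
    calc ‖FF f φ x‖ ≤ ∑' y, C * (DD L E).indicator (fun y => ‖φ (y - x)‖) y :=
          tsum_of_norm_bounded h1.hasSum fun y => csum_le hf hs φ x y
      _ = C * ∑' y, (DD L E).indicator (fun y => ‖φ (y - x)‖) y := tsum_mul_left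
      _ ≤ C * K := mul_le_mul_of_nonneg_left (hK x).2 hC0

/-- `FF f φ (x + v) = FF (sh v f) φ x = FF f (φ(· - v)) x` -/
theorem cFF_sh (f φ : X → ℂ) (v x : X) : FF f φ (x + v) = FF (sh v f) φ x := by
  unfold FF sh
  rw [← (Equiv.addRight v).tsum_eq (fun y => f y * φ (y - (x + v)))]
  refine tsum_congr fun y => ?_
  simp only [Equiv.coe_addRight]
  rw [add_sub_add_right_eq_sub]

theorem cFF_sh' (f φ : X → ℂ) (v x : X) : FF f φ (x + v) = FF f (fun y => φ (y - v)) x := by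
  unfold FF
  refine tsum_congr fun y => ?_
  simp only
  rw [sub_sub]

theorem cFF_dif {n : ℕ} (b : Module.Basis (Fin n) ℝ X) (L : AddSubgroup X)
    (hL : ∀ l ∈ L, ∀ i, ∃ m : ℤ, inner ℝ (b i) l = (m : ℝ)) (E : Finset X) {f : X → ℂ}
    {C : ℝ} (hf : ∀ x, ‖f x‖ ≤ C) (hs : ∀ x, f x ≠ 0 → x ∈ DD L E) (φ : 𝓢(X, ℂ)) (v : X) :
    FF (dif v f) φ = dif v (FF f φ) := by
  funext x
  have h1 := cFF_summable b L hL E hf hs φ x
  have h2 : Summable fun y => sh v f y * φ (y - x) := by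
    have h3 := cFF_summable b L hL E hf hs φ (x + v)
    rw [← (Equiv.addRight v).summable_iff] at h3
    refine h3.congr fun y => ?_
    simp only [Function.comp_apply, Equiv.coe_addRight, sh]
    rw [add_sub_add_right_eq_sub]
  have h4 : FF (dif v f) φ x = FF f φ x - FF (sh v f) φ x := by
    unfold FF
    rw [← h1.tsum_sub h2]
    refine tsum_congr fun y => ?_
    simp only [dif, sh]
    ring
  rw [h4, ← cFF_sh]
  rfl

omit [FiniteDimensional ℝ X] in
theorem Sig.bdd {L : AddSubgroup X} {E : Finset X} {A : Finset ℂ} {f : X → ℂ} (h : Sig L E A f) :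
    ∃ C, ∀ x, ‖f x‖ ≤ C := by
  refine ⟨∑ a ∈ A, ‖a‖, fun x => ?_⟩
  have h0 : ∀ a ∈ A, 0 ≤ ‖a‖ := fun a _ => norm_nonneg a
  rcases h.val x with h1 | h1
  · rw [h1, norm_zero]
    exact Finset.sum_nonneg h0
  · exact Finset.single_le_sum h0 h1

omit [FiniteDimensional ℝ X] in
theorem Sig.dif {L : AddSubgroup X} {E : Finset X} {A : Finset ℂ} {f : X → ℂ} (h : Sig L E A f)
    {v : X} (hv : v ∈ L) : Sig L E (vals 1 A) (ST53.dif v f) := by
  constructor
  · intro x hx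
    have h1 : f x ≠ 0 ∨ f (x + v) ≠ 0 := by
      by_contra h2
      push Not at h2
      refine hx ?_
      show f x - f (x + v) = 0
      rw [h2.1, h2.2, sub_zero]
    rcases h1 with h1 | h1
    · exact h.supp x h1
    · obtain ⟨l, hl, a, ha, hla⟩ := h.supp _ h1
      refine ⟨l - v, L.sub_mem hl hv, a, ha, ?_⟩
      rw [eq_sub_of_add_eq hla]
      abel
  · intro x
    right
    have h1 := Pl_vals [v] h.val x
    exact h1

private theorem csum_zero_mem (k : ℕ) (A : Finset ℂ) : (0 : ℂ) ∈ vals k A := by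
  induction k with
  | zero => exact Finset.mem_insert_self _ _
  | succ k ih =>
    exact Finset.mem_image.2 ⟨(0, 0), Finset.mem_product.2 ⟨ih, ih⟩, sub_zero 0⟩

omit [InnerProductSpace ℝ X] [FiniteDimensional ℝ X] in
private theorem csum_supp {L : AddSubgroup X} {E : Finset X} {f : X → ℂ}
    (h : ∀ x, f x ≠ 0 → x ∈ DD L E) {v : X} (hv : v ∈ L) :
    ∀ x, ST53.dif v f x ≠ 0 → x ∈ DD L E := by
  intro x hx
  have h1 : f x ≠ 0 ∨ f (x + v) ≠ 0 := by
    by_contra h2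
    push Not at h2
    refine hx ?_
    show f x - f (x + v) = 0
    rw [h2.1, h2.2, sub_zero]
  rcases h1 with h1 | h1
  · exact h x h1
  · obtain ⟨l, hl, a, ha, hla⟩ := h _ h1
    refine ⟨l - v, L.sub_mem hl hv, a, ha, ?_⟩
    rw [eq_sub_of_add_eq hla]
    abel

omit [FiniteDimensional ℝ X] in
theorem Sig.Pl {L : AddSubgroup X} {E : Finset X} {A : Finset ℂ} {f : X → ℂ} (h : Sig L E A f)
    {V : List X} (hV : ∀ v ∈ V, v ∈ L) : Sig L E (vals V.length A) (ST53.Pl V f) := by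
  refine ⟨?_, fun x => Or.inr (Pl_vals V h.val x)⟩
  induction V with
  | nil => exact h.supp
  | cons v V ih =>
    exact csum_supp (ih fun w hw => hV w (List.mem_cons_of_mem _ hw))
      (hV v List.mem_cons_self)

theorem cFF_Pl {n : ℕ} (b : Module.Basis (Fin n) ℝ X) {L : AddSubgroup X}
    (hL : ∀ l ∈ L, ∀ i, ∃ m : ℤ, inner ℝ (b i) l = (m : ℝ)) {E : Finset X} {A : Finset ℂ}
    {f : X → ℂ} (h : Sig L E A f) {V : List X} (hV : ∀ v ∈ V, v ∈ L) (φ : 𝓢(X, ℂ)) :
    FF (ST53.Pl V f) φ = ST53.Pl V (FF f φ) := by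
  induction V with
  | nil => rfl
  | cons v V ih =>
    have h1 := h.Pl (V := V) fun w hw => hV w (List.mem_cons_of_mem _ hw)
    obtain ⟨C, hC⟩ := h1.bdd
    have h2 := ih fun w hw => hV w (List.mem_cons_of_mem _ hw)
    change FF (ST53.dif v (ST53.Pl V f)) φ = ST53.dif v (ST53.Pl V (FF f φ))
    rw [cFF_dif b L hL E hC h1.supp φ v, h2]

end Pool.Agent.ST53
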