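import Pool.Agent.Lib.MP_53fa4a_an_ST.GTT

/-!
# Part C: the test functions `TT κ r`
-/

set_option autoImplicit false

open MeasureTheory
open scoped BigOperators Topology SchwartzMap ContDiff

noncomputable section

namespace Pool.Agent.ST53

variable {X : Type*} [NormedAddCommGroup X] [InnerProductSpace ℝ X] [FiniteDimensional ℝ X]
  [MeasurableSpace X] [BorelSpace X]

theorem cTT_mono (κ : X) {r r' : ℝ} (h : r ≤ r') : TT κ r ⊆ TT κ r' := by
  rintro φ ⟨ψ, h1, h2, h3⟩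
  exact ⟨ψ, h1, fun ζ hζ => (h2 ζ hζ).trans h, h3⟩

/-- PROOF: from the theorem (g)TT_schwartz of GTT.lean (import it). -/
theorem cTT_sch {κ : X} {r : ℝ} {φ : X → ℂ} (h : φ ∈ TT κ r) : ∃ Φ : 𝓢(X, ℂ), ⇑Φ = φ := by
  obtain ⟨Φ, hΦ⟩ := gTT_schwartz h
  exact ⟨Φ, funext hΦ⟩

/-- PROOF: `ψ` is multiplied by `c` and by `e⟨ζ, v⟩`. -/
theorem cTT_shift {κ : X} {r : ℝ} {φ : X → ℂ} (h : φ ∈ TT κ r) (c : ℂ) (v : X) :
    (fun x => c * φ (x - v)) ∈ TT κ r := by
  obtain ⟨ψ, h1, h2, h3⟩ := gTT_trans h v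
  refine ⟨fun ζ => c * ψ ζ, contDiff_const.mul h1, fun ζ hζ => h2 ζ (right_ne_zero_of_mul hζ),
    fun x => ?_⟩
  have h4 := h3 x
  simp only at h4 ⊢
  rw [h4, ← integral_const_mul]
  refine integral_congr_ae (Filter.Eventually.of_forall fun ζ => ?_)
  simp only
  ring

/-- PROOF: `ψ` is translated by `w` (`integral_add_right_eq_self`). -/
theorem cTT_mul {κ : X} {r : ℝ} {φ : X → ℂ} (h : φ ∈ TT κ r) (w : X) :
    (fun x => e (inner ℝ w x) * φ x) ∈ TT κ (r + ‖w‖) := by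
  obtain ⟨ψ, h1, h2, h3⟩ := h
  refine ⟨fun ζ => ψ (ζ + w), h1.comp (contDiff_id.add contDiff_const), fun ζ hζ => ?_,
    fun x => ?_⟩
  · have h4 := h2 _ hζ
    have h5 : ζ - κ = (ζ + w - κ) - w := by abel
    rw [h5]
    exact (norm_sub_le _ _).trans (by linarith)
  · have h6 : (fun ζ => ψ (ζ + w) * e (-(inner ℝ ζ x))) =
        fun ζ => (fun ξ => e (inner ℝ w x) * (ψ ξ * e (-(inner ℝ ξ x)))) (ζ + w) := by
      funext ζ
      simp only
      have h7 : -(inner ℝ ζ x) = inner ℝ w x + -(inner ℝ (ζ + w) x) := by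
        rw [inner_add_left]
        ring
      rw [h7, e_add]
      ring
    rw [h6, integral_add_right_eq_self (fun ξ => e (inner ℝ w x) * (ψ ξ * e (-(inner ℝ ξ x)))) w,
      integral_const_mul, ← h3 x]

section bump

open scoped FourierTransform ComplexConjugate Convolution

private theorem ctt_fourier (f : X → ℂ) (x : X) :
    (𝓕 f) x = ∫ ζ, f ζ * e (-(inner ℝ ζ x)) := by
  rw [Real.fourier_eq']
  refine integral_congr_ae (Filter.Eventually.of_forall fun ζ => ?_)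
  simp only [smul_eq_mul]
  rw [mul_comm]
  congr 1
  unfold e
  congr 1
  push_cast
  ring

private theorem conj_e (t : ℝ) : conj (e t) = e (-t) := by
  unfold e
  rw [← Complex.exp_conj]
  congr 1
  simp only [map_mul, Complex.conj_ofReal, Complex.conj_I, map_ofNat, Complex.ofReal_neg]
  ring

/-- A smooth even bump function, its transform is real. -/
private theorem ctt_bump {r : ℝ} (hr : 0 < r) : ∃ χ : X → ℂ, ContDiff ℝ ∞ χ ∧
    HasCompactSupport χ ∧ (∀ ζ, χ ζ ≠ 0 → ‖ζ‖ < r) ∧ Continuous (𝓕 χ) ∧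
    (∀ x, conj ((𝓕 χ) x) = (𝓕 χ) x) ∧ (𝓕 χ) 0 ≠ 0 := by
  let β : ContDiffBump (0 : X) := ⟨r / 2, r, by positivity, by linarith⟩
  have hc : ContDiff ℝ ∞ (fun ζ : X => ((β ζ : ℝ) : ℂ)) :=
    Complex.ofRealCLM.contDiff.comp β.contDiff
  have hs : HasCompactSupport (fun ζ : X => ((β ζ : ℝ) : ℂ)) :=
    β.hasCompactSupport.comp_left (g := fun t : ℝ => (t : ℂ)) (by simp)
  refine ⟨fun ζ => ((β ζ : ℝ) : ℂ), hc, hs, ?_, ?_, ?_, ?_⟩
  · intro ζ hζ
    have h1 : ζ ∈ Function.support β := fun h => hζ (by simp [h])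
    rw [β.support_eq] at h1
    simpa using h1
  · have h1 : (⇑(𝓕 (hs.toSchwartzMap hc) : 𝓢(X, ℂ)) : X → ℂ) =
        𝓕 (fun ζ : X => ((β ζ : ℝ) : ℂ)) := by
      rw [SchwartzMap.fourier_coe]
      rfl
    rw [← h1]
    exact SchwartzMap.continuous _
  · intro x
    rw [ctt_fourier, ← integral_conj]
    have h1 : (fun ζ => conj (((β ζ : ℝ) : ℂ) * e (-(inner ℝ ζ x)))) =
        fun ζ => (fun ξ => ((β ξ : ℝ) : ℂ) * e (-(inner ℝ ξ x))) (-ζ) := by
      funext ζ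
      simp only
      rw [map_mul, Complex.conj_ofReal, conj_e, β.neg, inner_neg_left]
    rw [h1, integral_neg_eq_self (fun ξ => ((β ξ : ℝ) : ℂ) * e (-(inner ℝ ξ x)))]
  · rw [ctt_fourier]
    have h1 : (∫ ζ, ((β ζ : ℝ) : ℂ) * e (-(inner ℝ ζ (0 : X)))) = ((∫ ζ, β ζ : ℝ) : ℂ) := by
      rw [← integral_complex_ofReal]
      refine integral_congr_ae (Filter.Eventually.of_forall fun ζ => ?_)
      simp
    rw [h1]
    exact_mod_cast (β.integral_pos (μ := volume)).ne'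

end bump

/-- PROOF: `χ` a real smooth bump function with support in `B(0,r/2)`, `∫ χ > 0`;
`ψ ζ = ∫ χ(ξ) χ(ξ - (ζ - κ)) dξ` is smooth with support in `B(κ,r)`, and
`φ x = e(-⟨κ,x⟩) |∫ χ(ξ) e(-⟨ξ,x⟩) dξ|²`. -/
theorem cTT_exists (κ : X) {r : ℝ} (hr : 0 < r) : ∃ φ ∈ TT κ r, ∃ η : X → ℝ, Continuous η ∧
    (∀ x, 0 ≤ η x) ∧ 0 < η 0 ∧ ∀ x, φ x = e (-(inner ℝ κ x)) * (η x : ℂ) := by
  open scoped FourierTransform Convolution in
  obtain ⟨χ, hc, hs, hr1, hcont, hre, h0⟩ := ctt_bump (X := X) (half_pos hr)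
  have hi : Integrable χ := hc.continuous.integrable_of_hasCompactSupport hs
  set F : X → ℂ := FourierTransform.fourier χ with hF
  set ψ : X → ℂ := convolution χ χ (ContinuousLinearMap.mul ℂ ℂ) volume with hψ
  have hψF : ∀ x, (∫ ζ, ψ ζ * e (-(inner ℝ ζ x))) = F x * F x := by
    intro x
    rw [← ctt_fourier, hψ, Real.fourier_mul_convolution_eq hi hi]
  refine ⟨fun x => e (-(inner ℝ κ x)) * (F x * F x), ⟨fun ζ => ψ (ζ - κ), ?_, ?_, ?_⟩,
    fun x => ‖F x‖ ^ 2, by fun_prop, fun x => by positivity, ?_, ?_⟩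
  · have h1 : ContDiff ℝ ∞ ψ := by
      have h2 : ContDiff ℝ ∞ (convolution χ χ (ContinuousLinearMap.mul ℝ ℂ) volume) :=
        hs.contDiff_convolution_right _ hc.continuous.locallyIntegrable hc
      exact h2
    exact h1.comp (contDiff_id.sub contDiff_const)
  · intro ζ hζ
    have h1 : ζ - κ ∈ Function.support ψ := hζ
    obtain ⟨a, ha, b, hb, hab⟩ := Set.mem_add.1 (support_convolution_subset _ h1)
    have h2 := hr1 a ha
    have h3 := hr1 b hb
    rw [← hab]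
    exact (norm_add_le _ _).trans (by linarith)
  · intro x
    simp only
    rw [← hψF x, ← integral_const_mul]
    rw [← integral_sub_right_eq_self
      (fun ζ => e (-(inner ℝ κ x)) * (ψ ζ * e (-(inner ℝ ζ x)))) κ]
    refine integral_congr_ae (Filter.Eventually.of_forall fun ζ => ?_)
    simp only
    have h1 : -(inner ℝ ζ x) = -(inner ℝ κ x) + -(inner ℝ (ζ - κ) x) := by
      rw [inner_sub_left]
      ring
    rw [h1, e_add]
    ring
  · have : F 0 ≠ 0 := h0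
    positivity
  · intro x
    simp only
    congr 1
    have h1 : F x * F x = F x * (starRingEnd ℂ) (F x) := by rw [hre x]
    rw [h1, Complex.mul_conj, Complex.normSq_eq_norm_sq]

/-- PROOF: `FF f φ x = ∑ f y φ(y - x)`, `φ(· - x) ∈ TT κ r` (`cTT_shift`). -/
theorem cFF_gap {κ : X} {ρ r : ℝ} {f φ : X → ℂ} (hf : GapAt κ ρ f) (hr : r < ρ)
    (h : φ ∈ TT κ r) : FF f φ = 0 := by
  funext x
  have h1 := hf r hr _ (cTT_shift h 1 x)
  simpa [FF] using h1

end Pool.Agent.ST53
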