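import Pool.Agent.Lib.MP_53fa4a_an_ST.CDelta

/-!
# MP_53fa4a_an, project ST, part C3: the tree
-/

set_option autoImplicit false

open MeasureTheory
open scoped BigOperators Topology

noncomputable section

namespace Pool.Agent.ST53

set_option linter.unusedSectionVars false

variable {X : Type*} [NormedAddCommGroup X] [InnerProductSpace ℝ X]

/-! ### equivariant functions -/

theorem eqv_zero (V : Submodule ℝ X) (κ : X) : Eqv V κ (0 : X → ℂ) := by
  intro w _ x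
  simp

theorem Eqv.dl_eq_zero {V : Submodule ℝ X} {κ : X} {G : X → ℂ} (h : Eqv V κ G) {q : X}
    (hq : q ∈ V) (s : ℝ) : Dl κ q s G = 0 := by
  funext x
  have h1 := h (s • q) (V.smul_mem s hq) x
  show e (-(s * inner ℝ κ q)) * G (x + s • q) - G x = 0
  rw [h1, ← mul_assoc, real_inner_smul_right, e_neg, one_mul, sub_self]

theorem Eqv.dl {W : Submodule ℝ X} {κ : X} {G : X → ℂ} (h : Eqv W κ G) (q : X) (s : ℝ) :
    Eqv W κ (Dl κ q s G) := by
  intro w hw x
  simp only [Dl]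
  rw [add_right_comm x w (s • q), h w hw, h w hw]
  ring

theorem Eqv.sup_span {W : Submodule ℝ X} {κ : X} {G : X → ℂ} (h : Eqv W κ G) {q : X}
    (hq : ∀ s : ℝ, Dl κ q s G = 0) : Eqv (W ⊔ Submodule.span ℝ {q}) κ G := by
  intro w hw x
  obtain ⟨y, hy, z, hz, rfl⟩ := Submodule.mem_sup.1 hw
  obtain ⟨s, rfl⟩ := Submodule.mem_span_singleton.1 hz
  have h1 : G (x + y + s • q) = e (s * inner ℝ κ q) * G (x + y) := by
    have h2 := congrFun (hq s) (x + y)
    simp only [Dl, Pi.zero_apply] at h2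
    have h3 := sub_eq_zero.1 h2
    rw [← h3, ← mul_assoc, mul_comm (e _) (e _), e_neg, one_mul]
  rw [← add_assoc, h1, h y hy, ← mul_assoc, ← e_add, inner_add_right, real_inner_smul_right,
    add_comm]

/-- Peeling off the factors. -/
theorem peel {V : Submodule ℝ X} {κ : X} {F : Set (X → ℂ)} (hBC : ∀ H ∈ F, BC H)
    (hcl : ∀ H ∈ F, ∀ (q : X) (s : ℝ), Dl κ q s H ∈ F) (ql : List X) :
    (∀ q ∈ ql, q ∈ V) → (∀ H ∈ F, ∀ q ∈ ql, (∀ s : ℝ, Dl κ q s H = 0) → Eqv V κ H) →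
    ∀ G ∈ F, (∀ S : List ℝ, S.length = ql.length → Dls κ (ql.zip S) G = 0) → Eqv V κ G := by
  have hdls : ∀ (P : List (X × ℝ)) (H : X → ℂ), H ∈ F → Dls κ P H ∈ F := by
    intro P
    induction P with
    | nil => intro H hH; exact hH
    | cons p P ih => intro H hH; exact hcl _ (ih H hH) _ _
  induction ql with
  | nil =>
    intro _ _ G _ h
    have h1 : G = 0 := h [] rfl
    rw [h1]
    exact eqv_zero V κ
  | cons q ql ih =>
    intro hV hA G hG h
    have key : ∀ S : List ℝ, S.length = ql.length → Eqv V κ (Dls κ (ql.zip S) G) := by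
      intro S hS
      refine hA _ (hdls _ _ hG) q List.mem_cons_self fun s => ?_
      have h1 := h (s :: S) (by simp [hS])
      rw [List.zip_cons_cons] at h1
      exact h1
    cases ql with
    | nil => exact key [] rfl
    | cons q2 ql2 =>
      refine ih (fun r hr => hV r (List.mem_cons_of_mem _ hr))
        (fun H hH r hr => hA H hH r (List.mem_cons_of_mem _ hr)) G hG fun S hS => ?_
      obtain ⟨s2, S2, rfl⟩ : ∃ s S', S = s :: S' := by
        cases S with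
        | nil => simp at hS
        | cons s S' => exact ⟨s, S', rfl⟩
      have h1 := key (s2 :: S2) hS
      rw [List.zip_cons_cons] at h1 ⊢
      have h2 : Dl κ q2 s2 (Dls κ ((q2, s2) :: ql2.zip S2) G) = 0 :=
        h1.dl_eq_zero (hV q2 (List.mem_cons_of_mem _ List.mem_cons_self)) s2
      exact dl_dl_zero ((hBC _ hG).dls κ (ql2.zip S2)) h2

/-! ### rational subspaces -/

/-- `W` is spanned by elements `q` of `L` with `⟨κ,q⟩ ∈ ℤ` -/
def Rat (L : AddSubgroup X) (κ : X) (W : Submodule ℝ X) : Prop :=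
  ∃ S : Set X, (∀ q ∈ S, q ∈ L ∧ ∃ n : ℤ, inner ℝ κ q = (n : ℝ)) ∧ W = Submodule.span ℝ S

theorem Rat.bot (L : AddSubgroup X) (κ : X) : Rat L κ (⊥ : Submodule ℝ X) :=
  ⟨∅, fun _ h => absurd h (Set.notMem_empty _), Submodule.span_empty.symm⟩

theorem Rat.sup_span {L : AddSubgroup X} {κ : X} {W : Submodule ℝ X} (h : Rat L κ W) {q : X}
    (hq : q ∈ L) (hn : ∃ n : ℤ, inner ℝ κ q = (n : ℝ)) :
    Rat L κ (W ⊔ Submodule.span ℝ {q}) := by
  obtain ⟨S, hS, rfl⟩ := h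
  refine ⟨S ∪ {q}, ?_, (Submodule.span_union S {q}).symm⟩
  rintro r (hr | hr)
  · exact hS r hr
  · rw [Set.mem_singleton_iff] at hr
    rw [hr]
    exact ⟨hq, hn⟩

/-- the restriction of `⟨κ,·⟩` to `W` -/
def rs (W : Submodule ℝ X) (κ : X) : W →ₗ[ℝ] ℝ := (innerₗ X κ).domRestrict W

theorem rs_eq_iff {W : Submodule ℝ X} {κ κ' : X} :
    rs W κ = rs W κ' ↔ ∀ w ∈ W, inner ℝ κ w = inner ℝ κ' w := by
  constructor
  · intro h w hw
    have h1 := LinearMap.congr_fun h ⟨w, hw⟩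
    simpa [rs] using h1
  · intro h
    ext w
    simpa [rs] using h w.1 w.2

theorem rs_sup_eq {W : Submodule ℝ X} {κ κ' q : X} (h : rs W κ = rs W κ')
    (hq : inner ℝ κ q = inner ℝ κ' q) :
    rs (W ⊔ Submodule.span ℝ {q}) κ = rs (W ⊔ Submodule.span ℝ {q}) κ' := by
  rw [rs_eq_iff] at h ⊢
  intro w hw
  obtain ⟨y, hy, z, hz, rfl⟩ := Submodule.mem_sup.1 hw
  obtain ⟨s, rfl⟩ := Submodule.mem_span_singleton.1 hz
  rw [inner_add_right, inner_add_right, real_inner_smul_right, real_inner_smul_right, h y hy, hq]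

theorem exists_list_bound (l : List X) (R : ℝ) : ∃ M : ℕ, ∀ q ∈ l, R * ‖q‖ ≤ M := by
  induction l with
  | nil => exact ⟨0, fun q hq => absurd hq List.not_mem_nil⟩
  | cons a l ih =>
    obtain ⟨M, hM⟩ := ih
    refine ⟨max M ⌈R * ‖a‖⌉₊, fun q hq => ?_⟩
    rcases List.mem_cons.1 hq with rfl | hq
    · exact (Nat.le_ceil _).trans (by exact_mod_cast le_max_right _ _)
    · exact (hM q hq).trans (by exact_mod_cast le_max_left _ _)

theorem sublist_flatMap {α β : Type*} {f : α → List β} {l : List α} {a : α} (h : a ∈ l) :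
    (f a).Sublist (l.flatMap f) := by
  induction l with
  | nil => exact absurd h List.not_mem_nil
  | cons b l ih =>
    rw [List.flatMap_cons]
    rcases List.mem_cons.1 h with rfl | h
    · exact List.sublist_append_left _ _
    · exact (ih h).trans (List.sublist_append_right _ _)

/-- all the node equations for `κ` -/
def Nodes (V : Submodule ℝ X) (L : AddSubgroup X)
    (N : (W : Submodule ℝ X) → (W →ₗ[ℝ] ℝ) → List X) (κ : X) (G : X → ℂ) : Prop :=
  ∀ W : Submodule ℝ X, W ≤ V → W ≠ V → Rat L κ W → Op W κ (N W (rs W κ)) G = 0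

theorem Nodes.op {V : Submodule ℝ X} {L : AddSubgroup X}
    {N : (W : Submodule ℝ X) → (W →ₗ[ℝ] ℝ) → List X} {κ : X} {G : X → ℂ} (h : Nodes V L N κ G)
    (hG : BC G) (Q : List X) : Nodes V L N κ (Op V κ Q G) := by
  intro W h1 h2 h3
  rw [op_op W V κ κ _ Q hG, h W h1 h2 h3, op_zero]

theorem Nodes.dl {V : Submodule ℝ X} {L : AddSubgroup X}
    {N : (W : Submodule ℝ X) → (W →ₗ[ℝ] ℝ) → List X} {κ : X} {G : X → ℂ} (h : Nodes V L N κ G)
    (hG : BC G) (q : X) (s : ℝ) : Nodes V L N κ (Dl κ q s G) := by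
  intro W h1 h2 h3
  rw [← dl_op W κ κ q s _ hG, h W h1 h2 h3, dl_zero]

/-- **C3**, the claim for `W`. -/
theorem tree_claim [FiniteDimensional ℝ X] (V : Submodule ℝ X) {K : Set X}
    (hK : Bornology.IsBounded K) (L : AddSubgroup X)
    (N : (W : Submodule ℝ X) → (W →ₗ[ℝ] ℝ) → List X)
    (hN : ∀ W l, ∀ q ∈ N W l, q ∈ L ∧ q ≠ 0) :
    ∀ (n : ℕ) (W : Submodule ℝ X), W ≤ V →
      Module.finrank ℝ V ≤ Module.finrank ℝ W + n → ∀ l : W →ₗ[ℝ] ℝ,
      ∃ Q : List X, (∀ q ∈ Q, q ∈ L ∧ q ≠ 0) ∧ ∀ κ ∈ K, rs W κ = l → Rat L κ W →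
        ∀ G : X → ℂ, BC G → Nodes V L N κ G → Eqv W κ (Op V κ Q G) →
          Eqv V κ (Op V κ Q G) := by
  obtain ⟨R, hR⟩ := hK.exists_norm_le
  intro n
  induction n with
  | zero =>
    intro W hWV hf l
    have hWV2 : W = V := Submodule.eq_of_le_of_finrank_le hWV (by simpa using hf)
    subst hWV2
    exact ⟨[], fun q hq => absurd hq List.not_mem_nil, fun κ _ _ _ G _ _ h => h⟩
  | succ n ih =>
    intro W hWV hf l
    by_cases hne : W = V
    · subst hne
      exact ⟨[], fun q hq => absurd hq List.not_mem_nil, fun κ _ _ _ G _ _ h => h⟩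
    -- the children
    have child : ∀ (q : X) (m : ℤ), ∃ Q : List X, (∀ r ∈ Q, r ∈ L ∧ r ≠ 0) ∧
        (q ∈ V → q ∉ W → ∀ κ ∈ K, rs W κ = l → inner ℝ κ q = (m : ℝ) →
          Rat L κ (W ⊔ Submodule.span ℝ {q}) → ∀ G : X → ℂ, BC G → Nodes V L N κ G →
          Eqv (W ⊔ Submodule.span ℝ {q}) κ (Op V κ Q G) → Eqv V κ (Op V κ Q G)) := by
      intro q m
      by_cases hex : (q ∈ V ∧ q ∉ W) ∧ ∃ κ₁ ∈ K, rs W κ₁ = l ∧ inner ℝ κ₁ q = (m : ℝ)
      · obtain ⟨⟨hqV, hqW⟩, κ₁, hκ₁, h1, h2⟩ := hex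
        have hle : W ⊔ Submodule.span ℝ {q} ≤ V :=
          sup_le hWV ((Submodule.span_singleton_le_iff_mem q V).2 hqV)
        have hlt : Module.finrank ℝ W < Module.finrank ℝ
            ((W ⊔ Submodule.span ℝ {q} : Submodule ℝ X)) := by
          apply Submodule.finrank_lt_finrank_of_lt
          refine lt_of_le_of_ne le_sup_left fun h => hqW ?_
          rw [h]
          exact Submodule.mem_sup_right (Submodule.mem_span_singleton_self q)
        obtain ⟨Q, hQ1, hQ2⟩ := ih (W ⊔ Submodule.span ℝ {q}) hle (by omega)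
          (rs (W ⊔ Submodule.span ℝ {q}) κ₁)
        refine ⟨Q, hQ1, fun _ _ κ hκ h3 h4 => hQ2 κ hκ ?_⟩
        exact rs_sup_eq (h3.trans h1.symm) (h4.trans h2.symm)
      · refine ⟨[], fun q hq => absurd hq List.not_mem_nil, fun h1 h2 κ hκ h3 h4 => ?_⟩
        exact absurd ⟨⟨h1, h2⟩, κ, hκ, h3, h4⟩ hex
    choose C hC1 hC2 using child
    obtain ⟨M, hM⟩ := exists_list_bound (N W l) R
    set big : List X := (N W l).flatMap fun q =>
      (Finset.Icc (-(M : ℤ)) M).toList.flatMap (C q) with hbig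
    refine ⟨N W l ++ big, ?_, ?_⟩
    · intro q hq
      rcases List.mem_append.1 hq with hq | hq
      · exact hN W l q hq
      · obtain ⟨r, _, hr⟩ := List.mem_flatMap.1 hq
        obtain ⟨m, _, hm⟩ := List.mem_flatMap.1 hr
        exact hC1 r m q hm
    intro κ hκ hl hRat G hG hnod hEq
    set ql := diffs V W κ (N W l) with hql
    have hmem : ∀ q ∈ ql, q ∈ N W l ∧ q ∈ V ∧ q ∉ W ∧ ∃ m : ℤ, inner ℝ κ q = (m : ℝ) := by
      intro q hq
      rw [hql, diffs, List.mem_filter] at hq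
      exact ⟨hq.1, by simpa using hq.2⟩
    -- the class of functions
    let F : Set (X → ℂ) := {H | BC H ∧ Eqv W κ H ∧ ∀ q ∈ ql, ∃ m : ℤ, inner ℝ κ q = (m : ℝ) ∧
      ∃ H0, BC H0 ∧ Nodes V L N κ H0 ∧ H = Op V κ (C q m) H0}
    refine peel (F := F) (fun H hH => hH.1) ?_ ql (fun q hq => (hmem q hq).2.1) ?_
      (Op V κ (N W l ++ big) G) ?_ ?_
    · rintro H ⟨h1, h2, h3⟩ r s
      refine ⟨h1.dl κ r s, h2.dl r s, fun q hq => ?_⟩
      obtain ⟨m, hm, H0, h4, h5, h6⟩ := h3 q hq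
      refine ⟨m, hm, Dl κ r s H0, h4.dl κ r s, h5.dl h4 r s, ?_⟩
      rw [h6, dl_op V κ κ r s (C q m) h4]
    · rintro H ⟨h1, h2, h3⟩ q hq hz
      obtain ⟨m, hm, H0, h4, h5, h6⟩ := h3 q hq
      obtain ⟨hqN, hqV, hqW, hint⟩ := hmem q hq
      have h7 : Eqv (W ⊔ Submodule.span ℝ {q}) κ (Op V κ (C q m) H0) := by
        rw [← h6]
        exact h2.sup_span hz
      have h8 := hC2 q m hqV hqW κ hκ hl hm (hRat.sup_span (hN W l q hqN).1 hint) H0 h4 h5 h7
      rw [h6]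
      exact h8
    · refine ⟨hG.op V κ _, hEq, fun q hq => ?_⟩
      obtain ⟨hqN, hqV, hqW, m, hm⟩ := hmem q hq
      refine ⟨m, hm, ?_⟩
      have habs : |(m : ℝ)| ≤ M := by
        rw [← hm]
        refine (abs_real_inner_le_norm κ q).trans ((mul_le_mul_of_nonneg_right (hR κ hκ)
          (norm_nonneg q)).trans (hM q hqN))
      have hmI : m ∈ (Finset.Icc (-(M : ℤ)) M).toList := by
        rw [Finset.mem_toList, Finset.mem_Icc]
        have h9 := abs_le.1 habs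
        constructor
        · exact_mod_cast h9.1
        · exact_mod_cast h9.2
      have hsub : (C q m).Sublist (N W l ++ big) := by
        refine List.Sublist.trans ?_ (List.sublist_append_right _ _)
        have h10 : (C q m).Sublist ((Finset.Icc (-(M : ℤ)) M).toList.flatMap (C q)) :=
          sublist_flatMap hmI
        have h12 : ((Finset.Icc (-(M : ℤ)) M).toList.flatMap (C q)).Sublist big := by
          rw [hbig]
          exact sublist_flatMap (f := fun q : X => (Finset.Icc (-(M : ℤ)) M).toList.flatMap (C q))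
            hqN
        exact h10.trans h12
      obtain ⟨rest, hrest⟩ := hsub.exists_perm_append
      refine ⟨Op V κ rest G, hG.op V κ rest, hnod.op hG rest, ?_⟩
      rw [op_perm V κ hrest hG, op_append]
    · intro S hS
      rw [op_append]
      have h11 : Op W κ (N W l) (Op V κ big G) = 0 := by
        rw [op_op W V κ κ _ big hG, ← hl, hnod W hWV hne hRat, op_zero]
      exact dls_diffs hWV κ (N W l) (hG.op V κ big) h11 S hS

/-- **C3.** -/
theorem tree_main [FiniteDimensional ℝ X] (V : Submodule ℝ X) {K : Set X}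
    (hK : Bornology.IsBounded K) (L : AddSubgroup X) {B : Set (X → ℂ)} (hB : ∀ G ∈ B, BC G)
    (hnode : ∀ κ ∈ K, ∀ W : Submodule ℝ X, W ≤ V → W ≠ V → Rat L κ W →
      ∃ Q : List X, (∀ q ∈ Q, q ∈ L ∧ q ≠ 0) ∧ ∀ G ∈ B, Op W κ Q G = 0) :
    ∃ Q : List X, (∀ q ∈ Q, q ∈ L ∧ q ≠ 0) ∧ ∀ κ ∈ K, ∀ G ∈ B, Eqv V κ (Op V κ Q G) := by
  have hex : ∀ (W : Submodule ℝ X) (l : W →ₗ[ℝ] ℝ), ∃ Q : List X, (∀ q ∈ Q, q ∈ L ∧ q ≠ 0) ∧
      (W ≤ V → W ≠ V → ∀ κ ∈ K, rs W κ = l → Rat L κ W → ∀ G ∈ B, Op W κ Q G = 0) := by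
    intro W l
    by_cases h : W ≤ V ∧ W ≠ V ∧ ∃ κ₀ ∈ K, rs W κ₀ = l ∧ Rat L κ₀ W
    · obtain ⟨h1, h2, κ₀, hκ₀, h3, h4⟩ := h
      obtain ⟨Q, hQ1, hQ2⟩ := hnode κ₀ hκ₀ W h1 h2 h4
      refine ⟨Q, hQ1, fun _ _ κ _ h5 _ G hG => ?_⟩
      rw [op_congr W (rs_eq_iff.1 (h5.trans h3.symm)) Q G]
      exact hQ2 G hG
    · refine ⟨[], fun q hq => absurd hq List.not_mem_nil, fun h1 h2 κ hκ h3 h4 => ?_⟩
      exact absurd ⟨h1, h2, κ, hκ, h3, h4⟩ h
  choose N hN1 hN2 using hex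
  obtain ⟨Q, hQ1, hQ2⟩ := tree_claim V hK L N hN1 (Module.finrank ℝ V) ⊥ bot_le (by simp) 0
  refine ⟨Q, hQ1, fun κ hκ G hG => hQ2 κ hκ ?_ (Rat.bot L κ) G (hB G hG) ?_ ?_⟩
  · ext w
    have hw : (w : X) = 0 := (Submodule.mem_bot ℝ).1 w.2
    simp [rs, hw]
  · intro W h1 h2 h3
    exact hN2 W (rs W κ) h1 h2 κ hκ rfl h3 G hG
  · intro w hw x
    rw [(Submodule.mem_bot ℝ).1 hw]
    simp

end Pool.Agent.ST53
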