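import Pool.Agent.Lib.MP_53fa4a_an_ST.CConv
import Pool.Agent.Lib.MP_53fa4a_an_ST.CTT
import Pool.Agent.Lib.MP_53fa4a_an_ST.CSum
import Pool.Agent.Lib.MP_53fa4a_an_ST.CTree

/-!
# MP_53fa4a_an, project ST, part C4: an equivariant function vanishes
-/

set_option autoImplicit false

open MeasureTheory Set Filter
open scoped ENNReal Topology ComplexConjugate BigOperators SchwartzMap

noncomputable section

namespace Pool.Agent.ST53

variable {X : Type*} [NormedAddCommGroup X] [InnerProductSpace ℝ X] [FiniteDimensional ℝ X]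
  [MeasurableSpace X] [BorelSpace X]

/-- the product of a bounded continuous function with a Schwartz function is integrable -/
theorem BC.integrable_mul {G : X → ℂ} (hG : BC G) (χ : 𝓢(X, ℂ)) (x : X) :
    Integrable fun v => G (x + v) * χ v := by
  obtain ⟨hc, C, hC⟩ := hG
  have h1 : Continuous fun v => G (x + v) := hc.comp (by fun_prop)
  exact χ.integrable.bdd_mul h1.aestronglyMeasurable (Eventually.of_forall fun v => hC (x + v))

/-- the property `∫ G(x+v) χ(v) dv = 0` is preserved by the operators -/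
theorem conv_dif {G : X → ℂ} (hG : BC G) (χ : 𝓢(X, ℂ)) (h : ∀ x, ∫ v, G (x + v) * χ v = 0)
    (q x : X) : ∫ v, dif q G (x + v) * χ v = 0 := by
  have h1 : ∀ v, dif q G (x + v) * χ v = G (x + v) * χ v - G (x + q + v) * χ v := by
    intro v
    simp only [dif]
    rw [add_right_comm x v q]
    ring
  simp_rw [h1]
  rw [integral_sub (hG.integrable_mul χ x) (hG.integrable_mul χ (x + q)), h, h, sub_zero]

theorem conv_av {G : X → ℂ} (hG : BC G) (χ : 𝓢(X, ℂ)) (h : ∀ x, ∫ v, G (x + v) * χ v = 0)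
    (κ q x : X) : ∫ v, av κ q G (x + v) * χ v = 0 := by
  have h1 : ∀ v, av κ q G (x + v) * χ v = ∫ s in (0 : ℝ)..1,
      e (-(s * inner ℝ κ q)) * (G (x + s • q + v) * χ v) := by
    intro v
    unfold av
    rw [← intervalIntegral.integral_mul_const]
    congr 1
    funext s
    rw [add_right_comm x v (s • q), mul_assoc]
  simp_rw [h1]
  obtain ⟨hc, C, hC⟩ := hG
  have hfm : IsFiniteMeasure (volume.restrict (Set.uIoc (0 : ℝ) 1)) := by
    rw [Set.uIoc_of_le zero_le_one]
    infer_instance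
  have hint : Integrable (Function.uncurry fun (s : ℝ) (v : X) =>
      e (-(s * inner ℝ κ q)) * (G (x + s • q + v) * χ v))
      ((volume.restrict (Set.uIoc (0 : ℝ) 1)).prod volume) := by
    have hcont : Continuous fun p : ℝ × X =>
        e (-(p.1 * inner ℝ κ q)) * G (x + p.1 • q + p.2) := by
      have a1 : Continuous fun p : ℝ × X => e (-(p.1 * inner ℝ κ q)) :=
        continuous_e.comp (by fun_prop)
      have a2 : Continuous fun p : ℝ × X => G (x + p.1 • q + p.2) := hc.comp (by fun_prop)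
      exact a1.mul a2
    have hχ : Integrable (fun p : ℝ × X => χ p.2)
        ((volume.restrict (Set.uIoc (0 : ℝ) 1)).prod volume) := by
      have h3 := (integrable_const (1 : ℂ) (μ := volume.restrict (Set.uIoc (0 : ℝ) 1))).mul_prod
        (χ.integrable (μ := volume))
      simpa using h3
    have h4 := hχ.bdd_mul (c := C) hcont.aestronglyMeasurable (Eventually.of_forall fun p => by
      rw [norm_mul, norm_e, one_mul]
      exact hC _)
    refine h4.congr (Eventually.of_forall fun p => ?_)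
    simp only [Function.uncurry]
    ring
  rw [← intervalIntegral_integral_swap hint]
  have h5 : ∀ s : ℝ, ∫ v, e (-(s * inner ℝ κ q)) * (G (x + s • q + v) * χ v) = 0 := by
    intro s
    rw [integral_const_mul, h, mul_zero]
  simp_rw [h5]
  simp

theorem conv_op (W : Submodule ℝ X) (κ : X) (Q : List X) {G : X → ℂ} (hG : BC G) (χ : 𝓢(X, ℂ))
    (h : ∀ x, ∫ v, G (x + v) * χ v = 0) : ∀ x, ∫ v, Op W κ Q G (x + v) * χ v = 0 := by
  induction Q with
  | nil => exact h
  | cons q Q ih =>
    intro x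
    rw [Op]
    split_ifs
    · exact conv_av (hG.op W κ Q) χ ih κ q x
    · exact conv_dif (hG.op W κ Q) χ ih q x

/-- **C4.** -/
theorem end_top {n : ℕ} (b : Module.Basis (Fin n) ℝ X) (L : AddSubgroup X)
    (hL : ∀ l ∈ L, ∀ i, ∃ m : ℤ, inner ℝ (b i) l = (m : ℝ)) (E : Finset X) {A : Finset ℂ}
    {f : X → ℂ} (hf : Sig L E A f) {κ : X} {ρ : ℝ} (hρ : 0 < ρ) (hgap : GapAt κ ρ f)
    (Q : List X) (φ : 𝓢(X, ℂ)) (hE : Eqv ⊤ κ (Op ⊤ κ Q (FF f φ))) :
    Op ⊤ κ Q (FF f φ) = 0 := by
  obtain ⟨φ₀, hφ₀, η, hηc, hη0, hηpos, hφη⟩ := cTT_exists κ (half_pos hρ)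
  obtain ⟨Φ, hΦ⟩ := cTT_sch hφ₀
  obtain ⟨C, hC⟩ := hf.bdd
  have hBC : BC (FF f φ) := cFF_bc b L hL E hC hf.supp φ
  have h0 : FF f φ₀ = 0 := cFF_gap hgap (half_lt_self hρ) hφ₀
  have h1 : ∀ x, ∫ v, FF f φ (x + v) * Φ v = 0 := by
    intro x
    have h2 : ∫ v, FF f Φ (x + v) * φ v = 0 := by
      rw [hΦ, h0]
      simp
    rw [FF_conv b L hL E hf Φ φ x] at h2
    rw [FF_conv b L hL E hf φ Φ x, ← h2]
    refine tsum_congr fun y => ?_
    congr 1
    rw [← integral_sub_left_eq_self (fun v => φ (y - x - v) * Φ v) volume (y - x)]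
    refine integral_congr_ae (Eventually.of_forall fun v => ?_)
    simp only [sub_sub_cancel]
    rw [mul_comm]
  have h3 := conv_op ⊤ κ Q hBC Φ h1 0
  set H := Op ⊤ κ Q (FF f φ) with hH
  have hHv : ∀ v, H v = e (inner ℝ κ v) * H 0 := by
    intro v
    have h4 := hE v Submodule.mem_top 0
    rwa [zero_add] at h4
  have h5 : ∀ v, H (0 + v) * Φ v = H 0 * (η v : ℂ) := by
    intro v
    rw [zero_add, hHv v, hΦ, hφη]
    have h6 := e_neg (inner ℝ κ v)
    linear_combination (H 0 * (η v : ℂ)) * h6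
  simp_rw [h5] at h3
  rw [integral_const_mul] at h3
  have hηint : Integrable η := by
    have h7 : Integrable fun v => ‖Φ v‖ := Φ.integrable.norm
    refine h7.congr (Eventually.of_forall fun v => ?_)
    simp only
    rw [hΦ, hφη, norm_mul, norm_e, one_mul, Complex.norm_real, Real.norm_of_nonneg (hη0 v)]
  have hηi : 0 < ∫ v, η v := by
    rw [integral_pos_iff_support_of_nonneg hη0 hηint]
    exact (hηc.isOpen_support).measure_pos volume ⟨0, hηpos.ne'⟩
  have h8 : (∫ v, (η v : ℂ)) ≠ 0 := by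
    rw [integral_complex_ofReal]
    exact_mod_cast hηi.ne'
  have h9 : H 0 = 0 := (mul_eq_zero.1 h3).resolve_right h8
  funext v
  rw [hHv v, h9, mul_zero]
  rfl

end Pool.Agent.ST53
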