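import Pool.Agent.Lib.MP_53fa4a_an_ST.NEqv

/-!
# C5: the data for Theorem B on `Vᗮ`
-/

set_option autoImplicit false

open MeasureTheory
open scoped BigOperators Topology SchwartzMap ContDiff

noncomputable section

namespace Pool.Agent.ST53

variable {X : Type*} [NormedAddCommGroup X] [InnerProductSpace ℝ X] [FiniteDimensional ℝ X]
  [MeasurableSpace X] [BorelSpace X] {V : Submodule ℝ X} (μ : Measure V) [μ.IsAddHaarMeasure]

private theorem nd_norm_sq (z : Vᗮ) (w : V) :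
    ‖(z : X) + (w : X)‖ * ‖(z : X) + (w : X)‖ = ‖z‖ * ‖z‖ + ‖w‖ * ‖w‖ := by
  have h0 : inner ℝ (z : X) (w : X) = 0 := Submodule.inner_left_of_mem_orthogonal w.2 z.2
  have h := norm_add_sq_eq_norm_sq_add_norm_sq_of_inner_eq_zero (z : X) (w : X) h0
  simpa using h

private theorem nd_left (z : Vᗮ) (w : V) : ‖z‖ ≤ ‖(z : X) + (w : X)‖ := by
  refine abs_le_of_sq_le_sq' ?_ (norm_nonneg _) |>.2
  have h := nd_norm_sq z w
  nlinarith [mul_self_nonneg ‖w‖]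

private theorem nd_right (z : Vᗮ) (w : V) : ‖w‖ ≤ ‖(z : X) + (w : X)‖ := by
  refine abs_le_of_sq_le_sq' ?_ (norm_nonneg _) |>.2
  have h := nd_norm_sq z w
  nlinarith [mul_self_nonneg ‖z‖]

private theorem nd_sch (φ : 𝓢(X, ℂ)) (p : ℕ) : ∃ C, 0 ≤ C ∧ ∀ x : X, (1 + ‖x‖) ^ p * ‖φ x‖ ≤ C := by
  refine ⟨2 ^ p * (Finset.Iic (p, 0)).sup (fun m => SchwartzMap.seminorm ℝ m.1 m.2) φ,
    by positivity, fun x => ?_⟩
  have h := SchwartzMap.one_add_le_sup_seminorm_apply (𝕜 := ℝ) (m := (p, 0)) (k := p) (n := 0)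
    le_rfl le_rfl φ x
  rwa [norm_iteratedFDeriv_zero] at h

private theorem nd_int (V : Submodule ℝ X) (μ : Measure V) [μ.IsAddHaarMeasure] :
    Integrable (fun w : V => ((1 + ‖w‖) ^ (Module.finrank ℝ V + 1))⁻¹) μ := by
  have h := integrable_one_add_norm (E := V) (μ := μ)
    (r := ((Module.finrank ℝ V + 1 : ℕ) : ℝ)) (by push_cast; linarith)
  refine h.congr (Filter.Eventually.of_forall fun w => ?_)
  simp only
  rw [Real.rpow_neg (by positivity), Real.rpow_natCast]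

/-- `‖φ(z+w)‖ ≤ C (1+‖z+w‖)^(-p)`, `‖z+w‖ ≥ ‖z‖`, `‖z+w‖ ≥ ‖w‖`:
`‖Φ(z)‖ ≤ C' (1+‖z‖)^(-m)` -/
theorem Ph_decay (κ₀ : X) (φ : 𝓢(X, ℂ)) (m : ℕ) :
    ∃ C, ∀ z : Vᗮ, ‖Ph μ κ₀ φ z‖ * (1 + ‖z‖) ^ m ≤ C := by
  obtain ⟨C, hC0, hC⟩ := nd_sch φ (m + (Module.finrank ℝ V + 1))
  refine ⟨C * ∫ w : V, ((1 + ‖w‖) ^ (Module.finrank ℝ V + 1))⁻¹ ∂μ, fun z => ?_⟩
  have hz : 0 < (1 + ‖z‖) ^ m := by positivity
  have h1 : ‖Ph μ κ₀ φ z‖ ≤
      ∫ w : V, (C * ((1 + ‖z‖) ^ m)⁻¹) * ((1 + ‖w‖) ^ (Module.finrank ℝ V + 1))⁻¹ ∂μ := by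
    refine norm_integral_le_of_norm_le ((nd_int V μ).const_mul _)
      (Filter.Eventually.of_forall fun w => ?_)
    rw [norm_mul, norm_e, mul_one]
    have h2 := hC ((z : X) + (w : X))
    have h3 : (1 + ‖z‖) ^ m * (1 + ‖w‖) ^ (Module.finrank ℝ V + 1) ≤
        (1 + ‖(z : X) + (w : X)‖) ^ (m + (Module.finrank ℝ V + 1)) := by
      have h5 : (1 + ‖z‖) ^ m ≤ (1 + ‖(z : X) + (w : X)‖) ^ m :=
        pow_le_pow_left₀ (by positivity) (by linarith [nd_left z w]) _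
      have h6 : (1 + ‖w‖) ^ (Module.finrank ℝ V + 1) ≤
          (1 + ‖(z : X) + (w : X)‖) ^ (Module.finrank ℝ V + 1) :=
        pow_le_pow_left₀ (by positivity) (by linarith [nd_right z w]) _
      rw [pow_add (1 + ‖(z : X) + (w : X)‖)]
      exact mul_le_mul h5 h6 (by positivity) (by positivity)
    have h4 : 0 < (1 + ‖w‖) ^ (Module.finrank ℝ V + 1) := by positivity
    rw [mul_assoc, ← mul_inv, ← div_eq_mul_inv, le_div_iff₀ (mul_pos hz h4)]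
    refine le_trans ?_ h2
    rw [mul_comm]
    exact mul_le_mul_of_nonneg_right h3 (norm_nonneg _)
  rw [integral_const_mul] at h1
  calc ‖Ph μ κ₀ φ z‖ * (1 + ‖z‖) ^ m
      ≤ (C * ((1 + ‖z‖) ^ m)⁻¹ * ∫ w : V, ((1 + ‖w‖) ^ (Module.finrank ℝ V + 1))⁻¹ ∂μ) *
        (1 + ‖z‖) ^ m := mul_le_mul_of_nonneg_right h1 hz.le
    _ = C * ∫ w : V, ((1 + ‖w‖) ^ (Module.finrank ℝ V + 1))⁻¹ ∂μ := by
        field_simp

/-- the substitution `w ↦ w + l_V` in `V`, `l = π(l) + l_V` -/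
theorem Ph_shift (κ₀ : X) (φ : X → ℂ) (l : X) (z : Vᗮ) :
    Ph μ κ₀ (fun y => φ (y - l)) z =
      e (inner ℝ κ₀ l) * Ph μ κ₀ φ (((z - pp V l : Vᗮ) : X)) := by
  obtain ⟨lV, hlV⟩ : ∃ lV : V, l = ((pp V l : Vᗮ) : X) + (lV : X) := by
    have h1 : l - ((pp V l : Vᗮ) : X) ∈ V := by
      have h2 : l - ((pp V l : Vᗮ) : X) ∈ Vᗮᗮ := by
        unfold pp
        exact Submodule.sub_starProjection_mem_orthogonal (K := Vᗮ) l
      rwa [Submodule.orthogonal_orthogonal] at h2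
    exact ⟨⟨_, h1⟩, by simp⟩
  unfold Ph
  rw [← integral_add_right_eq_self
    (fun w : V => φ ((z : X) + (w : X) - l) * e (inner ℝ κ₀ ((z : X) + (w : X)))) lV,
    ← integral_const_mul]
  refine integral_congr_ae (Filter.Eventually.of_forall fun w => ?_)
  simp only
  have h3 : (z : X) + ((w + lV : V) : X) - l = ((z - pp V l : Vᗮ) : X) + (w : X) := by
    conv_lhs => rw [hlV]
    push_cast
    abel
  have h4 : (z : X) + ((w + lV : V) : X) = l + (((z - pp V l : Vᗮ) : X) + (w : X)) := by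
    rw [← h3]
    abel
  rw [h3, h4, inner_add_right, e_add]
  ring

/-- `⟨u,z+w⟩ = ⟨u,z⟩` for `u ∈ Vᗮ`, `w ∈ V` -/
theorem Ph_mul (κ₀ : X) (φ : X → ℂ) (u z : Vᗮ) :
    e (inner ℝ u z) * Ph μ κ₀ φ z = Ph μ κ₀ (fun y => e (inner ℝ (u : X) y) * φ y) z := by
  unfold Ph
  rw [← integral_const_mul]
  refine integral_congr_ae (Filter.Eventually.of_forall fun w => ?_)
  simp only
  have h1 : inner ℝ (u : X) ((z : X) + (w : X)) = inner ℝ u z := by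
    rw [inner_add_right, Submodule.inner_left_of_mem_orthogonal w.2 u.2, add_zero]
    rfl
  rw [h1]
  ring

theorem Ph_smul (κ₀ : X) (φ : X → ℂ) (c : ℂ) (z : X) :
    Ph μ κ₀ (fun y => c * φ y) z = c * Ph μ κ₀ φ z := by
  unfold Ph
  rw [← integral_const_mul]
  refine integral_congr_ae (Filter.Eventually.of_forall fun w => ?_)
  simp only
  ring

/-- PROOF: `cTT_exists`, translated by `x` (`cTT_shift`): `φ y = e(-⟨κ,y-x⟩) η(y-x)`;
`Φ(x) = e⟨κ₀,x⟩ ∫_V η(w) dw ≠ 0` as `κ₀ = κ` on `V`; `η` restricted to `V` is continuous,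
integrable (as `φ` is a Schwartz function), nonnegative and positive at `0`. -/
theorem Ph_exists {κ κ₀ : X} (hκV : ∀ v ∈ V, inner ℝ κ₀ v = inner ℝ κ v) {r : ℝ} (hr : 0 < r)
    (x : Vᗮ) : ∃ φ ∈ TT κ r, Ph μ κ₀ φ x ≠ 0 := by
  obtain ⟨φ, hφ, η, hη1, hη2, hη3, hη4⟩ := cTT_exists κ hr
  refine ⟨_, cTT_shift hφ 1 (x : X), ?_⟩
  obtain ⟨Φ, hΦ⟩ := cTT_sch hφ
  have hn : ∀ y, ‖Φ y‖ = η y := by
    intro y
    rw [hΦ, hη4, norm_mul, norm_e, one_mul, Complex.norm_real, Real.norm_eq_abs,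
      abs_of_nonneg (hη2 y)]
  have hint : Integrable (fun w : V => η (w : X)) μ := by
    obtain ⟨C, hC0, hC⟩ := nd_sch Φ (Module.finrank ℝ V + 1)
    refine ((nd_int V μ).const_mul C).mono'
      (hη1.comp continuous_subtype_val).aestronglyMeasurable
      (Filter.Eventually.of_forall fun w => ?_)
    have h1 := hC (w : X)
    rw [hn] at h1
    have h2 : 0 < (1 + ‖w‖) ^ (Module.finrank ℝ V + 1) := by positivity
    rw [Real.norm_eq_abs, abs_of_nonneg (hη2 _), ← div_eq_mul_inv, le_div_iff₀ h2, mul_comm]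
    exact h1
  have hpos : 0 < ∫ w : V, η (w : X) ∂μ := by
    rw [integral_pos_iff_support_of_nonneg (fun w => hη2 _) hint]
    refine IsOpen.measure_pos μ ?_ ⟨0, ?_⟩
    · exact (hη1.comp continuous_subtype_val).isOpen_support
    · simpa using hη3.ne'
  have h3 : Ph μ κ₀ (fun y => (1 : ℂ) * φ (y - (x : X))) x =
      e (inner ℝ κ₀ (x : X)) * ((∫ w : V, η (w : X) ∂μ : ℝ) : ℂ) := by
    unfold Ph
    rw [← integral_complex_ofReal, ← integral_const_mul]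
    refine integral_congr_ae (Filter.Eventually.of_forall fun w => ?_)
    simp only
    rw [one_mul, add_sub_cancel_left, hη4, inner_add_right, e_add, hκV w w.2]
    have h4 := e_neg (inner ℝ κ (w : X))
    calc e (-(inner ℝ κ (w : X))) * (η (w : X) : ℂ) *
          (e (inner ℝ κ₀ (x : X)) * e (inner ℝ κ (w : X)))
        = (e (-(inner ℝ κ (w : X))) * e (inner ℝ κ (w : X))) *
          (e (inner ℝ κ₀ (x : X)) * (η (w : X) : ℂ)) := by ring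
      _ = e (inner ℝ κ₀ (x : X)) * (η (w : X) : ℂ) := by rw [h4, one_mul]
  rw [h3]
  exact mul_ne_zero (e_ne_zero _) (by exact_mod_cast hpos.ne')

/-- the data -/
def pDat (L : AddSubgroup X) (E : Finset X) {n' : ℕ} (b' : Module.Basis (Fin n') ℝ Vᗮ)
    (hb' : ∀ i, ∀ l ∈ L, ∃ m : ℤ, inner ℝ ((b' i : Vᗮ) : X) l = (m : ℝ))
    (κ κ₀ : X) (hκV : ∀ v ∈ V, inner ℝ κ₀ v = inner ℝ κ v) : Dat Vᗮ where
  n := n'
  b := b'
  L := Lp V L
  hL := Lp_int b' L hb'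
  E := Ep V E
  T r := {Φ | ∃ φ ∈ TT κ r, Φ = fun z : Vᗮ => Ph μ κ₀ φ z}
  T0 := by
    rintro r r' h Φ ⟨φ, h1, h2⟩
    exact ⟨φ, cTT_mono κ h h1, h2⟩
  T1 := by
    rintro r Φ ⟨φ, h1, rfl⟩
    obtain ⟨φ', rfl⟩ := cTT_sch h1
    obtain ⟨C, hC⟩ := Ph_decay μ κ₀ φ' (n' + 1)
    exact summable_DD b' (Lp V L) (Lp_int b' L hb') (Ep V E) hC
  T2 := by
    rintro r Φ ⟨φ, h1, rfl⟩ u
    refine ⟨_, cTT_mul h1 (u : X), ?_⟩
    funext z
    exact Ph_mul μ κ₀ φ u z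
  T3 := by
    rintro r Φ ⟨φ, h1, rfl⟩ l hl
    obtain ⟨l', hl', rfl⟩ := AddSubgroup.mem_map.1 hl
    refine ⟨_, cTT_shift h1 (e (-(inner ℝ κ₀ l'))) l', ?_⟩
    funext z
    rw [Ph_smul μ κ₀ (fun y => φ (y - l')), Ph_shift, ← mul_assoc, e_neg, one_mul]
    rfl
  T4 := by
    intro r hr x hx
    obtain ⟨φ, h1, h2⟩ := Ph_exists μ hκV hr x
    exact ⟨_, ⟨φ, h1, rfl⟩, h2⟩

end Pool.Agent.ST53
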