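import Pool.Agent.Lib.MP_53fa4a_an_ST.NDef
import Pool.Agent.Lib.MP_53fa4a_an_ST.BDisc

/-!
# C5: the values of `h₀`
-/

set_option autoImplicit false

open MeasureTheory
open scoped BigOperators Topology SchwartzMap ContDiff

noncomputable section

namespace Pool.Agent.ST53

variable {X : Type*} [NormedAddCommGroup X] [InnerProductSpace ℝ X] [FiniteDimensional ℝ X]

/-- the values of the sums `∑_{u ∈ U} g(y₀+u) c(u)`, `U` finite, `g` with values in `B ∪ {0}` -/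
theorem fin_sums (U : Finset X) (c : X → ℂ) (B : Finset ℂ) :
    ∃ A : Finset ℂ, ∀ g : X → ℂ, (∀ x, g x = 0 ∨ g x ∈ B) → ∀ y : X,
      ∑ u ∈ U, g (y + u) * c u ∈ A := by
  classical
  refine ⟨(Fintype.piFinset fun _ : U => insert 0 B).image fun p => ∑ u : U, p u * c u, ?_⟩
  intro g hg y
  rw [Finset.mem_image]
  refine ⟨fun u => g (y + u), ?_, ?_⟩
  · rw [Fintype.mem_piFinset]
    intro u
    rw [Finset.mem_insert]
    exact hg _
  · exact Finset.sum_coe_sort U fun u => g (y + u) * c u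

/-- the values of `e(-⟨κ₀,y⟩)` on `D = L + E`: roots of unity of order `N` times the values at the
points of `E` -/
theorem fin_chars (L : AddSubgroup X) (E : Finset X) {κ₀ : X} {N : ℕ} (hN : 0 < N)
    (hκ : ∀ l ∈ L, ∃ m : ℤ, (N : ℝ) * inner ℝ κ₀ l = (m : ℝ)) :
    ∃ A : Finset ℂ, ∀ y ∈ DD L E, e (-(inner ℝ κ₀ y)) ∈ A := by
  classical
  refine ⟨(Finset.range N ×ˢ E).image fun p =>
    e (-((p.1 : ℝ) / (N : ℝ))) * e (-(inner ℝ κ₀ p.2)), ?_⟩
  rintro y ⟨l, hl, a, ha, rfl⟩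
  obtain ⟨m, hm⟩ := hκ l hl
  have hN' : (N : ℝ) ≠ 0 := by exact_mod_cast hN.ne'
  have hNz : (N : ℤ) ≠ 0 := by exact_mod_cast hN.ne'
  have h1 : 0 ≤ m % (N : ℤ) := Int.emod_nonneg _ hNz
  have h2 : m % (N : ℤ) < N := Int.emod_lt_of_pos _ (by exact_mod_cast hN)
  obtain ⟨j, hj⟩ := Int.eq_ofNat_of_zero_le h1
  have h3 : (N : ℤ) * (m / (N : ℤ)) + m % (N : ℤ) = m := Int.mul_ediv_add_emod _ _
  have h4 : (N : ℝ) * ((m / (N : ℤ) : ℤ) : ℝ) + (j : ℝ) = (m : ℝ) := by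
    rw [hj] at h3
    exact_mod_cast h3
  rw [Finset.mem_image]
  refine ⟨(j, a), ?_, ?_⟩
  · rw [Finset.mem_product]
    refine ⟨?_, ha⟩
    rw [Finset.mem_range]
    rw [hj] at h2
    exact_mod_cast h2
  · have h5 : -(inner ℝ κ₀ (l + a)) = (-((j : ℝ) / (N : ℝ)) + -(inner ℝ κ₀ a)) +
        ((-(m / (N : ℤ)) : ℤ) : ℝ) := by
      rw [inner_add_right]
      have h6 : inner ℝ κ₀ l = (j : ℝ) / (N : ℝ) + ((m / (N : ℤ) : ℤ) : ℝ) := by
        field_simp
        rw [mul_comm, hm, ← h4]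
        ring
      rw [h6]
      push_cast
      ring
    rw [h5, e_add, e_add, e_int, mul_one]

/-- **The values of `h₀(z) = e(-⟨κ₀,z⟩) S(z)`.**  PROOF: if `S(z) ≠ 0` there is `y₀ ∈ D` with
`y₀ - z ∈ V`, so by equivariance and `κ₀ = κ` on `V` `h₀(z) = e(-⟨κ₀,y₀⟩) S(y₀)`, and
`S(y₀) = ∑_u g(y₀+u) k(u) e(-⟨κ,u⟩)`, `u` in the finite set of the elements of
`(L + (E - E)) ∩ V` in the support of `k` (`disc`). -/
theorem vals_h {n : ℕ} (b : Module.Basis (Fin n) ℝ X) (L : AddSubgroup X)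
    (hL : ∀ l ∈ L, ∀ i, ∃ m : ℤ, inner ℝ (b i) l = (m : ℝ)) (E : Finset X) (V : Submodule ℝ X)
    {κ κ₀ : X} {N : ℕ} (hN : 0 < N) (hκV : ∀ v ∈ V, inner ℝ κ₀ v = inner ℝ κ v)
    (hκ : ∀ l ∈ L, ∃ m : ℤ, (N : ℝ) * inner ℝ κ₀ l = (m : ℝ)) {k : X → ℝ}
    (hks : HasCompactSupport k) (B : Finset ℂ) :
    ∃ A : Finset ℂ, ∀ g : X → ℂ, (∀ x, g x ≠ 0 → x ∈ DD L E) → (∀ x, g x = 0 ∨ g x ∈ B) →
      Eqv V κ (FF g (kk V κ k)) → ∀ z : X,
        e (-(inner ℝ κ₀ z)) * FF g (kk V κ k) z = 0 ∨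
          e (-(inner ℝ κ₀ z)) * FF g (kk V κ k) z ∈ A := by
  classical
  obtain ⟨R, hR⟩ := hks.isCompact.isBounded.exists_norm_le
  have hfin := disc b L hL ((E ×ˢ E).image fun p => p.1 - p.2) R
  obtain ⟨A₁, hA₁⟩ := fin_sums hfin.toFinset (kk V κ k) B
  obtain ⟨A₂, hA₂⟩ := fin_chars L E hN hκ
  refine ⟨(A₂ ×ˢ A₁).image fun p => p.1 * p.2, ?_⟩
  intro g hg hgB hE z
  by_cases hz : FF g (kk V κ k) z = 0
  · left
    rw [hz, mul_zero]
  right
  have h1 : ∃ y, g y * kk V κ k (y - z) ≠ 0 := by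
    by_contra hcon
    push Not at hcon
    apply hz
    unfold FF
    rw [tsum_congr hcon, tsum_zero]
  obtain ⟨y, hy⟩ := h1
  have hgy : g y ≠ 0 := left_ne_zero_of_mul hy
  have hky : kk V κ k (y - z) ≠ 0 := right_ne_zero_of_mul hy
  have hyV : y - z ∈ V := by
    by_contra hcon
    exact hky (Set.indicator_of_notMem hcon _)
  have hyD := hg y hgy
  have h2 : e (-(inner ℝ κ₀ z)) * FF g (kk V κ k) z =
      e (-(inner ℝ κ₀ y)) * FF g (kk V κ k) y := by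
    have h3 := hE (y - z) hyV z
    rw [add_sub_cancel] at h3
    rw [h3, ← hκV _ hyV, ← mul_assoc, ← e_add]
    congr 2
    rw [inner_sub_right]
    ring
  have h4 : FF g (kk V κ k) y = ∑ u ∈ hfin.toFinset, g (y + u) * kk V κ k u := by
    unfold FF
    rw [← (Equiv.addLeft y).tsum_eq]
    rw [tsum_eq_sum (s := hfin.toFinset)]
    · refine Finset.sum_congr rfl fun u _ => ?_
      rw [Equiv.coe_addLeft, add_sub_cancel_left]
    · intro u hu
      rw [Equiv.coe_addLeft, add_sub_cancel_left]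
      by_contra hcon
      apply hu
      have hgu := left_ne_zero_of_mul hcon
      have hku := right_ne_zero_of_mul hcon
      rw [Set.Finite.mem_toFinset]
      have hk0 : k u ≠ 0 := by
        intro h0
        apply hku
        unfold kk
        by_cases huV : u ∈ (V : Set X)
        · rw [Set.indicator_of_mem huV, h0]
          simp
        · exact Set.indicator_of_notMem huV _
      refine ⟨?_, hR u (subset_tsupport _ hk0)⟩
      obtain ⟨l, hl, a, ha, hla⟩ := hg _ hgu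
      obtain ⟨l', hl', a', ha', hla'⟩ := hyD
      refine ⟨l - l', L.sub_mem hl hl', a - a', ?_, ?_⟩
      · rw [Finset.mem_image]
        exact ⟨(a, a'), Finset.mem_product.2 ⟨ha, ha'⟩, rfl⟩
      · have h5 : y + u = l + a := hla
        have h6 : u = (y + u) - y := by abel
        rw [h6, h5, hla']
        abel
  rw [h2, Finset.mem_image]
  refine ⟨(e (-(inner ℝ κ₀ y)), FF g (kk V κ k) y), ?_, rfl⟩
  rw [Finset.mem_product]
  refine ⟨hA₂ y hyD, ?_⟩
  rw [h4]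
  exact hA₁ g hgB y

end Pool.Agent.ST53
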