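import Pool.Agent.Lib.MP_53fa4a_an_ST.NAv
import Pool.Agent.Lib.MP_53fa4a_an_ST.NVal
import Pool.Agent.Lib.MP_53fa4a_an_ST.NDat
import Pool.Agent.Lib.MP_53fa4a_an_ST.BTV

/-!
# C5: the node
-/

set_option autoImplicit false

open MeasureTheory
open scoped BigOperators Topology SchwartzMap ContDiff

noncomputable section

namespace Pool.Agent.ST53

section aux

variable {X : Type*} [NormedAddCommGroup X] [InnerProductSpace ℝ X] [FiniteDimensional ℝ X]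

theorem pp_coe {V : Submodule ℝ X} (z : Vᗮ) : pp V (z : X) = z := by
  unfold pp
  exact Submodule.orthogonalProjectionOnto_mem_subspace_eq_self z

theorem pp_of_mem {V : Submodule ℝ X} {v : X} (hv : v ∈ V) : pp V v = 0 := by
  unfold pp
  exact Submodule.orthogonalProjectionOnto_orthogonal_apply_eq_zero hv

theorem span_int {n : ℕ} (b : Module.Basis (Fin n) ℝ X) {L : AddSubgroup X}
    (hL : ∀ l ∈ L, ∀ i, ∃ m : ℤ, inner ℝ (b i) l = (m : ℝ)) {x l : X}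
    (hx : x ∈ Submodule.span ℤ (Set.range b)) (hl : l ∈ L) : ∃ m : ℤ, inner ℝ x l = (m : ℝ) := by
  induction hx using Submodule.span_induction with
  | mem y hy =>
    obtain ⟨i, rfl⟩ := hy
    exact hL l hl i
  | zero => exact ⟨0, by simp⟩
  | add y z _ _ hy hz =>
    obtain ⟨m, hm⟩ := hy
    obtain ⟨m', hm'⟩ := hz
    exact ⟨m + m', by rw [inner_add_left, hm, hm']; push_cast; ring⟩
  | smul a y _ hy =>
    obtain ⟨m, hm⟩ := hy
    refine ⟨a * m, ?_⟩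
    rw [← Int.cast_smul_eq_zsmul ℝ a y, real_inner_smul_left, hm]
    push_cast
    ring

end aux

variable {X : Type} [NormedAddCommGroup X] [InnerProductSpace ℝ X] [FiniteDimensional ℝ X]
  [MeasurableSpace X] [BorelSpace X]

/-- the pairing `R_h(x) = ∑_z h(z) Φ_{φ(·-x)}(z)` -/
def Rh {V : Submodule ℝ X} (μ : Measure V) (κ₀ : X) (φ : X → ℂ) (h : Vᗮ → ℂ) (x : X) : ℂ :=
  ∑' z : Vᗮ, h z * Ph μ κ₀ (fun y => φ (y - x)) z

variable {V : Submodule ℝ X} (μ : Measure V) [μ.IsAddHaarMeasure]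

theorem exists_sub (φ : 𝓢(X, ℂ)) (x : X) : ∃ φ' : 𝓢(X, ℂ), ⇑φ' = fun y => φ (y - x) :=
  ⟨SchwartzMap.compSubConstCLM ℝ x φ, rfl⟩

theorem Rh_summable {n' : ℕ} (b' : Module.Basis (Fin n') ℝ Vᗮ) (L : AddSubgroup X)
    (hb' : ∀ i, ∀ l ∈ L, ∃ m : ℤ, inner ℝ ((b' i : Vᗮ) : X) l = (m : ℝ)) (E : Finset X)
    {A : Finset ℂ} {h : Vᗮ → ℂ} (hh : Sig (Lp V L) (Ep V E) A h) (κ₀ : X) (φ : 𝓢(X, ℂ)) :
    Summable fun z : Vᗮ => h z * Ph μ κ₀ φ z := by
  obtain ⟨C, hC⟩ := hh.bdd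
  obtain ⟨C', hC'⟩ := Ph_decay μ κ₀ φ (n' + 1)
  have h1 := summable_DD b' (Lp V L) (Lp_int b' L hb') (Ep V E) (Φ := fun z : Vᗮ => Ph μ κ₀ φ z)
    hC'
  refine Summable.of_norm_bounded (h1.mul_left C) fun z => ?_
  by_cases hz : h z = 0
  · rw [hz]
    simp only [zero_mul, norm_zero]
    have hC0 : 0 ≤ C := (norm_nonneg _).trans (hC z)
    refine mul_nonneg hC0 ?_
    exact Set.indicator_nonneg (fun _ _ => norm_nonneg _) _
  · rw [Set.indicator_of_mem (hh.supp z hz), norm_mul]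
    exact mul_le_mul_of_nonneg_right (hC z) (norm_nonneg _)

theorem Rh_dif {n' : ℕ} (b' : Module.Basis (Fin n') ℝ Vᗮ) (L : AddSubgroup X)
    (hb' : ∀ i, ∀ l ∈ L, ∃ m : ℤ, inner ℝ ((b' i : Vᗮ) : X) l = (m : ℝ)) (E : Finset X)
    {A : Finset ℂ} {h : Vᗮ → ℂ} (hh : Sig (Lp V L) (Ep V E) A h) (κ₀ : X) (φ : 𝓢(X, ℂ))
    {l : X} (hl : e (inner ℝ κ₀ l) = 1) :
    dif l (Rh μ κ₀ φ h) = Rh μ κ₀ φ (dif (pp V l) h) := by
  funext x
  obtain ⟨φ', hφ'⟩ := exists_sub φ x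
  have h1 : Rh μ κ₀ φ h x = ∑' z : Vᗮ, h z * Ph μ κ₀ φ' z := by
    unfold Rh
    rw [hφ']
  have h2 : Rh μ κ₀ φ h (x + l) = ∑' z : Vᗮ, h (z + pp V l) * Ph μ κ₀ φ' z := by
    have h3 : ∀ z : Vᗮ, Ph μ κ₀ (fun y => φ (y - (x + l))) z =
        Ph μ κ₀ φ' (((z - pp V l : Vᗮ) : X)) := by
      intro z
      have h4 := Ph_shift μ κ₀ φ' l z
      rw [hl, one_mul] at h4
      rw [← h4]
      congr 1
      funext y
      rw [hφ']
      simp only
      congr 1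
      abel
    unfold Rh
    simp_rw [h3]
    rw [← (Equiv.addRight (pp V l)).tsum_eq]
    refine tsum_congr fun z => ?_
    simp only [Equiv.coe_addRight, add_sub_cancel_right]
  have s1 := Rh_summable μ b' L hb' E hh κ₀ φ'
  have s2 : Summable fun z : Vᗮ => h (z + pp V l) * Ph μ κ₀ φ' z := by
    obtain ⟨φ'', hφ''⟩ := exists_sub φ' l
    have s3 := Rh_summable μ b' L hb' E hh κ₀ φ''
    rw [← (Equiv.addRight (pp V l)).summable_iff] at s3
    refine s3.congr fun z => ?_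
    simp only [Function.comp_apply, Equiv.coe_addRight]
    rw [hφ'', Ph_shift μ κ₀ φ' l (z + pp V l), hl, one_mul, add_sub_cancel_right]
  have h5 : Rh μ κ₀ φ (dif (pp V l) h) x =
      ∑' z : Vᗮ, (h z * Ph μ κ₀ φ' z - h (z + pp V l) * Ph μ κ₀ φ' z) := by
    unfold Rh
    rw [hφ']
    refine tsum_congr fun z => ?_
    simp only [dif]
    ring
  simp only [dif]
  rw [h1, h2, h5, s1.tsum_sub s2]

theorem Rh_Pl {n' : ℕ} (b' : Module.Basis (Fin n') ℝ Vᗮ) (L : AddSubgroup X)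
    (hb' : ∀ i, ∀ l ∈ L, ∃ m : ℤ, inner ℝ ((b' i : Vᗮ) : X) l = (m : ℝ)) (E : Finset X)
    {A : Finset ℂ} {h : Vᗮ → ℂ} (hh : Sig (Lp V L) (Ep V E) A h) (κ₀ : X) (φ : 𝓢(X, ℂ))
    {P : List X} (hP : ∀ l ∈ P, l ∈ L ∧ e (inner ℝ κ₀ l) = 1) :
    Pl P (Rh μ κ₀ φ h) = Rh μ κ₀ φ (Pl (P.map (pp V)) h) := by
  induction P with
  | nil => rfl
  | cons l P ih =>
    have h1 := ih fun q hq => hP q (List.mem_cons_of_mem _ hq)
    change dif l (Pl P (Rh μ κ₀ φ h)) = _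
    have h2 : Sig (Lp V L) (Ep V E) (vals (P.map (pp V)).length A) (Pl (P.map (pp V)) h) := by
      refine hh.Pl fun v hv => ?_
      obtain ⟨q, hq, rfl⟩ := List.mem_map.1 hv
      exact AddSubgroup.mem_map.2 ⟨q, (hP q (List.mem_cons_of_mem _ hq)).1, rfl⟩
    rw [h1, Rh_dif μ b' L hb' E h2 κ₀ φ (hP l List.mem_cons_self).2]
    rfl

/-- **C5.** -/
theorem node_step {n : ℕ} (b : Module.Basis (Fin n) ℝ X) (L : AddSubgroup X)
    (hL : ∀ l ∈ L, ∀ i, ∃ m : ℤ, inner ℝ (b i) l = (m : ℝ)) (E : Finset X) (A : Finset ℂ)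
    (V : Submodule ℝ X) (κ : X) (hR : Rat L κ V) {ρ : ℝ} (hρ : 0 < ρ) (Q : List X)
    (hQ : ∀ q ∈ Q, q ∈ L) :
    ∃ Q' : List X, (∀ q ∈ Q', q ∈ L ∧ q ∉ V) ∧ ∀ f, Sig L E A f → GapAt κ ρ f →
      (∀ φ : 𝓢(X, ℂ), Eqv V κ (Op V κ Q (FF f φ))) →
        ∀ φ : 𝓢(X, ℂ), Pl Q' (Op V κ Q (FF f φ)) = 0 := by
  classical
  obtain ⟨n', b', hb0⟩ := orth_basis b L hL hR
  have hb' : ∀ i, ∀ l ∈ L, ∃ m : ℤ, inner ℝ ((b' i : Vᗮ) : X) l = (m : ℝ) :=
    fun i l hl => span_int b hL (hb0 i) hl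
  obtain ⟨κ₀, N, hN, hκV, hκN⟩ := kappa_zero b L hL hR
  let μ : Measure V := Measure.addHaar
  obtain ⟨k, hk, hks, hrep⟩ := op_rep μ κ Q
  obtain ⟨V', hV', hst⟩ := structure_thm (pDat μ L E b' hb' κ κ₀ hκV) hρ
  set B := vals (Qd V κ Q).length A with hB
  obtain ⟨A', hA'⟩ := vals_h b L hL E V hN hκV hκN hks B
  obtain ⟨t, ht, hst⟩ := hst A'
  have hlift : ∀ v : Vᗮ, ∃ l : X, v ∈ Lp V L → l ∈ L ∧ pp V l = v := by
    intro v
    by_cases hv : v ∈ Lp V L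
    · obtain ⟨l, hl, hlv⟩ := AddSubgroup.mem_map.1 hv
      exact ⟨l, fun _ => ⟨hl, hlv⟩⟩
    · exact ⟨0, fun h => absurd h hv⟩
  choose lf hlf using hlift
  have hQdL : ∀ q ∈ Qd V κ Q, q ∈ L := by
    intro q hq
    unfold Qd at hq
    exact hQ q (List.mem_filter.1 hq).1
  refine ⟨V'.map fun v => (N * t) • lf v, ?_, ?_⟩
  · intro q hq
    obtain ⟨v, hv, rfl⟩ := List.mem_map.1 hq
    obtain ⟨h1, h2⟩ := hlf v (hV' v hv).1
    refine ⟨L.nsmul_mem h1 _, fun h => (hV' v hv).2 ?_⟩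
    have h3 := pp_of_mem h
    rw [map_nsmul, h2, ← Nat.cast_smul_eq_nsmul ℝ] at h3
    exact (smul_eq_zero.1 h3).resolve_left (by exact_mod_cast (Nat.mul_pos hN ht).ne')
  · intro f hf hgap hE φ
    have hfb := hf.bdd
    obtain ⟨C, hC⟩ := hfb
    set g := Pl (Qd V κ Q) f with hg
    have hgS : Sig L E B g := hf.Pl hQdL
    obtain ⟨C', hC'⟩ := hgS.bdd
    have hK : ∀ φ : 𝓢(X, ℂ), Op V κ Q (FF f φ) = II μ κ k (FF g φ) := by
      intro φ
      rw [hrep _ (cFF_bc b L hL E hC hf.supp φ) (hE φ), ← cFF_Pl b hL hf hQdL φ]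
    have hE' : ∀ φ : 𝓢(X, ℂ), Eqv V κ (II μ κ k (FF g φ)) := fun φ => by
      rw [← hK φ]
      exact hE φ
    have hS : Eqv V κ (FF g (kk V κ k)) := S_eqv μ b L hL E b' hb' hC' hgS.supp hk hks hE'
    set h₀ : Vᗮ → ℂ := fun z => e (-(inner ℝ κ₀ (z : X))) * FF g (kk V κ k) z with hh₀
    -- the representation
    have hR0 : ∀ φ : 𝓢(X, ℂ), II μ κ k (FF g φ) 0 = ∑' z : Vᗮ, h₀ z * Ph μ κ₀ φ z := by
      intro φ
      rw [regroup μ b L hL E hC' hgS.supp κ hk hks φ]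
      refine tsum_congr fun z => ?_
      unfold Ph
      rw [← integral_const_mul]
      refine integral_congr_ae (Filter.Eventually.of_forall fun w => ?_)
      simp only [hh₀]
      rw [hS (w : X) w.2 (z : X), inner_add_right, e_add, hκV (w : X) w.2]
      have h5 := e_neg (inner ℝ κ₀ (z : X))
      calc φ ((z : X) + w) * (e (inner ℝ κ (w : X)) * FF g (kk V κ k) z)
          = (e (-(inner ℝ κ₀ (z : X))) * e (inner ℝ κ₀ (z : X))) *
            (φ ((z : X) + w) * (e (inner ℝ κ (w : X)) * FF g (kk V κ k) z)) := by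
              rw [h5, one_mul]
        _ = _ := by ring
    have hRx : ∀ (φ : 𝓢(X, ℂ)), II μ κ k (FF g φ) = Rh μ κ₀ φ h₀ := by
      intro φ
      funext x
      obtain ⟨φ', hφ'⟩ := exists_sub φ x
      have h6 : II μ κ k (FF g φ) x = II μ κ k (FF g φ') 0 := by
        unfold II
        refine integral_congr_ae (Filter.Eventually.of_forall fun w => ?_)
        simp only
        rw [zero_add, add_comm x (w : X), cFF_sh' g φ x (w : X), hφ']
      rw [h6, hR0 φ', hφ']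
      rfl
    -- the class
    have hcls : Cls (pDat μ L E b' hb' κ κ₀ hκV) ρ A' h₀ := by
      refine ⟨?_, ?_, ?_⟩
      · intro z hz
        by_contra hcon
        refine hz ?_
        simp only [hh₀]
        rw [S_zero L E hgS.supp V κ k (x := (z : X)) (by rwa [pp_coe]), mul_zero]
      · intro z
        exact hA' g hgS.supp hgS.val hS (z : X)
      · rintro r hr Φ ⟨φ, h1, rfl⟩
        obtain ⟨φ', hφ'⟩ := cTT_sch h1
        have h7 : FF f φ' = 0 := by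
          rw [hφ']
          exact cFF_gap hgap hr h1
        have h8 := congrFun (hK φ') 0
        rw [h7, op_zero, hR0 φ', hφ'] at h8
        exact h8.symm
    have hz := Pl_dvd N t V' (hst h₀ hcls)
    have hSig : Sig (Lp V L) (Ep V E) A' h₀ := ⟨hcls.supp, hcls.val⟩
    have hP : ∀ l ∈ V'.map (fun v => (N * t) • lf v), l ∈ L ∧ e (inner ℝ κ₀ l) = 1 := by
      intro q hq
      obtain ⟨v, hv, rfl⟩ := List.mem_map.1 hq
      obtain ⟨h1, h2⟩ := hlf v (hV' v hv).1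
      refine ⟨L.nsmul_mem h1 _, ?_⟩
      obtain ⟨m, hm⟩ := hκN (lf v) h1
      have h9 : inner ℝ κ₀ ((N * t) • lf v) = ((t * m : ℤ) : ℝ) := by
        rw [← Nat.cast_smul_eq_nsmul ℝ, real_inner_smul_right]
        push_cast
        rw [← hm]
        ring
      rw [h9, e_int]
    rw [hK φ, hRx φ, Rh_Pl μ b' L hb' E hSig κ₀ φ hP]
    have hmap : (V'.map fun v => (N * t) • lf v).map (pp V) = tl (N * t) V' := by
      rw [List.map_map]
      unfold tl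
      refine List.map_congr_left fun v hv => ?_
      simp only [Function.comp_apply, map_nsmul]
      rw [(hlf v (hV' v hv).1).2]
    rw [hmap, hz]
    funext x
    unfold Rh
    simp

end Pool.Agent.ST53
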