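import Pool.Agent.Lib.MP_53fa4a_an_ST.CEnd
import Pool.Agent.Lib.MP_53fa4a_an_ST.NStep

/-!
# Theorem C
-/

set_option autoImplicit false

open MeasureTheory
open scoped BigOperators Topology SchwartzMap ContDiff

noncomputable section

namespace Pool.Agent.ST53

variable {X : Type} [NormedAddCommGroup X] [InnerProductSpace ℝ X] [FiniteDimensional ℝ X]
  [MeasurableSpace X] [BorelSpace X]

omit [FiniteDimensional ℝ X] [MeasurableSpace X] [BorelSpace X] in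
/-- for elements outside `V` the operator is the product of the differences -/
private theorem op_of_notMem {V : Submodule ℝ X} {κ : X} {Q : List X} (hQ : ∀ q ∈ Q, q ∉ V)
    (G : X → ℂ) : Op V κ Q G = Pl Q G := by
  induction Q with
  | nil => rfl
  | cons q Q ih =>
    rw [Op, Pl, if_neg (fun h => hQ q List.mem_cons_self h.1),
      ih fun r hr => hQ r (List.mem_cons_of_mem _ hr)]

/-- **C5**, the nodes. -/
private theorem node {n : ℕ} (b : Module.Basis (Fin n) ℝ X) (L : AddSubgroup X)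
    (hL : ∀ l ∈ L, ∀ i, ∃ m : ℤ, inner ℝ (b i) l = (m : ℝ)) (E : Finset X) (A : Finset ℂ)
    (κ : X) {ρ : ℝ} (hρ : 0 < ρ) : ∀ (k : ℕ) (V : Submodule ℝ X), Module.finrank ℝ V ≤ k →
      Rat L κ V → ∃ Q : List X, (∀ q ∈ Q, q ∈ L ∧ q ≠ 0) ∧
        ∀ f, Sig L E A f → GapAt κ ρ f → ∀ φ : 𝓢(X, ℂ), Op V κ Q (FF f φ) = 0 := by
  intro k
  induction k with
  | zero =>
    intro V hV hR
    have hV0 : V = ⊥ := Submodule.finrank_eq_zero.1 (Nat.le_zero.1 hV)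
    obtain ⟨Q', hQ', h⟩ := node_step b L hL E A V κ hR hρ [] fun q hq =>
      absurd hq List.not_mem_nil
    refine ⟨Q', fun q hq => ⟨(hQ' q hq).1, fun h0 => (hQ' q hq).2 (h0 ▸ V.zero_mem)⟩, ?_⟩
    intro f hf hg φ
    rw [op_of_notMem (fun q hq => (hQ' q hq).2)]
    refine h f hf hg (fun φ' w hw x => ?_) φ
    rw [hV0, Submodule.mem_bot] at hw
    rw [hw]
    simp
  | succ k ih =>
    intro V hV hR
    obtain ⟨Q, hQ, hE⟩ := tree_main V (K := {κ}) Bornology.isBounded_singleton L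
      (B := {G | ∃ f, Sig L E A f ∧ GapAt κ ρ f ∧ ∃ φ : 𝓢(X, ℂ), G = FF f φ})
      (by
        rintro G ⟨f, hf, _, φ, rfl⟩
        obtain ⟨C, hC⟩ := hf.bdd
        exact cFF_bc b L hL E hC hf.supp φ)
      (by
        rintro κ' hκ' W hWV hne hRW
        rw [Set.mem_singleton_iff] at hκ'
        subst hκ'
        have hlt : Module.finrank ℝ W < Module.finrank ℝ V :=
          Submodule.finrank_lt_finrank_of_lt (lt_of_le_of_ne hWV hne)
        obtain ⟨Q, hQ, h⟩ := ih W (by omega) hRW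
        refine ⟨Q, hQ, ?_⟩
        rintro G ⟨f, hf, hg, φ, rfl⟩
        exact h f hf hg φ)
    obtain ⟨Q', hQ', h⟩ := node_step b L hL E A V κ hR hρ Q fun q hq => (hQ q hq).1
    refine ⟨Q' ++ Q, ?_, ?_⟩
    · intro q hq
      rcases List.mem_append.1 hq with hq | hq
      · exact ⟨(hQ' q hq).1, fun h0 => (hQ' q hq).2 (h0 ▸ V.zero_mem)⟩
      · exact hQ q hq
    · intro f hf hg φ
      rw [op_append, op_of_notMem (fun q hq => (hQ' q hq).2)]
      exact h f hf hg (fun φ' => hE κ rfl _ ⟨f, hf, hg, φ', rfl⟩) φ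

/-- **Theorem C.** -/
theorem exactness {n : ℕ} (b : Module.Basis (Fin n) ℝ X) (L : AddSubgroup X)
    (hL : ∀ l ∈ L, ∀ i, ∃ m : ℤ, inner ℝ (b i) l = (m : ℝ)) (E : Finset X) (U : Set X)
    (hU : Bornology.IsBounded U) (rad : X → ℝ) (hrad : ∀ κ ∈ U, 0 < rad κ) (A : Finset ℂ) :
    ∃ Q : List X, (∀ q ∈ Q, q ∈ L ∧ q ≠ 0) ∧ ∀ κ ∈ U, ∀ f, YY L E U rad A f →
      ∀ φ : 𝓢(X, ℂ), Op ⊤ κ Q (FF f φ) = 0 := by
  obtain ⟨Q, hQ, hE⟩ := tree_main (⊤ : Submodule ℝ X) (K := U) hU L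
    (B := {G | ∃ f, YY L E U rad A f ∧ ∃ φ : 𝓢(X, ℂ), G = FF f φ})
    (by
      rintro G ⟨f, hf, φ, rfl⟩
      obtain ⟨C, hC⟩ := hf.sig.bdd
      exact cFF_bc b L hL E hC hf.sig.supp φ)
    (by
      rintro κ hκ W _ _ hRW
      obtain ⟨Q, hQ, h⟩ := node b L hL E A κ (hrad κ hκ) _ W le_rfl hRW
      refine ⟨Q, hQ, ?_⟩
      rintro G ⟨f, hf, φ, rfl⟩
      exact h f hf.sig (hf.gap κ hκ) φ)
  refine ⟨Q, hQ, fun κ hκ f hf φ => ?_⟩
  exact end_top b L hL E hf.sig (hrad κ hκ) (hf.gap κ hκ) Q φ (hE κ hκ _ ⟨f, hf, φ, rfl⟩)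

end Pool.Agent.ST53
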