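import Pool.Agent.Lib.MP_53fa4a_an_ST.CDefs

/-!
# MP_53fa4a_an, project ST, part C: the operators commute

`Jt t κ q G x = ∫_0^t e(-s⟨κ,q⟩) G(x+sq) ds` (so `av κ q = Jt 1 κ q`) and
`Dl κ q s G x = e(-s⟨κ,q⟩) G(x+sq) - G(x)`.
-/

set_option autoImplicit false

open MeasureTheory
open scoped BigOperators Topology

noncomputable section

namespace Pool.Agent.ST53

set_option linter.unusedSectionVars false

variable {X : Type*} [NormedAddCommGroup X] [InnerProductSpace ℝ X]

/-- `∫_0^t e(-s⟨κ,q⟩) G(x+sq) ds` -/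
def Jt (t : ℝ) (κ q : X) (G : X → ℂ) (x : X) : ℂ :=
  ∫ s in (0 : ℝ)..t, e (-(s * inner ℝ κ q)) * G (x + s • q)

/-- `e(-s⟨κ,q⟩) G(x+sq) - G(x)` -/
def Dl (κ q : X) (s : ℝ) (G : X → ℂ) (x : X) : ℂ :=
  e (-(s * inner ℝ κ q)) * G (x + s • q) - G x

theorem av_eq_Jt (κ q : X) (G : X → ℂ) : av κ q G = Jt 1 κ q G := rfl

theorem jt_cont2 (κ q : X) {G : X → ℂ} (hG : Continuous G) :
    Continuous (Function.uncurry fun (x : X) (s : ℝ) =>
      e (-(s * inner ℝ κ q)) * G (x + s • q)) := by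
  have h1 : Continuous fun p : X × ℝ => e (-(p.2 * inner ℝ κ q)) :=
    continuous_e.comp (by fun_prop)
  have h2 : Continuous fun p : X × ℝ => G (p.1 + p.2 • q) := hG.comp (by fun_prop)
  exact h1.mul h2

theorem jt_cont1 (κ q : X) {G : X → ℂ} (hG : Continuous G) (x : X) :
    Continuous fun s : ℝ => e (-(s * inner ℝ κ q)) * G (x + s • q) :=
  (jt_cont2 κ q hG).comp (by fun_prop : Continuous fun s : ℝ => (x, s))

/-! ### zero and negation -/

theorem jt_zero (t : ℝ) (κ q : X) : Jt t κ q (0 : X → ℂ) = 0 := by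
  funext x
  simp [Jt]

theorem dl_zero (κ q : X) (s : ℝ) : Dl κ q s (0 : X → ℂ) = 0 := by
  funext x
  simp [Dl]

theorem dif_zero (q : X) : dif q (0 : X → ℂ) = 0 := by
  funext x
  simp [dif]

theorem dl_neg (κ q : X) (s : ℝ) (G : X → ℂ) : Dl κ q s (-G) = -Dl κ q s G := by
  funext x
  simp only [Dl, Pi.neg_apply]
  ring

/-! ### bounded continuous functions -/

theorem BC.dif {G : X → ℂ} (hG : BC G) (q : X) : BC (dif q G) := by
  obtain ⟨hc, C, hC⟩ := hG
  refine ⟨hc.sub (hc.comp (by fun_prop)), C + C, fun x => ?_⟩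
  exact (norm_sub_le _ _).trans (add_le_add (hC _) (hC _))

theorem BC.dl {G : X → ℂ} (hG : BC G) (κ q : X) (s : ℝ) : BC (Dl κ q s G) := by
  obtain ⟨hc, C, hC⟩ := hG
  refine ⟨(continuous_const.mul (hc.comp (by fun_prop))).sub hc, C + C, fun x => ?_⟩
  refine (norm_sub_le _ _).trans (add_le_add ?_ (hC _))
  rw [norm_mul, norm_e, one_mul]
  exact hC _

theorem BC.jt {G : X → ℂ} (hG : BC G) (t : ℝ) (κ q : X) : BC (Jt t κ q G) := by
  obtain ⟨hc, C, hC⟩ := hG
  refine ⟨intervalIntegral.continuous_parametric_intervalIntegral_of_continuous'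
    (jt_cont2 κ q hc) 0 t, C * |t - 0|, fun x => ?_⟩
  refine intervalIntegral.norm_integral_le_of_norm_le_const fun s _ => ?_
  rw [norm_mul, norm_e, one_mul]
  exact hC _

theorem BC.av {G : X → ℂ} (hG : BC G) (κ q : X) : BC (av κ q G) := hG.jt 1 κ q

theorem BC.op {G : X → ℂ} (hG : BC G) (W : Submodule ℝ X) (κ : X) (Q : List X) :
    BC (Op W κ Q G) := by
  induction Q with
  | nil => exact hG
  | cons q Q ih =>
    rw [Op]
    split_ifs
    · exact ih.av κ q
    · exact ih.dif q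

/-! ### commutation -/

theorem dif_dif (q v : X) (G : X → ℂ) : dif q (dif v G) = dif v (dif q G) := by
  funext x
  simp only [dif]
  rw [add_right_comm x q v]
  ring

theorem dif_dl (κ q v : X) (s : ℝ) (G : X → ℂ) : dif v (Dl κ q s G) = Dl κ q s (dif v G) := by
  funext x
  simp only [dif, Dl]
  rw [add_right_comm x v (s • q)]
  ring

theorem dl_dl (κ q κ' q' : X) (s s' : ℝ) (G : X → ℂ) :
    Dl κ q s (Dl κ' q' s' G) = Dl κ' q' s' (Dl κ q s G) := by
  funext x
  simp only [Dl]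
  rw [add_right_comm x (s • q) (s' • q')]
  ring

theorem jt_dif (t : ℝ) (κ q v : X) {G : X → ℂ} (hG : Continuous G) :
    Jt t κ q (dif v G) = dif v (Jt t κ q G) := by
  funext x
  simp only [dif, Jt]
  rw [← intervalIntegral.integral_sub ((jt_cont1 κ q hG x).intervalIntegrable _ _)
    ((jt_cont1 κ q hG (x + v)).intervalIntegrable _ _)]
  congr 1
  funext s
  rw [add_right_comm x v (s • q)]
  ring

theorem jt_dl (t : ℝ) (κ q κ' q' : X) (s' : ℝ) {G : X → ℂ} (hG : Continuous G) :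
    Jt t κ q (Dl κ' q' s' G) = Dl κ' q' s' (Jt t κ q G) := by
  funext x
  simp only [Dl, Jt]
  rw [← intervalIntegral.integral_const_mul,
    ← intervalIntegral.integral_sub
      (((jt_cont1 κ q hG (x + s' • q')).const_mul _).intervalIntegrable _ _)
      ((jt_cont1 κ q hG x).intervalIntegrable _ _)]
  congr 1
  funext s
  rw [add_right_comm x (s' • q') (s • q)]
  ring

theorem jt_jt (t t' : ℝ) (κ q κ' q' : X) {G : X → ℂ} (hG : Continuous G) :
    Jt t κ q (Jt t' κ' q' G) = Jt t' κ' q' (Jt t κ q G) := by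
  funext x
  simp only [Jt]
  have h1 : ∀ s : ℝ, e (-(s * inner ℝ κ q)) *
      ∫ s' in (0 : ℝ)..t', e (-(s' * inner ℝ κ' q')) * G (x + s • q + s' • q') =
      ∫ s' in (0 : ℝ)..t', e (-(s * inner ℝ κ q)) * (e (-(s' * inner ℝ κ' q')) *
        G (x + s • q + s' • q')) := fun s => (intervalIntegral.integral_const_mul _ _).symm
  have h2 : ∀ s' : ℝ, e (-(s' * inner ℝ κ' q')) *
      ∫ s in (0 : ℝ)..t, e (-(s * inner ℝ κ q)) * G (x + s' • q' + s • q) =
      ∫ s in (0 : ℝ)..t, e (-(s' * inner ℝ κ' q')) * (e (-(s * inner ℝ κ q)) *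
        G (x + s' • q' + s • q)) := fun s' => (intervalIntegral.integral_const_mul _ _).symm
  simp only [h1, h2]
  rw [intervalIntegral_intervalIntegral_swap]
  · congr 1
    funext s'
    congr 1
    funext s
    rw [add_right_comm x (s • q) (s' • q')]
    ring
  · have hc : Continuous (Function.uncurry fun s s' : ℝ => e (-(s * inner ℝ κ q)) *
        (e (-(s' * inner ℝ κ' q')) * G (x + s • q + s' • q'))) := by
      have a1 : Continuous fun p : ℝ × ℝ => e (-(p.1 * inner ℝ κ q)) :=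
        continuous_e.comp (by fun_prop)
      have a2 : Continuous fun p : ℝ × ℝ => e (-(p.2 * inner ℝ κ' q')) :=
        continuous_e.comp (by fun_prop)
      have a3 : Continuous fun p : ℝ × ℝ => G (x + p.1 • q + p.2 • q') :=
        hG.comp (by fun_prop)
      exact a1.mul (a2.mul a3)
    exact (hc.continuousOn.integrableOn_compact (isCompact_uIcc.prod isCompact_uIcc)).mono_set
      (Set.prod_mono Set.uIoc_subset_uIcc Set.uIoc_subset_uIcc)

/-! ### the products `Op` -/

theorem op_zero (W : Submodule ℝ X) (κ : X) (Q : List X) : Op W κ Q (0 : X → ℂ) = 0 := by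
  induction Q with
  | nil => rfl
  | cons q Q ih =>
    rw [Op, ih]
    split_ifs
    · rw [av_eq_Jt, jt_zero]
    · exact dif_zero q

theorem op_append (W : Submodule ℝ X) (κ : X) (Q Q' : List X) (G : X → ℂ) :
    Op W κ (Q ++ Q') G = Op W κ Q (Op W κ Q' G) := by
  induction Q with
  | nil => rfl
  | cons q Q ih => rw [List.cons_append, Op, Op, ih]

theorem dif_op (W : Submodule ℝ X) (κ v : X) (Q : List X) {G : X → ℂ} (hG : BC G) :
    dif v (Op W κ Q G) = Op W κ Q (dif v G) := by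
  induction Q with
  | nil => rfl
  | cons q Q ih =>
    rw [Op, Op, ← ih]
    split_ifs
    · rw [av_eq_Jt, av_eq_Jt, jt_dif _ _ _ _ (hG.op W κ Q).cont]
    · exact dif_dif v q _

theorem dl_op (W : Submodule ℝ X) (κ κ' q' : X) (s : ℝ) (Q : List X) {G : X → ℂ} (hG : BC G) :
    Dl κ' q' s (Op W κ Q G) = Op W κ Q (Dl κ' q' s G) := by
  induction Q with
  | nil => rfl
  | cons q Q ih =>
    rw [Op, Op, ← ih]
    split_ifs
    · rw [av_eq_Jt, av_eq_Jt, jt_dl _ _ _ _ _ _ (hG.op W κ Q).cont]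
    · rw [dif_dl]

theorem jt_op (W : Submodule ℝ X) (κ κ' q' : X) (t : ℝ) (Q : List X) {G : X → ℂ} (hG : BC G) :
    Jt t κ' q' (Op W κ Q G) = Op W κ Q (Jt t κ' q' G) := by
  induction Q with
  | nil => rfl
  | cons q Q ih =>
    rw [Op, Op, ← ih]
    split_ifs
    · rw [av_eq_Jt, av_eq_Jt, jt_jt _ _ _ _ _ _ (hG.op W κ Q).cont]
    · rw [jt_dif _ _ _ _ (hG.op W κ Q).cont]

theorem op_op (W W' : Submodule ℝ X) (κ κ' : X) (Q Q' : List X) {G : X → ℂ} (hG : BC G) :
    Op W κ Q (Op W' κ' Q' G) = Op W' κ' Q' (Op W κ Q G) := by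
  induction Q with
  | nil => rfl
  | cons q Q ih =>
    rw [Op, Op, ih]
    split_ifs
    · exact jt_op W' κ' κ q 1 Q' (hG.op W κ Q)
    · exact dif_op W' κ' q Q' (hG.op W κ Q)

theorem op_perm (W : Submodule ℝ X) (κ : X) {Q Q' : List X} (h : Q.Perm Q') {G : X → ℂ}
    (hG : BC G) : Op W κ Q G = Op W κ Q' G := by
  induction h with
  | nil => rfl
  | cons q _ ih => rw [Op, Op, ih]
  | swap q q' Q =>
    have h1 : Op W κ (q' :: q :: Q) G = Op W κ [q'] (Op W κ [q] (Op W κ Q G)) := by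
      rw [← op_append, ← op_append]; rfl
    have h2 : Op W κ (q :: q' :: Q) G = Op W κ [q] (Op W κ [q'] (Op W κ Q G)) := by
      rw [← op_append, ← op_append]; rfl
    rw [h1, h2, op_op W W κ κ [q'] [q] (hG.op W κ Q)]
  | trans _ _ ih1 ih2 => exact ih1.trans ih2

theorem op_congr (W : Submodule ℝ X) {κ κ' : X} (h : ∀ w ∈ W, inner ℝ κ w = inner ℝ κ' w)
    (Q : List X) (G : X → ℂ) : Op W κ Q G = Op W κ' Q G := by
  classical
  induction Q with
  | nil => rfl
  | cons q Q ih =>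
    rw [Op, Op, ih]
    by_cases hq : q ∈ W
    · have h1 : av κ q (Op W κ' Q G) = av κ' q (Op W κ' Q G) := by
        funext x
        simp only [av, h q hq]
      rw [h1, h q hq]
    · rw [if_neg (fun h => hq h.1), if_neg (fun h => hq h.1)]

end Pool.Agent.ST53
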