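import Pool.Agent.Lib.MP_53fa4a_an_ST.CTree

/-!
# Rational structure (C5): a basis of `Vᗮ` in the dual lattice, and a rational point `κ₀`
-/

set_option autoImplicit false

set_option linter.unusedSectionVars false

open scoped BigOperators Topology

noncomputable section

namespace Pool.Agent.ST53

variable {X : Type} [NormedAddCommGroup X] [InnerProductSpace ℝ X] [FiniteDimensional ℝ X]

/-- Vectors of the lattice spanned by `b` have integer products with `q`, if the `b i` have. -/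
private theorem int_pair {n : ℕ} (b : Module.Basis (Fin n) ℝ X) {q : X}
    (hq : ∀ i, ∃ m : ℤ, inner ℝ (b i) q = (m : ℝ)) {z : X}
    (hz : z ∈ Submodule.span ℤ (Set.range b)) : ∃ m : ℤ, inner ℝ z q = (m : ℝ) := by
  induction hz using Submodule.span_induction with
  | mem x hx =>
    obtain ⟨i, rfl⟩ := hx
    exact hq i
  | zero => exact ⟨0, by simp⟩
  | add x y _ _ hx hy =>
    obtain ⟨m, hm⟩ := hx
    obtain ⟨m', hm'⟩ := hy
    exact ⟨m + m', by rw [inner_add_left, hm, hm']; push_cast; rfl⟩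
  | smul a x _ hx =>
    obtain ⟨m, hm⟩ := hx
    refine ⟨a * m, ?_⟩
    rw [← Int.cast_smul_eq_zsmul ℝ, inner_smul_left, hm]
    push_cast
    simp

/-- One more equation. -/
private theorem step_span {n : ℕ} (b : Module.Basis (Fin n) ℝ X) (W : Submodule ℝ X) {q : X}
    (hq : ∀ i, ∃ m : ℤ, inner ℝ (b i) q = (m : ℝ))
    (hW : W ≤ Submodule.span ℝ {x | x ∈ W ∧ x ∈ Submodule.span ℤ (Set.range b)}) :
    W ⊓ (Submodule.span ℝ {q})ᗮ ≤
      Submodule.span ℝ {x | x ∈ W ⊓ (Submodule.span ℝ {q})ᗮ ∧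
        x ∈ Submodule.span ℤ (Set.range b)} := by
  by_cases h0 : ∃ w ∈ W, w ∈ Submodule.span ℤ (Set.range b) ∧ inner ℝ w q ≠ 0
  · obtain ⟨w, hwW, hwZ, hwq⟩ := h0
    obtain ⟨m, hm⟩ := int_pair b hq hwZ
    have hm0 : (m : ℝ) ≠ 0 := by rwa [← hm]
    let T : X →ₗ[ℝ] X := (m : ℝ) • LinearMap.id -
      (LinearMap.toSpanSingleton ℝ X w).comp (innerₛₗ ℝ q)
    have hT : ∀ x, T x = (m : ℝ) • x - (inner ℝ q x : ℝ) • w := by
      intro x
      simp [T]
    have hmap : W ≤ Submodule.comap T (Submodule.span ℝ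
        {x | x ∈ W ⊓ (Submodule.span ℝ {q})ᗮ ∧ x ∈ Submodule.span ℤ (Set.range b)}) := by
      refine le_trans hW (Submodule.span_le.2 ?_)
      rintro x ⟨hxW, hxZ⟩
      obtain ⟨k, hk⟩ := int_pair b hq hxZ
      rw [SetLike.mem_coe, Submodule.mem_comap, hT]
      refine Submodule.subset_span ⟨⟨?_, ?_⟩, ?_⟩
      · exact W.sub_mem (W.smul_mem _ hxW) (W.smul_mem _ hwW)
      · rw [SetLike.mem_coe, Submodule.mem_orthogonal_singleton_iff_inner_right,
          inner_sub_right, inner_smul_right, inner_smul_right, real_inner_comm w q, hm]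
        ring
      · rw [real_inner_comm x q, hk, Int.cast_smul_eq_zsmul, Int.cast_smul_eq_zsmul]
        exact Submodule.sub_mem _ (Submodule.smul_mem _ _ hxZ) (Submodule.smul_mem _ _ hwZ)
    rintro x ⟨hxW, hxq⟩
    have h1 := hmap hxW
    rw [Submodule.mem_comap, hT] at h1
    rw [SetLike.mem_coe, Submodule.mem_orthogonal_singleton_iff_inner_right] at hxq
    rw [hxq, zero_smul, sub_zero] at h1
    have h2 := Submodule.smul_mem _ (m : ℝ)⁻¹ h1
    rwa [smul_smul, inv_mul_cancel₀ hm0, one_smul] at h2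
  · push Not at h0
    have hWq : W ≤ (Submodule.span ℝ {q})ᗮ := by
      refine le_trans hW (Submodule.span_le.2 ?_)
      rintro x ⟨hxW, hxZ⟩
      rw [SetLike.mem_coe, Submodule.mem_orthogonal_singleton_iff_inner_right, real_inner_comm]
      exact h0 x hxW hxZ
    rw [inf_eq_left.2 hWq]
    exact hW

/-- The orthogonal complement of a finite set of integral vectors is spanned by lattice vectors. -/
private theorem orth_span {n : ℕ} (b : Module.Basis (Fin n) ℝ X) {t : Set X} (ht : t.Finite)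
    (hq : ∀ q ∈ t, ∀ i, ∃ m : ℤ, inner ℝ (b i) q = (m : ℝ)) :
    (Submodule.span ℝ t)ᗮ ≤
      Submodule.span ℝ {x | x ∈ (Submodule.span ℝ t)ᗮ ∧
        x ∈ Submodule.span ℤ (Set.range b)} := by
  induction t, ht using Set.Finite.induction_on with
  | empty =>
    rw [Submodule.span_empty, Submodule.bot_orthogonal_eq_top]
    have h1 : Set.range b ⊆ {x | x ∈ (⊤ : Submodule ℝ X) ∧
        x ∈ Submodule.span ℤ (Set.range b)} :=
      fun x hx => ⟨trivial, Submodule.subset_span hx⟩
    calc (⊤ : Submodule ℝ X) = Submodule.span ℝ (Set.range b) := b.span_eq.symm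
      _ ≤ _ := Submodule.span_mono h1
  | @insert q t _ _ ih =>
    have h1 : (Submodule.span ℝ (insert q t))ᗮ =
        (Submodule.span ℝ t)ᗮ ⊓ (Submodule.span ℝ {q})ᗮ := by
      rw [Submodule.span_insert, ← Submodule.inf_orthogonal, inf_comm]
    rw [h1]
    exact step_span b _ (hq q (Set.mem_insert _ _))
      (ih fun q' hq' => hq q' (Set.mem_insert_of_mem _ hq'))

/-- A rational solution of finitely many equations with integer coefficients. -/
private theorem kappa_ind {n : ℕ} (b : Module.Basis (Fin n) ℝ X) (κ : X) {t : Set X}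
    (ht : t.Finite) (hq : ∀ q ∈ t, ∀ i, ∃ m : ℤ, inner ℝ (b i) q = (m : ℝ))
    (hκ : ∀ q ∈ t, ∃ m : ℤ, inner ℝ κ q = (m : ℝ)) :
    ∃ κ₀ : X, ∃ N : ℤ, N ≠ 0 ∧ (N : ℝ) • κ₀ ∈ Submodule.span ℤ (Set.range b) ∧
      ∀ q ∈ t, inner ℝ κ₀ q = inner ℝ κ q := by
  induction t, ht using Set.Finite.induction_on with
  | empty => exact ⟨0, 1, one_ne_zero, by simp, by simp⟩
  | @insert q t _ htf ih =>
    obtain ⟨κ₀, N, hN, hZ, hκ₀⟩ := ih (fun q' hq' => hq q' (Set.mem_insert_of_mem _ hq'))
      (fun q' hq' => hκ q' (Set.mem_insert_of_mem _ hq'))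
    have hqq := hq q (Set.mem_insert _ _)
    obtain ⟨nq, hnq⟩ := hκ q (Set.mem_insert _ _)
    obtain ⟨k, hk⟩ := int_pair b hqq hZ
    have hNr : (N : ℝ) ≠ 0 := by exact_mod_cast hN
    by_cases h0 : ∃ w ∈ (Submodule.span ℝ t)ᗮ, w ∈ Submodule.span ℤ (Set.range b) ∧
        inner ℝ w q ≠ 0
    · obtain ⟨w, hwW, hwZ, hwq⟩ := h0
      obtain ⟨m, hm⟩ := int_pair b hqq hwZ
      have hm0 : (m : ℝ) ≠ 0 := by rwa [← hm]
      have hm0' : m ≠ 0 := by exact_mod_cast hm0
      refine ⟨κ₀ + ((nq - inner ℝ κ₀ q) / m : ℝ) • w, N * m, mul_ne_zero hN hm0', ?_, ?_⟩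
      · have h1 : ((N * m : ℤ) : ℝ) • (κ₀ + ((nq - inner ℝ κ₀ q) / m : ℝ) • w) =
            (m : ℝ) • ((N : ℝ) • κ₀) + ((N * nq - k : ℤ) : ℝ) • w := by
          have h2 : (N : ℝ) * inner ℝ κ₀ q = k := by
            rw [← hk, inner_smul_left]
            simp
          have h3 : ((N * m : ℤ) : ℝ) * ((nq - inner ℝ κ₀ q) / m) = ((N * nq - k : ℤ) : ℝ) := by
            push_cast
            rw [← h2]
            field_simp
          rw [smul_add, smul_smul, h3, smul_smul]
          push_cast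
          rw [mul_comm (m : ℝ)]
        have h5 : (m : ℝ) • ((N : ℝ) • κ₀) = m • ((N : ℝ) • κ₀) :=
          Int.cast_smul_eq_zsmul ℝ m _
        have h6 : ((N * nq - k : ℤ) : ℝ) • w = (N * nq - k) • w :=
          Int.cast_smul_eq_zsmul ℝ _ _
        rw [h1, h5, h6]
        exact Submodule.add_mem _ (Submodule.smul_mem _ _ hZ) (Submodule.smul_mem _ _ hwZ)
      · intro q' hq'
        rw [inner_add_left, inner_smul_left]
        rcases Set.mem_insert_iff.1 hq' with rfl | hq'
        · rw [hm, hnq]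
          simp only [conj_trivial]
          field_simp
          ring
        · have h1 : inner ℝ w q' = 0 := by
            rw [real_inner_comm]
            exact hwW q' (Submodule.subset_span hq')
          rw [h1, mul_zero, add_zero, hκ₀ q' hq']
    · push Not at h0
      have hWq : (Submodule.span ℝ t)ᗮ ≤ (Submodule.span ℝ {q})ᗮ := by
        refine le_trans (orth_span b htf
          (fun q' hq' => hq q' (Set.mem_insert_of_mem _ hq'))) (Submodule.span_le.2 ?_)
        rintro x ⟨hxW, hxZ⟩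
        rw [SetLike.mem_coe, Submodule.mem_orthogonal_singleton_iff_inner_right, real_inner_comm]
        exact h0 x hxW hxZ
      refine ⟨κ₀, N, hN, hZ, ?_⟩
      intro q' hq'
      rcases Set.mem_insert_iff.1 hq' with rfl | hq'
      · have h1 : κ₀ - κ ∈ (Submodule.span ℝ t)ᗮ := by
          rw [Submodule.mem_orthogonal']
          intro u hu
          induction hu using Submodule.span_induction with
          | mem x hx => rw [inner_sub_left, hκ₀ x hx, sub_self]
          | zero => simp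
          | add x y _ _ hx hy => rw [inner_add_right, hx, hy, add_zero]
          | smul a x _ hx => rw [inner_smul_right, hx, mul_zero]
        have h2 := hWq h1
        rw [Submodule.mem_orthogonal_singleton_iff_inner_right, real_inner_comm,
          inner_sub_left, sub_eq_zero] at h2
        exact h2
      · exact hκ₀ q' hq'

/-- A finite spanning set. -/
private theorem Rat.finite {L : AddSubgroup X} {κ : X} {V : Submodule ℝ X} (hR : Rat L κ V) :
    ∃ t : Set X, t.Finite ∧ (∀ q ∈ t, q ∈ L ∧ ∃ n : ℤ, inner ℝ κ q = (n : ℝ)) ∧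
      V = Submodule.span ℝ t := by
  obtain ⟨S, hS, hV⟩ := hR
  obtain ⟨t, htS, hspan, hli⟩ := exists_linearIndependent ℝ S
  exact ⟨t, hli.setFinite, fun q hq => hS q (htS hq), by rw [hV, hspan]⟩

/-- **A basis of `Vᗮ` in the lattice spanned by `b`.** -/
theorem orth_basis {n : ℕ} (b : Module.Basis (Fin n) ℝ X) (L : AddSubgroup X)
    (hL : ∀ l ∈ L, ∀ i, ∃ m : ℤ, inner ℝ (b i) l = (m : ℝ)) {κ : X} {V : Submodule ℝ X}
    (hR : Rat L κ V) :
    ∃ (k : ℕ) (b' : Module.Basis (Fin k) ℝ Vᗮ),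
      ∀ i, ((b' i : Vᗮ) : X) ∈ Submodule.span ℤ (Set.range b) := by
  classical
  obtain ⟨t, htf, ht, hV⟩ := hR.finite
  have h1 := orth_span b htf (fun q hq => hL q (ht q hq).1)
  rw [← hV] at h1
  set T : Set Vᗮ := {v | (v : X) ∈ Submodule.span ℤ (Set.range b)} with hT
  have hspan : Submodule.span ℝ T = ⊤ := by
    rw [eq_top_iff]
    rintro v -
    have h2 : (v : X) ∈ Submodule.map (Vᗮ).subtype (Submodule.span ℝ T) := by
      rw [Submodule.map_span]
      refine Submodule.span_mono ?_ (h1 v.2)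
      rintro x ⟨hxV, hxZ⟩
      exact ⟨⟨x, hxV⟩, hxZ, rfl⟩
    obtain ⟨v', hv', hvv⟩ := h2
    have h3 : v' = v := Subtype.ext hvv
    rwa [h3] at hv'
  obtain ⟨s, hsT, hss, hli⟩ := exists_linearIndependent ℝ T
  have hsf : s.Finite := hli.setFinite
  have : Fintype s := hsf.fintype
  have B := Module.Basis.mk hli (by rw [Subtype.range_coe, hss, hspan])
  refine ⟨Fintype.card s, (Module.Basis.mk hli
    (by rw [Subtype.range_coe, hss, hspan])).reindex (Fintype.equivFin s), ?_⟩
  intro i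
  rw [Module.Basis.reindex_apply, Module.Basis.mk_apply]
  exact hsT ((Fintype.equivFin s).symm i).2

/-- **A rational point with the same restriction to `V`.** -/
theorem kappa_zero {n : ℕ} (b : Module.Basis (Fin n) ℝ X) (L : AddSubgroup X)
    (hL : ∀ l ∈ L, ∀ i, ∃ m : ℤ, inner ℝ (b i) l = (m : ℝ)) {κ : X} {V : Submodule ℝ X}
    (hR : Rat L κ V) :
    ∃ κ₀ : X, ∃ N : ℕ, 0 < N ∧ (∀ v ∈ V, inner ℝ κ₀ v = inner ℝ κ v) ∧
      ∀ l ∈ L, ∃ m : ℤ, (N : ℝ) * inner ℝ κ₀ l = (m : ℝ) := by
  obtain ⟨t, htf, ht, hV⟩ := hR.finite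
  obtain ⟨κ₀, N, hN, hZ, hκ₀⟩ := kappa_ind b κ htf (fun q hq => hL q (ht q hq).1)
    (fun q hq => (ht q hq).2)
  refine ⟨κ₀, N.natAbs, Int.natAbs_pos.2 hN, ?_, ?_⟩
  · intro v hv
    rw [hV] at hv
    induction hv using Submodule.span_induction with
    | mem x hx => exact hκ₀ x hx
    | zero => simp
    | add x y _ _ hx hy => rw [inner_add_right, inner_add_right, hx, hy]
    | smul a x _ hx => rw [inner_smul_right, inner_smul_right, hx]
  · intro l hl
    obtain ⟨m, hm⟩ := int_pair b (hL l hl) hZ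
    rw [inner_smul_left] at hm
    simp only [conj_trivial] at hm
    rcases abs_choice N with h | h
    · refine ⟨m, ?_⟩
      rw [Nat.cast_natAbs, h, hm]
    · refine ⟨-m, ?_⟩
      rw [Nat.cast_natAbs, h]
      push_cast
      rw [neg_mul, hm]

end Pool.Agent.ST53
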