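import Pool.Agent.Lib.MP_53fa4a_an_ST.DComm

/-!
# Part D: from the operators `op` to the operators `opm`
-/

set_option autoImplicit false

open MeasureTheory Set Filter
open scoped ENNReal Topology ComplexConjugate BigOperators

noncomputable section

namespace Pool.Agent.ST53

open Pool.Agent.SpecND (E ee)
open Pool.Agent.NL53 (zv rv fib IsSpectrum)

variable {d : ℕ}

/-- PROOF: split the integral over `[0,m]` (after the substitution `u = m s`) into the integrals
over `[j,j+1]`. -/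
theorem avm_eq_sum {m : ℕ} (hm : 0 < m) (κ q : E d) {G : E d → ℂ} (hG : Continuous G) (x : E d) :
    avm m κ q G x = (m : ℂ)⁻¹ * ∑ j ∈ Finset.range m,
      e (-((j : ℝ) * inner ℝ κ q)) * av κ q G (x + (j : ℝ) • q) := by
  set f : ℝ → ℂ := fun u => e (-(u * inner ℝ κ q)) * G (x + u • q) with hf
  have hfc : Continuous f := by
    have h1 : Continuous fun u : ℝ => e (-(u * inner ℝ κ q)) := continuous_e.comp (by fun_prop)
    have h2 : Continuous fun u : ℝ => G (x + u • q) := hG.comp (by fun_prop)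
    exact h1.mul h2
  have hm0 : (m : ℝ) ≠ 0 := by
    have : (0 : ℝ) < m := by exact_mod_cast hm
    exact this.ne'
  have h1 : avm m κ q G x = ∫ s in (0 : ℝ)..1, f ((m : ℝ) * s) := rfl
  rw [h1, intervalIntegral.integral_comp_mul_left f hm0, mul_zero, mul_one]
  have h2 : (∫ u in (0 : ℝ)..(m : ℝ), f u) =
      ∑ j ∈ Finset.range m, ∫ u in ((j : ℕ) : ℝ)..((j + 1 : ℕ) : ℝ), f u := by
    have := intervalIntegral.sum_integral_adjacent_intervals (f := f) (μ := volume)
      (a := fun k : ℕ => (k : ℝ)) (n := m) (fun k _ => hfc.intervalIntegrable _ _)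
    simp only [Nat.cast_zero] at this
    exact this.symm
  rw [h2]
  have h3 : ∀ j ∈ Finset.range m, (∫ u in ((j : ℕ) : ℝ)..((j + 1 : ℕ) : ℝ), f u) =
      e (-((j : ℝ) * inner ℝ κ q)) * av κ q G (x + (j : ℝ) • q) := by
    intro j _
    have h4 : (∫ s in (0 : ℝ)..1, f (s + (j : ℝ))) =
        ∫ u in ((j : ℕ) : ℝ)..((j + 1 : ℕ) : ℝ), f u := by
      rw [intervalIntegral.integral_comp_add_right]
      congr 1
      · ring
      · push_cast
        ring
    rw [← h4, av, ← intervalIntegral.integral_const_mul]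
    refine intervalIntegral.integral_congr fun s _ => ?_
    simp only [hf]
    have h5 : e (-((s + (j : ℝ)) * inner ℝ κ q)) =
        e (-((j : ℝ) * inner ℝ κ q)) * e (-(s * inner ℝ κ q)) := by
      rw [← e_add]
      congr 1
      ring
    have h6 : x + (s + (j : ℝ)) • q = x + (j : ℝ) • q + s • q := by
      rw [add_smul]
      abel
    rw [h5, h6, mul_assoc]
  rw [Finset.sum_congr rfl h3, Complex.real_smul]
  congr 1
  push_cast
  rfl

private lemma e_nat_mul (t : ℝ) (n : ℕ) : e ((n : ℝ) * t) = e t ^ n := by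
  induction n with
  | zero => simp
  | succ n ih =>
    rw [pow_succ, ← ih, ← e_add]
    congr 1
    push_cast
    ring

theorem avm_of_av {m : ℕ} (hm : 0 < m) {κ q : E d} {G : E d → ℂ} (hG : Continuous G)
    (h : av κ q G = 0) : avm m κ q G = 0 := by
  funext x
  rw [avm_eq_sum hm κ q hG x, h]
  simp

/-- PROOF: `G` has the period `q`, so `av κ q G (x + j q) = av κ q G x`, and the geometric sum
`∑_{j<m} e(-j⟨κ,q⟩)` is `0`. -/
theorem avm_of_dif {m : ℕ} (hm : 0 < m) {κ q : E d} {G : E d → ℂ} (hG : Continuous G)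
    (hint : ∃ k : ℤ, (m : ℝ) * inner ℝ κ q = k) (hno : ¬ ∃ k : ℤ, inner ℝ κ q = (k : ℝ))
    (h : dif q G = 0) : avm m κ q G = 0 := by
  have hper : ∀ x : E d, G (x + q) = G x := by
    intro x
    have h1 := congrFun h x
    unfold dif at h1
    exact (sub_eq_zero.mp h1).symm
  have hperj : ∀ (j : ℕ) (x : E d), G (x + (j : ℝ) • q) = G x := by
    intro j
    induction j with
    | zero => intro x; simp
    | succ j ih =>
      intro x
      have h1 : x + ((j + 1 : ℕ) : ℝ) • q = x + (j : ℝ) • q + q := by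
        push_cast
        rw [add_smul, one_smul, add_assoc]
      rw [h1, hper, ih]
  have hav : ∀ (j : ℕ) (x : E d), av κ q G (x + (j : ℝ) • q) = av κ q G x := by
    intro j x
    unfold av
    refine intervalIntegral.integral_congr fun s _ => ?_
    beta_reduce
    rw [add_right_comm, hperj]
  funext x
  rw [avm_eq_sum hm κ q hG x]
  have h1 : ∀ j ∈ Finset.range m, e (-((j : ℝ) * inner ℝ κ q)) * av κ q G (x + (j : ℝ) • q) =
      e (-(inner ℝ κ q)) ^ j * av κ q G x := by
    intro j _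
    rw [hav, ← e_nat_mul]
    congr 2
    ring
  rw [Finset.sum_congr rfl h1, ← Finset.sum_mul]
  have hne : 1 - e (-(inner ℝ κ q)) ≠ 0 := by
    intro h2
    have h3 : e (-(inner ℝ κ q)) = 1 := (sub_eq_zero.mp h2).symm
    obtain ⟨n, hn⟩ := (e_eq_one_iff _).mp h3
    exact hno ⟨-n, by push_cast; linarith⟩
  have hpow : e (-(inner ℝ κ q)) ^ m = 1 := by
    rw [← e_nat_mul, e_eq_one_iff]
    obtain ⟨k, hk⟩ := hint
    exact ⟨-k, by push_cast; rw [← hk]; ring⟩
  have hs : ∑ j ∈ Finset.range m, e (-(inner ℝ κ q)) ^ j = 0 := by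
    have h4 := mul_neg_geom_sum (e (-(inner ℝ κ q))) m
    rw [hpow, sub_self] at h4
    exact (mul_eq_zero.mp h4).resolve_left hne
  rw [hs]
  simp

/-- PROOF: induction on `Q`, for all `G`: if `Op ⊤ κ (q :: Q) G = fac ⊤ κ q (Op ⊤ κ Q G) = 0`, then
`Op ⊤ κ Q (avm m κ q G) = avm m κ q (Op ⊤ κ Q G) = 0` by `avm_of_av`, `avm_of_dif`, so
`0 = opm m κ Q (avm m κ q G) = avm m κ q (opm m κ Q G)`. -/
theorem opm_of_op {m : ℕ} (hm : 0 < m) {κ : E d} {Q : List (E d)}
    (hint : ∀ q ∈ Q, ∃ k : ℤ, (m : ℝ) * inner ℝ κ q = k) {G : E d → ℂ} (hG : Continuous G)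
    (h : Op ⊤ κ Q G = 0) : opm m κ Q G = 0 := by
  induction Q generalizing G with
  | nil => exact h
  | cons q Q ih =>
    have hO : Continuous (Op ⊤ κ Q G) := Op_cont ⊤ κ Q hG
    have h1 : avm m κ q (Op ⊤ κ Q G) = 0 := by
      rw [Op_cons'] at h
      by_cases hq : q ∈ (⊤ : Submodule ℝ (E d)) ∧ ∃ n : ℤ, inner ℝ κ q = (n : ℝ)
      · rw [fac_pos hq] at h
        exact avm_of_av hm hO h
      · rw [fac_neg hq] at h
        refine avm_of_dif hm hO (hint q (List.mem_cons_self ..)) ?_ h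
        intro hk
        exact hq ⟨Submodule.mem_top, hk⟩
    rw [avm_Op m ⊤ κ κ q Q hG] at h1
    have h2 := ih (fun p hp => hint p (List.mem_cons_of_mem _ hp)) (avm_cont m κ q hG) h1
    rw [opm_avm m κ κ q m Q hG] at h2
    rw [opm_cons]
    exact h2

end Pool.Agent.ST53
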