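import Pool.Agent.Lib.MP_53fa4a_an_ST.DLoc

/-!
# Part D: the size of a fibre
-/

set_option autoImplicit false

open MeasureTheory Set Filter
open scoped ENNReal Topology ComplexConjugate BigOperators

noncomputable section

namespace Pool.Agent.ST53

open Pool.Agent.SpecND (E ee)
open Pool.Agent.NL53 (zv rv fib IsSpectrum)

variable {d : ℕ}

private theorem dcard_zv_sub (k k' : Fin d → ℤ) : (zv (k - k') : E d) = zv k - zv k' := by
  ext i
  simp [zv, rv]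

private theorem dcard_zv_inj {l l' : Fin d → ℤ} (h : (zv l : E d) = zv l') : l = l' := by
  funext i
  have h1 : (zv l : E d) i = (zv l' : E d) i := by rw [h]
  have h2 : ((l i : ℤ) : ℝ) = ((l' i : ℤ) : ℝ) := h1
  exact_mod_cast h2

private theorem dcard_inner (k l : Fin d → ℤ) {m : ℕ} (hm : 0 < m) :
    (inner ℝ ((m : ℝ)⁻¹ • (zv k : E d)) ((m : ℝ) • zv l) : ℝ) = ((∑ i, k i * l i : ℤ) : ℝ) := by
  have hm' : (m : ℝ) ≠ 0 := by positivity
  rw [real_inner_smul_left, real_inner_smul_right, ← mul_assoc, inv_mul_cancel₀ hm', one_mul]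
  simp only [zv, rv, PiLp.inner_apply, RCLike.inner_apply, conj_trivial]
  push_cast
  exact Finset.sum_congr rfl fun i _ => by ring

private theorem dcard_sq (A : Finset (Fin d → ℤ)) (m : ℕ) (x t y : E d) :
    ((‖∑ k ∈ A, e (inner ℝ ((m : ℝ)⁻¹ • (zv k : E d)) (y - (x + t)))‖ ^ 2 : ℝ) : ℂ) =
      ∑ k ∈ A, ∑ k' ∈ A, e (inner ℝ ((m : ℝ)⁻¹ • (zv (k - k') : E d)) t) *
        e (-(inner ℝ ((m : ℝ)⁻¹ • (zv (k - k') : E d)) (y - x))) := by
  have h1 : ((‖∑ k ∈ A, e (inner ℝ ((m : ℝ)⁻¹ • (zv k : E d)) (y - (x + t)))‖ ^ 2 : ℝ) : ℂ) =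
      conj (∑ k ∈ A, e (inner ℝ ((m : ℝ)⁻¹ • (zv k : E d)) (y - (x + t)))) *
        ∑ k ∈ A, e (inner ℝ ((m : ℝ)⁻¹ • (zv k : E d)) (y - (x + t))) := by
    rw [mul_comm, Complex.mul_conj']
    push_cast
    rfl
  rw [h1, map_sum, Finset.sum_mul_sum]
  refine Finset.sum_congr rfl fun k _ => Finset.sum_congr rfl fun k' _ => ?_
  rw [e_conj, ← e_add, ← e_add, dcard_zv_sub]
  congr 1
  simp only [smul_sub, inner_sub_left, inner_sub_right, inner_add_right]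
  ring

/-- PROOF.  `x = x₀ - t`.  With `a_k = e(⟨y - x₀, k/m⟩)`,
`∑_{y ∈ Λ} ω(y - x) |∑_{k ∈ A} a_k|² = ∑_{k,k'} e(..) FF (idc Λ) (tw ((k'-k)/m) ω) x` is
`card A * c`, and the terms `y = x₀ + m l` have `y - x = t + m l`, `|∑ a_k|² = (card A)²`. -/
theorem card_le {Λ : Set (E d)} (hΛ : LF Λ) {ω : E d → ℝ} (h0 : ∀ y, 0 ≤ ω y) {r : ℝ}
    (hs : ∀ y, r < ‖y‖ → ω y = 0) {m : ℕ} (hm : 0 < m) {x₀ t : E d} {K : Finset (Fin d → ℤ)}
    (hK : ∀ l ∈ K, x₀ + (m : ℝ) • zv l ∈ Λ) {c : ℝ}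
    (hc : FF (idc Λ) (fun y => (ω y : ℂ)) (x₀ - t) = c) (A : Finset (Fin d → ℤ))
    (hA : ∀ k ∈ A, ∀ k' ∈ A, k ≠ k' →
      FF (idc Λ) (tw ((m : ℝ)⁻¹ • zv (k - k')) ω) (x₀ - t) = 0) :
    (A.card : ℝ) * ∑ l ∈ K, ω (t + (m : ℝ) • zv l) ≤ c := by
  classical
  obtain ⟨x, hx⟩ : ∃ x, x = x₀ - t := ⟨_, rfl⟩
  have hx0 : x₀ = x + t := by rw [hx]; abel
  rw [← hx] at hc
  have hm' : (m : ℝ) ≠ 0 := by positivity
  obtain ⟨S, hS⟩ : ∃ S, S = (hΛ (‖x‖ + r)).toFinset := ⟨_, rfl⟩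
  have hωc : ∀ y, r < ‖y‖ → ((ω y : ℝ) : ℂ) = 0 := fun y hy => by rw [hs y hy, Complex.ofReal_zero]
  have htw : ∀ κ : E d, ∀ y, r < ‖y‖ → tw κ ω y = 0 := fun κ y hy => by
    unfold tw
    rw [hs y hy, Complex.ofReal_zero, zero_mul]
  have hcS : (c : ℂ) = ∑ y ∈ S, ((ω (y - x) : ℝ) : ℂ) := by
    rw [← hc, FF_sum hΛ hωc le_rfl, hS]
  have hcR : c = ∑ y ∈ S, ω (y - x) := by
    rw [← Complex.ofReal_sum] at hcS
    exact_mod_cast hcS
  have hc0 : 0 ≤ c := by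
    rw [hcR]
    exact Finset.sum_nonneg fun y _ => h0 _
  -- the Gram identity
  have hT : ∑ y ∈ S, ω (y - x) *
      ‖∑ k ∈ A, e (inner ℝ ((m : ℝ)⁻¹ • (zv k : E d)) (y - (x + t)))‖ ^ 2 = A.card * c := by
    have h1 : ((∑ y ∈ S, ω (y - x) *
        ‖∑ k ∈ A, e (inner ℝ ((m : ℝ)⁻¹ • (zv k : E d)) (y - (x + t)))‖ ^ 2 : ℝ) : ℂ) =
        ((A.card * c : ℝ) : ℂ) := by
      have h2 : ((∑ y ∈ S, ω (y - x) *
          ‖∑ k ∈ A, e (inner ℝ ((m : ℝ)⁻¹ • (zv k : E d)) (y - (x + t)))‖ ^ 2 : ℝ) : ℂ) =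
          ∑ k ∈ A, ∑ k' ∈ A, e (inner ℝ ((m : ℝ)⁻¹ • (zv (k - k') : E d)) t) *
            FF (idc Λ) (tw ((m : ℝ)⁻¹ • zv (k - k')) ω) x := by
        rw [Complex.ofReal_sum]
        have h3 : ∀ k ∈ A, ∀ k' ∈ A, e (inner ℝ ((m : ℝ)⁻¹ • (zv (k - k') : E d)) t) *
            FF (idc Λ) (tw ((m : ℝ)⁻¹ • zv (k - k')) ω) x =
            ∑ y ∈ S, ((ω (y - x) : ℝ) : ℂ) *
              (e (inner ℝ ((m : ℝ)⁻¹ • (zv (k - k') : E d)) t) *
                e (-(inner ℝ ((m : ℝ)⁻¹ • (zv (k - k') : E d)) (y - x)))) := by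
          intro k _ k' _
          rw [FF_sum hΛ (htw _) le_rfl, ← hS, Finset.mul_sum]
          refine Finset.sum_congr rfl fun y _ => ?_
          unfold tw
          ring
        have h4 : ∀ k ∈ A, (∑ k' ∈ A, e (inner ℝ ((m : ℝ)⁻¹ • (zv (k - k') : E d)) t) *
            FF (idc Λ) (tw ((m : ℝ)⁻¹ • zv (k - k')) ω) x) =
            ∑ y ∈ S, ∑ k' ∈ A, ((ω (y - x) : ℝ) : ℂ) *
              (e (inner ℝ ((m : ℝ)⁻¹ • (zv (k - k') : E d)) t) *
                e (-(inner ℝ ((m : ℝ)⁻¹ • (zv (k - k') : E d)) (y - x)))) := by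
          intro k hk
          rw [Finset.sum_congr rfl (h3 k hk), Finset.sum_comm]
        rw [Finset.sum_congr rfl h4, Finset.sum_comm]
        refine Finset.sum_congr rfl fun y _ => ?_
        rw [Complex.ofReal_mul, dcard_sq, Finset.mul_sum]
        refine Finset.sum_congr rfl fun k _ => ?_
        rw [Finset.mul_sum]
      rw [h2]
      have h5 : ∀ k ∈ A, (∑ k' ∈ A, e (inner ℝ ((m : ℝ)⁻¹ • (zv (k - k') : E d)) t) *
          FF (idc Λ) (tw ((m : ℝ)⁻¹ • zv (k - k')) ω) x) = (c : ℂ) := by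
        intro k hk
        rw [Finset.sum_eq_single k]
        · have hz : (zv (k - k) : E d) = 0 := by rw [dcard_zv_sub, sub_self]
          rw [hz, smul_zero, inner_zero_left, e_zero, one_mul]
          have htw0 : tw (0 : E d) ω = fun y => (ω y : ℂ) := by
            funext y
            unfold tw
            rw [inner_zero_left, neg_zero, e_zero, mul_one]
          rw [htw0, hc]
        · intro k' hk' hne
          have h6 := hA k hk k' hk' (Ne.symm hne)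
          rw [← hx] at h6
          rw [h6, mul_zero]
        · intro h7
          exact absurd hk h7
      rw [Finset.sum_congr rfl h5, Finset.sum_const, nsmul_eq_mul]
      push_cast
      ring
    exact_mod_cast h1
  -- the lower bound
  have hlow : (A.card : ℝ) ^ 2 * ∑ l ∈ K, ω (t + (m : ℝ) • zv l) ≤ A.card * c := by
    rw [← hT, Finset.mul_sum]
    have h1 : ∑ l ∈ K, (A.card : ℝ) ^ 2 * ω (t + (m : ℝ) • zv l) =
        ∑ l ∈ K with ω (t + (m : ℝ) • zv l) ≠ 0, (A.card : ℝ) ^ 2 * ω (t + (m : ℝ) • zv l) := by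
      rw [Finset.sum_filter]
      refine Finset.sum_congr rfl fun l _ => ?_
      by_cases h : ω (t + (m : ℝ) • zv l) = 0
      · simp [h]
      · simp [h]
    have hinj : Set.InjOn (fun l : Fin d → ℤ => x₀ + (m : ℝ) • (zv l : E d))
        (K.filter fun l => ω (t + (m : ℝ) • zv l) ≠ 0) := by
      intro l _ l' _ hll
      have h2 : (m : ℝ) • (zv l : E d) = (m : ℝ) • zv l' := add_left_cancel hll
      exact dcard_zv_inj (smul_right_injective _ hm' h2)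
    have h2 : ∑ l ∈ K with ω (t + (m : ℝ) • zv l) ≠ 0,
        (A.card : ℝ) ^ 2 * ω (t + (m : ℝ) • zv l) =
        ∑ y ∈ (K.filter fun l => ω (t + (m : ℝ) • zv l) ≠ 0).image
          (fun l : Fin d → ℤ => x₀ + (m : ℝ) • (zv l : E d)), ω (y - x) *
          ‖∑ k ∈ A, e (inner ℝ ((m : ℝ)⁻¹ • (zv k : E d)) (y - (x + t)))‖ ^ 2 := by
      rw [Finset.sum_image hinj]
      refine Finset.sum_congr rfl fun l _ => ?_
      have h3 : x₀ + (m : ℝ) • (zv l : E d) - x = t + (m : ℝ) • zv l := by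
        rw [hx0]; abel
      have h4 : x₀ + (m : ℝ) • (zv l : E d) - (x + t) = (m : ℝ) • zv l := by
        rw [hx0]; abel
      have h5 : ∑ k ∈ A, e (inner ℝ ((m : ℝ)⁻¹ • (zv k : E d)) ((m : ℝ) • zv l)) =
          (A.card : ℂ) := by
        rw [Finset.sum_congr rfl fun k _ => by rw [dcard_inner k l hm, e_int]]
        simp
      rw [h3, h4, h5, Complex.norm_natCast]
      ring
    rw [h1, h2]
    refine Finset.sum_le_sum_of_subset_of_nonneg ?_ fun y _ _ => mul_nonneg (h0 _) (sq_nonneg _)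
    intro y hy
    obtain ⟨l, hl, rfl⟩ := Finset.mem_image.1 hy
    obtain ⟨hlK, hl0⟩ := Finset.mem_filter.1 hl
    rw [hS, Set.Finite.mem_toFinset]
    refine ⟨hK l hlK, mem_closedBall_zero_iff.2 ?_⟩
    have h3 : x₀ + (m : ℝ) • (zv l : E d) = x + (t + (m : ℝ) • zv l) := by
      rw [hx0]; abel
    have h4 : ‖t + (m : ℝ) • (zv l : E d)‖ ≤ r := by
      by_contra h5
      exact hl0 (hs _ (not_le.1 h5))
    rw [h3]
    exact (norm_add_le _ _).trans (add_le_add le_rfl h4)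
  rcases Nat.eq_zero_or_pos A.card with hA0 | hA0
  · rw [hA0]
    simpa using hc0
  · have hA1 : (0 : ℝ) < A.card := by exact_mod_cast hA0
    refine le_of_mul_le_mul_left ?_ hA1
    calc (A.card : ℝ) * (A.card * ∑ l ∈ K, ω (t + (m : ℝ) • zv l)) =
        (A.card : ℝ) ^ 2 * ∑ l ∈ K, ω (t + (m : ℝ) • zv l) := by ring
      _ ≤ _ := hlow

end Pool.Agent.ST53
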