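import Pool.Agent.Lib.MP_53fa4a_an_ST.DDef

/-!
# Part D: the operators commute
-/

set_option autoImplicit false

open MeasureTheory Set Filter
open scoped ENNReal Topology ComplexConjugate BigOperators

noncomputable section

namespace Pool.Agent.ST53

open Pool.Agent.SpecND (E ee)
open Pool.Agent.NL53 (zv rv fib IsSpectrum)

variable {d : ℕ}

private lemma cont_ker (m : ℕ) (κ q : E d) {G : E d → ℂ} (hG : Continuous G) :
    Continuous (Function.uncurry fun (x : E d) (s : ℝ) =>
      e (-((m : ℝ) * s * inner ℝ κ q)) * G (x + ((m : ℝ) * s) • q)) := by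
  have h1 : Continuous fun p : E d × ℝ => e (-((m : ℝ) * p.2 * inner ℝ κ q)) :=
    continuous_e.comp (by fun_prop)
  have h2 : Continuous fun p : E d × ℝ => G (p.1 + ((m : ℝ) * p.2) • q) :=
    hG.comp (by fun_prop)
  exact h1.mul h2

private lemma swap01 {f : ℝ → ℝ → ℂ} (hf : Continuous (Function.uncurry f)) :
    (∫ s in (0 : ℝ)..1, ∫ t in (0 : ℝ)..1, f s t) =
      ∫ t in (0 : ℝ)..1, ∫ s in (0 : ℝ)..1, f s t := by
  simp only [intervalIntegral.integral_of_le zero_le_one]
  refine integral_integral_swap ?_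
  rw [Measure.prod_restrict]
  have h : IntegrableOn (Function.uncurry f) (Icc (0 : ℝ) 1 ×ˢ Icc (0 : ℝ) 1)
      ((volume : Measure ℝ).prod volume) :=
    hf.continuousOn.integrableOn_compact (isCompact_Icc.prod isCompact_Icc)
  exact h.mono_set (prod_mono Ioc_subset_Icc_self Ioc_subset_Icc_self)

theorem avm_cont (m : ℕ) (κ q : E d) {G : E d → ℂ} (hG : Continuous G) :
    Continuous (avm m κ q G) := by
  exact intervalIntegral.continuous_parametric_intervalIntegral_of_continuous'
    (cont_ker m κ q hG) 0 1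

theorem av_eq (κ q : E d) (G : E d → ℂ) : av κ q G = avm 1 κ q G := by
  funext x
  unfold av avm
  refine intervalIntegral.integral_congr fun s _ => ?_
  simp

theorem dif_cont (q : E d) {G : E d → ℂ} (hG : Continuous G) : Continuous (dif q G) := by
  exact hG.sub (hG.comp (continuous_id.add continuous_const))

theorem fac_cont (W : Submodule ℝ (E d)) (κ q : E d) {G : E d → ℂ} (hG : Continuous G) :
    Continuous (fac W κ q G) := by
  by_cases h : q ∈ W ∧ ∃ n : ℤ, inner ℝ κ q = (n : ℝ)
  · rw [fac_pos h, av_eq]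
    exact avm_cont 1 κ q hG
  · rw [fac_neg h]
    exact dif_cont q hG

theorem Op_cont (W : Submodule ℝ (E d)) (κ : E d) (Q : List (E d)) {G : E d → ℂ}
    (hG : Continuous G) : Continuous (Op W κ Q G) := by
  induction Q with
  | nil => exact hG
  | cons q Q ih =>
    rw [Op_cons']
    exact fac_cont W κ q ih

theorem opm_cont (m : ℕ) (κ : E d) (Q : List (E d)) {G : E d → ℂ}
    (hG : Continuous G) : Continuous (opm m κ Q G) := by
  induction Q with
  | nil => exact hG
  | cons q Q ih =>
    rw [opm_cons]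
    exact avm_cont m κ q ih

/-- PROOF: Fubini for a continuous function on `[0,1]²` -/
theorem avm_comm (m m' : ℕ) (κ κ' q q' : E d) {G : E d → ℂ} (hG : Continuous G) :
    avm m κ q (avm m' κ' q' G) = avm m' κ' q' (avm m κ q G) := by
  funext x
  unfold avm
  have h1 : Continuous (Function.uncurry fun (s t : ℝ) =>
      e (-((m : ℝ) * s * inner ℝ κ q)) * (e (-((m' : ℝ) * t * inner ℝ κ' q')) *
        G (x + ((m : ℝ) * s) • q + ((m' : ℝ) * t) • q'))) := by
    have a1 : Continuous fun p : ℝ × ℝ => e (-((m : ℝ) * p.1 * inner ℝ κ q)) :=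
      continuous_e.comp (by fun_prop)
    have a2 : Continuous fun p : ℝ × ℝ => e (-((m' : ℝ) * p.2 * inner ℝ κ' q')) :=
      continuous_e.comp (by fun_prop)
    have a3 : Continuous fun p : ℝ × ℝ =>
        G (x + ((m : ℝ) * p.1) • q + ((m' : ℝ) * p.2) • q') := hG.comp (by fun_prop)
    exact a1.mul (a2.mul a3)
  have h2 := swap01 h1
  simp only [intervalIntegral.integral_const_mul] at h2
  rw [h2]
  refine intervalIntegral.integral_congr fun t _ => ?_
  beta_reduce
  rw [← intervalIntegral.integral_const_mul]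
  refine intervalIntegral.integral_congr fun s _ => ?_
  rw [add_right_comm x]
  ring

theorem avm_dif (m : ℕ) (κ q q' : E d) {G : E d → ℂ} (hG : Continuous G) :
    avm m κ q (dif q' G) = dif q' (avm m κ q G) := by
  funext x
  unfold avm dif
  have c1 : Continuous fun s : ℝ => e (-((m : ℝ) * s * inner ℝ κ q)) :=
    continuous_e.comp (by fun_prop)
  have c2 : Continuous fun s : ℝ => G (x + ((m : ℝ) * s) • q) := hG.comp (by fun_prop)
  have c3 : Continuous fun s : ℝ => G (x + q' + ((m : ℝ) * s) • q) := hG.comp (by fun_prop)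
  have i2 : IntervalIntegrable (fun s : ℝ => e (-((m : ℝ) * s * inner ℝ κ q)) *
      G (x + ((m : ℝ) * s) • q)) volume 0 1 := (c1.mul c2).intervalIntegrable 0 1
  have i3 : IntervalIntegrable (fun s : ℝ => e (-((m : ℝ) * s * inner ℝ κ q)) *
      G (x + q' + ((m : ℝ) * s) • q)) volume 0 1 := (c1.mul c3).intervalIntegrable 0 1
  beta_reduce
  rw [← intervalIntegral.integral_sub i2 i3]
  refine intervalIntegral.integral_congr fun s _ => ?_
  beta_reduce
  rw [add_right_comm x]
  ring

theorem avm_fac (m : ℕ) (W : Submodule ℝ (E d)) (κ κ' q q' : E d) {G : E d → ℂ}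
    (hG : Continuous G) : avm m κ q (fac W κ' q' G) = fac W κ' q' (avm m κ q G) := by
  by_cases h : q' ∈ W ∧ ∃ n : ℤ, inner ℝ κ' q' = (n : ℝ)
  · rw [fac_pos h, fac_pos h, av_eq, av_eq]
    exact avm_comm m 1 κ κ' q q' hG
  · rw [fac_neg h, fac_neg h]
    exact avm_dif m κ q q' hG

theorem avm_Op (m : ℕ) (W : Submodule ℝ (E d)) (κ κ' q : E d) (Q : List (E d)) {G : E d → ℂ}
    (hG : Continuous G) : avm m κ q (Op W κ' Q G) = Op W κ' Q (avm m κ q G) := by
  induction Q with
  | nil => rfl
  | cons p Q ih =>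
    rw [Op_cons', Op_cons', avm_fac m W κ κ' q p (Op_cont W κ' Q hG), ih]

theorem opm_avm (m : ℕ) (κ κ' q : E d) (m' : ℕ) (Q : List (E d)) {G : E d → ℂ}
    (hG : Continuous G) : opm m κ Q (avm m' κ' q G) = avm m' κ' q (opm m κ Q G) := by
  induction Q with
  | nil => rfl
  | cons p Q ih =>
    rw [opm_cons, opm_cons, ih, avm_comm m m' κ κ' p q (opm_cont m κ Q hG)]

theorem opm_dif (m : ℕ) (κ q : E d) (Q : List (E d)) {G : E d → ℂ} (hG : Continuous G) :
    opm m κ Q (dif q G) = dif q (opm m κ Q G) := by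
  induction Q with
  | nil => rfl
  | cons p Q ih =>
    rw [opm_cons, opm_cons, ih, avm_dif m κ p q (opm_cont m κ Q hG)]

end Pool.Agent.ST53
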