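import Pool.Agent.Lib.MP_53fa4a_an_ST.DAvm

/-!
# Part D: the constant
-/

set_option autoImplicit false

open MeasureTheory Set Filter
open scoped ENNReal Topology ComplexConjugate BigOperators

noncomputable section

namespace Pool.Agent.ST53

open Pool.Agent.SpecND (E ee)
open Pool.Agent.NL53 (zv rv fib IsSpectrum)

variable {d : ℕ}

/-- the list of the unit vectors -/
def bl (d : ℕ) : List (E d) := List.ofFn fun i : Fin d => zv (Pi.single i 1)

private lemma avm_zero (m : ℕ) (q : E d) (G : E d → ℂ) (x : E d) :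
    avm m 0 q G x = ∫ s in (0 : ℝ)..1, G (x + ((m : ℝ) * s) • q) := by
  unfold avm
  refine intervalIntegral.integral_congr fun s _ => ?_
  have h0 : e (-((m : ℝ) * s * inner ℝ (0 : E d) q)) = 1 := by
    rw [e_eq_one_iff]
    exact ⟨0, by simp⟩
  simp only [h0, one_mul]

private lemma avm_inv (m : ℕ) (q v : E d) {G : E d → ℂ} (h : ∀ x, G (x + v) = G x) (x : E d) :
    avm m 0 q G (x + v) = avm m 0 q G x := by
  rw [avm_zero, avm_zero]
  refine intervalIntegral.integral_congr fun s _ => ?_
  have h1 : x + v + ((m : ℝ) * s) • q = x + ((m : ℝ) * s) • q + v := by abel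
  simp only [h1, h]

private lemma avm_own {m : ℕ} (hm : 0 < m) (q : E d) {G : E d → ℂ}
    (h : ∀ x, G (x + q) = G x) (t : ℝ) (x : E d) :
    avm m 0 q G (x + t • q) = avm m 0 q G x := by
  have hm' : (m : ℝ) ≠ 0 := by exact_mod_cast hm.ne'
  have hF : Function.Periodic (fun u : ℝ => G (x + u • q)) 1 := by
    intro u
    have h1 : x + (u + 1) • q = x + u • q + q := by rw [add_smul, one_smul]; abel
    simp only [h1, h]
  have hFm : Function.Periodic (fun u : ℝ => G (x + u • q)) (m : ℝ) := by
    have h2 := hF.nat_mul m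
    simpa using h2
  have key : ∀ t : ℝ, avm m 0 q G (x + t • q) =
      (m : ℝ)⁻¹ • ∫ u in t..(t + m), G (x + u • q) := by
    intro t
    rw [avm_zero]
    have h3 : ∀ s : ℝ, G (x + t • q + ((m : ℝ) * s) • q) =
        (fun u : ℝ => G (x + u • q)) (t + (m : ℝ) * s) := by
      intro s
      have h4 : x + t • q + ((m : ℝ) * s) • q = x + (t + (m : ℝ) * s) • q := by
        rw [add_smul]; abel
      simp only [h4]
    simp_rw [h3]
    rw [intervalIntegral.integral_comp_add_mul (fun u : ℝ => G (x + u • q)) hm' t]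
    simp
  have h5 := key t
  have h6 := key 0
  rw [zero_smul, add_zero] at h6
  rw [h5, h6, hFm.intervalIntegral_add_eq t 0]

private lemma opm_inv (m : ℕ) (Q : List (E d)) (v : E d) {G : E d → ℂ}
    (h : ∀ x, G (x + v) = G x) : ∀ x, opm m 0 Q G (x + v) = opm m 0 Q G x := by
  induction Q with
  | nil => exact h
  | cons q Q ih => exact avm_inv m q v ih

private lemma opm_own {m : ℕ} (hm : 0 < m) (Q : List (E d)) {G : E d → ℂ}
    (h : ∀ q ∈ Q, ∀ x, G (x + q) = G x) :
    ∀ q ∈ Q, ∀ (t : ℝ) (x : E d), opm m 0 Q G (x + t • q) = opm m 0 Q G x := by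
  induction Q with
  | nil => intro q hq; simp at hq
  | cons q Q ih =>
    intro q' hq' t
    rw [opm_cons]
    rcases List.mem_cons.1 hq' with rfl | hq''
    · exact avm_own hm q' (opm_inv m Q q' (h q' (List.mem_cons_self ..))) t
    · exact avm_inv m q _
        (ih (fun q₁ h₁ => h q₁ (List.mem_cons_of_mem _ h₁)) q' hq'' t)

private lemma sum_unit (x : E d) : ∑ i : Fin d, x i • (zv (Pi.single i 1) : E d) = x := by
  ext j
  rw [WithLp.ofLp_sum, Finset.sum_apply]
  simp only [WithLp.ofLp_smul, Pi.smul_apply, smul_eq_mul]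
  have h1 : ∀ i : Fin d, (zv (Pi.single i 1) : E d) j = if j = i then 1 else 0 := by
    intro i
    show (((Pi.single i 1 : Fin d → ℤ) j : ℤ) : ℝ) = _
    rw [Pi.single_apply]
    split_ifs <;> simp
  simp [h1]

/-- PROOF: for a `q`-periodic function `H`, `avm m 0 q H` is invariant under all `t q`, `t` real
(`Function.Periodic.intervalIntegral_add_eq` for the function `u ↦ H (x + u q)` with period `m`);
the other factors `avm m 0 q'` preserve periodicity and this invariance; so the function is
invariant under all `t e_i`, hence constant. -/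
theorem opm_const {m : ℕ} (hm : 0 < m) {H : E d → ℂ} (hH : Continuous H)
    (hper : ∀ (n : Fin d → ℤ) (x : E d), H (x + zv n) = H x) :
    ∃ c : ℂ, ∀ x, opm m 0 (bl d) H x = c := by
  have h1 : ∀ q ∈ bl d, ∀ x, H (x + q) = H x := by
    intro q hq x
    obtain ⟨i, rfl⟩ := (List.mem_ofFn' _ _).1 hq
    exact hper _ x
  have h2 := opm_own hm (bl d) h1
  have h3 : ∀ (i : Fin d) (t : ℝ) (x : E d),
      opm m 0 (bl d) H (x + t • zv (Pi.single i 1)) = opm m 0 (bl d) H x := fun i =>
    h2 _ ((List.mem_ofFn' _ _).2 ⟨i, rfl⟩)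
  refine ⟨opm m 0 (bl d) H 0, fun x => ?_⟩
  have h4 : ∀ s : Finset (Fin d), opm m 0 (bl d) H (∑ i ∈ s, x i • (zv (Pi.single i 1) : E d)) =
      opm m 0 (bl d) H 0 := by
    intro s
    induction s using Finset.induction_on with
    | empty => simp
    | insert i s hi ih =>
      rw [Finset.sum_insert hi, add_comm, h3, ih]
  have h5 := h4 Finset.univ
  rwa [sum_unit] at h5

end Pool.Agent.ST53
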