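import Pool.Agent.Lib.MP_53fa4a_an_NL.SpecDef
import Pool.Agent.Lib.MP_53fa4a_an_ST.CDefs

/-!
# MP_53fa4a_an, project ST, Part D: definitions

`bav m q g y = ∫_0^1 g(y - m s q) ds`, `om m Q β` = the box spline weight (all `bav m q`, `q ∈ Q`,
applied to `β`).  `avm m κ q G x = ∫_0^1 e(-m s ⟨κ,q⟩) G(x + m s q) ds`, `opm m κ Q` the product.
`tw κ g y = g(y) e(-⟨κ,y⟩)`.
-/

set_option autoImplicit false

open MeasureTheory Set Filter
open scoped ENNReal Topology ComplexConjugate BigOperators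

noncomputable section

namespace Pool.Agent.ST53

open Pool.Agent.SpecND (E ee)
open Pool.Agent.NL53 (zv rv fib IsSpectrum)

variable {d : ℕ}

/-- locally finite sets -/
def LF (D : Set (E d)) : Prop := ∀ R : ℝ, (D ∩ Metric.closedBall 0 R).Finite

/-- `∫_0^1 g(y - m s q) ds` -/
def bav (m : ℕ) (q : E d) (g : E d → ℝ) : E d → ℝ :=
  fun y => ∫ s in (0 : ℝ)..1, g (y - ((m : ℝ) * s) • q)

/-- the box spline weight -/
def om (m : ℕ) (Q : List (E d)) (β : E d → ℝ) : E d → ℝ := Q.foldr (bav m) β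

/-- `∫_0^1 e(-m s ⟨κ,q⟩) G(x + m s q) ds` -/
def avm (m : ℕ) (κ q : E d) (G : E d → ℂ) : E d → ℂ :=
  fun x => ∫ s in (0 : ℝ)..1, e (-((m : ℝ) * s * inner ℝ κ q)) * G (x + ((m : ℝ) * s) • q)

/-- the product of the `avm` over the list -/
def opm (m : ℕ) (κ : E d) (Q : List (E d)) (G : E d → ℂ) : E d → ℂ := Q.foldr (avm m κ) G

/-- one factor of the operator `Op` -/
def fac (W : Submodule ℝ (E d)) (κ q : E d) (G : E d → ℂ) : E d → ℂ := by
  classical
  exact if q ∈ W ∧ ∃ n : ℤ, inner ℝ κ q = (n : ℝ) then av κ q G else dif q G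

/-- `g(y) e(-⟨κ,y⟩)` -/
def tw (κ : E d) (g : E d → ℝ) : E d → ℂ := fun y => (g y : ℂ) * e (-(inner ℝ κ y))

/-- the indicator function of `Λ`, complex valued -/
def idc (Λ : Set (E d)) : E d → ℂ := Λ.indicator fun _ => (1 : ℂ)

@[simp] lemma om_nil (m : ℕ) (β : E d → ℝ) : om m [] β = β := rfl

@[simp] lemma om_cons (m : ℕ) (q : E d) (Q : List (E d)) (β : E d → ℝ) :
    om m (q :: Q) β = bav m q (om m Q β) := rfl

@[simp] lemma opm_nil (m : ℕ) (κ : E d) (G : E d → ℂ) : opm m κ [] G = G := rfl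

@[simp] lemma opm_cons (m : ℕ) (κ q : E d) (Q : List (E d)) (G : E d → ℂ) :
    opm m κ (q :: Q) G = avm m κ q (opm m κ Q G) := rfl

lemma opm_append (m : ℕ) (κ : E d) (Q Q' : List (E d)) (G : E d → ℂ) :
    opm m κ (Q ++ Q') G = opm m κ Q (opm m κ Q' G) := by
  unfold opm
  rw [List.foldr_append]

lemma om_append (m : ℕ) (Q Q' : List (E d)) (β : E d → ℝ) :
    om m (Q ++ Q') β = om m Q (om m Q' β) := by
  unfold om
  rw [List.foldr_append]

lemma Op_nil' (W : Submodule ℝ (E d)) (κ : E d) (G : E d → ℂ) : Op W κ [] G = G := rfl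

lemma Op_cons' (W : Submodule ℝ (E d)) (κ q : E d) (Q : List (E d)) (G : E d → ℂ) :
    Op W κ (q :: Q) G = fac W κ q (Op W κ Q G) := by
  unfold fac
  rw [Op]

lemma fac_pos {W : Submodule ℝ (E d)} {κ q : E d} (h : q ∈ W ∧ ∃ n : ℤ, inner ℝ κ q = (n : ℝ))
    (G : E d → ℂ) : fac W κ q G = av κ q G := by
  unfold fac
  rw [if_pos h]

lemma fac_neg {W : Submodule ℝ (E d)} {κ q : E d}
    (h : ¬ (q ∈ W ∧ ∃ n : ℤ, inner ℝ κ q = (n : ℝ))) (G : E d → ℂ) :
    fac W κ q G = dif q G := by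
  unfold fac
  rw [if_neg h]

lemma e_eq_one_iff (t : ℝ) : e t = 1 ↔ ∃ n : ℤ, t = n := by
  unfold e
  rw [Complex.exp_eq_one_iff]
  constructor
  · rintro ⟨n, hn⟩
    refine ⟨n, ?_⟩
    have h1 : (2 * (Real.pi : ℂ) * Complex.I) ≠ 0 := Complex.two_pi_I_ne_zero
    have h2 : (2 * (Real.pi : ℂ) * Complex.I) * (t : ℂ) = (2 * (Real.pi : ℂ) * Complex.I) * n := by
      rw [hn]; ring
    have h3 := mul_left_cancel₀ h1 h2
    exact_mod_cast h3
  · rintro ⟨n, rfl⟩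
    exact ⟨n, by push_cast; ring⟩

lemma e_conj (t : ℝ) : conj (e t) = e (-t) := by
  unfold e
  rw [← Complex.exp_conj]
  congr 1
  have h2 : (starRingEnd ℂ) 2 = 2 := map_ofNat _ 2
  simp [h2]

end Pool.Agent.ST53
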