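import Pool.Agent.Lib.MP_53fa4a_an_ST.DDef

/-!
# Part D: the box spline weights
-/

set_option autoImplicit false

open MeasureTheory Set Filter
open scoped ENNReal Topology ComplexConjugate BigOperators

noncomputable section

namespace Pool.Agent.ST53

open Pool.Agent.SpecND (E ee)
open Pool.Agent.NL53 (zv rv fib IsSpectrum)

variable {d : ℕ}

theorem bav_cont (m : ℕ) (q : E d) {g : E d → ℝ} (hg : Continuous g) :
    Continuous (bav m q g) := by
  refine intervalIntegral.continuous_parametric_intervalIntegral_of_continuous' ?_ 0 1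
  unfold Function.uncurry
  fun_prop

theorem bav_nonneg (m : ℕ) (q : E d) {g : E d → ℝ} (hg : ∀ y, 0 ≤ g y) (y : E d) :
    0 ≤ bav m q g y := by
  exact intervalIntegral.integral_nonneg zero_le_one fun s _ => hg _

theorem bav_supp (m : ℕ) (q : E d) {g : E d → ℝ} {r : ℝ} (hg : ∀ y, r < ‖y‖ → g y = 0) (y : E d)
    (hy : r + m * ‖q‖ < ‖y‖) : bav m q g y = 0 := by
  have h : ∀ s ∈ Set.uIcc (0 : ℝ) 1, g (y - ((m : ℝ) * s) • q) = (fun _ => (0 : ℝ)) s := by
    intro s hs
    rw [Set.uIcc_of_le zero_le_one] at hs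
    apply hg
    have h1 : ‖((m : ℝ) * s) • q‖ ≤ m * ‖q‖ := by
      rw [norm_smul, Real.norm_of_nonneg (mul_nonneg (Nat.cast_nonneg m) hs.1)]
      have h2 : (m : ℝ) * s ≤ m * 1 := mul_le_mul_of_nonneg_left hs.2 (Nat.cast_nonneg m)
      have h3 := mul_le_mul_of_nonneg_right h2 (norm_nonneg q)
      rwa [mul_one] at h3
    have h4 := norm_sub_norm_le y (((m : ℝ) * s) • q)
    linarith
  unfold bav
  rw [intervalIntegral.integral_congr h]
  simp

/-- PROOF: Fubini (`g` is continuous with compact support) and invariance under translations -/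
theorem bav_int (m : ℕ) (q : E d) {g : E d → ℝ} (hc : Continuous g) {r : ℝ}
    (hg : ∀ y, r < ‖y‖ → g y = 0) : ∫ y, bav m q g y = ∫ y, g y := by
  have hsupp : ∀ y s, 0 ≤ s → s ≤ 1 → r + m * ‖q‖ < ‖y‖ → g (y - ((m : ℝ) * s) • q) = 0 := by
    intro y s hs0 hs1 hy
    apply hg
    have h1 : ‖((m : ℝ) * s) • q‖ ≤ m * ‖q‖ := by
      rw [norm_smul, Real.norm_of_nonneg (mul_nonneg (Nat.cast_nonneg m) hs0)]
      have h2 : (m : ℝ) * s ≤ m * 1 := mul_le_mul_of_nonneg_left hs1 (Nat.cast_nonneg m)
      have h3 := mul_le_mul_of_nonneg_right h2 (norm_nonneg q)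
      rwa [mul_one] at h3
    have h4 := norm_sub_norm_le y (((m : ℝ) * s) • q)
    linarith
  have hcont : Continuous (Function.uncurry fun (y : E d) (s : ℝ) =>
      g (y - ((m : ℝ) * s) • q)) := by
    unfold Function.uncurry
    fun_prop
  have hint : Integrable (Function.uncurry fun (y : E d) (s : ℝ) => g (y - ((m : ℝ) * s) • q))
      ((volume : Measure (E d)).prod (volume.restrict (Ioc (0 : ℝ) 1))) := by
    have hK : IsCompact (Metric.closedBall (0 : E d) (r + m * ‖q‖) ×ˢ Icc (0 : ℝ) 1) :=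
      (isCompact_closedBall _ _).prod isCompact_Icc
    have h1 : IntegrableOn (Function.uncurry fun (y : E d) (s : ℝ) =>
        g (y - ((m : ℝ) * s) • q)) (Metric.closedBall (0 : E d) (r + m * ‖q‖) ×ˢ Icc (0 : ℝ) 1)
        ((volume : Measure (E d)).prod (volume : Measure ℝ)) :=
      hcont.continuousOn.integrableOn_compact hK
    have h2 : IntegrableOn (Function.uncurry fun (y : E d) (s : ℝ) =>
        g (y - ((m : ℝ) * s) • q)) (Set.univ ×ˢ Ioc (0 : ℝ) 1)
        ((volume : Measure (E d)).prod (volume : Measure ℝ)) := by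
      refine h1.of_forall_sdiff_eq_zero (MeasurableSet.univ.prod measurableSet_Ioc) ?_
      rintro ⟨y, s⟩ ⟨hys, hn⟩
      simp only [Set.mem_prod, Set.mem_univ, true_and, mem_Ioc, Metric.mem_closedBall,
        dist_zero_right, mem_Icc, not_and] at hys hn
      simp only [Function.uncurry]
      apply hsupp y s hys.1.le hys.2
      by_contra hcon
      exact hn (not_lt.1 hcon) hys.1.le hys.2
    unfold IntegrableOn at h2
    rwa [← Measure.prod_restrict, Measure.restrict_univ] at h2
  unfold bav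
  simp_rw [intervalIntegral.integral_of_le zero_le_one]
  rw [integral_integral_swap hint]
  have h3 : ∀ s : ℝ, ∫ y : E d, g (y - ((m : ℝ) * s) • q) = ∫ y, g y := fun s =>
    integral_sub_right_eq_self g _
  simp_rw [h3]
  simp

theorem om_cont (m : ℕ) (Q : List (E d)) {β : E d → ℝ} (hg : Continuous β) :
    Continuous (om m Q β) := by
  induction Q with
  | nil => exact hg
  | cons q Q ih => exact bav_cont m q ih

theorem om_nonneg (m : ℕ) (Q : List (E d)) {β : E d → ℝ} (hg : ∀ y, 0 ≤ β y) (y : E d) :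
    0 ≤ om m Q β y := by
  induction Q generalizing y with
  | nil => exact hg y
  | cons q Q ih => exact bav_nonneg m q ih y

theorem om_supp (m : ℕ) (Q : List (E d)) {β : E d → ℝ} {r : ℝ} (hg : ∀ y, r < ‖y‖ → β y = 0)
    (y : E d) (hy : r + m * (Q.map fun q => ‖q‖).sum < ‖y‖) : om m Q β y = 0 := by
  induction Q generalizing y with
  | nil =>
    apply hg
    simpa using hy
  | cons q Q ih =>
    rw [om_cons]
    refine bav_supp m q ih y ?_
    rw [List.map_cons, List.sum_cons] at hy
    linarith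

theorem om_int (m : ℕ) (Q : List (E d)) {β : E d → ℝ} (hc : Continuous β) {r : ℝ}
    (hg : ∀ y, r < ‖y‖ → β y = 0) : ∫ y, om m Q β y = ∫ y, β y := by
  induction Q with
  | nil => rfl
  | cons q Q ih =>
    rw [om_cons, bav_int m q (om_cont m Q hc) (om_supp m Q hg), ih]

end Pool.Agent.ST53
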