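import Pool.Agent.Lib.MP_53fa4a_an_ST.DLoc
import Pool.Agent.Lib.MP_53fa4a_an_ST.DOm
import Pool.Agent.Lib.MP_53fa4a_an_ST.DComm

/-!
# Part D: the weights and the operators
-/

set_option autoImplicit false

open MeasureTheory Set Filter
open scoped ENNReal Topology ComplexConjugate BigOperators

noncomputable section

namespace Pool.Agent.ST53

open Pool.Agent.SpecND (E ee)
open Pool.Agent.NL53 (zv rv fib IsSpectrum)

variable {d : ℕ}

/-- PROOF: for `‖x‖ ≤ R` the sums are over a fixed finite set (`FF_sum`), the twists cancel: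
`e(-m s⟨κ,q⟩) e(-⟨κ,y-x-m s q⟩) = e(-⟨κ,y-x⟩)`. -/
theorem avm_FF {Λ : Set (E d)} (hΛ : LF Λ) (m : ℕ) (κ q : E d) {g : E d → ℝ} (hc : Continuous g)
    {r : ℝ} (hg : ∀ y, r < ‖y‖ → g y = 0) :
    avm m κ q (FF (idc Λ) (tw κ g)) = FF (idc Λ) (tw κ (bav m q g)) := by
  funext x
  have hcont : Continuous (bav m q g) := bav_cont m q hc
  have h1 : ∀ y, r < ‖y‖ → tw κ g y = 0 := by
    intro y hy
    unfold tw
    rw [hg y hy, Complex.ofReal_zero, zero_mul]
  have h2 : ∀ y, r + m * ‖q‖ < ‖y‖ → tw κ (bav m q g) y = 0 := by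
    intro y hy
    unfold tw
    rw [bav_supp m q hg y hy, Complex.ofReal_zero, zero_mul]
  have hR : ‖x‖ + (r + m * ‖q‖) = ‖x‖ + m * ‖q‖ + r := by ring
  rw [FF_sum hΛ h2 (le_refl ‖x‖), hR]
  have hL : avm m κ q (FF (idc Λ) (tw κ g)) x =
      ∫ s in (0 : ℝ)..1, ∑ y ∈ (hΛ (‖x‖ + m * ‖q‖ + r)).toFinset,
        ((g (y - x - ((m : ℝ) * s) • q) : ℝ) : ℂ) * e (-(inner ℝ κ (y - x))) := by
    unfold avm
    refine intervalIntegral.integral_congr fun s hs => ?_
    rw [Set.uIcc_of_le zero_le_one] at hs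
    beta_reduce
    have hx : ‖x + ((m : ℝ) * s) • q‖ ≤ ‖x‖ + m * ‖q‖ := by
      refine (norm_add_le _ _).trans (add_le_add le_rfl ?_)
      rw [norm_smul, Real.norm_of_nonneg (mul_nonneg (Nat.cast_nonneg m) hs.1)]
      have h3 : (m : ℝ) * s ≤ m * 1 := mul_le_mul_of_nonneg_left hs.2 (Nat.cast_nonneg m)
      have h4 := mul_le_mul_of_nonneg_right h3 (norm_nonneg q)
      rwa [mul_one] at h4
    rw [FF_sum hΛ h1 hx, Finset.mul_sum]
    refine Finset.sum_congr rfl fun y _ => ?_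
    unfold tw
    have h5 : y - (x + ((m : ℝ) * s) • q) = y - x - ((m : ℝ) * s) • q := by abel
    rw [h5, mul_left_comm, ← e_add]
    congr 2
    rw [inner_sub_right, real_inner_smul_right]
    ring
  rw [hL, intervalIntegral.integral_finsetSum]
  · refine Finset.sum_congr rfl fun y _ => ?_
    rw [intervalIntegral.integral_mul_const, intervalIntegral.integral_ofReal]
    rfl
  · intro y _
    refine Continuous.intervalIntegrable ?_ 0 1
    refine Continuous.mul ?_ continuous_const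
    exact Complex.continuous_ofReal.comp (hc.comp (by fun_prop))

theorem opm_FF {Λ : Set (E d)} (hΛ : LF Λ) (m : ℕ) (κ : E d) (Q : List (E d)) {β : E d → ℝ}
    (hc : Continuous β) {r : ℝ} (hg : ∀ y, r < ‖y‖ → β y = 0) :
    opm m κ Q (FF (idc Λ) (tw κ β)) = FF (idc Λ) (tw κ (om m Q β)) := by
  induction Q with
  | nil => rfl
  | cons q Q ih =>
    rw [opm_cons, ih, om_cons]
    exact avm_FF hΛ m κ q (om_cont m Q hc) (om_supp m Q hg)

end Pool.Agent.ST53
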