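import Pool.Agent.Lib.MP_53fa4a_an_NL.LinA
import Pool.Agent.Lib.MP_53fa4a_an_NL.LinB
import Pool.Agent.Lib.MP_53fa4a_an_ST.DDef

/-!
# Part D5: general lattices
-/

set_option autoImplicit false

open MeasureTheory Set Filter
open scoped ENNReal Topology ComplexConjugate BigOperators

noncomputable section

namespace Pool.Agent.ST53

open Pool.Agent.SpecND (E ee)
open Pool.Agent.NL53 (zv rv fib IsSpectrum)

variable {d : ℕ}

/-- the linear map `S x = (⟨b_i, x⟩)_i` and the inverse `T` of its adjoint -/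
theorem exists_lin2 (b : Module.Basis (Fin d) ℝ (E d)) :
    ∃ S T : E d ≃L[ℝ] E d, (∀ l x : E d, ee l x = ee (T l) (S x)) ∧
      ∀ n : Fin d → ℤ, T (∑ i, (n i : ℝ) • b i) = zv n := by
  let S₀ : E d →ₗ[ℝ] E d :=
    { toFun := fun x => WithLp.toLp 2 fun i => inner ℝ (b i) x
      map_add' := fun x y => by
        ext i
        simp [inner_add_right]
      map_smul' := fun c x => by
        ext i
        simp [inner_smul_right] }
  have hS₀ : ∀ x i, S₀ x i = inner ℝ (b i) x := fun x i => rfl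
  have hinj : Function.Injective S₀ := by
    intro x y hxy
    refine InnerProductSpace.ext_inner_left_basis b ?_
    intro i
    rw [← hS₀ x i, ← hS₀ y i, hxy]
  let S : E d ≃L[ℝ] E d := (LinearEquiv.ofInjectiveEndo S₀ hinj).toContinuousLinearEquiv
  have hS : ∀ x, S x = S₀ x := fun x => rfl
  let T : E d ≃L[ℝ] E d :=
    (b.equivFun.trans (WithLp.linearEquiv 2 ℝ (Fin d → ℝ)).symm).toContinuousLinearEquiv
  have hT : ∀ l i, T l i = b.equivFun l i := fun l i => rfl
  refine ⟨S, T, fun l x => ?_, fun n => ?_⟩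
  · unfold ee
    congr 3
    conv_lhs => rw [← b.sum_equivFun l]
    rw [hS, sum_inner, PiLp.inner_apply]
    refine Finset.sum_congr rfl fun i _ => ?_
    rw [hS₀, hT, real_inner_smul_left]
    simp [mul_comm]
  · ext i
    rw [hT, ← b.equivFun_symm_apply (fun i => (n i : ℝ)), LinearEquiv.apply_symm_apply]
    rfl

private lemma map_restrict2 {Ω : Set (E d)} (S : E d ≃L[ℝ] E d) :
    ∃ c : ℝ≥0∞, c ≠ 0 ∧ c ≠ ∞ ∧
      Measure.map S (volume.restrict Ω) = c • volume.restrict (S '' Ω) := by
  have hdet : LinearMap.det (S : E d →ₗ[ℝ] E d) ≠ 0 := by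
    exact (LinearEquiv.isUnit_det' S.toLinearEquiv).ne_zero
  have h1 := Measure.map_linearMap_addHaar_eq_smul_addHaar (volume : Measure (E d)) hdet
  refine ⟨ENNReal.ofReal |(LinearMap.det (S : E d →ₗ[ℝ] E d))⁻¹|, ?_, ENNReal.ofReal_ne_top, ?_⟩
  · rw [Ne, ENNReal.ofReal_eq_zero, not_le]
    exact abs_pos.mpr (inv_ne_zero hdet)
  · rw [← Measure.restrict_smul]
    have h2 : (volume : Measure (E d)).map S =
        ENNReal.ofReal |(LinearMap.det (S : E d →ₗ[ℝ] E d))⁻¹| • volume := h1
    have hemb : MeasurableEmbedding (S : E d → E d) := S.toHomeomorph.measurableEmbedding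
    rw [← h2, hemb.restrict_map, S.injective.preimage_image]

/-- change of variables `y = S x`; see `spec_lin` -/
theorem spec_lin2 {Λ Ω : Set (E d)} (hm : MeasurableSet Ω) (hs : IsSpectrum Λ Ω)
    {S T : E d ≃L[ℝ] E d} (hS : ∀ l x : E d, ee l x = ee (T l) (S x)) :
    IsSpectrum (T '' Λ) (S '' Ω) := by
  obtain ⟨h1, h2⟩ := hs
  obtain ⟨c, hc0, hct, hc⟩ := map_restrict2 (Ω := Ω) S
  have hemb : MeasurableEmbedding (S : E d → E d) := S.toHomeomorph.measurableEmbedding
  have hint : ∀ g : E d → ℂ, ∫ x in Ω, g (S x) = c.toReal • ∫ y in S '' Ω, g y := by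
    intro g
    rw [← hemb.integral_map, hc, integral_smul_measure]
  have hc' : c.toReal ≠ 0 := ENNReal.toReal_ne_zero.mpr ⟨hc0, hct⟩
  refine ⟨?_, fun f hf h => ?_⟩
  · rintro _ ⟨l, hl, rfl⟩ _ ⟨l', hl', rfl⟩ hne
    have h3 : l ≠ l' := fun heq => hne (by rw [heq])
    have h4 := h1 _ hl _ hl' h3
    have h5 := hint fun y => ee (T l) y * conj (ee (T l') y)
    have h6 : ∫ x in Ω, ee (T l) (S x) * conj (ee (T l') (S x)) = 0 := by
      rw [← h4]
      refine integral_congr_ae (Eventually.of_forall fun x => ?_)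
      change ee (T l) (S x) * conj (ee (T l') (S x)) = _
      rw [← hS, ← hS]
    rw [h6] at h5
    exact (smul_eq_zero.mp h5.symm).resolve_left hc'
  · have hg : MemLp (f ∘ S) 2 (volume.restrict Ω) := by
      rw [← hemb.memLp_map_measure_iff, hc]
      exact hf.smul_measure hct
    have h3 := h2 _ hg fun l hl => ?_
    · have h4 : ∀ᵐ y ∂(Measure.map S (volume.restrict Ω)), f y = 0 := by
        rw [hemb.ae_map_iff]
        exact h3
      rw [hc, ae_iff, Measure.smul_apply, smul_eq_mul, mul_eq_zero] at h4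
      exact h4.resolve_left hc0
    · have h5 := h (T l) ⟨l, hl, rfl⟩
      have h6 := hint fun y => f y * conj (ee (T l) y)
      rw [h5, smul_zero] at h6
      rw [← h6]
      refine integral_congr_ae (Eventually.of_forall fun x => ?_)
      change f (S x) * conj (ee l x) = f (S x) * conj (ee (T l) (S x))
      rw [← hS]

end Pool.Agent.ST53
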