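import Pool.Agent.Lib.MP_53fa4a_an_ST.DDef

/-!
# Part D: local finiteness and the functions `F_φ`
-/

set_option autoImplicit false

open MeasureTheory Set Filter
open scoped ENNReal Topology ComplexConjugate BigOperators

noncomputable section

namespace Pool.Agent.ST53

open Pool.Agent.SpecND (E ee)
open Pool.Agent.NL53 (zv rv fib IsSpectrum)

variable {d : ℕ}

/-- PROOF: `Λ ∩ closedBall 0 R` is in the union over `e ∈ F` of the images under `+ e` of
`{zv n : |n i| ≤ ⌈R + ‖e‖⌉}`, finite. -/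
theorem lf_lat (F : Finset (E d)) {Λ : Set (E d)}
    (h : ∀ l ∈ Λ, ∃ n : Fin d → ℤ, ∃ e ∈ F, l = zv n + e) : LF Λ := by
  intro R
  have hfin : ∀ c : ℤ, {n : Fin d → ℤ | ∀ i, |n i| ≤ c}.Finite := by
    intro c
    refine (Set.finite_Icc (fun _ : Fin d => -c) (fun _ => c)).subset ?_
    intro n hn
    exact ⟨fun i => (abs_le.1 (hn i)).1, fun i => (abs_le.1 (hn i)).2⟩
  have hU : (⋃ e ∈ (F : Set (E d)), (fun n : Fin d → ℤ => zv n + e) ''
      {n : Fin d → ℤ | ∀ i, |n i| ≤ ⌈R + ‖e‖⌉}).Finite :=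
    F.finite_toSet.biUnion fun e _ => (hfin _).image _
  refine hU.subset ?_
  rintro l ⟨hl, hlR⟩
  obtain ⟨n, e, he, rfl⟩ := h l hl
  refine Set.mem_biUnion (Finset.mem_coe.2 he) ⟨n, fun i => ?_, rfl⟩
  rw [mem_closedBall_zero_iff] at hlR
  have h1 : ‖zv n‖ ≤ R + ‖e‖ := by
    have h2 := norm_sub_le (zv n + e) e
    rw [add_sub_cancel_right] at h2
    linarith
  have h2 : ‖(zv n) i‖ ≤ ‖zv n‖ := PiLp.norm_apply_le (zv n) i
  have h3 : ‖(zv n) i‖ = |(n i : ℝ)| := by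
    rw [Real.norm_eq_abs]
    rfl
  rw [h3] at h2
  have h4 : ((|n i| : ℤ) : ℝ) ≤ R + ‖e‖ := by
    rw [Int.cast_abs]
    exact h2.trans h1
  exact_mod_cast h4.trans (Int.le_ceil _)

theorem LF.countable {D : Set (E d)} (h : LF D) : D.Countable := by
  have hU : (⋃ n : ℕ, (D ∩ Metric.closedBall (0 : E d) (n : ℝ))).Countable :=
    Set.countable_iUnion fun n => (h n).countable
  refine hU.mono fun x hx => ?_
  obtain ⟨n, hn⟩ := exists_nat_ge ‖x‖
  exact Set.mem_iUnion.2 ⟨n, hx, mem_closedBall_zero_iff.2 hn⟩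

/-- a finite sum -/
theorem FF_sum {Λ : Set (E d)} (hΛ : LF Λ) {φ : E d → ℂ} {r R : ℝ} (hφ : ∀ y, r < ‖y‖ → φ y = 0)
    {x : E d} (hx : ‖x‖ ≤ R) :
    FF (idc Λ) φ x = ∑ y ∈ (hΛ (R + r)).toFinset, φ (y - x) := by
  unfold FF
  rw [tsum_eq_sum (s := (hΛ (R + r)).toFinset)]
  · refine Finset.sum_congr rfl fun y hy => ?_
    have h1 : y ∈ Λ := ((Set.Finite.mem_toFinset _).1 hy).1
    unfold idc
    rw [Set.indicator_of_mem h1, one_mul]
  · intro y hy
    by_cases h1 : y ∈ Λ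
    · have h2 : R + r < ‖y‖ := by
        by_contra h3
        exact hy ((Set.Finite.mem_toFinset _).2
          ⟨h1, mem_closedBall_zero_iff.2 (not_lt.1 h3)⟩)
      have h3 : r < ‖y - x‖ := by
        have h4 := norm_sub_norm_le y x
        linarith
      rw [hφ _ h3, mul_zero]
    · unfold idc
      rw [Set.indicator_of_notMem h1, zero_mul]

/-- PROOF: near a point `x₀` the sum is a fixed finite sum (`FF_sum` with `R = ‖x₀‖ + 1`). -/
theorem FF_cont {Λ : Set (E d)} (hΛ : LF Λ) {φ : E d → ℂ} (hc : Continuous φ) {r : ℝ}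
    (hφ : ∀ y, r < ‖y‖ → φ y = 0) : Continuous (FF (idc Λ) φ) := by
  refine continuous_iff_continuousAt.2 fun x₀ => ?_
  have hg : Continuous fun x : E d =>
      ∑ y ∈ (hΛ (‖x₀‖ + 1 + r)).toFinset, φ (y - x) :=
    continuous_finsetSum _ fun y _ => hc.comp (continuous_const.sub continuous_id)
  refine (hg.continuousAt (x := x₀)).congr ?_
  filter_upwards [Metric.ball_mem_nhds x₀ one_pos] with x hx
  have h1 : ‖x‖ ≤ ‖x₀‖ + 1 := by
    have h2 : ‖x - x₀‖ < 1 := by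
      rw [← dist_eq_norm]
      exact hx
    have h3 := norm_sub_norm_le x x₀
    linarith
  exact (FF_sum hΛ hφ h1).symm

end Pool.Agent.ST53
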