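import Pool.Agent.Lib.MP_53fa4a_an_ST.DDef

/-!
# Part D: Gallai's theorem
-/

set_option autoImplicit false

open MeasureTheory Set Filter
open scoped ENNReal Topology ComplexConjugate BigOperators

noncomputable section

namespace Pool.Agent.ST53

open Pool.Agent.SpecND (E ee)
open Pool.Agent.NL53 (zv rv fib IsSpectrum)

variable {d : ℕ}

private lemma zv_add' (n n' : Fin d → ℤ) : zv (n + n') = zv n + zv n' := by
  unfold zv rv
  rw [← WithLp.toLp_add]
  congr 1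
  funext i
  simp

private lemma zv_smul' (a : ℕ) (n : Fin d → ℤ) : zv (a • n) = (a : ℝ) • zv n := by
  unfold zv rv
  rw [← WithLp.toLp_smul]
  congr 1
  funext i
  simp

private lemma abs_le_norm_zv (n : Fin d → ℤ) (i : Fin d) : |(n i : ℝ)| ≤ ‖zv n‖ := by
  have h := PiLp.norm_apply_le (zv n) i
  rw [Real.norm_eq_abs] at h
  exact h

/-- **Gallai.**  PROOF.  Colour `n ∈ ℤ^d` by `(v, e)` with `zv (n + v) + e ∈ Λ`, where `e ∈ F` and
`v` is in the finite set `|v i| ≤ r + ∑ ‖e‖`; apply `Combinatorics.exists_mono_homothetic_copy` to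
the box (see `Lib/MP_53fa4a_an_NL/CombA.lean`, `pattern`); `x₀ = zv (b + v) + e`. -/
theorem pat {Λ : Set (E d)} (F : Finset (E d))
    (hΛ : ∀ l ∈ Λ, ∃ n : Fin d → ℤ, ∃ e ∈ F, l = zv n + e) {r : ℝ}
    (hsyn : ∀ x : E d, ∃ l ∈ Λ, ‖l - x‖ ≤ r) (R : ℕ) :
    ∃ (m : ℕ) (x₀ : E d), 0 < m ∧
      ∀ l : Fin d → ℤ, (∀ i, |l i| ≤ R) → x₀ + (m : ℝ) • zv l ∈ Λ := by
  classical
  let B : ℕ := ⌈r + ∑ e ∈ F, ‖e‖⌉₊
  let V : Finset (Fin d → ℤ) := Fintype.piFinset fun _ : Fin d => Finset.Icc (-(B : ℤ)) B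
  have hcol : ∀ n : Fin d → ℤ, ∃ p : (Fin d → ℤ) × E d, p ∈ V ×ˢ F ∧ zv (n + p.1) + p.2 ∈ Λ := by
    intro n
    obtain ⟨l, hl, hlr⟩ := hsyn (zv n)
    obtain ⟨n', e, he, rfl⟩ := hΛ l hl
    refine ⟨(n' - n, e), Finset.mem_product.2 ⟨?_, he⟩, ?_⟩
    · refine Fintype.mem_piFinset.2 fun i => Finset.mem_Icc.2 (abs_le.1 ?_)
      have h1 : zv n' = zv n + zv (n' - n) := by
        rw [← zv_add']
        congr 1
        abel
      have h2 : zv (n' - n) = (zv n' + e - zv n) - e := by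
        rw [h1]
        abel
      have h3 : ‖zv (n' - n)‖ ≤ r + ∑ e ∈ F, ‖e‖ := by
        rw [h2]
        refine (norm_sub_le _ _).trans (add_le_add hlr ?_)
        exact Finset.single_le_sum (f := fun e : E d => ‖e‖) (fun _ _ => norm_nonneg _) he
      have h4 : (|((n' - n) i : ℤ)| : ℝ) ≤ (B : ℝ) :=
        ((abs_le_norm_zv (n' - n) i).trans h3).trans (Nat.le_ceil _)
      exact_mod_cast h4
    · change zv (n + (n' - n)) + e ∈ Λ
      have h5 : n + (n' - n) = n' := by abel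
      rw [h5]
      exact hl
  choose c hc1 hc2 using hcol
  obtain ⟨a, ha, b, g, hg⟩ := Combinatorics.exists_mono_homothetic_copy
    (Fintype.piFinset fun _ : Fin d => Finset.Icc (-(R : ℤ)) R)
    (fun x => (⟨c x, hc1 x⟩ : {g // g ∈ V ×ˢ F}))
  refine ⟨a, zv (b + (g : (Fin d → ℤ) × E d).1) + (g : (Fin d → ℤ) × E d).2, ha,
    fun l hl => ?_⟩
  have h1 := hg l (Fintype.mem_piFinset.2 fun i => Finset.mem_Icc.2 (abs_le.1 (hl i)))
  have h2 : c (a • l + b) = (g : (Fin d → ℤ) × E d) := congrArg Subtype.val h1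
  have h3 := hc2 (a • l + b)
  rw [h2] at h3
  have h4 : zv (b + (g : (Fin d → ℤ) × E d).1) + (g : (Fin d → ℤ) × E d).2 + (a : ℝ) • zv l =
      zv (a • l + b + (g : (Fin d → ℤ) × E d).1) + (g : (Fin d → ℤ) × E d).2 := by
    rw [← zv_smul', zv_add', zv_add', zv_add']
    abel
  rw [h4]
  exact h3

end Pool.Agent.ST53
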