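import Pool.Agent.Lib.MP_53fa4a_an_ST.DDef

/-!
# Part D: the choice of the translate
-/

set_option autoImplicit false

open MeasureTheory Set Filter
open scoped ENNReal Topology ComplexConjugate BigOperators

noncomputable section

namespace Pool.Agent.ST53

open Pool.Agent.SpecND (E ee)
open Pool.Agent.NL53 (zv rv fib IsSpectrum)

variable {d : ℕ}

/-- the index of the cell of side `m` -/
private def cel (m : ℕ) (x : E d) : Fin d → ℤ := fun i => ⌊x i / (m : ℝ)⌋

private theorem cel_meas (m : ℕ) : Measurable (cel (d := d) m) := by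
  refine measurable_pi_lambda _ fun i => ?_
  have h : Measurable fun x : E d => x i / (m : ℝ) := by fun_prop
  exact Int.measurable_floor.comp h

private theorem tt_apply (m : ℕ) (k : Fin d → ℤ) (i : Fin d) :
    ((m : ℝ) • zv k : E d) i = (m : ℝ) * (k i : ℝ) := by
  simp [zv, rv]

private theorem cel_add {m : ℕ} (hm0 : 0 < m) (x : E d) (k : Fin d → ℤ) :
    cel m (x + (m : ℝ) • zv k) = cel m x + k := by
  funext i
  have hm : (m : ℝ) ≠ 0 := by exact_mod_cast hm0.ne'
  have h1 : (x + (m : ℝ) • zv k : E d) i / (m : ℝ) = x i / (m : ℝ) + (k i : ℝ) := by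
    rw [PiLp.add_apply, tt_apply, add_div, mul_div_cancel_left₀ _ hm]
  simp only [cel, Pi.add_apply]
  rw [h1, Int.floor_add_intCast]

private theorem cel_vol {m : ℕ} (hm0 : 0 < m) :
    volume (cel (d := d) m ⁻¹' {0}) = ENNReal.ofReal (m : ℝ) ^ d := by
  have hm : (0 : ℝ) < m := by exact_mod_cast hm0
  have h1 : cel (d := d) m ⁻¹' {0} =
      (WithLp.ofLp : E d → (Fin d → ℝ)) ⁻¹' (Set.pi univ fun _ => Ico (0 : ℝ) (m : ℝ)) := by
    ext x
    simp only [mem_preimage, mem_singleton_iff, mem_univ_pi, mem_Ico, cel, funext_iff,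
      Pi.zero_apply, Int.floor_eq_iff, Int.cast_zero, zero_add]
    refine forall_congr' fun i => ?_
    rw [le_div_iff₀ hm, zero_mul, div_lt_one hm]
  rw [h1, (PiLp.volume_preserving_ofLp (Fin d)).measure_preimage
    (MeasurableSet.univ_pi fun _ => measurableSet_Ico).nullMeasurableSet, Real.volume_pi_Ico]
  simp

private theorem cel_mem {m : ℕ} (hm : 0 < m) {ρ : ℝ} {R : ℕ} (hρ : ρ + 1 ≤ R) {y : E d}
    (hy : ‖y‖ ≤ m * ρ) : cel m y ∈ Fintype.piFinset fun _ : Fin d => Finset.Icc (-(R : ℤ)) R := by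
  have hmr : (0 : ℝ) < m := by exact_mod_cast hm
  rw [Fintype.mem_piFinset]
  intro i
  have h1 : |y i| ≤ m * ρ := by
    have := PiLp.norm_apply_le y i
    rw [Real.norm_eq_abs] at this
    exact this.trans hy
  obtain ⟨h2, h3⟩ := abs_le.1 h1
  rw [Finset.mem_Icc]
  have h4 : y i / m ≤ ρ := by
    rw [div_le_iff₀ hmr]
    linarith
  have h5 : -ρ ≤ y i / m := by
    rw [le_div_iff₀ hmr]
    linarith
  constructor
  · refine Int.le_floor.2 ?_
    push_cast
    linarith
  · have h6 : ((⌊y i / (m : ℝ)⌋ : ℤ) : ℝ) ≤ (R : ℤ) := by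
      have := Int.floor_le (y i / (m : ℝ))
      push_cast
      linarith
    exact_mod_cast h6

/-- PROOF: `∫ g = ∫_{[0,m)^d} ∑_l g(t + m l) dt` (only the `l` of the box matter, because
`g(y) = 0` for `‖y‖ > m ρ` and `ρ + 1 ≤ R`), and some `t` has a value at least the average
(`exists_setAverage_le`). -/
theorem exists_shift {m : ℕ} (hm : 0 < m) {g : E d → ℝ} (hc : Continuous g) {ρ : ℝ} {R : ℕ}
    (hρ : ρ + 1 ≤ R) (hg : ∀ y, m * ρ < ‖y‖ → g y = 0) :
    ∃ t : E d, ∫ y, g y ≤ (m : ℝ) ^ d *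
      ∑ l ∈ Fintype.piFinset fun _ : Fin d => Finset.Icc (-(R : ℤ)) R, g (t + (m : ℝ) • zv l) := by
  classical
  have hmr : (0 : ℝ) < m := by exact_mod_cast hm
  obtain ⟨B, hB⟩ : ∃ B : Finset (Fin d → ℤ),
      B = Fintype.piFinset fun _ : Fin d => Finset.Icc (-(R : ℤ)) R := ⟨_, rfl⟩
  rw [← hB]
  have hcs : HasCompactSupport g := by
    refine HasCompactSupport.intro (isCompact_closedBall (0 : E d) (m * ρ)) fun y hy => hg y ?_
    rw [mem_closedBall_zero_iff, not_le] at hy
    exact hy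
  have hint : Integrable g := hc.integrable_of_hasCompactSupport hcs
  have hD : ∀ k, MeasurableSet (cel (d := d) m ⁻¹' {k}) := fun k =>
    cel_meas m (measurableSet_singleton k)
  have htr : ∀ l : Fin d → ℤ, ∫ y in cel (d := d) m ⁻¹' {l}, g y =
      ∫ t in cel (d := d) m ⁻¹' {0}, g (t + (m : ℝ) • zv l) := by
    intro l
    have h1 := (measurePreserving_add_right (volume : Measure (E d))
      ((m : ℝ) • zv l)).setIntegral_preimage_emb
      (MeasurableEquiv.addRight ((m : ℝ) • zv l : E d)).measurableEmbedding g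
      (cel (d := d) m ⁻¹' {l})
    rw [← h1]
    congr 2
    ext x
    simp only [mem_preimage, mem_singleton_iff]
    rw [cel_add hm, add_eq_right]
  have hsum : ∫ y, g y = ∑ l ∈ B, ∫ y in cel (d := d) m ⁻¹' {l}, g y := by
    rw [← integral_biUnion_finset B (fun l _ => hD l) (fun l _ l' _ hll => ?_)
      (fun l _ => hint.integrableOn)]
    · refine (setIntegral_eq_integral_of_forall_compl_eq_zero fun y hy => ?_).symm
      by_contra h0
      have h1 : ‖y‖ ≤ m * ρ := by
        by_contra h2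
        exact h0 (hg y (not_le.1 h2))
      refine hy (mem_biUnion (x := cel m y) ?_ rfl)
      rw [hB]
      exact cel_mem hm hρ h1
    · refine Set.disjoint_left.2 fun x hx hx' => hll ?_
      have e1 : cel m x = l := hx
      have e2 : cel m x = l' := hx'
      rw [← e1, ← e2]
  have hF : IntegrableOn (fun t : E d => ∑ l ∈ B, g (t + (m : ℝ) • zv l))
      (cel (d := d) m ⁻¹' {0}) := by
    refine integrable_finsetSum _ fun l _ => ?_
    exact (hint.comp_add_right ((m : ℝ) • zv l : E d)).integrableOn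
  have hv0 : volume (cel (d := d) m ⁻¹' {0}) ≠ 0 := by
    rw [cel_vol hm]
    have : ENNReal.ofReal (m : ℝ) ≠ 0 := by
      rw [Ne, ENNReal.ofReal_eq_zero, not_le]
      exact hmr
    exact pow_ne_zero _ this
  have hv1 : volume (cel (d := d) m ⁻¹' {0}) ≠ ∞ := by
    rw [cel_vol hm]
    exact ENNReal.pow_ne_top ENNReal.ofReal_ne_top
  obtain ⟨t, -, ht⟩ := exists_setAverage_le hv0 hv1 hF
  refine ⟨t, ?_⟩
  have hreal : volume.real (cel (d := d) m ⁻¹' {0}) = (m : ℝ) ^ d := by
    rw [Measure.real, cel_vol hm, ENNReal.toReal_pow, ENNReal.toReal_ofReal hmr.le]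
  rw [setAverage_eq, hreal, smul_eq_mul, integral_finsetSum _ fun l _ =>
    (hint.comp_add_right ((m : ℝ) • zv l : E d)).integrableOn] at ht
  have h5 : ∑ l ∈ B, ∫ t in cel (d := d) m ⁻¹' {0}, g (t + (m : ℝ) • zv l) = ∫ y, g y := by
    rw [hsum]
    exact Finset.sum_congr rfl fun l _ => (htr l).symm
  rw [h5, inv_mul_le_iff₀ (by positivity)] at ht
  exact ht

end Pool.Agent.ST53
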