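import Pool.Agent.Lib.MP_53fa4a_an_ST.DDef

/-!
# Part D: Plancherel for the indicator function of a set
-/

set_option autoImplicit false

open MeasureTheory Set Filter
open scoped ENNReal Topology ComplexConjugate BigOperators
open scoped NNReal FourierTransform SchwartzMap

noncomputable section

namespace Pool.Agent.ST53

open Pool.Agent.SpecND (E ee)
open Pool.Agent.NL53 (zv rv fib IsSpectrum)

variable {d : ℕ}

private theorem dplan_flip (b : E d → ℂ) (h1 : Integrable b) (g : 𝓢(E d, ℂ)) :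
    ∫ x, g x • (𝓕 b) x = ∫ x, (𝓕 g) x • b x := by
  have h := VectorFourier.integral_fourierIntegral_smul_eq_flip (L := innerₗ (E d))
      (μ := volume) (ν := volume) Real.continuous_fourierChar continuous_inner
      (g.integrable (μ := volume)) h1
  have e1 : ∀ x, VectorFourier.fourierIntegral Real.fourierChar volume (innerₗ (E d)) (⇑g) x
      = (𝓕 g) x := by
    intro x
    rw [SchwartzMap.fourier_coe]
    rfl
  have e2 : ∀ x, VectorFourier.fourierIntegral Real.fourierChar volume (innerₗ (E d)).flip b x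
      = (𝓕 b) x := by
    intro x
    simp [VectorFourier.fourierIntegral, Real.fourier_eq, real_inner_comm]
  simp only [e1, e2] at h
  exact h.symm

private theorem dplan_ae (b : E d → ℂ) (h1 : Integrable b) (h2 : MemLp b 2) :
    (𝓕 b) =ᵐ[volume] (𝓕 (h2.toLp b) : Lp ℂ 2 (volume : Measure (E d))) := by
  have hcont : Continuous (𝓕 b) :=
    VectorFourier.fourierIntegral_continuous Real.continuous_fourierChar continuous_inner h1
  apply ae_eq_of_integral_contDiff_smul_eq
  · exact hcont.locallyIntegrable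
  · exact (Lp.memLp _).locallyIntegrable (by norm_num)
  · intro g hg1 hg2
    have hg₁ : HasCompactSupport (Complex.ofRealCLM ∘ g) := hg2.comp_left rfl
    have hg₂ : ContDiff ℝ (⊤ : ℕ∞) (Complex.ofRealCLM ∘ g) := by fun_prop
    set G : 𝓢(E d, ℂ) := hg₁.toSchwartzMap hg₂ with hG
    have hGg : ∀ x, G x = (g x : ℂ) := fun x => rfl
    have e1 := dplan_flip b h1 G
    have e2 : (𝓕 ((h2.toLp b : Lp ℂ 2 (volume : Measure (E d))) : 𝓢'(E d, ℂ))) G
        = ((𝓕 (h2.toLp b) : Lp ℂ 2 (volume : Measure (E d))) : 𝓢'(E d, ℂ)) G := by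
      rw [Lp.fourier_toTemperedDistribution_eq]
    rw [TemperedDistribution.fourier_apply, Lp.toTemperedDistribution_apply,
      Lp.toTemperedDistribution_apply] at e2
    have e3 : ∫ x, (𝓕 G) x • (h2.toLp b) x = ∫ x, (𝓕 G) x • b x := by
      apply integral_congr_ae
      filter_upwards [h2.coeFn_toLp] with x hx
      rw [hx]
    rw [e3, ← e1] at e2
    simpa [hGg] using e2

private theorem dplan_plancherel (q : E d → ℂ) (h1 : Integrable q) (h2 : MemLp q 2) :
    ∫⁻ ξ, ‖𝓕 q ξ‖ₑ ^ 2 = ∫⁻ y, ‖q y‖ₑ ^ 2 := by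
  have e1 : ‖(𝓕 (h2.toLp q) : Lp ℂ 2 (volume : Measure (E d)))‖ₑ = ‖h2.toLp q‖ₑ := by
    have := Lp.norm_fourier_eq (h2.toLp q)
    rw [← ofReal_norm, ← ofReal_norm, this]
  rw [Lp.enorm_def, Lp.enorm_def] at e1
  rw [eLpNorm_congr_ae (dplan_ae q h1 h2).symm, eLpNorm_congr_ae h2.coeFn_toLp] at e1
  rw [eLpNorm_eq_lintegral_rpow_enorm_toReal (by norm_num) (by norm_num),
    eLpNorm_eq_lintegral_rpow_enorm_toReal (by norm_num) (by norm_num)] at e1
  have e2 := congrArg (fun u : ENNReal => u ^ (2 : ℝ)) e1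
  simp only [ENNReal.toReal_ofNat] at e2
  rw [← ENNReal.rpow_mul, ← ENNReal.rpow_mul] at e2
  norm_num at e2
  exact e2

/-- **Plancherel** for the indicator function of `Ω`; see `Lib/MP_ff3fe0_an_SPH/PlaA.lean`,
`plancherel`. -/
theorem gam_int {Ω : Set (E d)} (hm : MeasurableSet Ω) (hfin : volume Ω ≠ ∞) :
    ∫⁻ x : E d, ‖∫ y in Ω, ee x y‖ₑ ^ 2 = volume Ω := by
  set q : E d → ℂ := Ω.indicator fun _ => (1 : ℂ) with hq
  have h1 : Integrable q := (integrable_indicator_iff hm).2 (integrableOn_const hfin)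
  have h2 : MemLp q 2 := memLp_indicator_const 2 hm 1 (Or.inr hfin)
  have h3 := dplan_plancherel q h1 h2
  have h4 : ∀ x, ‖∫ y in Ω, ee x y‖ₑ = ‖𝓕 q x‖ₑ := by
    intro x
    have h5 : 𝓕 q x = conj (∫ y in Ω, ee x y) := by
      rw [Real.fourier_eq, ← integral_indicator hm, ← integral_conj]
      refine integral_congr_ae (Filter.Eventually.of_forall fun y => ?_)
      by_cases hy : y ∈ Ω
      · have h7 : ((Real.fourierChar (-inner ℝ y x) : Circle) : ℂ) = conj (ee x y) := by
          unfold ee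
          rw [Real.fourierChar_apply, ← Complex.exp_conj, real_inner_comm]
          congr 1
          rw [map_mul, map_mul, map_mul, Complex.conj_I, Complex.conj_ofReal,
            Complex.conj_ofReal, map_ofNat]
          push_cast
          ring
        simp [hq, hy, Circle.smul_def, h7]
      · simp [hq, hy]
    rw [h5, ← ofReal_norm, ← ofReal_norm, RCLike.norm_conj]
  simp only [h4]
  rw [h3]
  have h6 : ∀ y, ‖q y‖ₑ ^ 2 = Ω.indicator (fun _ => (1 : ℝ≥0∞)) y := by
    intro y
    by_cases hy : y ∈ Ω <;> simp [hq, hy]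
  simp only [h6]
  rw [lintegral_indicator hm]
  simp

end Pool.Agent.ST53
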