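import Pool.Agent.Lib.MP_53fa4a_an_NL.Pars
import Pool.Agent.Lib.MP_53fa4a_an_ST.DLoc
import Pool.Agent.Lib.MP_53fa4a_an_ST.DPlan

/-!
# Part D: the value of the constant
-/

set_option autoImplicit false

open MeasureTheory Set Filter
open scoped ENNReal Topology ComplexConjugate BigOperators

noncomputable section

namespace Pool.Agent.ST53

open Pool.Agent.SpecND (E ee)
open Pool.Agent.NL53 (zv rv fib IsSpectrum)

variable {d : ℕ}

/-- the function `Γ` -/
private def dvG (Ω : Set (E d)) (x : E d) : ℝ≥0∞ := ‖∫ y in Ω, ee x y‖ₑ ^ 2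

private lemma dvG_meas {Ω : Set (E d)} (hfin : volume Ω ≠ ∞) : Measurable (dvG Ω) := by
  have : IsFiniteMeasure (volume.restrict Ω) :=
    ⟨by rwa [Measure.restrict_apply_univ, lt_top_iff_ne_top]⟩
  have hc : Continuous (Function.uncurry (ee : E d → E d → ℂ)) := by
    unfold ee
    fun_prop
  have h1 : StronglyMeasurable fun x : E d => ∫ y in Ω, ee x y :=
    StronglyMeasurable.integral_prod_right (f := (ee : E d → E d → ℂ)) hc.stronglyMeasurable
  exact (h1.measurable.enorm).pow_const 2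

private lemma dvG_even (Ω : Set (E d)) (x : E d) : dvG Ω (-x) = dvG Ω x := by
  unfold dvG
  have h : ∫ y in Ω, ee (-x) y = conj (∫ y in Ω, ee x y) := by
    rw [← integral_conj]
    refine integral_congr_ae (Eventually.of_forall fun y => ?_)
    show ee (-x) y = conj (ee x y)
    rw [← Pool.Agent.SpecND.ee_neg]
    unfold ee
    rw [inner_neg_left, inner_neg_right]
  rw [h, ← ofReal_norm, ← ofReal_norm, RCLike.norm_conj]

private lemma dvG_sum {Ω : Set (E d)} (hm : MeasurableSet Ω) (hfin : volume Ω ≠ ∞)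
    {Λ : Set (E d)} (hs : IsSpectrum Λ Ω) (z : E d) :
    ∑' l : Λ, dvG Ω ((l : E d) - z) = ENNReal.ofReal (volume.real Ω ^ 2) := by
  have h1 := Pool.Agent.NL53.parseval_full hm hfin hs z
  rw [← h1.tsum_eq, ENNReal.ofReal_tsum_of_nonneg (fun _ => by positivity) h1.summable]
  refine tsum_congr fun l => ?_
  rw [← neg_sub, dvG_even, dvG, ENNReal.ofReal_pow (norm_nonneg _), ofReal_norm]

/-- PROOF: `Γ(x) = |∫_Ω e_x|²`, `∫ Γ = |Ω|` (`gam_int`), `∑_{λ ∈ Λ} Γ(z - λ) = |Ω|²`
(`parseval_full`), so, by Tonelli (everything is `≥ 0`),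
`c |Ω| = ∫ Γ(x) ∑_λ g(λ - x) dx = ∑_λ ∫ Γ(λ - z) g(z) dz = |Ω|² ∫ g`. -/
theorem const_val {Ω : Set (E d)} (hm : MeasurableSet Ω) (h0 : volume Ω ≠ 0)
    (hfin : volume Ω ≠ ∞) {Λ : Set (E d)} (hs : IsSpectrum Λ Ω) (hΛ : LF Λ) {g : E d → ℝ}
    (hc : Continuous g) (hg0 : ∀ y, 0 ≤ g y) {r : ℝ} (hg : ∀ y, r < ‖y‖ → g y = 0) {c : ℂ}
    (h : ∀ x, FF (idc Λ) (fun y => (g y : ℂ)) x = c) :
    c = ((volume.real Ω * ∫ y, g y : ℝ) : ℂ) := by
  have hcount : Countable Λ := hΛ.countable.to_subtype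
  -- the sums are finite
  have hsum : ∀ x : E d, Summable fun l : Λ => g ((l : E d) - x) := by
    intro x
    refine summable_of_hasFiniteSupport ?_
    have hf : ((Subtype.val : Λ → E d) ⁻¹' (Λ ∩ Metric.closedBall 0 (‖x‖ + r))).Finite :=
      (hΛ (‖x‖ + r)).preimage Subtype.val_injective.injOn
    refine hf.subset fun l hl => ?_
    refine ⟨l.2, mem_closedBall_zero_iff.2 ?_⟩
    by_contra h3
    have h4 := norm_sub_norm_le (l : E d) x
    exact hl (hg _ (by linarith [not_le.1 h3]))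
  have hFF : ∀ x : E d, c = ((∑' l : Λ, g ((l : E d) - x) : ℝ) : ℂ) := by
    intro x
    rw [← h x, Complex.ofReal_tsum, FF]
    rw [tsum_subtype Λ (fun y : E d => ((g (y - x) : ℝ) : ℂ))]
    refine tsum_congr fun y => ?_
    unfold idc
    by_cases hy : y ∈ Λ
    · rw [Set.indicator_of_mem hy, Set.indicator_of_mem hy, one_mul]
    · rw [Set.indicator_of_notMem hy, Set.indicator_of_notMem hy, zero_mul]
  set cr : ℝ := ∑' l : Λ, g ((l : E d) - 0) with hcr
  have hc0 : 0 ≤ cr := tsum_nonneg fun l => hg0 _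
  have hcc : c = (cr : ℂ) := hFF 0
  have hx : ∀ x : E d, ∑' l : Λ, g ((l : E d) - x) = cr := by
    intro x
    have h1 := hFF x
    rw [hcc] at h1
    exact_mod_cast h1.symm
  have hE : ∀ x : E d, ∑' l : Λ, ENNReal.ofReal (g ((l : E d) - x)) = ENNReal.ofReal cr := by
    intro x
    rw [← ENNReal.ofReal_tsum_of_nonneg (fun l => hg0 _) (hsum x), hx x]
  have hG := dvG_meas (Ω := Ω) hfin
  have hgm : Measurable fun y : E d => ENNReal.ofReal (g y) := hc.measurable.ennreal_ofReal
  have hcs : HasCompactSupport g := by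
    refine HasCompactSupport.intro (isCompact_closedBall (0 : E d) r) fun y hy => hg y ?_
    rw [mem_closedBall_zero_iff] at hy
    exact not_le.1 hy
  have hint : Integrable g := hc.integrable_of_hasCompactSupport hcs
  have hgi : ∫⁻ y, ENNReal.ofReal (g y) = ENNReal.ofReal (∫ y, g y) :=
    (ofReal_integral_eq_lintegral_ofReal hint (Eventually.of_forall hg0)).symm
  -- first computation
  have e1 : ∫⁻ x : E d, ∑' l : Λ, dvG Ω x * ENNReal.ofReal (g ((l : E d) - x)) =
      volume Ω * ENNReal.ofReal cr := by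
    simp only [ENNReal.tsum_mul_left, hE]
    rw [lintegral_mul_const _ hG]
    congr 1
    exact gam_int hm hfin
  -- second computation
  have e2 : ∀ l : Λ, ∫⁻ x : E d, dvG Ω x * ENNReal.ofReal (g ((l : E d) - x)) =
      ∫⁻ z : E d, dvG Ω ((l : E d) - z) * ENNReal.ofReal (g z) := by
    intro l
    rw [← lintegral_sub_left_eq_self
      (fun x : E d => dvG Ω x * ENNReal.ofReal (g ((l : E d) - x))) (l : E d)]
    simp only [sub_sub_cancel]
  have e3 : ∫⁻ x : E d, ∑' l : Λ, dvG Ω x * ENNReal.ofReal (g ((l : E d) - x)) =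
      ENNReal.ofReal (volume.real Ω ^ 2) * ENNReal.ofReal (∫ y, g y) := by
    have m1 : ∀ l : Λ, Measurable fun x : E d =>
        dvG Ω x * ENNReal.ofReal (g ((l : E d) - x)) := fun l =>
      hG.mul (hgm.comp (measurable_const.sub measurable_id))
    have m2 : ∀ l : Λ, Measurable fun z : E d =>
        dvG Ω ((l : E d) - z) * ENNReal.ofReal (g z) := fun l =>
      (hG.comp (measurable_const.sub measurable_id)).mul hgm
    rw [lintegral_tsum fun l : Λ => (m1 l).aemeasurable]
    simp only [e2]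
    rw [← lintegral_tsum fun l : Λ => (m2 l).aemeasurable]
    simp only [ENNReal.tsum_mul_right, dvG_sum hm hfin hs]
    rw [lintegral_const_mul _ hgm, hgi]
  rw [e1] at e3
  have hv : volume Ω = ENNReal.ofReal (volume.real Ω) := by
    rw [measureReal_def, ENNReal.ofReal_toReal hfin]
  have hvr : 0 < volume.real Ω := by
    rw [measureReal_def]
    exact ENNReal.toReal_pos h0 hfin
  have hi0 : 0 ≤ ∫ y, g y := integral_nonneg hg0
  rw [hv, ← ENNReal.ofReal_mul hvr.le, ← ENNReal.ofReal_mul (by positivity)] at e3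
  have e4 : volume.real Ω * cr = volume.real Ω ^ 2 * ∫ y, g y :=
    (ENNReal.ofReal_eq_ofReal_iff (by positivity) (by positivity)).1 e3
  have e5 : cr = volume.real Ω * ∫ y, g y := by
    have e6 : volume.real Ω * cr = volume.real Ω * (volume.real Ω * ∫ y, g y) := by
      rw [e4]; ring
    exact mul_left_cancel₀ hvr.ne' e6
  rw [hcc, e5]

end Pool.Agent.ST53
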