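import Pool.Agent.Lib.MP_53fa4a_an_NL.TileA
import Pool.Agent.Lib.MP_53fa4a_an_NL.Tile
import Pool.Agent.Lib.MP_53fa4a_an_ST.DFF
import Pool.Agent.Lib.MP_53fa4a_an_ST.DConst
import Pool.Agent.Lib.MP_53fa4a_an_ST.DVal
import Pool.Agent.Lib.MP_53fa4a_an_ST.DPat
import Pool.Agent.Lib.MP_53fa4a_an_ST.DShift
import Pool.Agent.Lib.MP_53fa4a_an_ST.DCard

/-!
# Part D: from the annihilating operators to the multi-tiling
-/

set_option autoImplicit false

open MeasureTheory Set Filter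
open scoped ENNReal Topology ComplexConjugate BigOperators SchwartzMap

noncomputable section

namespace Pool.Agent.ST53

open Pool.Agent.SpecND (E ee)
open Pool.Agent.NL53 (zv rv fib IsSpectrum)

variable {d : ℕ}

private theorem dm_bump (d : ℕ) : ∃ β : E d → ℝ, ContDiff ℝ (⊤ : ℕ∞) β ∧ HasCompactSupport β ∧
    (∀ y, 0 ≤ β y) ∧ (∀ y, 1 < ‖y‖ → β y = 0) ∧ 0 < ∫ y, β y := by
  let f : ContDiffBump (0 : E d) := ⟨1 / 2, 1, by norm_num, by norm_num⟩
  refine ⟨f, f.contDiff, f.hasCompactSupport, fun y => f.nonneg, fun y hy => ?_,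
    f.integral_pos⟩
  refine f.zero_of_le_dist ?_
  rw [dist_zero_right]
  exact hy.le

private theorem dm_zv_zero : (zv (0 : Fin d → ℤ) : E d) = 0 := by
  ext i
  simp [zv, rv]

private theorem dm_inner (n k : Fin d → ℤ) :
    inner ℝ (zv n : E d) (zv k) = ((∑ i, n i * k i : ℤ) : ℝ) := by
  simp only [zv, rv, PiLp.inner_apply]
  push_cast
  refine Finset.sum_congr rfl fun i _ => ?_
  simp [mul_comm]

private theorem dm_zv_ne {n : Fin d → ℤ} (h : n ≠ 0) : (zv n : E d) ≠ 0 := by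
  intro h'
  apply h
  funext i
  have h1 := congrArg (fun v : E d => v i) h'
  simp only [zv, rv] at h1
  have h2 : ((n i : ℤ) : ℝ) = 0 := h1
  exact_mod_cast h2

private theorem dm_opm_zero (m : ℕ) (κ : E d) (Q : List (E d)) :
    opm m κ Q (0 : E d → ℂ) = 0 := by
  induction Q with
  | nil => rfl
  | cons q Q ih =>
    rw [opm_cons, ih]
    funext x
    simp [avm]

private theorem dm_tw_smooth (κ : E d) {β : E d → ℝ} (hβ : ContDiff ℝ (⊤ : ℕ∞) β)
    (hc : HasCompactSupport β) : ∃ φ : 𝓢(E d, ℂ), (φ : E d → ℂ) = tw κ β := by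
  have h1 : ContDiff ℝ (⊤ : ℕ∞) (tw κ β) := by
    unfold tw e
    refine ContDiff.mul (Complex.ofRealCLM.contDiff.comp hβ) ?_
    refine Complex.contDiff_exp.comp ?_
    refine contDiff_const.mul (Complex.ofRealCLM.contDiff.comp ?_)
    exact (contDiff_const.inner ℝ contDiff_id).neg
  have h2 : HasCompactSupport (tw κ β) := by
    refine hc.mono' ?_
    intro y hy
    refine subset_tsupport _ ?_
    intro h3
    apply hy
    simp [tw, h3]
  exact ⟨h2.toSchwartzMap h1, rfl⟩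

/-- **Part D.**  `Q` = the list of Theorem C; `Q' = bl d ++ Q`; `β` a smooth bump function with
`β ≥ 0`, `∫ β > 0`, support in the unit ball; `ω_m = om m Q' β`. -/
theorem part_D {Ω : Set (E d)} (hm : MeasurableSet Ω) (h0 : volume Ω ≠ 0) (hfin : volume Ω ≠ ∞)
    {Λ : Set (E d)} (hs : IsSpectrum Λ Ω) (F : Finset (E d))
    (hΛ : ∀ l ∈ Λ, ∃ n : Fin d → ℤ, ∃ e ∈ F, l = zv n + e) (Q : List (E d))
    (hQ : ∀ q ∈ Q, ∃ n : Fin d → ℤ, q = zv n)
    (ha : ∀ κ : E d, κ ≠ 0 → volume (Ω ∩ {x | x + κ ∈ Ω}) ≠ 0 → ∀ φ : 𝓢(E d, ℂ),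
      Op ⊤ κ Q (FF (idc Λ) φ) = 0)
    (hb : ∀ (v : Fin d → ℤ) (φ : 𝓢(E d, ℂ)), Op ⊤ 0 Q (dif (zv v) (FF (idc Λ) φ)) = 0) :
    ∃ m N : ℕ, 0 < m ∧ 0 < N ∧ ∀ᵐ x, (fib Ω m x).encard = N := by
  have hV : 0 < volume.real Ω := ENNReal.toReal_pos h0 hfin
  have hlf : LF Λ := lf_lat F hΛ
  obtain ⟨β, hβs, hβc, hβ0, hβsupp, hβint⟩ := dm_bump d
  have hβcont : Continuous β := hβs.continuous
  -- the functions with twists
  have htwc : ∀ κ : E d, Continuous (tw κ β) := by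
    intro κ
    obtain ⟨φ, hφ⟩ := dm_tw_smooth κ hβs hβc
    rw [← hφ]
    exact φ.continuous
  have htws : ∀ (κ y : E d), 1 < ‖y‖ → tw κ β y = 0 := by
    intro κ y hy
    simp [tw, hβsupp y hy]
  -- the list
  obtain ⟨Q', hQ'⟩ : ∃ Q' : List (E d), Q' = bl d ++ Q := ⟨_, rfl⟩
  obtain ⟨S, hS⟩ : ∃ S : ℝ, S = (Q'.map fun q => ‖q‖).sum := ⟨_, rfl⟩
  have hS0 : 0 ≤ S := by
    rw [hS]
    refine List.sum_nonneg fun x hx => ?_
    obtain ⟨q, -, rfl⟩ := List.mem_map.1 hx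
    exact norm_nonneg q
  have hosupp : ∀ m : ℕ, ∀ y : E d, 1 + m * S < ‖y‖ → om m Q' β y = 0 := by
    intro m y hy
    refine om_supp m Q' hβsupp y ?_
    rw [← hS]
    exact hy
  -- the constant
  have hconst : ∀ m : ℕ, 0 < m → ∀ x, FF (idc Λ) (fun y => (om m Q' β y : ℂ)) x =
      ((volume.real Ω * ∫ y, β y : ℝ) : ℂ) := by
    intro m hm0
    obtain ⟨φ, hφ⟩ := dm_tw_smooth 0 hβs hβc
    have hGc : Continuous (FF (idc Λ) (tw 0 β)) := FF_cont hlf (htwc 0) (htws 0)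
    have hper : ∀ (n : Fin d → ℤ) (x : E d), opm m 0 Q (FF (idc Λ) (tw 0 β)) (x + zv n) =
        opm m 0 Q (FF (idc Λ) (tw 0 β)) x := by
      intro n x
      have h1 := hb n φ
      rw [hφ] at h1
      have h2 := opm_of_op hm0 (κ := (0 : E d)) (Q := Q)
        (fun q _ => ⟨0, by simp⟩) (dif_cont (zv n) hGc) h1
      rw [opm_dif m 0 (zv n) Q hGc] at h2
      have h3 := congrFun h2 x
      simp only [dif, Pi.zero_apply] at h3
      exact (sub_eq_zero.1 h3).symm
    obtain ⟨c, hc⟩ := opm_const hm0 (opm_cont m 0 Q hGc) hper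
    have h1 : ∀ x, FF (idc Λ) (tw 0 (om m Q' β)) x = c := by
      intro x
      rw [← opm_FF hlf m 0 Q' hβcont hβsupp, hQ', opm_append]
      exact hc x
    have h2 : tw 0 (om m Q' β) = fun y => (om m Q' β y : ℂ) := by
      funext y
      simp [tw]
    rw [h2] at h1
    have h3 := const_val hm h0 hfin hs hlf (om_cont m Q' hβcont) (om_nonneg m Q' hβ0)
      (hosupp m) h1
    intro x
    rw [h1 x, h3, om_int m Q' hβcont hβsupp]
  -- syndetic
  have hCpos : 0 < volume.real Ω * ∫ y, β y := mul_pos hV hβint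
  have hsyn : ∀ x : E d, ∃ l ∈ Λ, ‖l - x‖ ≤ 1 + S := by
    intro x
    by_contra hcon
    push Not at hcon
    have h1 := hconst 1 one_pos x
    have h2 : FF (idc Λ) (fun y => (om 1 Q' β y : ℂ)) x = 0 := by
      unfold FF
      rw [← tsum_zero (α := ℂ) (β := E d)]
      refine tsum_congr fun y => ?_
      by_cases hy : y ∈ Λ
      · have h3 := hosupp 1 (y - x) (by
          have := hcon y hy
          simpa using this)
        simp [h3]
      · simp [idc, hy]
    rw [h2] at h1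
    have h3 : volume.real Ω * ∫ y, β y = 0 := by exact_mod_cast h1.symm
    exact absurd h3 hCpos.ne'
  obtain ⟨R, hR⟩ := exists_nat_ge (1 + S + 1)
  obtain ⟨m, x₀, hm0, hpat⟩ := pat F hΛ hsyn R
  have hm1 : (1 : ℝ) ≤ m := by exact_mod_cast hm0
  have hmr : (m : ℝ) ≠ 0 := by positivity
  obtain ⟨t, ht⟩ := exists_shift hm0 (om_cont m Q' hβcont) hR (fun y hy => hosupp m y (by
    have : (1 : ℝ) + m * S ≤ m * (1 + S) := by nlinarith
    linarith))
  rw [om_int m Q' hβcont hβsupp] at ht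
  have hle : ∀ᵐ x, (fib Ω m x).Finite ∧ ((fib Ω m x).ncard : ℝ) ≤ m ^ d * volume.real Ω := by
    refine Pool.Agent.NL53.fib_le (good := fun k =>
      volume (Ω ∩ {x | x + (m : ℝ)⁻¹ • zv k ∈ Ω}) ≠ 0) ?_ ?_
    · intro k _ hbad
      by_contra h
      exact hbad h
    · intro A hA
      have h1 := card_le hlf (om_nonneg m Q' hβ0) (hosupp m) hm0 (x₀ := x₀) (t := t)
        (K := Fintype.piFinset fun _ : Fin d => Finset.Icc (-(R : ℤ)) R)
        (fun l hl => hpat l fun i => by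
          have h2 := Fintype.mem_piFinset.1 hl i
          exact abs_le.2 (Finset.mem_Icc.1 h2))
        (hconst m hm0 (x₀ - t)) A (by
          intro k hk k' hk' hne
          have hk0 : k - k' ≠ 0 := sub_ne_zero.2 hne
          have hκ0 : (m : ℝ)⁻¹ • (zv (k - k') : E d) ≠ 0 :=
            smul_ne_zero (inv_ne_zero hmr) (dm_zv_ne hk0)
          obtain ⟨φ, hφ⟩ := dm_tw_smooth ((m : ℝ)⁻¹ • (zv (k - k') : E d)) hβs hβc
          have h2 := ha _ hκ0 (hA k hk k' hk' hne) φ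
          rw [hφ] at h2
          have h3 := opm_of_op hm0 (κ := (m : ℝ)⁻¹ • (zv (k - k') : E d)) (Q := Q)
            (fun q hq => by
              obtain ⟨n, rfl⟩ := hQ q hq
              refine ⟨∑ i, (k - k') i * n i, ?_⟩
              rw [real_inner_smul_left, dm_inner, ← mul_assoc, mul_inv_cancel₀ hmr, one_mul])
            (FF_cont hlf (htwc _) (htws _)) h2
          have h4 := opm_FF hlf m ((m : ℝ)⁻¹ • (zv (k - k') : E d)) Q' hβcont hβsupp
          rw [hQ', opm_append, h3, dm_opm_zero, ← hQ'] at h4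
          exact (congrFun h4 (x₀ - t)).symm)
      have h2 : (A.card : ℝ) * ∫ y, β y ≤ (m ^ d * volume.real Ω) * ∫ y, β y := by
        calc (A.card : ℝ) * ∫ y, β y
            ≤ (A.card : ℝ) * ((m : ℝ) ^ d * ∑ l ∈ Fintype.piFinset fun _ : Fin d =>
              Finset.Icc (-(R : ℤ)) R, om m Q' β (t + (m : ℝ) • zv l)) :=
              mul_le_mul_of_nonneg_left ht (Nat.cast_nonneg _)
          _ = (m : ℝ) ^ d * ((A.card : ℝ) * ∑ l ∈ Fintype.piFinset fun _ : Fin d =>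
              Finset.Icc (-(R : ℤ)) R, om m Q' β (t + (m : ℝ) • zv l)) := by ring
          _ ≤ (m : ℝ) ^ d * (volume.real Ω * ∫ y, β y) :=
              mul_le_mul_of_nonneg_left h1 (by positivity)
          _ = (m ^ d * volume.real Ω) * ∫ y, β y := by ring
      exact le_of_mul_le_mul_right h2 hβint
  obtain ⟨N, hN, hN'⟩ := Pool.Agent.NL53.tile_eq hm h0 hfin hm0 hle
  exact ⟨m, N, hm0, hN, hN'⟩

end Pool.Agent.ST53
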