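import Pool.Agent.Lib.MP_53fa4a_an_ST.DPlan

/-!
# The Fourier transform of `Γ(x) = |∫_Ω e_x|²`
-/

set_option autoImplicit false

open MeasureTheory Set Filter
open scoped ENNReal Topology ComplexConjugate BigOperators SchwartzMap FourierTransform

noncomputable section

namespace Pool.Agent.ST53

open Pool.Agent.SpecND (E ee)
open Pool.Agent.NL53 (zv rv fib IsSpectrum)

variable {d : ℕ}

private theorem gpl_flip (b : E d → ℂ) (h1 : Integrable b) (g : 𝓢(E d, ℂ)) :
    ∫ x, g x • (𝓕 b) x = ∫ x, (𝓕 g) x • b x := by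
  have h := VectorFourier.integral_fourierIntegral_smul_eq_flip (L := innerₗ (E d))
      (μ := volume) (ν := volume) Real.continuous_fourierChar continuous_inner
      (g.integrable (μ := volume)) h1
  have e1 : ∀ x, VectorFourier.fourierIntegral Real.fourierChar volume (innerₗ (E d)) (⇑g) x
      = (𝓕 g) x := by
    intro x
    rw [SchwartzMap.fourier_coe]
    rfl
  have e2 : ∀ x, VectorFourier.fourierIntegral Real.fourierChar volume (innerₗ (E d)).flip b x
      = (𝓕 b) x := by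
    intro x
    simp [VectorFourier.fourierIntegral, Real.fourier_eq, real_inner_comm]
  simp only [e1, e2] at h
  exact h.symm

private theorem gpl_cont (b : E d → ℂ) (h1 : Integrable b) : Continuous (𝓕 b) :=
  VectorFourier.fourierIntegral_continuous Real.continuous_fourierChar continuous_inner h1

private theorem gpl_ae (b : E d → ℂ) (h1 : Integrable b) (h2 : MemLp b 2) :
    (𝓕 b) =ᵐ[volume] (𝓕 (h2.toLp b) : Lp ℂ 2 (volume : Measure (E d))) := by
  have hcont : Continuous (𝓕 b) := gpl_cont b h1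
  apply ae_eq_of_integral_contDiff_smul_eq
  · exact hcont.locallyIntegrable
  · exact (Lp.memLp _).locallyIntegrable (by norm_num)
  · intro g hg1 hg2
    have hg₁ : HasCompactSupport (Complex.ofRealCLM ∘ g) := hg2.comp_left rfl
    have hg₂ : ContDiff ℝ (⊤ : ℕ∞) (Complex.ofRealCLM ∘ g) := by fun_prop
    set G : 𝓢(E d, ℂ) := hg₁.toSchwartzMap hg₂ with hG
    have hGg : ∀ x, G x = (g x : ℂ) := fun x => rfl
    have e1 := gpl_flip b h1 G
    have e2 : (𝓕 ((h2.toLp b : Lp ℂ 2 (volume : Measure (E d))) : 𝓢'(E d, ℂ))) G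
        = ((𝓕 (h2.toLp b) : Lp ℂ 2 (volume : Measure (E d))) : 𝓢'(E d, ℂ)) G := by
      rw [Lp.fourier_toTemperedDistribution_eq]
    rw [TemperedDistribution.fourier_apply, Lp.toTemperedDistribution_apply,
      Lp.toTemperedDistribution_apply] at e2
    have e3 : ∫ x, (𝓕 G) x • (h2.toLp b) x = ∫ x, (𝓕 G) x • b x := by
      apply integral_congr_ae
      filter_upwards [h2.coeFn_toLp] with x hx
      rw [hx]
    rw [e3, ← e1] at e2
    simpa [hGg] using e2

/-- Parseval for integrable functions in `L²`. -/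
private theorem gpl_parseval (f g : E d → ℂ) (hf1 : Integrable f) (hf2 : MemLp f 2)
    (hg1 : Integrable g) (hg2 : MemLp g 2) :
    ∫ x, 𝓕 g x * conj (𝓕 f x) = ∫ x, g x * conj (f x) := by
  have h := MeasureTheory.Lp.inner_fourier_eq (hf2.toLp f) (hg2.toLp g)
  rw [L2.inner_def, L2.inner_def] at h
  have e1 : ∫ x, inner ℂ ((𝓕 (hf2.toLp f) : Lp ℂ 2 (volume : Measure (E d))) x)
      ((𝓕 (hg2.toLp g) : Lp ℂ 2 (volume : Measure (E d))) x) =
      ∫ x, 𝓕 g x * conj (𝓕 f x) := by
    apply integral_congr_ae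
    filter_upwards [gpl_ae f hf1 hf2, gpl_ae g hg1 hg2] with x hx hy
    rw [← hx, ← hy, RCLike.inner_apply]
  have e2 : ∫ x, inner ℂ ((hf2.toLp f : Lp ℂ 2 (volume : Measure (E d))) x)
      ((hg2.toLp g : Lp ℂ 2 (volume : Measure (E d))) x) = ∫ x, g x * conj (f x) := by
    apply integral_congr_ae
    filter_upwards [hf2.coeFn_toLp, hg2.coeFn_toLp] with x hx hy
    rw [hx, hy, RCLike.inner_apply]
  rw [← e1, ← e2]
  exact h

/-- the indicator function -/
private def gi (Ω : Set (E d)) : E d → ℂ := Ω.indicator fun _ => (1 : ℂ)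

private theorem gi_int {Ω : Set (E d)} (hm : MeasurableSet Ω) (hfin : volume Ω ≠ ∞) :
    Integrable (gi Ω) := by
  unfold gi
  rw [integrable_indicator_iff hm]
  exact integrableOn_const hfin

private theorem gi_L2 {Ω : Set (E d)} (hm : MeasurableSet Ω) (hfin : volume Ω ≠ ∞) :
    MemLp (gi Ω) 2 := memLp_indicator_const 2 hm 1 (Or.inr hfin)

private theorem four_eq (g : E d → ℂ) (x : E d) :
    𝓕 g x = ∫ y, e (-(inner ℝ y x)) * g y := by
  rw [Real.fourier_eq]
  refine integral_congr_ae (Eventually.of_forall fun y => ?_)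
  show (Real.fourierChar (-inner ℝ y x)) • g y = e (-(inner ℝ y x)) * g y
  rw [Circle.smul_def, smul_eq_mul, Real.fourierChar_apply]
  congr 1
  unfold e
  congr 1
  push_cast
  ring

private theorem gi_four {Ω : Set (E d)} (hm : MeasurableSet Ω) (x : E d) :
    ∫ y in Ω, ee x y = 𝓕 (gi Ω) (-x) := by
  rw [four_eq, ← integral_indicator hm]
  refine integral_congr_ae (Eventually.of_forall fun y => ?_)
  by_cases hy : y ∈ Ω
  · simp only [gi, indicator_of_mem hy, mul_one]
    rw [inner_neg_right, neg_neg, real_inner_comm]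
    rfl
  · simp only [gi, indicator_of_notMem hy, mul_zero]

/-- `Γ` is integrable (`gam_int`) and continuous -/
theorem gam_integrable {Ω : Set (E d)} (hm : MeasurableSet Ω) (hfin : volume Ω ≠ ∞) :
    Integrable (fun x : E d => ‖∫ y in Ω, ee x y‖ ^ 2) := by
  have hc : Continuous (fun x : E d => ‖∫ y in Ω, ee x y‖ ^ 2) := by
    simp only [gi_four hm]
    exact ((gpl_cont _ (gi_int hm hfin)).comp continuous_neg).norm.pow 2
  refine ⟨hc.aestronglyMeasurable, ?_⟩
  unfold HasFiniteIntegral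
  have h1 : ∀ x : E d, ‖‖∫ y in Ω, ee x y‖ ^ 2‖ₑ = ‖∫ y in Ω, ee x y‖ₑ ^ 2 := by
    intro x
    rw [enorm_pow, enorm_norm]
  simp only [h1]
  rw [gam_int hm hfin]
  exact lt_top_iff_ne_top.2 hfin

/-- PROOF: Plancherel in the form `Lp.inner_fourier_eq` (see `plaA_ae` in
`Lib/MP_ff3fe0_an_SPH/PlaA.lean`) for `g = 1_Ω` and `h(y) = 1_Ω(y + κ)`:
`𝓕 h (x) = e(⟨κ,x⟩) 𝓕 g (x)`, `|𝓕 g (x)|² = Γ(x)`. -/
theorem gam_four {Ω : Set (E d)} (hm : MeasurableSet Ω) (hfin : volume Ω ≠ ∞) (κ : E d) :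
    ∫ x : E d, ((‖∫ y in Ω, ee x y‖ ^ 2 : ℝ) : ℂ) * e (inner ℝ κ x) =
      ((volume.real (Ω ∩ {x | x + κ ∈ Ω}) : ℝ) : ℂ) := by
  set Ω' : Set (E d) := {x | x + κ ∈ Ω} with hΩ'
  have hm' : MeasurableSet Ω' := measurable_add_const κ hm
  have hfin' : volume Ω' ≠ ∞ := by
    have h1 : volume Ω' = volume Ω := measure_preimage_add_right volume κ Ω
    rw [h1]
    exact hfin
  -- the Fourier transform of the translate
  have hh : ∀ x : E d, 𝓕 (gi Ω') x = e (inner ℝ κ x) * 𝓕 (gi Ω) x := by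
    intro x
    rw [four_eq, four_eq, ← integral_const_mul,
      ← integral_add_right_eq_self (μ := (volume : Measure (E d)))
        (fun y => e (inner ℝ κ x) * (e (-(inner ℝ y x)) * gi Ω y)) κ]
    refine integral_congr_ae (Eventually.of_forall fun y => ?_)
    have h1 : gi Ω (y + κ) = gi Ω' y := by
      unfold gi
      by_cases hy : y ∈ Ω'
      · rw [indicator_of_mem hy, indicator_of_mem (show y + κ ∈ Ω from hy)]
      · rw [indicator_of_notMem hy, indicator_of_notMem (show y + κ ∉ Ω from hy)]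
    show e (-(inner ℝ y x)) * gi Ω' y =
      e (inner ℝ κ x) * (e (-(inner ℝ (y + κ) x)) * gi Ω (y + κ))
    rw [h1, ← mul_assoc, ← e_add, inner_add_left]
    congr 2
    ring
  have hP := gpl_parseval (gi Ω') (gi Ω) (gi_int hm' hfin') (gi_L2 hm' hfin')
    (gi_int hm hfin) (gi_L2 hm hfin)
  have hL : ∫ x : E d, ((‖∫ y in Ω, ee x y‖ ^ 2 : ℝ) : ℂ) * e (inner ℝ κ x) =
      ∫ x, 𝓕 (gi Ω) x * conj (𝓕 (gi Ω') x) := by
    rw [← integral_neg_eq_self (fun x => 𝓕 (gi Ω) x * conj (𝓕 (gi Ω') x))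
      (volume : Measure (E d))]
    refine integral_congr_ae (Eventually.of_forall fun x => ?_)
    show ((‖∫ y in Ω, ee x y‖ ^ 2 : ℝ) : ℂ) * e (inner ℝ κ x) =
      𝓕 (gi Ω) (-x) * conj (𝓕 (gi Ω') (-x))
    rw [hh, gi_four hm, map_mul, e_conj, inner_neg_right, neg_neg, mul_left_comm,
      Complex.mul_conj, Complex.normSq_eq_norm_sq]
    ring
  have hR : ∫ x, gi Ω x * conj (gi Ω' x) = ((volume.real (Ω ∩ Ω') : ℝ) : ℂ) := by
    have h1 : ∀ x, gi Ω x * conj (gi Ω' x) = (Ω ∩ Ω').indicator (fun _ => (1 : ℂ)) x := by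
      intro x
      unfold gi
      by_cases hx : x ∈ Ω
      · by_cases hx' : x ∈ Ω'
        · have h2 : x ∈ Ω ∩ Ω' := ⟨hx, hx'⟩
          rw [indicator_of_mem hx, indicator_of_mem hx', indicator_of_mem h2, map_one, mul_one]
        · have h2 : x ∉ Ω ∩ Ω' := fun h => hx' h.2
          rw [indicator_of_notMem hx', indicator_of_notMem h2, map_zero, mul_zero]
      · have h2 : x ∉ Ω ∩ Ω' := fun h => hx h.1
        rw [indicator_of_notMem hx, indicator_of_notMem h2, zero_mul]
    simp only [h1]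
    rw [integral_indicator (hm.inter hm'), setIntegral_const]
    simp
  rw [hL, hP, hR]

end Pool.Agent.ST53
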