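import Pool.Agent.Lib.MP_53fa4a_an_NL.Pars
import Pool.Agent.Lib.MP_53fa4a_an_ST.DLoc
import Pool.Agent.Lib.MP_53fa4a_an_ST.GPl

/-!
# The convolution of `F_φ` with `Γ`
-/

set_option autoImplicit false

open MeasureTheory Set Filter
open scoped ENNReal Topology ComplexConjugate BigOperators SchwartzMap FourierTransform

noncomputable section

namespace Pool.Agent.ST53

open Pool.Agent.SpecND (E ee)
open Pool.Agent.NL53 (zv rv fib IsSpectrum)

variable {d : ℕ}

/-- `Γ` -/
private def gam (Ω : Set (E d)) (u : E d) : ℝ := ‖∫ y in Ω, ee u y‖ ^ 2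

private lemma gam_nonneg (Ω : Set (E d)) (u : E d) : 0 ≤ gam Ω u := by
  unfold gam
  positivity

private lemma gam_neg (Ω : Set (E d)) (u : E d) : gam Ω (-u) = gam Ω u := by
  have h : ∀ y, ee (-u) y = conj (ee u y) := by
    intro y
    rw [← Pool.Agent.SpecND.ee_neg]
    unfold ee
    rw [inner_neg_left, inner_neg_right]
  unfold gam
  simp_rw [h]
  rw [integral_conj, RCLike.norm_conj]

private lemma gam_hasSum {Ω : Set (E d)} (hm : MeasurableSet Ω) (hfin : volume Ω ≠ ∞)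
    {Λ : Set (E d)} (hs : IsSpectrum Λ Ω) (x w : E d) :
    HasSum (fun l : Λ => gam Ω ((l : E d) - x - w)) (volume.real Ω ^ 2) := by
  have h := Pool.Agent.NL53.parseval_full hm hfin hs (x + w)
  have h2 : ∀ l : Λ, gam Ω ((l : E d) - x - w) = ‖∫ y in Ω, ee (x + w - (l : E d)) y‖ ^ 2 := by
    intro l
    have h3 : (l : E d) - x - w = -(x + w - (l : E d)) := by abel
    rw [h3, gam_neg]
    rfl
  simp_rw [h2]
  exact h

/-- PROOF: `∫ F(x+u) Γ(u) du = ∑_λ ∫ φ(λ-x-u) Γ(u) du = ∑_λ ∫ φ(w) Γ(λ-x-w) dw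
= ∫ φ(w) ∑_λ Γ(λ-x-w) dw = |Ω|² ∫ φ` (`parseval_full`; `Γ` is even); the interchanges are
legitimate because the same computation with `|φ|` gives `|Ω|² ∫ |φ| < ∞`
(`integral_tsum` over the countable set `Λ`). -/
theorem FF_gam {Ω : Set (E d)} (hm : MeasurableSet Ω) (hfin : volume Ω ≠ ∞) {Λ : Set (E d)}
    (hs : IsSpectrum Λ Ω) (hΛ : Λ.Countable) (φ : 𝓢(E d, ℂ)) (x : E d) :
    ∫ u : E d, FF (idc Λ) φ (x + u) * ((‖∫ y in Ω, ee u y‖ ^ 2 : ℝ) : ℂ) =
      ((volume.real Ω ^ 2 : ℝ) : ℂ) * ∫ w, φ w := by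
  have : Countable Λ := hΛ.to_subtype
  have hgi : Integrable (gam Ω) := gam_integrable hm hfin
  -- the functions after and before the substitution
  obtain ⟨F₂, hF₂⟩ : ∃ F₂ : Λ → E d → ℂ,
      F₂ = fun (l : Λ) (w : E d) => φ w * ((gam Ω ((l : E d) - x - w) : ℝ) : ℂ) := ⟨_, rfl⟩
  have hgm : ∀ l : Λ, AEStronglyMeasurable (fun w => gam Ω ((l : E d) - x - w)) volume :=
    fun l => (hgi.comp_sub_left ((l : E d) - x)).aestronglyMeasurable
  have hgm' : ∀ l : Λ,
      AEStronglyMeasurable (fun w => ((gam Ω ((l : E d) - x - w) : ℝ) : ℂ)) volume :=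
    fun l => Complex.continuous_ofReal.comp_aestronglyMeasurable (hgm l)
  have hFm : ∀ l, AEStronglyMeasurable (F₂ l) volume := by
    intro l
    rw [hF₂]
    exact φ.continuous.aestronglyMeasurable.mul (hgm' l)
  have hφ : Integrable (fun w => φ w) volume := φ.integrable
  have hsum : ∀ w, ∑' l, ‖F₂ l w‖ₑ = ‖φ w‖ₑ * ENNReal.ofReal (volume.real Ω ^ 2) := by
    intro w
    have h1 := gam_hasSum hm hfin hs x w
    rw [← h1.tsum_eq, ENNReal.ofReal_tsum_of_nonneg (fun l => gam_nonneg _ _) h1.summable,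
      ← ENNReal.tsum_mul_left]
    refine tsum_congr fun l => ?_
    rw [hF₂]
    dsimp only
    rw [enorm_mul]
    congr 1
    rw [← ofReal_norm, Complex.norm_real, Real.norm_of_nonneg (gam_nonneg _ _)]
  have htot : ∑' l, ∫⁻ w, ‖F₂ l w‖ₑ ≠ ∞ := by
    rw [← lintegral_tsum fun l => (hFm l).enorm]
    simp_rw [hsum]
    rw [lintegral_mul_const' _ _ ENNReal.ofReal_ne_top]
    exact ENNReal.mul_ne_top hφ.2.ne ENNReal.ofReal_ne_top
  have hFi : ∀ l, Integrable (F₂ l) volume := by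
    intro l
    refine ⟨hFm l, ?_⟩
    exact lt_top_iff_ne_top.2 (ENNReal.ne_top_of_tsum_ne_top htot l)
  have hFs : Summable fun l => ∫ w, ‖F₂ l w‖ := by
    have h1 := ENNReal.summable_toReal htot
    refine h1.congr fun l => ?_
    rw [integral_norm_eq_lintegral_enorm (hFm l)]
  have hsum2 := hasSum_integral_of_summable_integral_norm hFi hFs
  -- the substitution
  have hsum1 := hasSum_integral_of_summable_integral_norm
    (F := fun (l : Λ) (u : E d) => F₂ l ((l : E d) - x - u)) (μ := volume)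
    (fun l => (hFi l).comp_sub_left _) (by
      refine hFs.congr fun l => ?_
      exact (integral_sub_left_eq_self (fun w => ‖F₂ l w‖) volume ((l : E d) - x)).symm)
  have hI : ∀ l : Λ, ∫ u, F₂ l ((l : E d) - x - u) = ∫ w, F₂ l w :=
    fun l => integral_sub_left_eq_self (F₂ l) volume ((l : E d) - x)
  simp_rw [hI] at hsum1
  have heq := hsum1.unique hsum2
  -- the left side
  have hL : ∀ u : E d, FF (idc Λ) φ (x + u) * ((‖∫ y in Ω, ee u y‖ ^ 2 : ℝ) : ℂ) =
      ∑' l : Λ, F₂ l ((l : E d) - x - u) := by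
    intro u
    have h1 : FF (idc Λ) φ (x + u) = ∑' l : Λ, φ ((l : E d) - (x + u)) := by
      unfold FF idc
      rw [tsum_subtype Λ (fun y => φ (y - (x + u)))]
      refine tsum_congr fun y => ?_
      by_cases hy : y ∈ Λ
      · rw [Set.indicator_of_mem hy, Set.indicator_of_mem hy, one_mul]
      · rw [Set.indicator_of_notMem hy, Set.indicator_of_notMem hy, zero_mul]
    rw [h1, ← tsum_mul_right]
    refine tsum_congr fun l => ?_
    rw [hF₂]
    dsimp only
    have h2 : (l : E d) - x - ((l : E d) - x - u) = u := by abel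
    rw [h2, sub_add_eq_sub_sub]
    rfl
  have hR : ∀ w : E d, ∑' l : Λ, F₂ l w = φ w * ((volume.real Ω ^ 2 : ℝ) : ℂ) := by
    intro w
    rw [hF₂]
    dsimp only
    rw [tsum_mul_left, ← Complex.ofReal_tsum, (gam_hasSum hm hfin hs x w).tsum_eq]
  simp_rw [hL, heq, hR]
  rw [integral_mul_const, mul_comm]

end Pool.Agent.ST53
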