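import Pool.Agent.Lib.MP_53fa4a_an_ST.GSum

/-!
# The functions `F_φ` are bounded and continuous
-/

set_option autoImplicit false

open MeasureTheory Set Filter
open scoped ENNReal Topology ComplexConjugate BigOperators SchwartzMap ContDiff FourierTransform

noncomputable section

namespace Pool.Agent.ST53

variable {X : Type*} [NormedAddCommGroup X] [InnerProductSpace ℝ X] [FiniteDimensional ℝ X]
  [MeasurableSpace X] [BorelSpace X]

omit [FiniteDimensional ℝ X] [MeasurableSpace X] [BorelSpace X] in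
private lemma gbc_coset_finite {n : ℕ} (b : Module.Basis (Fin n) ℝ X) (L : AddSubgroup X)
    (hL : ∀ l ∈ L, ∀ i, ∃ m : ℤ, inner ℝ (b i) l = (m : ℝ)) (a x₀ : X) (R : ℝ) :
    {y : X | y - a ∈ L ∧ ‖y - x₀‖ ≤ R}.Finite := by
  let κ : X → (Fin n → ℤ) := fun y i => ⌊(inner ℝ (b i) (y - a) : ℝ)⌋
  let N : Fin n → ℤ := fun i => ⌈‖b i‖ * (R + ‖x₀ - a‖)⌉
  have hfin : (Set.univ.pi fun i => Set.Icc (-N i) (N i) : Set (Fin n → ℤ)).Finite :=
    Set.Finite.pi fun i => Set.finite_Icc _ _
  refine Set.Finite.of_injOn (f := κ) ?_ ?_ hfin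
  · rintro y ⟨hy, hyR⟩ i _
    obtain ⟨m, hm⟩ := hL _ hy i
    have h1 : κ y i = m := by
      simp only [κ]
      rw [hm, Int.floor_intCast]
    have h2 : |(m : ℝ)| ≤ ‖b i‖ * (R + ‖x₀ - a‖) := by
      rw [← hm]
      refine le_trans (abs_real_inner_le_norm _ _) ?_
      refine mul_le_mul_of_nonneg_left ?_ (norm_nonneg _)
      have h3 : y - a = (y - x₀) + (x₀ - a) := by abel
      rw [h3]
      exact le_trans (norm_add_le _ _) (by linarith)
    have h4 : |(m : ℝ)| ≤ (N i : ℝ) := le_trans h2 (Int.le_ceil _)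
    have h5 := abs_le.1 h4
    rw [h1]
    refine ⟨?_, ?_⟩
    · have h6 : ((-N i : ℤ) : ℝ) ≤ (m : ℝ) := by push_cast; exact h5.1
      exact_mod_cast h6
    · exact_mod_cast h5.2
  · rintro y ⟨hy, _⟩ y' ⟨hy', _⟩ hyy
    have h1 : y - a = y' - a := by
      refine InnerProductSpace.ext_inner_left_basis b fun i => ?_
      obtain ⟨m, hm⟩ := hL _ hy i
      obtain ⟨m', hm'⟩ := hL _ hy' i
      have h2 := congrFun hyy i
      simp only [κ] at h2
      rw [hm, hm', Int.floor_intCast, Int.floor_intCast] at h2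
      rw [hm, hm', h2]
    exact sub_left_injective h1

omit [FiniteDimensional ℝ X] [MeasurableSpace X] [BorelSpace X] in
private lemma gbc_ball_finite {n : ℕ} (b : Module.Basis (Fin n) ℝ X) (L : AddSubgroup X)
    (hL : ∀ l ∈ L, ∀ i, ∃ m : ℤ, inner ℝ (b i) l = (m : ℝ)) (F : Finset X) (x₀ : X) (R : ℝ) :
    (DD L F ∩ {y | ‖y - x₀‖ ≤ R}).Finite := by
  have h1 : (⋃ a ∈ F, {y : X | y - a ∈ L ∧ ‖y - x₀‖ ≤ R}).Finite :=
    Set.Finite.biUnion F.finite_toSet fun a _ => gbc_coset_finite b L hL a x₀ R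
  refine h1.subset ?_
  rintro y ⟨⟨l, hl, a, ha, rfl⟩, hy⟩
  rw [Set.mem_iUnion₂]
  refine ⟨a, ha, ?_, hy⟩
  rwa [add_sub_cancel_right]

omit [InnerProductSpace ℝ X] [FiniteDimensional ℝ X] [MeasurableSpace X] [BorelSpace X] in
private lemma gbc_norm_le {L : AddSubgroup X} {F : Finset X} {A : Finset ℂ} {f : X → ℂ}
    (hf : Sig L F A f) (x : X) : ‖f x‖ ≤ ∑ a ∈ A, ‖a‖ := by
  rcases hf.val x with h | h
  · rw [h, norm_zero]
    exact Finset.sum_nonneg fun a _ => norm_nonneg a
  · exact Finset.single_le_sum (f := fun a : ℂ => ‖a‖) (fun a _ => norm_nonneg a) h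

/-- PROOF: bounded by `DD_bound` (the values of `f` are in a finite set); continuous because the sum
converges locally uniformly (`DD_tail`; `D` is locally finite), or by
`continuous_tsum`-like arguments with a dominating function for `x` in a ball of radius `1`. -/
theorem gFF_bc {n : ℕ} (b : Module.Basis (Fin n) ℝ X) (L : AddSubgroup X)
    (hL : ∀ l ∈ L, ∀ i, ∃ m : ℤ, inner ℝ (b i) l = (m : ℝ)) (F : Finset X) {A : Finset ℂ}
    {f : X → ℂ} (hf : Sig L F A f) (φ : 𝓢(X, ℂ)) : BC (FF f φ) := by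
  classical
  obtain ⟨C, hC⟩ := DD_bound b L hL F φ
  set M : ℝ := ∑ a ∈ A, ‖a‖ with hM
  have hM0 : 0 ≤ M := Finset.sum_nonneg fun a _ => norm_nonneg a
  -- the terms are dominated
  have hdom : ∀ x y : X, ‖f y * φ (y - x)‖ ≤
      M * (DD L F).indicator (fun y => ‖φ (y - x)‖) y := by
    intro x y
    by_cases hy : f y = 0
    · rw [hy, zero_mul, norm_zero]
      exact mul_nonneg hM0 (Set.indicator_nonneg (fun y _ => norm_nonneg _) y)
    · rw [Set.indicator_of_mem (hf.supp y hy), norm_mul]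
      exact mul_le_mul_of_nonneg_right (gbc_norm_le hf y) (norm_nonneg _)
  have hsn : ∀ x : X, Summable fun y => ‖f y * φ (y - x)‖ := fun x =>
    Summable.of_nonneg_of_le (fun y => norm_nonneg _) (hdom x) ((hC x).1.mul_left M)
  have hs : ∀ x : X, Summable fun y => f y * φ (y - x) := fun x => (hsn x).of_norm
  refine ⟨?_, M * C, fun x => ?_⟩
  · rw [Metric.continuous_iff]
    intro x₀ ε hε
    have hη : 0 < ε / (4 * (M + 1)) := by positivity
    obtain ⟨R, hR⟩ := DD_tail b L hL F φ hη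
    have hfin := gbc_ball_finite b L hL F x₀ (R + 1)
    set S : Finset X := hfin.toFinset with hS
    -- the tail
    have htail : ∀ x : X, ‖x - x₀‖ ≤ 1 →
        ‖FF f φ x - ∑ y ∈ S, f y * φ (y - x)‖ ≤ M * (ε / (4 * (M + 1))) := by
      intro x hx
      have h1 : FF f φ x = ∑ y ∈ S, f y * φ (y - x) +
          ∑' y : ↑((S : Set X)ᶜ), f y * φ ((y : X) - x) := ((hs x).sum_add_tsum_compl).symm
      rw [h1, add_sub_cancel_left]
      have h2 : ∑' y : ↑((S : Set X)ᶜ), f y * φ ((y : X) - x) =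
          ∑' y : X, ((S : Set X)ᶜ).indicator (fun y => f y * φ (y - x)) y :=
        tsum_subtype ((S : Set X)ᶜ) (fun y => f y * φ (y - x))
      rw [h2]
      have h3 : ∀ y : X, ‖((S : Set X)ᶜ).indicator (fun y => f y * φ (y - x)) y‖ ≤
          M * (DD L F ∩ {y | R < ‖y - x‖}).indicator (fun y => ‖φ (y - x)‖) y := by
        intro y
        have hnn : 0 ≤ M * (DD L F ∩ {y | R < ‖y - x‖}).indicator (fun y => ‖φ (y - x)‖) y :=
          mul_nonneg hM0 (Set.indicator_nonneg (fun y _ => norm_nonneg _) y)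
        by_cases hy : y ∈ (S : Set X)
        · have hyc : y ∉ (S : Set X)ᶜ := fun h => h hy
          rw [Set.indicator_of_notMem hyc, norm_zero]
          exact hnn
        · rw [Set.indicator_of_mem (show y ∈ (S : Set X)ᶜ from hy)]
          by_cases hf0 : f y = 0
          · rw [hf0, zero_mul, norm_zero]
            exact hnn
          · have hyD := hf.supp y hf0
            have hyR : R < ‖y - x‖ := by
              by_contra hcon
              rw [not_lt] at hcon
              apply hy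
              rw [hS, Set.Finite.coe_toFinset]
              refine ⟨hyD, ?_⟩
              have h4 : y - x₀ = (y - x) + (x - x₀) := by abel
              show ‖y - x₀‖ ≤ R + 1
              rw [h4]
              exact le_trans (norm_add_le _ _) (by linarith)
            rw [Set.indicator_of_mem (show y ∈ DD L F ∩ {y | R < ‖y - x‖} from ⟨hyD, hyR⟩),
              norm_mul]
            exact mul_le_mul_of_nonneg_right (gbc_norm_le hf y) (norm_nonneg _)
      have h5 : Summable fun y => (DD L F ∩ {y | R < ‖y - x‖}).indicator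
          (fun y => ‖φ (y - x)‖) y := by
        refine Summable.of_nonneg_of_le
          (fun y => Set.indicator_nonneg (fun y _ => norm_nonneg _) y) (fun y => ?_) (hC x).1
        exact Set.indicator_le_indicator_of_subset Set.inter_subset_left
          (fun y => norm_nonneg _) y
      have h6 : Summable fun y : X =>
          ‖((S : Set X)ᶜ).indicator (fun y => f y * φ (y - x)) y‖ :=
        Summable.of_nonneg_of_le (fun y => norm_nonneg _) h3 (h5.mul_left M)
      calc ‖∑' y : X, ((S : Set X)ᶜ).indicator (fun y => f y * φ (y - x)) y‖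
          ≤ ∑' y : X, ‖((S : Set X)ᶜ).indicator (fun y => f y * φ (y - x)) y‖ :=
            norm_tsum_le_tsum_norm h6
        _ ≤ ∑' y : X, M * (DD L F ∩ {y | R < ‖y - x‖}).indicator (fun y => ‖φ (y - x)‖) y :=
            h6.tsum_le_tsum h3 (h5.mul_left M)
        _ = M * ∑' y : X, (DD L F ∩ {y | R < ‖y - x‖}).indicator (fun y => ‖φ (y - x)‖) y :=
            tsum_mul_left
        _ ≤ _ := mul_le_mul_of_nonneg_left (hR x) hM0
    -- the main part
    have hcont : Continuous fun x : X => ∑ y ∈ S, f y * φ (y - x) :=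
      continuous_finsetSum _ fun y _ => continuous_const.mul
        (φ.continuous.comp (continuous_const.sub continuous_id))
    obtain ⟨δ, hδ, hδ2⟩ := (Metric.continuous_iff.1 hcont) x₀ (ε / 2) (by positivity)
    refine ⟨min δ 1, lt_min hδ one_pos, fun x hx => ?_⟩
    have hx1 : ‖x - x₀‖ ≤ 1 := by
      rw [← dist_eq_norm]
      exact (lt_of_lt_of_le hx (min_le_right _ _)).le
    have h7 := htail x hx1
    have h8 := htail x₀ (by rw [sub_self, norm_zero]; exact zero_le_one)
    have h9 := hδ2 x (lt_of_lt_of_le hx (min_le_left _ _))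
    rw [dist_eq_norm] at h9 ⊢
    have h10 : M * (ε / (4 * (M + 1))) ≤ ε / 4 := by
      rw [mul_div_assoc', div_le_div_iff₀ (by positivity) (by norm_num)]
      nlinarith
    have h11 : FF f φ x - FF f φ x₀ = (FF f φ x - ∑ y ∈ S, f y * φ (y - x)) -
        (FF f φ x₀ - ∑ y ∈ S, f y * φ (y - x₀)) +
        (∑ y ∈ S, f y * φ (y - x) - ∑ y ∈ S, f y * φ (y - x₀)) := by ring
    rw [h11]
    have h12 := norm_add_le ((FF f φ x - ∑ y ∈ S, f y * φ (y - x)) -
        (FF f φ x₀ - ∑ y ∈ S, f y * φ (y - x₀)))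
        (∑ y ∈ S, f y * φ (y - x) - ∑ y ∈ S, f y * φ (y - x₀))
    have h13 := norm_sub_le (FF f φ x - ∑ y ∈ S, f y * φ (y - x))
        (FF f φ x₀ - ∑ y ∈ S, f y * φ (y - x₀))
    linarith
  · calc ‖FF f φ x‖ ≤ ∑' y, ‖f y * φ (y - x)‖ := norm_tsum_le_tsum_norm (hsn x)
      _ ≤ ∑' y, M * (DD L F).indicator (fun y => ‖φ (y - x)‖) y :=
          (hsn x).tsum_le_tsum (hdom x) ((hC x).1.mul_left M)
      _ = M * ∑' y, (DD L F).indicator (fun y => ‖φ (y - x)‖) y := tsum_mul_left
      _ ≤ M * C := mul_le_mul_of_nonneg_left (hC x).2 hM0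

end Pool.Agent.ST53
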