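import Pool.Agent.Lib.MP_53fa4a_an_ST.GKer
import Pool.Agent.Lib.MP_53fa4a_an_ST.GBC

/-!
# The functions `F_φ` and the reproducing kernel
-/

set_option autoImplicit false

open MeasureTheory Set Filter
open scoped ENNReal Topology ComplexConjugate BigOperators SchwartzMap ContDiff FourierTransform

noncomputable section

namespace Pool.Agent.ST53

variable {X : Type*} [NormedAddCommGroup X] [InnerProductSpace ℝ X] [FiniteDimensional ℝ X]
  [MeasurableSpace X] [BorelSpace X]

omit [FiniteDimensional ℝ X] [MeasurableSpace X] [BorelSpace X] in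
private theorem countable_DD {n : ℕ} (b : Module.Basis (Fin n) ℝ X) (L : AddSubgroup X)
    (hL : ∀ l ∈ L, ∀ i, ∃ m : ℤ, inner ℝ (b i) l = (m : ℝ)) (F : Finset X) :
    (DD L F).Countable := by
  have h1 : ∀ l : L, ∀ i, ∃ m : ℤ, inner ℝ (b i) (l : X) = (m : ℝ) := fun l i => hL l l.2 i
  choose m hm using h1
  have hinj : Function.Injective m := by
    intro l l' hll
    apply Subtype.ext
    refine ext_inner_left ℝ fun v => ?_
    rw [← b.sum_repr v, sum_inner, sum_inner]
    refine Finset.sum_congr rfl fun i _ => ?_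
    rw [inner_smul_left, inner_smul_left, hm, hm, hll]
  have := hinj.countable
  have e : DD L F ⊆ Set.range (fun p : L × F => (p.1 : X) + p.2) := by
    rintro x ⟨l, hl, a, ha, rfl⟩
    exact ⟨(⟨l, hl⟩, ⟨a, ha⟩), rfl⟩
  exact (Set.countable_range _).mono e

omit [InnerProductSpace ℝ X] [FiniteDimensional ℝ X] [MeasurableSpace X] [BorelSpace X] in
private theorem norm_bound {L : AddSubgroup X} {F : Finset X} {A : Finset ℂ} {f : X → ℂ}
    (hf : Sig L F A f) : ∃ M : ℝ, 0 ≤ M ∧ ∀ y, ‖f y‖ ≤ M := by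
  refine ⟨∑ a ∈ A, ‖a‖, Finset.sum_nonneg fun a _ => norm_nonneg a, fun y => ?_⟩
  rcases hf.val y with h | h
  · rw [h, norm_zero]
    exact Finset.sum_nonneg fun a _ => norm_nonneg a
  · exact Finset.single_le_sum (f := fun a : ℂ => ‖a‖) (fun a _ => norm_nonneg a) h

omit [InnerProductSpace ℝ X] [FiniteDimensional ℝ X] [MeasurableSpace X] [BorelSpace X] in
private theorem FF_sub {L : AddSubgroup X} {F : Finset X} {A : Finset ℂ} {f : X → ℂ}
    (hf : Sig L F A f) (φ : X → ℂ) (x : X) :
    FF f φ x = ∑' y : DD L F, f y * φ ((y : X) - x) := by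
  unfold FF
  refine (tsum_subtype_eq_of_support_subset (f := fun y => f y * φ (y - x)) ?_).symm
  intro y hy
  refine hf.supp y fun h0 => hy ?_
  simp [h0]

private theorem int_term (φ χ : 𝓢(X, ℂ)) (c : ℂ) (y x : X) :
    Integrable (fun v => c * φ (y - (x + v)) * χ v) := by
  refine (χ.integrable (μ := volume)).bdd_mul (c := ‖c‖ * SchwartzMap.seminorm ℝ 0 0 φ) ?_ ?_
  · have : Continuous fun v : X => c * φ (y - (x + v)) := by
      have := φ.continuous
      fun_prop
    exact this.aestronglyMeasurable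
  · refine Filter.Eventually.of_forall fun v => ?_
    rw [norm_mul]
    exact mul_le_mul_of_nonneg_left (SchwartzMap.norm_le_seminorm ℝ φ _) (norm_nonneg c)

/-- PROOF: `∫ F(x+v) χ(v) dv = ∑_y f(y) ∫ φ(y-x-v) χ(v) dv` (`DD_bound`: the sum of the absolute
values is bounded uniformly in `v`, `χ` is integrable; `D` is countable) `= ∑_y f(y) φ(y-x)`. -/
theorem FF_ker {n : ℕ} (b : Module.Basis (Fin n) ℝ X) (L : AddSubgroup X)
    (hL : ∀ l ∈ L, ∀ i, ∃ m : ℤ, inner ℝ (b i) l = (m : ℝ)) (F : Finset X) {A : Finset ℂ}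
    {f : X → ℂ} (hf : Sig L F A f) (φ χ : 𝓢(X, ℂ)) (h : ∀ x, ∫ v, φ (x - v) * χ v = φ x) (x : X) :
    ∫ v, FF f φ (x + v) * χ v = FF f φ x := by
  classical
  have hc := countable_DD b L hL F
  have := hc.to_subtype
  obtain ⟨M, hM, hfM⟩ := norm_bound hf
  obtain ⟨C, hC⟩ := DD_bound b L hL F φ
  have key : Summable fun y : DD L F => ∫ v, ‖f y * φ ((y : X) - (x + v)) * χ v‖ := by
    refine summable_of_sum_le (c := ∫ v, M * C * ‖χ v‖)
      (fun y => integral_nonneg fun v => norm_nonneg _) fun s => ?_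
    rw [← integral_finsetSum s fun y _ => (int_term φ χ (f y) y x).norm]
    refine integral_mono (integrable_finsetSum s fun y _ => (int_term φ χ (f y) y x).norm)
      ((χ.integrable (μ := volume)).norm.const_mul _) fun v => ?_
    obtain ⟨h1, h2⟩ := hC (x + v)
    have h3 : ∑ y ∈ s, ‖φ ((y : X) - (x + v))‖ ≤ C := by
      refine le_trans ?_ h2
      have h4 : Summable fun y : DD L F => ‖φ ((y : X) - (x + v))‖ := by
        have := h1.subtype (DD L F)
        refine this.congr fun y => ?_
        simp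
      refine (h4.sum_le_tsum s fun y _ => norm_nonneg _).trans (le_of_eq ?_)
      exact tsum_subtype (DD L F) fun y => ‖φ (y - (x + v))‖
    calc ∑ y ∈ s, ‖f y * φ ((y : X) - (x + v)) * χ v‖
        ≤ ∑ y ∈ s, M * ‖φ ((y : X) - (x + v))‖ * ‖χ v‖ := by
          refine Finset.sum_le_sum fun y _ => ?_
          rw [norm_mul, norm_mul]
          exact mul_le_mul_of_nonneg_right
            (mul_le_mul_of_nonneg_right (hfM y) (norm_nonneg _)) (norm_nonneg _)
      _ = M * (∑ y ∈ s, ‖φ ((y : X) - (x + v))‖) * ‖χ v‖ := by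
          rw [Finset.mul_sum, Finset.sum_mul]
      _ ≤ M * C * ‖χ v‖ :=
          mul_le_mul_of_nonneg_right (mul_le_mul_of_nonneg_left h3 hM) (norm_nonneg _)
  have e1 : (fun v => FF f φ (x + v) * χ v) =
      fun v => ∑' y : DD L F, f y * φ ((y : X) - (x + v)) * χ v := by
    funext v
    rw [FF_sub hf, ← tsum_mul_right]
  rw [e1, ← integral_tsum_of_summable_integral_norm
    (fun y : DD L F => int_term φ χ (f y) y x) key, FF_sub hf]
  refine tsum_congr fun y => ?_
  have e2 : (fun v => f y * φ ((y : X) - (x + v)) * χ v) =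
      fun v => f y * (φ ((y : X) - x - v) * χ v) := by
    funext v
    rw [sub_add_eq_sub_sub, mul_assoc]
  rw [e2, integral_const_mul, h]

end Pool.Agent.ST53
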