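import Pool.Agent.Lib.MP_53fa4a_an_ST.GZero
import Pool.Agent.Lib.MP_53fa4a_an_ST.GRep
import Pool.Agent.Lib.MP_53fa4a_an_ST.GConv

/-!
# Part D1: the gap of the spectrum
-/

set_option autoImplicit false

open MeasureTheory Set Filter
open scoped ENNReal Topology ComplexConjugate BigOperators SchwartzMap FourierTransform

noncomputable section

namespace Pool.Agent.ST53

open Pool.Agent.SpecND (E ee)
open Pool.Agent.NL53 (zv rv fib IsSpectrum)

variable {d : ℕ}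

/-- the lattice `ℤ^d` -/
def ZL (d : ℕ) : AddSubgroup (E d) where
  carrier := {x | ∃ n : Fin d → ℤ, x = zv n}
  zero_mem' := ⟨0, by ext i; simp [zv, rv]⟩
  add_mem' := by
    rintro _ _ ⟨n, rfl⟩ ⟨n', rfl⟩
    exact ⟨n + n', by ext i; simp [zv, rv]⟩
  neg_mem' := by
    rintro _ ⟨n, rfl⟩
    exact ⟨-n, by ext i; simp [zv, rv]⟩

theorem ZL_basis : ∀ l ∈ ZL d, ∀ i, ∃ m : ℤ,
    inner ℝ ((EuclideanSpace.basisFun (Fin d) ℝ).toBasis i) l = (m : ℝ) := by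
  rintro l ⟨n, rfl⟩ i
  refine ⟨n i, ?_⟩
  rw [OrthonormalBasis.coe_toBasis, EuclideanSpace.basisFun_apply,
    EuclideanSpace.inner_single_left]
  simp [zv, rv]

theorem sig_idc {Λ : Set (E d)} (F : Finset (E d))
    (hΛ : ∀ l ∈ Λ, ∃ n : Fin d → ℤ, ∃ e ∈ F, l = zv n + e) : Sig (ZL d) F {1} (idc Λ) := by
  refine ⟨fun x hx => ?_, fun x => ?_⟩
  · have h1 : x ∈ Λ := by
      by_contra h
      exact hx (Set.indicator_of_notMem h _)
    obtain ⟨n, a, ha, rfl⟩ := hΛ x h1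
    exact ⟨zv n, ⟨n, rfl⟩, a, ha, rfl⟩
  · by_cases h : x ∈ Λ
    · right
      simp [idc, h]
    · left
      simp [idc, h]

theorem sig_dif {Λ : Set (E d)} (F : Finset (E d))
    (hΛ : ∀ l ∈ Λ, ∃ n : Fin d → ℤ, ∃ e ∈ F, l = zv n + e) {v : E d} (hv : v ∈ ZL d) :
    Sig (ZL d) F {1, -1} (dif v (idc Λ)) := by
  have h0 := sig_idc F hΛ
  refine ⟨fun x hx => ?_, fun x => ?_⟩
  · by_cases h1 : idc Λ x = 0
    · have h2 : idc Λ (x + v) ≠ 0 := by
        intro h2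
        apply hx
        simp [dif, h1, h2]
      obtain ⟨l, hl, a, ha, hx'⟩ := h0.supp _ h2
      refine ⟨l - v, (ZL d).sub_mem hl hv, a, ha, ?_⟩
      rw [← add_sub_cancel_right x v, hx']
      abel
    · exact h0.supp _ h1
  · have h1 : ∀ y, idc Λ y = 0 ∨ idc Λ y = 1 := by
      intro y
      rcases h0.val y with h | h
      · exact Or.inl h
      · exact Or.inr (Finset.mem_singleton.1 h)
    unfold dif
    rcases h1 x with h | h <;> rcases h1 (x + v) with h' | h' <;> rw [h, h'] <;> simp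

private theorem gm_summable {A : Finset ℂ} {f : E d → ℂ} {F : Finset (E d)}
    (hf : Sig (ZL d) F A f) (φ : 𝓢(E d, ℂ)) (x : E d) : Summable fun y => f y * φ (y - x) := by
  obtain ⟨C, hC⟩ := DD_bound (EuclideanSpace.basisFun (Fin d) ℝ).toBasis (ZL d) ZL_basis F φ
  obtain ⟨M, hM⟩ : ∃ M : ℝ, ∀ y, ‖f y‖ ≤ M := by
    refine ⟨∑ a ∈ A, ‖a‖, fun y => ?_⟩
    rcases hf.val y with h | h
    · rw [h, norm_zero]
      exact Finset.sum_nonneg fun a _ => norm_nonneg a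
    · exact Finset.single_le_sum (f := fun a : ℂ => ‖a‖) (fun a _ => norm_nonneg a) h
  refine Summable.of_norm_bounded (g := fun y => M * (DD (ZL d) F).indicator
    (fun y => ‖φ (y - x)‖) y) ((hC x).1.mul_left M) fun y => ?_
  rw [norm_mul]
  by_cases hy : y ∈ DD (ZL d) F
  · rw [Set.indicator_of_mem hy]
    exact mul_le_mul_of_nonneg_right (hM y) (norm_nonneg _)
  · have : f y = 0 := by
      by_contra h
      exact hy (hf.supp y h)
    rw [this, Set.indicator_of_notMem hy]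
    simp

theorem gFF_dif {A : Finset ℂ} {f : E d → ℂ} {F : Finset (E d)}
    (hf : Sig (ZL d) F A f) (φ : 𝓢(E d, ℂ)) (v x : E d) :
    FF (dif v f) φ x = FF f φ x - FF f φ (x + v) := by
  have h1 := gm_summable hf φ x
  have h2 := gm_summable hf φ (x + v)
  have h3 : Summable fun y => f (y + v) * φ (y - x) := by
    have h4 := (Equiv.addRight v).summable_iff.2 h2
    refine h4.congr fun y => ?_
    simp only [Function.comp_apply, Equiv.coe_addRight]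
    rw [add_sub_add_right_eq_sub]
  have h5 : ∑' y, f (y + v) * φ (y - x) = FF f φ (x + v) := by
    unfold FF
    rw [← (Equiv.addRight v).tsum_eq fun y => f y * φ (y - (x + v))]
    refine tsum_congr fun y => ?_
    simp only [Equiv.coe_addRight]
    rw [add_sub_add_right_eq_sub]
  rw [← h5]
  unfold FF dif
  rw [← h1.tsum_sub h3]
  refine tsum_congr fun y => ?_
  ring

private theorem gm_countable {Λ : Set (E d)} (F : Finset (E d))
    (hΛ : ∀ l ∈ Λ, ∃ n : Fin d → ℤ, ∃ e ∈ F, l = zv n + e) : Λ.Countable := by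
  have h1 : (⋃ a ∈ F, Set.range fun n : Fin d → ℤ => zv n + a).Countable :=
    F.countable_toSet.biUnion fun a _ => Set.countable_range _
  refine h1.mono fun l hl => ?_
  obtain ⟨n, a, ha, rfl⟩ := hΛ l hl
  exact Set.mem_biUnion ha ⟨n, rfl⟩

/-- **D1, `κ ≠ 0`.** -/
theorem gap_spec {Ω : Set (E d)} (hm : MeasurableSet Ω) (hfin : volume Ω ≠ ∞) {Λ : Set (E d)}
    (hs : IsSpectrum Λ Ω) (F : Finset (E d)) (hΛ : ∀ l ∈ Λ, ∃ n : Fin d → ℤ, ∃ e ∈ F, l = zv n + e)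
    {κ : E d} (hκ : κ ≠ 0) (hA : volume (Ω ∩ {x | x + κ ∈ Ω}) ≠ 0) :
    ∃ ρ > 0, GapAt κ ρ (idc Λ) := by
  obtain ⟨τ, hτc, hτ0, hτp, hτC, hker⟩ := exists_ker (X := E d)
  have hΓ := gam_integrable hm hfin
  have ha := gam_four hm hfin κ
  have ha0 : 0 < volume.real (Ω ∩ {x | x + κ ∈ Ω}) :=
    ENNReal.toReal_pos hA (ne_top_of_le_ne_top hfin (measure_mono Set.inter_subset_left))
  obtain ⟨δ, hδ, hδ'⟩ := small_int hτc hτ0 hτp hτC hΓ ha0
  obtain ⟨χ, hχ1, hχ2⟩ := hker κ δ hδ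
  have hsig := sig_idc F hΛ
  refine ⟨min δ ‖κ‖, lt_min hδ (norm_pos_iff.2 hκ), fun r hr φ hφ => ?_⟩
  obtain ⟨Φ, hΦ⟩ := gTT_schwartz hφ
  have hΦ' : (Φ : E d → ℂ) = φ := funext hΦ
  have h1 := eq_zero_of_ker hτc hτp hτC hΓ (fun u => by positivity) ha hδ' hχ1
    (gFF_bc _ _ ZL_basis F hsig Φ)
    (FF_ker _ _ ZL_basis F hsig Φ χ fun x => by
      rw [hΦ']
      exact hχ2 r (hr.le.trans (min_le_left _ _)) φ hφ x)
    (fun x => by
      rw [FF_gam hm hfin hs (gm_countable F hΛ) Φ x, hΦ',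
        TT_int (hr.trans_le (min_le_right _ _)) hφ, mul_zero]) 0
  unfold FF at h1
  rw [← h1]
  refine tsum_congr fun y => ?_
  rw [hΦ, sub_zero]

/-- **D1, `κ = 0`.** -/
theorem gap_zero {Ω : Set (E d)} (hm : MeasurableSet Ω) (h0 : volume Ω ≠ 0)
    (hfin : volume Ω ≠ ∞) {Λ : Set (E d)}
    (hs : IsSpectrum Λ Ω) (F : Finset (E d))
    (hΛ : ∀ l ∈ Λ, ∃ n : Fin d → ℤ, ∃ e ∈ F, l = zv n + e) :
    ∃ ρ > 0, ∀ v ∈ ZL d, GapAt 0 ρ (dif v (idc Λ)) := by
  obtain ⟨τ, hτc, hτ0, hτp, hτC, hker⟩ := exists_ker (X := E d)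
  have hΓ := gam_integrable hm hfin
  have ha := gam_four hm hfin (0 : E d)
  have hset : Ω ∩ {x | x + 0 ∈ Ω} = Ω := by
    ext x
    simp
  have ha0 : 0 < volume.real (Ω ∩ {x | x + 0 ∈ Ω}) := by
    rw [hset]
    exact ENNReal.toReal_pos h0 hfin
  obtain ⟨δ, hδ, hδ'⟩ := small_int hτc hτ0 hτp hτC hΓ ha0
  obtain ⟨χ, hχ1, hχ2⟩ := hker 0 δ hδ
  have hsig := sig_idc F hΛ
  refine ⟨δ, hδ, fun v hv r hr φ hφ => ?_⟩
  have hsigv := sig_dif F hΛ hv
  obtain ⟨Φ, hΦ⟩ := gTT_schwartz hφ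
  have hΦ' : (Φ : E d → ℂ) = φ := funext hΦ
  have hbc := gFF_bc _ _ ZL_basis F hsig Φ
  have hint : ∀ x : E d, Integrable fun u : E d =>
      FF (idc Λ) Φ (x + u) * ((‖∫ y in Ω, ee u y‖ ^ 2 : ℝ) : ℂ) := by
    intro x
    obtain ⟨C, hC⟩ := hbc.bdd
    refine Integrable.bdd_mul hΓ.ofReal
      (hbc.cont.comp (continuous_const.add continuous_id)).aestronglyMeasurable
      (c := C) (Eventually.of_forall fun u => hC _)
  have h1 := eq_zero_of_ker hτc hτp hτC hΓ (fun u => by positivity) ha hδ' hχ1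
    (gFF_bc _ _ ZL_basis F hsigv Φ)
    (FF_ker _ _ ZL_basis F hsigv Φ χ fun x => by
      rw [hΦ']
      exact hχ2 r hr.le φ hφ x)
    (fun x => by
      have h2 : ∀ u : E d, FF (dif v (idc Λ)) Φ (x + u) * ((‖∫ y in Ω, ee u y‖ ^ 2 : ℝ) : ℂ) =
          FF (idc Λ) Φ (x + u) * ((‖∫ y in Ω, ee u y‖ ^ 2 : ℝ) : ℂ) -
          FF (idc Λ) Φ (x + v + u) * ((‖∫ y in Ω, ee u y‖ ^ 2 : ℝ) : ℂ) := by
        intro u
        rw [gFF_dif hsig, sub_mul, add_right_comm]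
      rw [integral_congr_ae (Eventually.of_forall h2), integral_sub (hint x) (hint (x + v)),
        FF_gam hm hfin hs (gm_countable F hΛ) Φ x,
        FF_gam hm hfin hs (gm_countable F hΛ) Φ (x + v), sub_self]) 0
  unfold FF at h1
  rw [← h1]
  refine tsum_congr fun y => ?_
  rw [hΦ, sub_zero]

end Pool.Agent.ST53
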