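import Pool.Agent.Lib.MP_53fa4a_an_NL.Baire
import Pool.Agent.Lib.MP_53fa4a_an_ST.CMain
import Pool.Agent.Lib.MP_53fa4a_an_ST.GMain
import Pool.Agent.Lib.MP_53fa4a_an_ST.DMain
import Pool.Agent.Lib.MP_53fa4a_an_ST.DLin

/-!
# Spectra in finitely many translates of a lattice: the final theorem
-/

set_option autoImplicit false

open MeasureTheory Set Filter
open scoped ENNReal Topology ComplexConjugate BigOperators SchwartzMap FourierTransform

noncomputable section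

namespace Pool.Agent.ST53

open Pool.Agent.SpecND (E ee)
open Pool.Agent.NL53 (zv rv fib IsSpectrum)

variable {d : ℕ}

private theorem fn_dif_dif (q q' : E d) (G : E d → ℂ) : dif q (dif q' G) = dif q' (dif q G) := by
  funext x
  simp only [dif]
  rw [add_right_comm]
  ring

private theorem fn_fac_fac (W : Submodule ℝ (E d)) (κ q q' : E d) {G : E d → ℂ}
    (hG : Continuous G) : fac W κ q (fac W κ q' G) = fac W κ q' (fac W κ q G) := by
  by_cases h : q ∈ W ∧ ∃ n : ℤ, inner ℝ κ q = (n : ℝ)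
  · rw [fac_pos h, fac_pos h, av_eq, av_eq]
    exact avm_fac 1 W κ κ q q' hG
  · rw [fac_neg h, fac_neg h]
    by_cases h' : q' ∈ W ∧ ∃ n : ℤ, inner ℝ κ q' = (n : ℝ)
    · rw [fac_pos h', fac_pos h', av_eq, av_eq]
      exact (avm_dif 1 κ q' q hG).symm
    · rw [fac_neg h', fac_neg h']
      exact fn_dif_dif q q' G

private theorem fn_fac_Op (W : Submodule ℝ (E d)) (κ q : E d) (Q : List (E d)) {G : E d → ℂ}
    (hG : Continuous G) : fac W κ q (Op W κ Q G) = Op W κ Q (fac W κ q G) := by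
  induction Q with
  | nil => rfl
  | cons a Q ih => rw [Op_cons', Op_cons', fn_fac_fac W κ q a (Op_cont W κ Q hG), ih]

private theorem fn_Op_append (W : Submodule ℝ (E d)) (κ : E d) (Q Q' : List (E d))
    (G : E d → ℂ) : Op W κ (Q ++ Q') G = Op W κ Q (Op W κ Q' G) := by
  induction Q with
  | nil => rfl
  | cons a Q ih => rw [List.cons_append, Op_cons', Op_cons', ih]

private theorem fn_Op_comm (W : Submodule ℝ (E d)) (κ : E d) (Q Q' : List (E d))
    {G : E d → ℂ} (hG : Continuous G) :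
    Op W κ Q (Op W κ Q' G) = Op W κ Q' (Op W κ Q G) := by
  induction Q with
  | nil => rfl
  | cons a Q ih => rw [Op_cons', Op_cons', ih, fn_fac_Op W κ a Q' (Op_cont W κ Q hG)]

private theorem fn_fac_zero (W : Submodule ℝ (E d)) (κ q : E d) :
    fac W κ q (0 : E d → ℂ) = 0 := by
  by_cases h : q ∈ W ∧ ∃ n : ℤ, inner ℝ κ q = (n : ℝ)
  · rw [fac_pos h]
    funext x
    simp [av]
  · rw [fac_neg h]
    funext x
    simp [dif]

private theorem fn_Op_zero (W : Submodule ℝ (E d)) (κ : E d) (Q : List (E d)) :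
    Op W κ Q (0 : E d → ℂ) = 0 := by
  induction Q with
  | nil => rfl
  | cons a Q ih => rw [Op_cons', ih, fn_fac_zero]

/-- integer case -/
theorem int_main {Ω : Set (E d)} (hm : MeasurableSet Ω) (h0 : volume Ω ≠ 0)
    (hb : Bornology.IsBounded Ω) {Λ : Set (E d)} (hs : IsSpectrum Λ Ω) (F : Finset (E d))
    (hΛ : ∀ l ∈ Λ, ∃ n : Fin d → ℤ, ∃ e ∈ F, l = zv n + e) :
    ∃ m N : ℕ, 0 < m ∧ 0 < N ∧ ∀ᵐ x, (fib Ω m x).encard = N := by
  have hfin : volume Ω ≠ ∞ := hb.measure_lt_top.ne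
  have hsig := sig_idc F hΛ
  obtain ⟨U, hU⟩ : ∃ U : Set (E d), U = {κ | κ ≠ 0 ∧ volume (Ω ∩ {x | x + κ ∈ Ω}) ≠ 0} :=
    ⟨_, rfl⟩
  have hUb : Bornology.IsBounded U := by
    obtain ⟨R, hR⟩ := hb.subset_closedBall (0 : E d)
    refine (Metric.isBounded_closedBall (x := (0 : E d)) (r := R + R)).subset fun κ hκ => ?_
    rw [hU] at hκ
    obtain ⟨x, hx1, hx2⟩ : (Ω ∩ {x | x + κ ∈ Ω}).Nonempty := by
      by_contra h
      rw [Set.not_nonempty_iff_eq_empty] at h
      exact hκ.2 (by rw [h, measure_empty])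
    have h1 := hR hx1
    have h2 := hR hx2
    rw [mem_closedBall_zero_iff] at h1 h2 ⊢
    have h3 : κ = (x + κ) - x := by abel
    calc ‖κ‖ = ‖(x + κ) - x‖ := by rw [← h3]
      _ ≤ ‖x + κ‖ + ‖x‖ := norm_sub_le _ _
      _ ≤ R + R := add_le_add h2 h1
  have hg : ∀ κ : E d, ∃ ρ : ℝ, 0 < ρ ∧ (κ ∈ U → GapAt κ ρ (idc Λ)) := by
    intro κ
    by_cases hκ : κ ∈ U
    · have hκ' := hκ
      rw [hU] at hκ'
      obtain ⟨ρ, hρ, hρ'⟩ := gap_spec hm hfin hs F hΛ hκ'.1 hκ'.2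
      exact ⟨ρ, hρ, fun _ => hρ'⟩
    · exact ⟨1, one_pos, fun h => absurd h hκ⟩
  choose rad hrad hrad' using hg
  obtain ⟨Q1, hQ1, hQ1'⟩ := exactness (EuclideanSpace.basisFun (Fin d) ℝ).toBasis (ZL d)
    ZL_basis F U hUb rad (fun κ _ => hrad κ) {1}
  obtain ⟨ρ, hρ, hρ'⟩ := gap_zero hm h0 hfin hs F hΛ
  obtain ⟨Q2, hQ2, hQ2'⟩ := exactness (EuclideanSpace.basisFun (Fin d) ℝ).toBasis (ZL d)
    ZL_basis F {0} Bornology.isBounded_singleton (fun _ => ρ) (fun κ _ => hρ) {1, -1}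
  refine part_D hm h0 hfin hs F hΛ (Q2 ++ Q1) ?_ ?_ ?_
  · intro q hq
    rcases List.mem_append.1 hq with h | h
    · exact (hQ2 q h).1
    · exact (hQ1 q h).1
  · intro κ hκ hA φ
    have hκU : κ ∈ U := by
      rw [hU]
      exact ⟨hκ, hA⟩
    rw [fn_Op_append, hQ1' κ hκU (idc Λ) ⟨hsig, fun κ' hκ' => hrad' κ' hκ'⟩ φ, fn_Op_zero]
  · intro v φ
    have hv : (zv v : E d) ∈ ZL d := ⟨v, rfl⟩
    have h1 : dif (zv v) (FF (idc Λ) φ) = FF (dif (zv v) (idc Λ)) φ := by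
      funext x
      rw [gFF_dif hsig]
      rfl
    have hc : Continuous (FF (dif (zv v) (idc Λ)) φ) :=
      (gFF_bc _ _ ZL_basis F (sig_dif F hΛ hv) φ).cont
    rw [h1, fn_Op_append, fn_Op_comm ⊤ 0 Q2 Q1 hc,
      hQ2' 0 (Set.mem_singleton _) _ ⟨sig_dif F hΛ hv, fun κ' hκ' => by
        rw [Set.mem_singleton_iff.1 hκ']
        exact hρ' _ hv⟩ φ, fn_Op_zero]

/-- **Main theorem.** -/
theorem finite_main {Ω : Set (E d)} (hm : NullMeasurableSet Ω volume) (h0 : volume Ω ≠ 0)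
    (hb : Bornology.IsBounded Ω) {Λ : Set (E d)} (hs : IsSpectrum Λ Ω)
    (b : Module.Basis (Fin d) ℝ (E d)) (F : Finset (E d))
    (hΛ : ∀ l ∈ Λ, ∃ a ∈ F, l - a ∈ Submodule.span ℤ (Set.range b)) :
    (∃ (v : Module.Basis (Fin d) ℝ (E d)) (N : ℕ), 0 < N ∧
      ∀ᵐ x, {l | l ∈ Submodule.span ℤ (Set.range v) ∧ x + l ∈ Ω}.encard = N) ∧
    (interior (closure Ω)).Nonempty := by
  classical
  have key : ∃ (v : Module.Basis (Fin d) ℝ (E d)) (N : ℕ), 0 < N ∧
      ∀ᵐ x, {l | l ∈ Submodule.span ℤ (Set.range v) ∧ x + l ∈ Ω}.encard = N := by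
    obtain ⟨Ω', hsub, hm', hae⟩ := hm.exists_measurable_subset_ae_eq
    have hb' : Bornology.IsBounded Ω' := hb.subset hsub
    have hr : volume.restrict Ω' = volume.restrict Ω := Measure.restrict_congr_set hae
    have hs' : IsSpectrum Λ Ω' := by
      unfold IsSpectrum
      rw [hr]
      exact hs
    have hvol : volume Ω' = volume Ω := measure_congr hae
    have h0' : volume Ω' ≠ 0 := by rwa [hvol]
    obtain ⟨S, T, hST, hT⟩ := exists_lin2 b
    have hspec := spec_lin2 hm' hs' hST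
    have hmS : MeasurableSet (S '' Ω') :=
      S.toHomeomorph.toMeasurableEquiv.measurableSet_image.2 hm'
    have hvolS : volume (S '' Ω') = ENNReal.ofReal |(S : E d →ₗ[ℝ] E d).det| * volume Ω' := by
      have h := Measure.addHaar_image_continuousLinearMap (volume : Measure (E d))
        (S : E d →L[ℝ] E d) Ω'
      simpa using h
    have hdet : ENNReal.ofReal |(S : E d →ₗ[ℝ] E d).det| ≠ 0 := by
      have h1 : (S : E d →ₗ[ℝ] E d).det ≠ 0 := by
        have h2 := LinearEquiv.isUnit_det' S.toLinearEquiv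
        exact h2.ne_zero
      rw [Ne, ENNReal.ofReal_eq_zero, not_le]
      exact abs_pos.2 h1
    have hS0 : volume (S '' Ω') ≠ 0 := by
      rw [hvolS]
      exact mul_ne_zero hdet h0'
    have hSb : Bornology.IsBounded (S '' Ω') :=
      (S : E d →L[ℝ] E d).lipschitz.isBounded_image hb'
    obtain ⟨m, N, hm0, hN, hN'⟩ := int_main hmS hS0 hSb hspec (F.image T) (by
      rintro _ ⟨l, hl, rfl⟩
      obtain ⟨a, ha, hla⟩ := hΛ l hl
      obtain ⟨k, hk⟩ := (Submodule.mem_span_range_iff_exists_fun ℤ).mp hla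
      have hk' : ∑ i, (k i : ℝ) • b i = l - a := by
        rw [← hk]
        exact Finset.sum_congr rfl fun i _ => Int.cast_smul_eq_zsmul ℝ _ _
      refine ⟨k, T a, Finset.mem_image_of_mem _ ha, ?_⟩
      rw [← hT k, hk', ← map_add, sub_add_cancel])
    obtain ⟨v, hv⟩ := Pool.Agent.NL53.tile_back S hm0 hN'
    exact ⟨v, N, hN, Pool.Agent.NL53.tile_congr hae v hv⟩
  refine ⟨key, ?_⟩
  obtain ⟨v, N, hN, hv⟩ := key
  exact Pool.Agent.NL53.interior_of_tile hb v hN hv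

end Pool.Agent.ST53
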