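import Pool.Agent.Lib.MP_53fa4a_an_ST.Fin

/-!
# Spectra in finitely many translates of a lattice: the tiling lattice
-/

set_option autoImplicit false

open MeasureTheory Set Filter
open scoped ENNReal Topology ComplexConjugate BigOperators

noncomputable section

namespace Pool.Agent.ST53

open Pool.Agent.SpecND (E ee)
open Pool.Agent.NL53 (zv rv fib IsSpectrum)

variable {d : ℕ}

/-- `tile_back` of the NL project with the lattice made explicit: `v_i = S⁻¹ (m⁻¹ e_i)` -/
theorem tile_back2 {Ω : Set (E d)} (S : E d ≃L[ℝ] E d) {m : ℕ} (hm : 0 < m) {N : ℕ}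
    (h : ∀ᵐ x, (fib (S '' Ω) m x).encard = N) :
    ∃ v : Module.Basis (Fin d) ℝ (E d),
      (∀ i, S (v i) = (m : ℝ)⁻¹ • EuclideanSpace.single i (1 : ℝ)) ∧
      ∀ᵐ x, {l | l ∈ Submodule.span ℤ (Set.range v) ∧ x + l ∈ Ω}.encard = N := by
  have hm' : (m : ℝ)⁻¹ ≠ 0 := inv_ne_zero (by exact_mod_cast hm.ne')
  let b0 : Module.Basis (Fin d) ℝ (E d) := (EuclideanSpace.basisFun (Fin d) ℝ).toBasis
  let T : E d ≃ₗ[ℝ] E d := (LinearEquiv.smulOfNeZero ℝ (E d) (m : ℝ)⁻¹ hm').trans
    S.symm.toLinearEquiv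
  have h3 : ∀ i, b0 i = EuclideanSpace.single i (1 : ℝ) := by
    intro i
    simp [b0]
  have h2 : ∀ i, (b0.map T) i = S.symm ((m : ℝ)⁻¹ • b0 i) := by
    intro i
    rw [Module.Basis.map_apply]
    rfl
  refine ⟨b0.map T, fun i => by rw [h2 i, S.apply_symm_apply, h3 i], ?_⟩
  have hv : ∀ k : Fin d → ℤ, ∑ i, k i • (b0.map T) i = S.symm ((m : ℝ)⁻¹ • zv k) := by
    intro k
    have h1 : ∀ i, k i • (b0.map T) i = S.symm ((m : ℝ)⁻¹ • ((k i : ℝ) • b0 i)) := by
      intro i
      rw [h2 i, smul_comm ((m : ℝ)⁻¹) ((k i : ℝ)), map_smul S.symm (k i : ℝ),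
        Int.cast_smul_eq_zsmul]
    rw [Finset.sum_congr rfl fun i _ => h1 i, ← map_sum, ← Finset.smul_sum]
    congr 2
    ext j
    simp only [h3]
    simp [zv, rv, Finset.sum_apply, Pi.single_apply]
  have hinj : Function.Injective fun k : Fin d → ℤ => S.symm ((m : ℝ)⁻¹ • zv k) := by
    intro k k' hk
    have h1 : (m : ℝ)⁻¹ • zv k = (m : ℝ)⁻¹ • zv k' := S.symm.injective hk
    have h2 : zv k = zv k' := smul_right_injective _ hm' h1
    funext i
    have h3 : (zv k) i = (zv k') i := by rw [h2]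
    simpa [zv, rv] using h3
  have hset : ∀ x, {l | l ∈ Submodule.span ℤ (Set.range (b0.map T)) ∧ x + l ∈ Ω} =
      (fun k : Fin d → ℤ => S.symm ((m : ℝ)⁻¹ • zv k)) '' fib (S '' Ω) m (S x) := by
    intro x
    ext l
    rw [Set.mem_ofPred_eq, Submodule.mem_span_range_iff_exists_fun]
    constructor
    · rintro ⟨⟨k, hk⟩, hl⟩
      refine ⟨k, ?_, (hv k).symm.trans hk⟩
      rw [← hk, hv k] at hl
      refine ⟨_, hl, ?_⟩
      rw [map_add, S.apply_symm_apply]
    · rintro ⟨k, hk, rfl⟩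
      refine ⟨⟨k, hv k⟩, ?_⟩
      obtain ⟨y, hy, hy'⟩ := hk
      have : x + S.symm ((m : ℝ)⁻¹ • zv k) = y := by
        apply S.injective
        rw [map_add, S.apply_symm_apply, hy']
      change x + S.symm ((m : ℝ)⁻¹ • zv k) ∈ Ω
      rw [this]
      exact hy
  have hq : ∀ᵐ x, (fib (S '' Ω) m (S x)).encard = N := by
    have hS : Measure.QuasiMeasurePreserving (S : E d → E d) volume volume := by
      refine ⟨S.continuous.measurable, ?_⟩
      refine Measure.AbsolutelyContinuous.mk fun s hs h0 => ?_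
      rw [Measure.map_apply S.continuous.measurable hs,
        Measure.addHaar_preimage_continuousLinearEquiv, h0, mul_zero]
    exact hS.ae h
  filter_upwards [hq] with x hx
  rw [hset x, hinj.encard_image, hx]

/-- a real number all of whose real multiples are integers is `0` -/
private theorem eq_of_mul_int {a : ℝ} (h : ∀ t : ℝ, ∃ n : ℤ, t * a = n) : a = 0 := by
  by_contra ha
  obtain ⟨n, hn⟩ := h (2 * a)⁻¹
  have h1 : (2 * a)⁻¹ * a = 1 / 2 := by field_simp
  rw [h1] at hn
  have h2 : ((2 * n : ℤ) : ℝ) = 1 := by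
    push_cast
    linarith
  have h3 : (2 * n : ℤ) = 1 := by exact_mod_cast h2
  omega

theorem inner_of_ee {T S : E d ≃L[ℝ] E d} (h : ∀ l x : E d, ee l x = ee (T l) (S x))
    (l x : E d) : inner ℝ l x = inner ℝ (T l) (S x) := by
  have key : inner ℝ l x - inner ℝ (T l) (S x) = 0 := by
    refine eq_of_mul_int fun t => ?_
    have h1 := h l (t • x)
    rw [map_smul] at h1
    unfold ee at h1
    rw [Complex.exp_eq_exp_iff_exists_int] at h1
    obtain ⟨n, hn⟩ := h1
    refine ⟨n, ?_⟩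
    rw [real_inner_smul_right, real_inner_smul_right] at hn
    have h2 : (2 * (Real.pi : ℂ) * Complex.I) ≠ 0 := Complex.two_pi_I_ne_zero
    have h3 : (2 * (Real.pi : ℂ) * Complex.I) * ((t * (inner ℝ l x - inner ℝ (T l) (S x)) : ℝ) : ℂ) =
        (2 * (Real.pi : ℂ) * Complex.I) * n := by
      push_cast at hn ⊢
      linear_combination hn
    have h4 := mul_left_cancel₀ h2 h3
    exact_mod_cast h4
  linarith

/-- **Main theorem, explicit lattice.**  `v` is `m⁻¹` times the dual basis of `b`. -/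
theorem finite_main2 {Ω : Set (E d)} (hm : NullMeasurableSet Ω volume) (h0 : volume Ω ≠ 0)
    (hb : Bornology.IsBounded Ω) {Λ : Set (E d)} (hs : IsSpectrum Λ Ω)
    (b : Module.Basis (Fin d) ℝ (E d)) (F : Finset (E d))
    (hΛ : ∀ l ∈ Λ, ∃ a ∈ F, l - a ∈ Submodule.span ℤ (Set.range b)) :
    (∃ (m N : ℕ) (v : Module.Basis (Fin d) ℝ (E d)), 0 < m ∧ 0 < N ∧
      (∀ i j, (m : ℝ) * inner ℝ (b i) (v j) = if i = j then 1 else 0) ∧
      ∀ᵐ x, {l | l ∈ Submodule.span ℤ (Set.range v) ∧ x + l ∈ Ω}.encard = N) ∧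
    (interior (closure Ω)).Nonempty := by
  classical
  have key : ∃ (m N : ℕ) (v : Module.Basis (Fin d) ℝ (E d)), 0 < m ∧ 0 < N ∧
      (∀ i j, (m : ℝ) * inner ℝ (b i) (v j) = if i = j then 1 else 0) ∧
      ∀ᵐ x, {l | l ∈ Submodule.span ℤ (Set.range v) ∧ x + l ∈ Ω}.encard = N := by
    obtain ⟨Ω', hsub, hm', hae⟩ := hm.exists_measurable_subset_ae_eq
    have hb' : Bornology.IsBounded Ω' := hb.subset hsub
    have hr : volume.restrict Ω' = volume.restrict Ω := Measure.restrict_congr_set hae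
    have hs' : IsSpectrum Λ Ω' := by
      unfold IsSpectrum
      rw [hr]
      exact hs
    have hvol : volume Ω' = volume Ω := measure_congr hae
    have h0' : volume Ω' ≠ 0 := by rwa [hvol]
    obtain ⟨S, T, hST, hT⟩ := exists_lin2 b
    have hspec := spec_lin2 hm' hs' hST
    have hmS : MeasurableSet (S '' Ω') :=
      S.toHomeomorph.toMeasurableEquiv.measurableSet_image.2 hm'
    have hvolS : volume (S '' Ω') = ENNReal.ofReal |(S : E d →ₗ[ℝ] E d).det| * volume Ω' := by
      have h := Measure.addHaar_image_continuousLinearMap (volume : Measure (E d))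
        (S : E d →L[ℝ] E d) Ω'
      simpa using h
    have hdet : ENNReal.ofReal |(S : E d →ₗ[ℝ] E d).det| ≠ 0 := by
      have h1 : (S : E d →ₗ[ℝ] E d).det ≠ 0 := by
        have h2 := LinearEquiv.isUnit_det' S.toLinearEquiv
        exact h2.ne_zero
      rw [Ne, ENNReal.ofReal_eq_zero, not_le]
      exact abs_pos.2 h1
    have hS0 : volume (S '' Ω') ≠ 0 := by
      rw [hvolS]
      exact mul_ne_zero hdet h0'
    have hSb : Bornology.IsBounded (S '' Ω') :=
      (S : E d →L[ℝ] E d).lipschitz.isBounded_image hb'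
    obtain ⟨m, N, hm0, hN, hN'⟩ := int_main hmS hS0 hSb hspec (F.image T) (by
      rintro _ ⟨l, hl, rfl⟩
      obtain ⟨a, ha, hla⟩ := hΛ l hl
      obtain ⟨k, hk⟩ := (Submodule.mem_span_range_iff_exists_fun ℤ).mp hla
      have hk' : ∑ i, (k i : ℝ) • b i = l - a := by
        rw [← hk]
        exact Finset.sum_congr rfl fun i _ => Int.cast_smul_eq_zsmul ℝ _ _
      refine ⟨k, T a, Finset.mem_image_of_mem _ ha, ?_⟩
      rw [← hT k, hk', ← map_add, sub_add_cancel])
    obtain ⟨v, hv1, hv⟩ := tile_back2 S hm0 hN'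
    refine ⟨m, N, v, hm0, hN, fun i j => ?_, Pool.Agent.NL53.tile_congr hae v hv⟩
    have hTb : T (b i) = EuclideanSpace.single i (1 : ℝ) := by
      have h1 := hT (Pi.single i 1)
      have h2 : ∑ k, (((Pi.single i 1 : Fin d → ℤ) k : ℤ) : ℝ) • b k = b i := by
        rw [Finset.sum_eq_single i]
        · simp
        · intro k _ hk
          simp [Pi.single_eq_of_ne hk]
        · intro h
          exact absurd (Finset.mem_univ i) h
      rw [h2] at h1
      rw [h1]
      ext k
      by_cases hk : k = i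
      · subst hk
        simp [zv, rv]
      · simp [zv, rv, Pi.single_eq_of_ne hk, hk]
    have hm1 : (m : ℝ) ≠ 0 := by exact_mod_cast hm0.ne'
    rw [inner_of_ee hST, hTb, hv1 j, real_inner_smul_right, ← mul_assoc,
      mul_inv_cancel₀ hm1, one_mul]
    by_cases hij : i = j
    · subst hij
      simp
    · have hji : j ≠ i := fun h => hij h.symm
      rw [if_neg hij, EuclideanSpace.inner_single_left]
      simp [hij, hji]
  refine ⟨key, ?_⟩
  obtain ⟨m, N, v, _, hN, _, hv⟩ := key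
  exact Pool.Agent.NL53.interior_of_tile hb v hN hv

end Pool.Agent.ST53
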