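import Pool.Agent.Lib.MP_53fa4a_an_ST.GTT

/-!
# Reproducing kernels
-/

set_option autoImplicit false

open MeasureTheory Set Filter
open scoped ENNReal Topology ComplexConjugate BigOperators SchwartzMap ContDiff FourierTransform

noncomputable section

namespace Pool.Agent.ST53

variable {X : Type*} [NormedAddCommGroup X] [InnerProductSpace ℝ X] [FiniteDimensional ℝ X]
  [MeasurableSpace X] [BorelSpace X]

section bump

variable {X : Type*} [NormedAddCommGroup X] [InnerProductSpace ℝ X] [FiniteDimensional ℝ X]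

private def bmp (X : Type*) [NormedAddCommGroup X] [InnerProductSpace ℝ X] :
    ContDiffBump (0 : X) := ⟨1, 2, one_pos, one_lt_two⟩

private def bf (x : X) : ℂ := ((bmp X x : ℝ) : ℂ)

private lemma bf_smooth : ContDiff ℝ ∞ (bf : X → ℂ) :=
  Complex.ofRealCLM.contDiff.comp (bmp X).contDiff

private lemma bf_one {x : X} (h : ‖x‖ ≤ 1) : bf x = 1 := by
  unfold bf
  rw [(bmp X).one_of_mem_closedBall (by
    rw [Metric.mem_closedBall, dist_zero_right]
    exact h), Complex.ofReal_one]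

private lemma bf_zero {x : X} (h : 2 ≤ ‖x‖) : bf x = 0 := by
  unfold bf
  rw [(bmp X).zero_of_le_dist (by rw [dist_zero_right]; exact h), Complex.ofReal_zero]

private lemma et_schwartz (κ : X) {δ : ℝ} (hδ : 0 < δ) :
    ∃ η : 𝓢(X, ℂ), ∀ ζ, η ζ = bf (δ⁻¹ • (ζ - κ)) := by
  have h1 : ContDiff ℝ ∞ (fun ζ : X => bf (δ⁻¹ • (ζ - κ))) :=
    bf_smooth.comp (contDiff_const.smul (contDiff_id.sub contDiff_const))
  have h2 : HasCompactSupport (fun ζ : X => bf (δ⁻¹ • (ζ - κ))) := by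
    refine HasCompactSupport.intro (isCompact_closedBall κ (2 * δ)) fun ζ hζ => bf_zero ?_
    rw [Metric.mem_closedBall, dist_eq_norm, not_le] at hζ
    rw [norm_smul, norm_inv, Real.norm_of_nonneg hδ.le, inv_mul_eq_div, le_div_iff₀ hδ]
    exact hζ.le
  exact ⟨h2.toSchwartzMap h1, fun ζ => rfl⟩

end bump

private lemma fourier_e (f : X → ℂ) (x : X) : 𝓕 f x = ∫ v, e (-(inner ℝ v x)) * f v := by
  rw [Real.fourier_eq']
  refine integral_congr_ae (.of_forall fun v => ?_)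
  simp only [smul_eq_mul]
  congr 1
  unfold e
  congr 1
  push_cast
  ring

private lemma fourierInv_e (f : X → ℂ) (x : X) : 𝓕⁻ f x = ∫ v, e (inner ℝ v x) * f v := by
  rw [Real.fourierInv_eq']
  refine integral_congr_ae (.of_forall fun v => ?_)
  simp only [smul_eq_mul]
  congr 1
  unfold e
  congr 1
  push_cast
  ring

private lemma scal (κ : X) {δ : ℝ} (hδ : 0 < δ) (x : X) :
    ∫ v, e (-(inner ℝ v x)) * bf (δ⁻¹ • (v - κ)) =
      (δ : ℂ) ^ Module.finrank ℝ X * (e (-(inner ℝ κ x)) *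
        ∫ w, e (-(inner ℝ w (δ • x))) * bf w) := by
  obtain ⟨h, hh⟩ : ∃ h : X → ℂ, h = fun w => e (-(inner ℝ (κ + δ • w) x)) * bf w := ⟨_, rfl⟩
  have h1 : ∀ v : X, e (-(inner ℝ v x)) * bf (δ⁻¹ • (v - κ)) = h (δ⁻¹ • (v - κ)) := by
    intro v
    rw [hh]
    dsimp only
    rw [smul_smul, mul_inv_cancel₀ hδ.ne', one_smul, add_sub_cancel]
  simp_rw [h1]
  rw [integral_sub_right_eq_self (fun v => h (δ⁻¹ • v)) κ,
    Measure.integral_comp_inv_smul_of_nonneg _ _ hδ.le, ← integral_const_mul, Complex.real_smul]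
  push_cast
  congr 1
  refine integral_congr_ae (.of_forall fun w => ?_)
  rw [hh]
  dsimp only
  rw [← mul_assoc, ← e_add, inner_add_left, real_inner_smul_left, real_inner_smul_right, neg_add]

private lemma decay {X : Type*} [NormedAddCommGroup X] [InnerProductSpace ℝ X] (f : 𝓢(X, ℂ)) :
    ∃ C, 0 ≤ C ∧
    ∀ w, ‖f w‖ ≤ C * ((1 + ‖w‖) ^ (Module.finrank ℝ X + 1))⁻¹ := by
  have h := fun x => SchwartzMap.one_add_le_sup_seminorm_apply (𝕜 := ℝ)
    (m := (Module.finrank ℝ X + 1, 0)) (k := Module.finrank ℝ X + 1) (n := 0) le_rfl le_rfl f x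
  simp only [norm_iteratedFDeriv_zero] at h
  obtain ⟨C, hC⟩ : ∃ C, C = 2 ^ (Module.finrank ℝ X + 1) *
      ((Finset.Iic (Module.finrank ℝ X + 1, 0)).sup fun m =>
        SchwartzMap.seminorm ℝ m.1 m.2) f := ⟨_, rfl⟩
  rw [← hC] at h
  refine ⟨C, le_trans (by positivity) (h 0), fun w => ?_⟩
  rw [← div_eq_mul_inv, le_div_iff₀ (by positivity), mul_comm]
  exact h w

private lemma int_pow : Integrable (fun w : X => ((1 + ‖w‖) ^ (Module.finrank ℝ X + 1))⁻¹) := by
  have h := integrable_one_add_norm (E := X) (μ := volume)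
    (r := ((Module.finrank ℝ X + 1 : ℕ) : ℝ)) (by push_cast; linarith)
  refine h.congr (.of_forall fun w => ?_)
  dsimp only
  rw [Real.rpow_neg (by positivity), Real.rpow_natCast]

private lemma tau_cont (f : 𝓢(X, ℂ)) : Continuous fun u : X => ∫ w, ‖f (w - u) - f w‖ := by
  rw [continuous_iff_continuousAt]
  intro u₀
  obtain ⟨C, hC, hd⟩ := decay f
  have hf : Integrable (fun w : X => f w) := f.integrable
  refine continuousAt_of_dominated (bound := fun w =>
    C * (2 + ‖u₀‖) ^ (Module.finrank ℝ X + 1) * ((1 + ‖w‖) ^ (Module.finrank ℝ X + 1))⁻¹ + ‖f w‖)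
    (.of_forall fun u => ?_) ?_ ((int_pow.const_mul _).add hf.norm) (.of_forall fun w => ?_)
  · exact (((f.continuous.comp (continuous_id.sub continuous_const)).sub
      f.continuous).norm).aestronglyMeasurable
  · filter_upwards [Metric.ball_mem_nhds u₀ one_pos] with u hu
    refine .of_forall fun w => ?_
    rw [Metric.mem_ball, dist_eq_norm] at hu
    rw [norm_norm]
    refine (norm_sub_le _ _).trans (add_le_add ((hd _).trans ?_) le_rfl)
    rw [mul_assoc]
    refine mul_le_mul_of_nonneg_left ?_ hC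
    have h1 : ‖u‖ ≤ 1 + ‖u₀‖ := by
      have h2 := norm_add_le (u - u₀) u₀
      rw [sub_add_cancel] at h2
      linarith
    have h2 : 1 + ‖w‖ ≤ (2 + ‖u₀‖) * (1 + ‖w - u‖) := by
      have h3 := norm_add_le (w - u) u
      rw [sub_add_cancel] at h3
      nlinarith [norm_nonneg (w - u), norm_nonneg u₀, norm_nonneg u]
    rw [← div_eq_mul_inv, le_div_iff₀ (by positivity), inv_mul_le_iff₀ (by positivity), ← mul_pow,
      mul_comm (1 + ‖w - u‖)]
    exact pow_le_pow_left₀ (by positivity) h2 _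
  · exact (((f.continuous.comp (continuous_const.sub continuous_id)).sub
      continuous_const).norm).continuousAt

private lemma fub {ψ χ : X → ℂ} (hψ : Integrable ψ) (hχ : Integrable χ) (x : X) :
    ∫ v, (∫ ζ, ψ ζ * e (-(inner ℝ ζ (x - v)))) * χ v =
      ∫ ζ, ψ ζ * e (-(inner ℝ ζ x)) * ∫ v, e (inner ℝ v ζ) * χ v := by
  have h1 : ∀ v, (∫ ζ, ψ ζ * e (-(inner ℝ ζ (x - v)))) * χ v =
      ∫ ζ, ψ ζ * e (-(inner ℝ ζ (x - v))) * χ v := fun v => (integral_mul_const _ _).symm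
  simp_rw [h1]
  rw [integral_integral_swap]
  · refine integral_congr_ae (.of_forall fun ζ => ?_)
    dsimp only
    rw [← integral_const_mul]
    refine integral_congr_ae (.of_forall fun v => ?_)
    dsimp only
    have h2 : e (-(inner ℝ ζ (x - v))) = e (-(inner ℝ ζ x)) * e (inner ℝ v ζ) := by
      rw [← e_add, inner_sub_right, real_inner_comm v ζ]
      congr 1
      ring
    rw [h2]
    ring
  · have h3 := (hχ.mul_prod hψ).bdd_mul (c := 1)
      (f := fun p : X × X => e (-(inner ℝ p.2 (x - p.1))))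
      (Continuous.aestronglyMeasurable (continuous_e.comp (by fun_prop)))
      (.of_forall fun p => by simp)
    refine h3.congr (.of_forall fun p => ?_)
    simp only [Function.uncurry]
    ring

/-- PROOF.  `η₀` a smooth bump function, `1` on the ball `B(0,1)`, with compact support,
`χ₀ = 𝓕 η₀`, a Schwartz function, `τ(u) = ∫ |χ₀(w-u) - χ₀(w)| dw`: bounded by `2 ∫ |χ₀|`, continuous
(continuity of translations in `L¹`, or dominated convergence with the decay of `χ₀`).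
`χ(x) = e(-⟨κ,x⟩) δ^n χ₀(δ x) = 𝓕 η (x)`, `η(ζ) = η₀((ζ-κ)/δ)`.  For `φ = 𝓕 ψ`, `ψ = 0` outside
`B(κ,δ)`: `ψ = ψ η`, so `φ = φ ⋆ χ` (`fourier_mul_convolution_eq` for the inverse transform, or
directly: `∫ φ(x-v) χ(v) dv = ∫∫ ψ(ζ) e(-⟨ζ,x⟩) e(⟨ζ,v⟩) χ(v) dv dζ = ∫ ψ(ζ) e(-⟨ζ,x⟩) η(ζ) dζ`
by Fubini and Fourier inversion for `χ = 𝓕 η`). -/
theorem exists_ker : ∃ τ : X → ℝ, Continuous τ ∧ τ 0 = 0 ∧ (∀ u, 0 ≤ τ u) ∧
    (∃ C, ∀ u, τ u ≤ C) ∧ ∀ (κ : X) (δ : ℝ), 0 < δ → ∃ χ : 𝓢(X, ℂ),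
      (∀ u : X, ∫ w, ‖χ (w - u) - e (inner ℝ κ u) * χ w‖ ≤ τ (δ • u)) ∧
      ∀ r ≤ δ, ∀ φ ∈ TT κ r, ∀ x, ∫ v, φ (x - v) * χ v = φ x := by
  obtain ⟨η₀, hη₀⟩ := et_schwartz (0 : X) one_pos
  simp only [inv_one, one_smul, sub_zero] at hη₀
  obtain ⟨χ₀, hχ₀⟩ : ∃ χ₀ : 𝓢(X, ℂ), χ₀ = 𝓕 η₀ := ⟨_, rfl⟩
  have hχe : ∀ x, χ₀ x = ∫ w, e (-(inner ℝ w x)) * bf w := by
    intro x
    rw [hχ₀, SchwartzMap.fourier_coe, fourier_e]
    simp_rw [hη₀]
  have hint : Integrable (fun w : X => χ₀ w) := χ₀.integrable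
  refine ⟨fun u => ∫ w, ‖χ₀ (w - u) - χ₀ w‖, tau_cont χ₀, by simp,
    fun u => integral_nonneg fun w => norm_nonneg _, ⟨(∫ w, ‖χ₀ w‖) + ∫ w, ‖χ₀ w‖, fun u => ?_⟩,
    fun κ δ hδ => ?_⟩
  · have h1 : ∫ w, ‖χ₀ (w - u) - χ₀ w‖ ≤ ∫ w, (‖χ₀ (w - u)‖ + ‖χ₀ w‖) := by
      refine integral_mono (((hint.comp_sub_right u).sub hint).norm)
        ((hint.comp_sub_right u).norm.add hint.norm) fun w => norm_sub_le _ _
    rw [integral_add (hint.comp_sub_right u).norm hint.norm,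
      integral_sub_right_eq_self (fun w => ‖χ₀ w‖) u] at h1
    exact h1
  obtain ⟨η, hη⟩ := et_schwartz κ hδ
  have hform : ∀ x, (𝓕 η : 𝓢(X, ℂ)) x =
      (δ : ℂ) ^ Module.finrank ℝ X * (e (-(inner ℝ κ x)) * χ₀ (δ • x)) := by
    intro x
    rw [SchwartzMap.fourier_coe, fourier_e, hχe, ← scal κ hδ]
    simp_rw [hη]
  refine ⟨𝓕 η, fun u => ?_, fun r hr φ hφ x => ?_⟩
  · have h1 : ∀ w, ‖(𝓕 η : 𝓢(X, ℂ)) (w - u) - e (inner ℝ κ u) * (𝓕 η : 𝓢(X, ℂ)) w‖ =
        δ ^ Module.finrank ℝ X * ‖χ₀ (δ • w - δ • u) - χ₀ (δ • w)‖ := by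
      intro w
      rw [hform, hform, smul_sub]
      have h2 : e (-(inner ℝ κ (w - u))) = e (inner ℝ κ u) * e (-(inner ℝ κ w)) := by
        rw [← e_add, inner_sub_right]
        congr 1
        ring
      have h3 : (δ : ℂ) ^ Module.finrank ℝ X *
          (e (-(inner ℝ κ (w - u))) * χ₀ (δ • w - δ • u)) - e (inner ℝ κ u) *
          ((δ : ℂ) ^ Module.finrank ℝ X * (e (-(inner ℝ κ w)) * χ₀ (δ • w))) =
          (δ : ℂ) ^ Module.finrank ℝ X * (e (inner ℝ κ u) * e (-(inner ℝ κ w))) *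
          (χ₀ (δ • w - δ • u) - χ₀ (δ • w)) := by
        rw [h2]
        ring
      rw [h3, norm_mul, norm_mul, norm_mul, norm_e, norm_e, norm_pow, Complex.norm_real,
        Real.norm_of_nonneg hδ.le]
      ring
    simp_rw [h1]
    rw [integral_const_mul, Measure.integral_comp_smul volume
      (fun w => ‖χ₀ (w - δ • u) - χ₀ w‖) δ, abs_of_pos (by positivity), smul_eq_mul, ← mul_assoc,
      mul_inv_cancel₀ (by positivity), one_mul]
  · obtain ⟨ψ, hψ, hsupp, hφ⟩ := hφ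
    have hcs : HasCompactSupport ψ := by
      refine HasCompactSupport.intro (isCompact_closedBall κ r) fun ζ hζ => ?_
      by_contra hne
      exact hζ (by rw [Metric.mem_closedBall, dist_eq_norm]; exact hsupp ζ hne)
    have hψi : Integrable ψ := hψ.continuous.integrable_of_hasCompactSupport hcs
    simp_rw [hφ]
    rw [fub hψi (SchwartzMap.integrable _) x]
    refine integral_congr_ae (.of_forall fun ζ => ?_)
    dsimp only
    by_cases hz : ψ ζ = 0
    · rw [hz, zero_mul, zero_mul]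
    have h1 : ∫ v, e (inner ℝ v ζ) * (𝓕 η : 𝓢(X, ℂ)) v = 1 := by
      rw [← fourierInv_e, ← SchwartzMap.fourierInv_coe, FourierTransform.fourierInv_fourier_eq, hη]
      refine bf_one ?_
      rw [norm_smul, norm_inv, Real.norm_of_nonneg hδ.le, inv_mul_eq_div, div_le_one hδ]
      exact (hsupp ζ hz).trans hr
    rw [h1, mul_one]

end Pool.Agent.ST53
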