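import Pool.Agent.Lib.MP_53fa4a_an_ST.CDefs

/-!
# Test functions with compact spectrum are Schwartz functions
-/

set_option autoImplicit false

open MeasureTheory Set Filter
open scoped ENNReal Topology ComplexConjugate BigOperators SchwartzMap ContDiff FourierTransform

noncomputable section

namespace Pool.Agent.ST53

variable {X : Type*} [NormedAddCommGroup X] [InnerProductSpace ℝ X] [FiniteDimensional ℝ X]
  [MeasurableSpace X] [BorelSpace X]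

omit [MeasurableSpace X] [BorelSpace X] in
private theorem tt_map {ψ : X → ℂ} {κ : X} {r : ℝ} (hψ : ContDiff ℝ ∞ ψ)
    (hs : ∀ ζ, ψ ζ ≠ 0 → ‖ζ - κ‖ ≤ r) : ∃ Ψ : 𝓢(X, ℂ), ∀ x, Ψ x = ψ x := by
  have hc : HasCompactSupport ψ := by
    refine HasCompactSupport.of_support_subset_isCompact (isCompact_closedBall κ r) ?_
    intro ζ hζ
    rw [Metric.mem_closedBall, dist_eq_norm]
    exact hs ζ hζ
  exact ⟨hc.toSchwartzMap hψ, fun x => rfl⟩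

private theorem tt_fourier (f : X → ℂ) (x : X) :
    (𝓕 f) x = ∫ ζ, f ζ * e (-(inner ℝ ζ x)) := by
  rw [Real.fourier_eq']
  refine integral_congr_ae (Filter.Eventually.of_forall fun ζ => ?_)
  simp only [smul_eq_mul]
  rw [mul_comm]
  congr 1
  unfold e
  congr 1
  push_cast
  ring

/-- PROOF: `ψ` is smooth with support in a ball, so a Schwartz function
(`HasCompactSupport.toSchwartzMap`); `φ = 𝓕 ψ` (`Real.fourier_eq`). -/
theorem gTT_schwartz {κ : X} {r : ℝ} {φ : X → ℂ} (hφ : φ ∈ TT κ r) :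
    ∃ Φ : 𝓢(X, ℂ), ∀ x, Φ x = φ x := by
  obtain ⟨ψ, hψ, hs, hφ⟩ := hφ
  obtain ⟨Ψ, hΨ⟩ := tt_map hψ hs
  refine ⟨𝓕 Ψ, fun x => ?_⟩
  rw [SchwartzMap.fourier_coe, tt_fourier, hφ x]
  simp_rw [hΨ]

/-- PROOF: `∫ φ = ψ(0)` by Fourier inversion for Schwartz functions, and `ψ(0) = 0`. -/
theorem TT_int {κ : X} {r : ℝ} (hr : r < ‖κ‖) {φ : X → ℂ} (hφ : φ ∈ TT κ r) : ∫ x, φ x = 0 := by
  obtain ⟨ψ, hψ, hs, hφ⟩ := hφ
  obtain ⟨Ψ, hΨ⟩ := tt_map hψ hs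
  have h1 : ∀ x, φ x = (𝓕 Ψ : 𝓢(X, ℂ)) x := by
    intro x
    rw [SchwartzMap.fourier_coe, tt_fourier, hφ x]
    simp_rw [hΨ]
  have h2 : 𝓕⁻ (𝓕 Ψ : 𝓢(X, ℂ)) = Ψ := FourierTransform.fourierInv_fourier_eq Ψ
  have h3 : (𝓕⁻ (𝓕 Ψ : 𝓢(X, ℂ)) : 𝓢(X, ℂ)) 0 = ∫ x, (𝓕 Ψ : 𝓢(X, ℂ)) x := by
    rw [SchwartzMap.fourierInv_coe, Real.fourierInv_eq]
    simp
  simp_rw [h1]
  rw [← h3, h2, hΨ]
  by_contra h
  have h4 := hs 0 h
  rw [zero_sub, norm_neg] at h4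
  linarith

theorem gTT_mono {κ : X} {r r' : ℝ} (h : r ≤ r') : TT κ r ⊆ TT κ r' := by
  rintro φ ⟨ψ, hψ, hs, hφ⟩
  exact ⟨ψ, hψ, fun ζ hζ => (hs ζ hζ).trans h, hφ⟩

/-- translates: `φ(x - z)` is the transform of `ψ(ζ) e(⟨ζ,z⟩)` -/
theorem gTT_trans {κ : X} {r : ℝ} {φ : X → ℂ} (hφ : φ ∈ TT κ r) (z : X) :
    (fun x => φ (x - z)) ∈ TT κ r := by
  obtain ⟨ψ, hψ, hs, hφ⟩ := hφ
  refine ⟨fun ζ => ψ ζ * e (inner ℝ ζ z), ?_, ?_, ?_⟩
  · refine hψ.mul ?_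
    unfold e
    refine ContDiff.cexp (contDiff_const.mul ?_)
    exact Complex.ofRealCLM.contDiff.comp (contDiff_id.inner ℝ contDiff_const)
  · intro ζ hζ
    exact hs ζ (left_ne_zero_of_mul hζ)
  · intro x
    change φ (x - z) = ∫ ζ, ψ ζ * e (inner ℝ ζ z) * e (-(inner ℝ ζ x))
    rw [hφ]
    refine integral_congr_ae (Filter.Eventually.of_forall fun ζ => ?_)
    simp only
    rw [mul_assoc, ← e_add, inner_sub_right]
    congr 2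
    ring

end Pool.Agent.ST53
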