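import Pool.Agent.Lib.MP_53fa4a_an_ST.GKer

/-!
# Bounded solutions of the convolution equation with small spectrum are zero
-/

set_option autoImplicit false

open MeasureTheory Set Filter
open scoped ENNReal Topology ComplexConjugate BigOperators SchwartzMap ContDiff FourierTransform

noncomputable section

namespace Pool.Agent.ST53

variable {X : Type*} [NormedAddCommGroup X] [InnerProductSpace ℝ X] [FiniteDimensional ℝ X]
  [MeasurableSpace X] [BorelSpace X]

/-- PROOF: dominated convergence (`τ` is bounded and continuous, `τ 0 = 0`) -/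
theorem small_int {τ : X → ℝ} (hτ : Continuous τ) (h0 : τ 0 = 0) (hp : ∀ u, 0 ≤ τ u)
    (hC : ∃ C, ∀ u, τ u ≤ C) {Γ : X → ℝ} (hΓ : Integrable Γ) {a : ℝ} (ha : 0 < a) :
    ∃ δ : ℝ, 0 < δ ∧ ∫ u, τ (δ • u) * Γ u < a := by
  obtain ⟨C, hC⟩ := hC
  have hlim : Tendsto (fun n : ℕ => ∫ u, τ ((1 / ((n : ℝ) + 1)) • u) * Γ u) atTop
      (𝓝 (∫ u : X, (0 : ℝ))) := by
    refine tendsto_integral_of_dominated_convergence (fun u => C * ‖Γ u‖) (fun n => ?_)
      (hΓ.norm.const_mul C) (fun n => ae_of_all _ fun u => ?_) (ae_of_all _ fun u => ?_)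
    · exact (hτ.comp (continuous_const_smul _)).aestronglyMeasurable.mul hΓ.aestronglyMeasurable
    · rw [norm_mul, Real.norm_of_nonneg (hp _)]
      exact mul_le_mul_of_nonneg_right (hC _) (norm_nonneg _)
    · have h1 : Tendsto (fun n : ℕ => (1 / ((n : ℝ) + 1)) • u) atTop (𝓝 ((0 : ℝ) • u)) :=
        tendsto_one_div_add_atTop_nhds_zero_nat.smul_const u
      rw [zero_smul] at h1
      have h2 := ((hτ.tendsto 0).comp h1).mul_const (Γ u)
      rw [h0, zero_mul] at h2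
      exact h2
  rw [integral_zero] at hlim
  obtain ⟨n, hn⟩ := (hlim.eventually_lt_const ha).exists
  exact ⟨1 / ((n : ℝ) + 1), by positivity, hn⟩

private theorem gz_int {g h : X → ℂ} (hg : Integrable g) (hh : Continuous h) {M : ℝ}
    (hM : ∀ x, ‖h x‖ ≤ M) : Integrable (fun w => h w * g w) := by
  refine (hg.norm.const_mul M).mono' (hh.aestronglyMeasurable.mul hg.aestronglyMeasurable)
    (ae_of_all _ fun w => ?_)
  rw [norm_mul]
  exact mul_le_mul_of_nonneg_right (hM w) (norm_nonneg _)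

private theorem gz_step {τ : X → ℝ} {κ : X} {δ : ℝ} {χ : 𝓢(X, ℂ)}
    (hχ : ∀ u : X, ∫ w, ‖χ (w - u) - e (inner ℝ κ u) * χ w‖ ≤ τ (δ • u))
    {H : X → ℂ} (hc : Continuous H) {M : ℝ} (hM : ∀ x, ‖H x‖ ≤ M)
    (hrep : ∀ x, ∫ v, H (x + v) * χ v = H x) (x u : X) :
    ‖H (x + u) - e (inner ℝ κ u) * H x‖ ≤ M * τ (δ • u) := by
  have hM0 : 0 ≤ M := (norm_nonneg _).trans (hM x)
  have hi : Integrable (fun w => χ w) := χ.integrable
  have hi2 : Integrable (fun w => χ (w - u)) := hi.comp_sub_right u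
  have hcx : Continuous fun w => H (x + w) := hc.comp (continuous_const.add continuous_id)
  have h1 : ∫ w, H (x + w) * χ (w - u) = H (x + u) := by
    have h3 := integral_sub_right_eq_self (μ := volume) (fun v => H (x + u + v) * χ v) u
    rw [hrep] at h3
    rw [← h3]
    refine integral_congr_ae (ae_of_all _ fun w => ?_)
    have h4 : x + u + (w - u) = x + w := by abel
    simp only [h4]
  have h2 : ∫ w, H (x + w) * (χ (w - u) - e (inner ℝ κ u) * χ w) =
      H (x + u) - e (inner ℝ κ u) * H x := by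
    have h5 : ∀ w, H (x + w) * (χ (w - u) - e (inner ℝ κ u) * χ w) =
        H (x + w) * χ (w - u) - e (inner ℝ κ u) * (H (x + w) * χ w) := fun w => by ring
    rw [integral_congr_ae (ae_of_all _ h5), integral_sub
      (gz_int hi2 hcx fun w => hM _) ((gz_int hi hcx fun w => hM _).const_mul _),
      integral_const_mul, h1, hrep]
  rw [← h2]
  have hid : Integrable (fun w => χ (w - u) - e (inner ℝ κ u) * χ w) :=
    hi2.sub (hi.const_mul _)
  calc ‖∫ w, H (x + w) * (χ (w - u) - e (inner ℝ κ u) * χ w)‖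
      ≤ ∫ w, ‖H (x + w) * (χ (w - u) - e (inner ℝ κ u) * χ w)‖ := norm_integral_le_integral_norm _
    _ ≤ ∫ w, M * ‖χ (w - u) - e (inner ℝ κ u) * χ w‖ := by
        refine integral_mono (gz_int hid hcx fun w => hM _).norm (hid.norm.const_mul M)
          fun w => ?_
        simp only [norm_mul]
        exact mul_le_mul_of_nonneg_right (hM _) (norm_nonneg _)
    _ = M * ∫ w, ‖χ (w - u) - e (inner ℝ κ u) * χ w‖ := integral_const_mul _ _
    _ ≤ M * τ (δ • u) := mul_le_mul_of_nonneg_left (hχ u) hM0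

/-- PROOF.  `|H(x+u) - e(⟨κ,u⟩) H(x)| = |∫ H(x+w) (χ(w-u) - e(⟨κ,u⟩) χ(w)) dw| ≤ M τ(δ u)` for
every bound `M` of `|H|`, so `|H(x) ∫ e(⟨κ,u⟩) Γ(u) du| ≤ M ∫ τ(δ u) Γ(u) du`; with `M = sup |H|`
this gives `M a ≤ M a'`, `a' < a`, so `M = 0`. -/
theorem eq_zero_of_ker {τ : X → ℝ} (hτ : Continuous τ) (hp : ∀ u, 0 ≤ τ u)
    (hC : ∃ C, ∀ u, τ u ≤ C) {Γ : X → ℝ} (hΓ : Integrable Γ) (hΓ0 : ∀ u, 0 ≤ Γ u) {κ : X} {a δ : ℝ}
    (ha : ∫ u, ((Γ u : ℝ) : ℂ) * e (inner ℝ κ u) = (a : ℂ)) (hδ : ∫ u, τ (δ • u) * Γ u < a)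
    {χ : 𝓢(X, ℂ)} (hχ : ∀ u : X, ∫ w, ‖χ (w - u) - e (inner ℝ κ u) * χ w‖ ≤ τ (δ • u))
    {H : X → ℂ} (hH : BC H) (hrep : ∀ x, ∫ v, H (x + v) * χ v = H x)
    (hconv : ∀ x, ∫ u, H (x + u) * ((Γ u : ℝ) : ℂ) = 0) (x : X) : H x = 0 := by
  obtain ⟨C, hC⟩ := hC
  obtain ⟨K, hK⟩ := hH.bdd
  set b : ℝ := ∫ u, τ (δ • u) * Γ u with hb
  have hb0 : 0 ≤ b := integral_nonneg fun u => mul_nonneg (hp _) (hΓ0 _)
  have ha0 : 0 < a := hb0.trans_lt hδ
  have hτi : Integrable fun u => τ (δ • u) * Γ u := by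
    refine (hΓ.norm.const_mul C).mono' ((hτ.comp
      (continuous_const_smul δ)).aestronglyMeasurable.mul hΓ.aestronglyMeasurable)
      (ae_of_all _ fun u => ?_)
    rw [norm_mul, Real.norm_of_nonneg (hp _)]
    exact mul_le_mul_of_nonneg_right (hC _) (norm_nonneg _)
  have hΓc : Integrable fun u => ((Γ u : ℝ) : ℂ) := hΓ.ofReal
  have hec : Continuous fun u : X => e (inner ℝ κ u) :=
    continuous_e.comp (continuous_const.inner continuous_id)
  -- every bound can be improved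
  have key : ∀ M : ℝ, (∀ y, ‖H y‖ ≤ M) → ∀ y, ‖H y‖ * a ≤ M * b := by
    intro M hM y
    have hcy : Continuous fun u => H (y + u) := hH.cont.comp (continuous_const.add continuous_id)
    have i1 : Integrable fun u => e (inner ℝ κ u) * ((Γ u : ℝ) : ℂ) :=
      gz_int hΓc hec (M := 1) fun u => (norm_e _).le
    have i2 : Integrable fun u => H (y + u) * ((Γ u : ℝ) : ℂ) := gz_int hΓc hcy fun u => hM _
    have h1 : ∫ u, (H (y + u) - e (inner ℝ κ u) * H y) * ((Γ u : ℝ) : ℂ) = -(H y * a) := by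
      have h2 : ∀ u, (H (y + u) - e (inner ℝ κ u) * H y) * ((Γ u : ℝ) : ℂ) =
          H (y + u) * ((Γ u : ℝ) : ℂ) - H y * (e (inner ℝ κ u) * ((Γ u : ℝ) : ℂ)) :=
        fun u => by ring
      have h3 : ∫ u, e (inner ℝ κ u) * ((Γ u : ℝ) : ℂ) = (a : ℂ) := by
        rw [← ha]
        exact integral_congr_ae (ae_of_all _ fun u => mul_comm _ _)
      rw [integral_congr_ae (ae_of_all _ h2), integral_sub i2 (i1.const_mul _),
        integral_const_mul, hconv, h3, zero_sub]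
    have h4 : ‖H y‖ * a = ‖∫ u, (H (y + u) - e (inner ℝ κ u) * H y) * ((Γ u : ℝ) : ℂ)‖ := by
      rw [h1, norm_neg, norm_mul, Complex.norm_real, Real.norm_of_nonneg ha0.le]
    rw [h4]
    have i3 : Integrable fun u => (H (y + u) - e (inner ℝ κ u) * H y) * ((Γ u : ℝ) : ℂ) :=
      gz_int hΓc (hcy.sub (hec.mul continuous_const)) (M := M + M) fun u => by
        refine (norm_sub_le _ _).trans (add_le_add (hM _) ?_)
        rw [norm_mul, norm_e, one_mul]
        exact hM _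
    calc ‖∫ u, (H (y + u) - e (inner ℝ κ u) * H y) * ((Γ u : ℝ) : ℂ)‖
        ≤ ∫ u, ‖(H (y + u) - e (inner ℝ κ u) * H y) * ((Γ u : ℝ) : ℂ)‖ :=
          norm_integral_le_integral_norm _
      _ ≤ ∫ u, M * (τ (δ • u) * Γ u) := by
          refine integral_mono i3.norm (hτi.const_mul M) fun u => ?_
          simp only [norm_mul, Complex.norm_real, Real.norm_of_nonneg (hΓ0 u)]
          rw [← mul_assoc]
          exact mul_le_mul_of_nonneg_right (gz_step hχ hH.cont hM hrep y u) (hΓ0 u)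
      _ = M * b := integral_const_mul _ _
  -- the supremum
  have hbd : BddAbove (Set.range fun y => ‖H y‖) := ⟨K, by rintro _ ⟨y, rfl⟩; exact hK y⟩
  set S : ℝ := ⨆ y, ‖H y‖ with hS
  have hle : ∀ y, ‖H y‖ ≤ S := fun y => le_ciSup hbd y
  have hS0 : 0 ≤ S := (norm_nonneg _).trans (hle x)
  have h5 : S ≤ S * b / a := ciSup_le fun y => by
    rw [le_div_iff₀ ha0]
    exact key S hle y
  rw [le_div_iff₀ ha0] at h5
  have h6 : S ≤ 0 := by
    by_contra h7
    push Not at h7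
    have := mul_lt_mul_of_pos_left hδ h7
    linarith
  have h7 : ‖H x‖ ≤ 0 := (hle x).trans h6
  exact norm_le_zero_iff.1 h7

end Pool.Agent.ST53
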