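import Pool.Agent.Lib.MP_53fa4a_an_ST.NDef

/-!
# C5: the averages over `V`
-/

set_option autoImplicit false

open MeasureTheory
open scoped BigOperators Topology SchwartzMap ContDiff

noncomputable section

namespace Pool.Agent.ST53

variable {X : Type*} [NormedAddCommGroup X] [InnerProductSpace ℝ X] [FiniteDimensional ℝ X]

/-- a parametric interval integral -/
theorem bv_cont (q : X) {g : X → ℝ} (hg : Continuous g) : Continuous (bv q g) := by
  have h : Continuous (Function.uncurry fun (y : X) (s : ℝ) => g (y - s • q)) :=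
    hg.comp (by fun_prop)
  exact intervalIntegral.continuous_parametric_intervalIntegral_of_continuous' h 0 1

/-- a compact set which contains the support of `g (y - s q)`, `0 ≤ s ≤ 1` -/
private lemma exists_K (q : X) {g : X → ℝ} (hg : HasCompactSupport g) :
    ∃ K : Set X, IsCompact K ∧ (∀ y ∉ K, g y = 0) ∧
      ∀ y ∉ K, ∀ s ∈ Set.Icc (0 : ℝ) 1, g (y - s • q) = 0 := by
  refine ⟨(fun p : X × ℝ => p.1 + p.2 • q) '' (tsupport g ×ˢ Set.Icc (0 : ℝ) 1),
    (hg.isCompact.prod isCompact_Icc).image (by fun_prop), fun y hy => ?_, fun y hy s hs => ?_⟩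
  · by_contra hne
    exact hy ⟨(y, 0), ⟨subset_tsupport g hne, by simp⟩, by simp⟩
  · by_contra hne
    exact hy ⟨(y - s • q, s), ⟨subset_tsupport g hne, hs⟩, by simp⟩

/-- the support is in the set of the `y + s q`, `y ∈ tsupport g`, `s ∈ [0,1]`, compact -/
theorem bv_supp (q : X) {g : X → ℝ} (hg : HasCompactSupport g) : HasCompactSupport (bv q g) := by
  obtain ⟨K, hK, -, h⟩ := exists_K q hg
  refine HasCompactSupport.intro hK fun y hy => ?_
  unfold bv
  have h2 : ∀ s ∈ Set.uIcc (0 : ℝ) 1, g (y - s • q) = (fun _ => (0 : ℝ)) s := by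
    intro s hs
    rw [Set.uIcc_of_le zero_le_one] at hs
    exact h y hy s hs
  rw [intervalIntegral.integral_congr h2]
  simp

omit [FiniteDimensional ℝ X] in
private lemma bc_avs (κ : X) (P : List X) {H : X → ℂ} (hH : BC H) : BC (avs κ P H) := by
  induction P with
  | nil => exact hH
  | cons p P ih => exact ih.av κ p

omit [FiniteDimensional ℝ X] in
private lemma dif_avs (κ v : X) (P : List X) {H : X → ℂ} (hH : BC H) :
    dif v (avs κ P H) = avs κ P (dif v H) := by
  induction P with
  | nil => rfl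
  | cons p P ih =>
    have h1 : avs κ (p :: P) H = av κ p (avs κ P H) := rfl
    have h2 : avs κ (p :: P) (dif v H) = av κ p (avs κ P (dif v H)) := rfl
    rw [h1, h2, ← ih, av_eq_Jt, av_eq_Jt, jt_dif _ _ _ _ (bc_avs κ P hH).cont]

omit [FiniteDimensional ℝ X] in
private lemma bc_Pl (P : List X) {H : X → ℂ} (hH : BC H) : BC (Pl P H) := by
  induction P with
  | nil => exact hH
  | cons p P ih => exact ih.dif p

omit [FiniteDimensional ℝ X] in
/-- `Op` is the product of the averages applied to the product of the differences (`Qa`, `Qd`;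
induction on `Q`; `av κ q` commutes with `dif v`: `jt_dif` of COps.lean). -/
theorem Op_split (V : Submodule ℝ X) (κ : X) (Q : List X) {G : X → ℂ} (hG : BC G) :
    Op V κ Q G = avs κ (Qa V κ Q) (Pl (Qd V κ Q) G) := by
  classical
  induction Q with
  | nil => rfl
  | cons q Q ih =>
    rw [Op, ih]
    by_cases hq : q ∈ V ∧ ∃ n : ℤ, inner ℝ κ q = (n : ℝ)
    · have h1 : Qa V κ (q :: Q) = q :: Qa V κ Q := by
        unfold Qa
        rw [List.filter_cons_of_pos (by simpa using hq)]
      have h2 : Qd V κ (q :: Q) = Qd V κ Q := by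
        unfold Qd
        rw [List.filter_cons_of_neg (by simpa using hq)]
      rw [if_pos hq, h1, h2]
      rfl
    · have h1 : Qa V κ (q :: Q) = Qa V κ Q := by
        unfold Qa
        exact List.filter_cons_of_neg (by simpa using hq)
      have h2 : Qd V κ (q :: Q) = q :: Qd V κ Q := by
        unfold Qd
        exact List.filter_cons_of_pos (by simpa only [decide_eq_true_eq] using hq)
      rw [if_neg hq, h1, h2, dif_avs κ q _ (bc_Pl _ hG)]
      rfl

variable [MeasurableSpace X] [BorelSpace X] {V : Submodule ℝ X} (μ : Measure V)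
  [μ.IsAddHaarMeasure]

/-- Fubini for a continuous function with compact support in the first variable -/
private lemma swap01 {F : V → ℝ → ℂ} (hF : Continuous (Function.uncurry F)) {K : Set V}
    (hK : IsCompact K) (h0 : ∀ w ∉ K, ∀ s ∈ Set.Icc (0 : ℝ) 1, F w s = 0) :
    ∫ w, (∫ s in (0 : ℝ)..1, F w s) ∂μ = ∫ s in (0 : ℝ)..1, (∫ w, F w s ∂μ) := by
  simp_rw [intervalIntegral.integral_of_le (zero_le_one' ℝ)]
  refine integral_integral_swap ?_
  have h1 : μ.prod (volume.restrict (Set.Ioc (0 : ℝ) 1)) =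
      (μ.prod volume).restrict (Set.univ ×ˢ Set.Ioc (0 : ℝ) 1) := by
    rw [← Measure.prod_restrict, Measure.restrict_univ]
  rw [h1]
  have h2 : IntegrableOn (Function.uncurry F) (K ×ˢ Set.Icc (0 : ℝ) 1) (μ.prod volume) :=
    hF.continuousOn.integrableOn_compact (hK.prod isCompact_Icc)
  refine h2.of_forall_sdiff_eq_zero (MeasurableSet.univ.prod measurableSet_Ioc) ?_
  rintro ⟨w, s⟩ ⟨hws, hn⟩
  have hs : s ∈ Set.Icc (0 : ℝ) 1 := Set.Ioc_subset_Icc_self hws.2
  exact h0 w (fun hw => hn ⟨hw, hs⟩) s hs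

/-- Fubini and the translation `w ↦ w - s q` in `V`. -/
theorem II_av {κ q : X} (hq : q ∈ V) {g : X → ℝ} (hg : Continuous g) (hs : HasCompactSupport g)
    {G : X → ℂ} (hG : BC G) (x : X) : II μ κ g (av κ q G) x = II μ κ (bv q g) G x := by
  obtain ⟨K, hK, hK0, hK1⟩ := exists_K q hs
  have hcl : IsClosed (V : Set X) := V.closed_of_finiteDimensional
  have hKV : IsCompact ((fun w : V => (w : X)) ⁻¹' K) :=
    hcl.isClosedEmbedding_subtypeVal.isCompact_preimage hK
  have hGc := hG.cont
  -- the two functions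
  obtain ⟨F₁, hF₁⟩ : ∃ F₁ : V → ℝ → ℂ, F₁ = fun (w : V) (s : ℝ) =>
      (g w : ℂ) * e (-(inner ℝ κ (w : X))) *
        (e (-(s * inner ℝ κ q)) * G (x + w + s • q)) := ⟨_, rfl⟩
  obtain ⟨F₂, hF₂⟩ : ∃ F₂ : V → ℝ → ℂ, F₂ = fun (w : V) (s : ℝ) =>
      (g ((w : X) - s • q) : ℂ) * (e (-(inner ℝ κ (w : X))) * G (x + w)) := ⟨_, rfl⟩
  have hc1 : Continuous (Function.uncurry F₁) := by
    rw [hF₁]
    have a1 : Continuous fun p : V × ℝ => (g (p.1 : X) : ℂ) :=
      Complex.continuous_ofReal.comp (hg.comp (by fun_prop))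
    have a2 : Continuous fun p : V × ℝ => e (-(inner ℝ κ (p.1 : X))) :=
      continuous_e.comp (by fun_prop)
    have a3 : Continuous fun p : V × ℝ => e (-(p.2 * inner ℝ κ q)) :=
      continuous_e.comp (by fun_prop)
    have a4 : Continuous fun p : V × ℝ => G (x + p.1 + p.2 • q) := hGc.comp (by fun_prop)
    exact (a1.mul a2).mul (a3.mul a4)
  have hc2 : Continuous (Function.uncurry F₂) := by
    rw [hF₂]
    have a1 : Continuous fun p : V × ℝ => (g ((p.1 : X) - p.2 • q) : ℂ) :=
      Complex.continuous_ofReal.comp (hg.comp (by fun_prop))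
    have a2 : Continuous fun p : V × ℝ => e (-(inner ℝ κ (p.1 : X))) :=
      continuous_e.comp (by fun_prop)
    have a4 : Continuous fun p : V × ℝ => G (x + p.1) := hGc.comp (by fun_prop)
    exact a1.mul (a2.mul a4)
  have hs1 := swap01 μ hc1 hKV (fun w hw s _ => by
    rw [hF₁]
    dsimp only
    rw [hK0 _ hw]
    simp)
  have hs2 := swap01 μ hc2 hKV (fun w hw s hsI => by
    rw [hF₂]
    dsimp only
    rw [hK1 _ hw s hsI]
    simp)
  have hmid : ∀ s : ℝ, ∫ w, F₁ w s ∂μ = ∫ w, F₂ w s ∂μ := by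
    intro s
    rw [← integral_add_right_eq_self (fun w => F₂ w s) (s • (⟨q, hq⟩ : V))]
    refine integral_congr_ae (Filter.Eventually.of_forall fun w => ?_)
    rw [hF₁, hF₂]
    simp only [Submodule.coe_add, Submodule.coe_smul, add_sub_cancel_right, inner_add_right,
      inner_smul_right]
    rw [neg_add, e_add, ← add_assoc]
    ring
  have hL : II μ κ g (av κ q G) x = ∫ w, (∫ s in (0 : ℝ)..1, F₁ w s) ∂μ := by
    unfold II av
    refine integral_congr_ae (Filter.Eventually.of_forall fun w => ?_)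
    rw [hF₁]
    dsimp only
    rw [intervalIntegral.integral_const_mul]
  have hR : II μ κ (bv q g) G x = ∫ w, (∫ s in (0 : ℝ)..1, F₂ w s) ∂μ := by
    unfold II bv
    refine integral_congr_ae (Filter.Eventually.of_forall fun w => ?_)
    rw [hF₂]
    dsimp only
    rw [intervalIntegral.integral_mul_const, intervalIntegral.integral_ofReal]
    ring
  rw [hL, hR, hs1, hs2]
  simp_rw [hmid]

theorem II_avs {κ : X} {Q : List X} (hQ : ∀ q ∈ Q, q ∈ V) {g : X → ℝ} (hg : Continuous g)
    (hs : HasCompactSupport g) {G : X → ℂ} (hG : BC G) (x : X) :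
    II μ κ g (avs κ Q G) x = II μ κ (bvs Q g) G x := by
  induction Q generalizing g with
  | nil => rfl
  | cons q Q ih =>
    have h1 : avs κ (q :: Q) G = av κ q (avs κ Q G) := rfl
    have h2 : bvs (q :: Q) g = bvs Q (bv q g) := rfl
    rw [h1, h2, II_av μ (hQ q (by simp)) hg hs (bc_avs κ Q hG) x]
    exact ih (fun p hp => hQ p (by simp [hp])) (bv_cont q hg) (bv_supp q hs)

theorem II_eqv {κ : X} {g : X → ℝ} (hg : Continuous g) (hs : HasCompactSupport g)
    (h1 : ∫ w : V, g w ∂μ = 1) {G : X → ℂ} (hG : Eqv V κ G) (x : X) : II μ κ g G x = G x := by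
  unfold II
  have h : ∀ w : V, (g w : ℂ) * e (-(inner ℝ κ (w : X))) * G (x + w) = (g w : ℂ) * G x := by
    intro w
    rw [hG w w.2 x]
    have h2 := e_neg (inner ℝ κ (w : X))
    calc (g w : ℂ) * e (-(inner ℝ κ (w : X))) * (e (inner ℝ κ (w : X)) * G x)
        = (g w : ℂ) * (e (-(inner ℝ κ (w : X))) * e (inner ℝ κ (w : X))) * G x := by ring
      _ = (g w : ℂ) * G x := by rw [h2, mul_one]
  simp_rw [h]
  rw [integral_mul_const]
  have h3 : ∫ w : V, (g w : ℂ) ∂μ = ((∫ w : V, g w ∂μ : ℝ) : ℂ) := integral_ofReal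
  rw [h3, h1]
  simp

/-- a normalized bump function of `X`, its restriction to `V` has a positive integral -/
theorem exists_beta : ∃ β : X → ℝ, Continuous β ∧ HasCompactSupport β ∧
    ∫ w : V, β w ∂μ = 1 := by
  obtain ⟨f, hf⟩ : ∃ f : ContDiffBump (0 : X), f.rIn = 1 :=
    ⟨⟨1, 2, one_pos, one_lt_two⟩, rfl⟩
  have hcl : IsClosed (V : Set X) := V.closed_of_finiteDimensional
  have hc : Continuous fun w : V => f (w : X) := f.continuous.comp continuous_subtype_val
  have hcs : HasCompactSupport fun w : V => f (w : X) :=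
    f.hasCompactSupport.comp_isClosedEmbedding hcl.isClosedEmbedding_subtypeVal
  have hpos : 0 < ∫ w : V, f (w : X) ∂μ := by
    refine hc.integral_pos_of_hasCompactSupport_nonneg_nonzero hcs (fun w => f.nonneg)
      (x := (0 : V)) ?_
    have h1 : f (((0 : V) : X)) = 1 := by
      apply f.one_of_mem_closedBall
      rw [hf]
      simp
    rw [h1]
    exact one_ne_zero
  refine ⟨fun y => f y * (∫ w : V, f (w : X) ∂μ)⁻¹, f.continuous.mul continuous_const,
    f.hasCompactSupport.mul_right, ?_⟩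
  rw [integral_mul_const]
  exact mul_inv_cancel₀ hpos.ne'

theorem bvs_cont (Q : List X) {g : X → ℝ} (hg : Continuous g) : Continuous (bvs Q g) := by
  induction Q generalizing g with
  | nil => exact hg
  | cons q Q ih => exact ih (bv_cont q hg)

theorem bvs_supp (Q : List X) {g : X → ℝ} (hg : HasCompactSupport g) :
    HasCompactSupport (bvs Q g) := by
  induction Q generalizing g with
  | nil => exact hg
  | cons q Q ih => exact ih (bv_supp q hg)

/-- **The averaging formula.** -/
theorem op_rep (κ : X) (Q : List X) : ∃ k : X → ℝ, Continuous k ∧ HasCompactSupport k ∧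
    ∀ G : X → ℂ, BC G → Eqv V κ (Op V κ Q G) →
      Op V κ Q G = II μ κ k (Pl (Qd V κ Q) G) := by
  obtain ⟨β, h1, h2, h3⟩ := exists_beta μ
  refine ⟨bvs (Qa V κ Q) β, bvs_cont _ h1, bvs_supp _ h2, fun G hG hE => ?_⟩
  have hPl : BC (Pl (Qd V κ Q) G) := by
    have : ∀ P : List X, BC (Pl P G) := by
      intro P
      induction P with
      | nil => exact hG
      | cons q P ih => exact ih.dif q
    exact this _
  funext x
  rw [← II_eqv μ h1 h2 h3 hE x, Op_split V κ Q hG, II_avs μ (fun q hq => ?_) h1 h2 hPl]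
  unfold Qa at hq
  have := (List.mem_filter.1 hq).2
  simp only [decide_eq_true_eq] at this
  exact this.1

end Pool.Agent.ST53
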