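import Pool.Agent.Lib.MP_53fa4a_an_ST.CTree
import Pool.Agent.Lib.MP_53fa4a_an_ST.CRat
import Pool.Agent.Lib.MP_53fa4a_an_ST.CSum
import Pool.Agent.Lib.MP_53fa4a_an_ST.CTT

/-!
# Part C5 (the node): definitions

Text: /team-store/TEXT_53fa4a_ST.md, C5.  `V` is a subspace of `X`, `μ` a Haar measure on `V`.
-/

set_option autoImplicit false

open MeasureTheory
open scoped BigOperators Topology SchwartzMap ContDiff

noncomputable section

namespace Pool.Agent.ST53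

section one

variable {X : Type*} [NormedAddCommGroup X] [InnerProductSpace ℝ X]

/-- the product of the averages `av κ q`, `q ∈ Q` -/
def avs (κ : X) (Q : List X) (G : X → ℂ) : X → ℂ := Q.foldr (av κ) G

/-- `∫_0^1 g(y - s q) ds` -/
def bv (q : X) (g : X → ℝ) : X → ℝ := fun y => ∫ s in (0 : ℝ)..1, g (y - s • q)

/-- `bv q` for all `q ∈ Q` -/
def bvs : List X → (X → ℝ) → (X → ℝ)
  | [], g => g
  | q :: Q, g => bvs Q (bv q g)

/-- the averaging part of `Q` -/
def Qa (V : Submodule ℝ X) (κ : X) (Q : List X) : List X := by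
  classical
  exact Q.filter fun q => decide (q ∈ V ∧ ∃ n : ℤ, inner ℝ κ q = (n : ℝ))

/-- the difference part of `Q` -/
def Qd (V : Submodule ℝ X) (κ : X) (Q : List X) : List X := by
  classical
  exact Q.filter fun q => decide (¬ (q ∈ V ∧ ∃ n : ℤ, inner ℝ κ q = (n : ℝ)))

/-- the kernel: `g(z) e(-⟨κ,z⟩)` on `V`, `0` outside `V` -/
def kk (V : Submodule ℝ X) (κ : X) (g : X → ℝ) : X → ℂ :=
  (V : Set X).indicator fun z => (g z : ℂ) * e (-(inner ℝ κ z))

/-- the orthogonal projection to `Vᗮ` -/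
def pp (V : Submodule ℝ X) [V.HasOrthogonalProjection] : X →L[ℝ] Vᗮ := Vᗮ.orthogonalProjectionOnto

/-- the image of `L` in `Vᗮ` -/
def Lp (V : Submodule ℝ X) [V.HasOrthogonalProjection] (L : AddSubgroup X) : AddSubgroup Vᗮ :=
  L.map (pp V).toLinearMap.toAddMonoidHom

/-- the image of `E` in `Vᗮ` -/
def Ep (V : Submodule ℝ X) [V.HasOrthogonalProjection] (E : Finset X) : Finset Vᗮ := by
  classical
  exact E.image (pp V)

end one

variable {X : Type*} [NormedAddCommGroup X] [InnerProductSpace ℝ X] [MeasurableSpace X]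
  {V : Submodule ℝ X}

/-- `∫_V g(w) e(-⟨κ,w⟩) G(x+w) dw` -/
def II (μ : Measure V) (κ : X) (g : X → ℝ) (G : X → ℂ) (x : X) : ℂ :=
  ∫ w : V, (g w : ℂ) * e (-(inner ℝ κ (w : X))) * G (x + w) ∂μ

/-- `Φ_φ(z) = ∫_V φ(z+w) e⟨κ₀,z+w⟩ dw` -/
def Ph (μ : Measure V) (κ₀ : X) (φ : X → ℂ) (z : X) : ℂ :=
  ∫ w : V, φ (z + w) * e (inner ℝ κ₀ (z + w)) ∂μ

end Pool.Agent.ST53
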