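import Pool.Agent.Lib.MP_53fa4a_an_ST.NReg
import Pool.Agent.Lib.MP_53fa4a_an_ST.BDisc

/-!
# C5: the density `S = FF g kk` is `V`-equivariant
-/

set_option autoImplicit false

open MeasureTheory
open scoped BigOperators Topology SchwartzMap ContDiff

noncomputable section

namespace Pool.Agent.ST53

variable {X : Type*} [NormedAddCommGroup X] [InnerProductSpace ℝ X] [FiniteDimensional ℝ X]

/-- `π(D)` is the set `DD` of the projections -/
theorem pp_DD (V : Submodule ℝ X) (L : AddSubgroup X) (E : Finset X) {x : X} (hx : x ∈ DD L E) :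
    pp V x ∈ DD (Lp V L) (Ep V E) := by
  classical
  obtain ⟨l, hl, a, ha, rfl⟩ := hx
  refine ⟨pp V l, ⟨l, hl, rfl⟩, pp V a, ?_, map_add _ _ _⟩
  unfold Ep
  exact Finset.mem_image_of_mem _ ha

theorem Lp_int {V : Submodule ℝ X} {n' : ℕ} (b' : Module.Basis (Fin n') ℝ Vᗮ) (L : AddSubgroup X)
    (hb' : ∀ i, ∀ l ∈ L, ∃ m : ℤ, inner ℝ ((b' i : Vᗮ) : X) l = (m : ℝ)) :
    ∀ l ∈ Lp V L, ∀ i, ∃ m : ℤ, inner ℝ (b' i) l = (m : ℝ) := by
  rintro _ ⟨l, hl, rfl⟩ i
  obtain ⟨m, hm⟩ := hb' i l hl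
  refine ⟨m, ?_⟩
  rw [← hm]
  exact Submodule.inner_orthogonalProjectionOnto_eq_of_mem_left (K := Vᗮ) (b' i) l

private theorem neqv_coe (V : Submodule ℝ X) (z : Vᗮ) (w : V) : pp V ((z : X) + w) = z := by
  have h1 : pp V (z : X) = z := Submodule.orthogonalProjectionOnto_mem_subspace_eq_self z
  have h2 : pp V (w : X) = 0 := by
    unfold pp
    rw [Submodule.orthogonalProjectionOnto_eq_zero_iff]
    exact Submodule.le_orthogonal_orthogonal V w.2
  rw [map_add, h1, h2, add_zero]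

private theorem neqv_coe' (V : Submodule ℝ X) (z : Vᗮ) (w : V) :
    V.orthogonalProjectionOnto ((z : X) + w) = w := by
  have h1 : V.orthogonalProjectionOnto (w : X) = w :=
    Submodule.orthogonalProjectionOnto_mem_subspace_eq_self w
  have h2 : V.orthogonalProjectionOnto (z : X) = 0 := by
    rw [Submodule.orthogonalProjectionOnto_eq_zero_iff]
    exact z.2
  rw [map_add, h1, h2, zero_add]

private theorem neqv_dec (V : Submodule ℝ X) (x : X) :
    ((pp V x : Vᗮ) : X) + V.orthogonalProjectionOnto x = x := by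
  have h := V.starProjection_add_starProjection_orthogonal x
  rw [add_comm]
  exact h

/-- a finite sum near every point (`disc`): the points `y ∈ D` with `‖y - z - w‖ ≤ R` -/
theorem S_cont {n : ℕ} (b : Module.Basis (Fin n) ℝ X) (L : AddSubgroup X)
    (hL : ∀ l ∈ L, ∀ i, ∃ m : ℤ, inner ℝ (b i) l = (m : ℝ)) (E : Finset X) {g : X → ℂ}
    (hs : ∀ x, g x ≠ 0 → x ∈ DD L E) (V : Submodule ℝ X) (κ : X) {k : X → ℝ}
    (hk : Continuous k) (hks : HasCompactSupport k) (z : X) :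
    Continuous fun w : V => FF g (kk V κ k) (z + w) := by
  classical
  obtain ⟨R, hR⟩ := hks.isCompact.isBounded.subset_closedBall 0
  have hk0 : ∀ x, k x ≠ 0 → ‖x‖ ≤ R := by
    intro x hx
    have h1 := hR (subset_tsupport _ hx)
    rwa [mem_closedBall_zero_iff] at h1
  rw [continuous_iff_continuousAt]
  intro w₀
  set T : Finset X := (disc b L hL E (R + ‖z‖ + ‖w₀‖ + 1)).toFinset with hT
  have hterm : ∀ y : X, Continuous fun w : V => g y * kk V κ k (y - (z + w)) := by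
    intro y
    refine continuous_const.mul ?_
    by_cases hy : y - z ∈ V
    · have h1 : (fun w : V => kk V κ k (y - (z + w))) =
          fun w : V => (k (y - (z + w)) : ℂ) * e (-(inner ℝ κ (y - (z + w)))) := by
        funext w
        unfold kk
        rw [Set.indicator_of_mem]
        have h2 : y - (z + w) = (y - z) - w := by abel
        rw [h2]
        exact V.sub_mem hy w.2
      rw [h1]
      refine (Complex.continuous_ofReal.comp (hk.comp ?_)).mul (continuous_e.comp ?_)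
      · fun_prop
      · fun_prop
    · have h1 : (fun w : V => kk V κ k (y - (z + w))) = fun w : V => (0 : ℂ) := by
        funext w
        unfold kk
        rw [Set.indicator_of_notMem]
        intro h2
        have h3 := V.add_mem h2 w.2
        have h4 : y - (z + w) + w = y - z := by abel
        rw [h4] at h3
        exact hy h3
      rw [h1]
      exact continuous_const
  have hfin : Continuous fun w : V => ∑ y ∈ T, g y * kk V κ k (y - (z + w)) :=
    continuous_finsetSum _ fun y _ => hterm y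
  refine hfin.continuousAt.congr ?_
  filter_upwards [Metric.ball_mem_nhds w₀ one_pos] with w hw
  unfold FF
  symm
  refine tsum_eq_sum fun y hy => ?_
  by_contra hne
  obtain ⟨h1, h2⟩ := mul_ne_zero_iff.1 hne
  refine hy ?_
  rw [hT, Set.Finite.mem_toFinset]
  refine ⟨hs y h1, ?_⟩
  have h3 : k (y - (z + w)) ≠ 0 := by
    intro h4
    refine h2 ?_
    unfold kk
    by_cases h5 : y - (z + w) ∈ (V : Set X)
    · rw [Set.indicator_of_mem h5, h4]
      simp
    · rw [Set.indicator_of_notMem h5]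
  have h4 := hk0 _ h3
  have h5 : ‖w‖ ≤ ‖w₀‖ + 1 := by
    rw [mem_ball_iff_norm] at hw
    calc ‖w‖ = ‖w₀ + (w - w₀)‖ := by rw [add_sub_cancel]
      _ ≤ ‖w₀‖ + ‖w - w₀‖ := norm_add_le _ _
      _ ≤ ‖w₀‖ + 1 := by linarith
  calc ‖y‖ = ‖(y - (z + w)) + (z + w)‖ := by rw [sub_add_cancel]
    _ ≤ ‖y - (z + w)‖ + ‖z + (w : X)‖ := norm_add_le _ _
    _ ≤ ‖y - (z + w)‖ + (‖z‖ + ‖(w : X)‖) := by gcongr; exact norm_add_le _ _
    _ ≤ R + ‖z‖ + ‖w₀‖ + 1 := by
      have h6 : ‖(w : X)‖ = ‖w‖ := rfl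
      rw [h6]
      linarith

/-- `S` is `0` on `z + V` if `z ∉ π(D)` -/
theorem S_zero (L : AddSubgroup X) (E : Finset X) {g : X → ℂ}
    (hs : ∀ x, g x ≠ 0 → x ∈ DD L E) (V : Submodule ℝ X) (κ : X) (k : X → ℝ) {x : X}
    (hx : pp V x ∉ DD (Lp V L) (Ep V E)) : FF g (kk V κ k) x = 0 := by
  have h0 : ∀ y, g y * kk V κ k (y - x) = 0 := by
    intro y
    by_contra hne
    obtain ⟨h1, h2⟩ := mul_ne_zero_iff.1 hne
    have h3 : y - x ∈ V := by
      by_contra h4
      exact h2 (Set.indicator_of_notMem h4 _)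
    have h5 : pp V (y - x) = 0 := by
      unfold pp
      rw [Submodule.orthogonalProjectionOnto_eq_zero_iff]
      exact Submodule.le_orthogonal_orthogonal V h3
    rw [map_sub, sub_eq_zero] at h5
    rw [← h5] at hx
    exact hx (pp_DD V L E (hs y h1))
  unfold FF
  simp only [h0]
  exact tsum_zero

/-- a Schwartz function `φ(z+w) = η(z) χ(w)` -/
theorem exists_prod {V : Submodule ℝ X} {η : Vᗮ → ℝ} (hη : ContDiff ℝ ∞ η)
    (hηs : HasCompactSupport η) {χ : V → ℝ} (hχ : ContDiff ℝ ∞ χ) (hχs : HasCompactSupport χ) :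
    ∃ φ : 𝓢(X, ℂ), ∀ (z : Vᗮ) (w : V), φ ((z : X) + w) = (η z : ℂ) * (χ w : ℂ) := by
  obtain ⟨R₁, hR₁⟩ := hηs.isCompact.isBounded.subset_closedBall 0
  obtain ⟨R₂, hR₂⟩ := hχs.isCompact.isBounded.subset_closedBall 0
  set f : X → ℂ := fun x => (η (pp V x) : ℂ) * (χ (V.orthogonalProjectionOnto x) : ℂ) with hf
  have h1 : ContDiff ℝ ∞ f := by
    rw [hf]
    refine ContDiff.mul ?_ ?_
    · exact Complex.ofRealCLM.contDiff.comp (hη.comp (pp V).contDiff)
    · exact Complex.ofRealCLM.contDiff.comp (hχ.comp (V.orthogonalProjectionOnto).contDiff)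
  have h2 : HasCompactSupport f := by
    refine HasCompactSupport.intro (isCompact_closedBall (0 : X) (R₁ + R₂)) fun x hx => ?_
    by_contra hne
    obtain ⟨h3, h4⟩ := mul_ne_zero_iff.1 hne
    refine hx ?_
    have h5 := hR₁ (subset_tsupport _ (fun h => h3 (by rw [h, Complex.ofReal_zero])))
    have h6 := hR₂ (subset_tsupport _ (fun h => h4 (by rw [h, Complex.ofReal_zero])))
    rw [mem_closedBall_zero_iff] at h5 h6 ⊢
    calc ‖x‖ = ‖((pp V x : Vᗮ) : X) + V.orthogonalProjectionOnto x‖ := by rw [neqv_dec]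
      _ ≤ ‖((pp V x : Vᗮ) : X)‖ + ‖((V.orthogonalProjectionOnto x : V) : X)‖ := norm_add_le _ _
      _ ≤ R₁ + R₂ := add_le_add h5 h6
  refine ⟨h2.toSchwartzMap h1, fun z w => ?_⟩
  rw [HasCompactSupport.toSchwartzMap_toFun]
  simp only [hf]
  rw [neqv_coe, neqv_coe']

variable [MeasurableSpace X] [BorelSpace X] {V : Submodule ℝ X} (μ : Measure V)
  [μ.IsAddHaarMeasure]

/-- the sum over `Vᗮ` for a product `φ = η χ` with `η` isolating `z₀` -/
private theorem neqv_reg {n : ℕ} (b : Module.Basis (Fin n) ℝ X) (L : AddSubgroup X)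
    (hL : ∀ l ∈ L, ∀ i, ∃ m : ℤ, inner ℝ (b i) l = (m : ℝ)) (E : Finset X) {g : X → ℂ}
    {C : ℝ} (hg : ∀ x, ‖g x‖ ≤ C) (hs : ∀ x, g x ≠ 0 → x ∈ DD L E) {κ : X} {k : X → ℝ}
    (hk : Continuous k) (hks : HasCompactSupport k) {η : Vᗮ → ℝ} {z₀ : Vᗮ} (hη1 : η z₀ = 1)
    (hη0 : ∀ z ∈ DD (Lp V L) (Ep V E), z ≠ z₀ → η z = 0) {χ : V → ℝ} (φ : 𝓢(X, ℂ))
    (hφ : ∀ (z : Vᗮ) (w : V), φ ((z : X) + w) = (η z : ℂ) * (χ w : ℂ)) :
    II μ κ k (FF g φ) 0 = ∫ w : V, (χ w : ℂ) * FF g (kk V κ k) ((z₀ : X) + w) ∂μ := by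
  rw [regroup μ b L hL E hg hs κ hk hks φ]
  rw [tsum_eq_single z₀]
  · refine integral_congr_ae (Filter.Eventually.of_forall fun w => ?_)
    simp only
    rw [hφ, hη1, Complex.ofReal_one, one_mul]
  · intro z hz
    have h0 : ∀ w : V, φ ((z : X) + w) * FF g (kk V κ k) ((z : X) + w) = 0 := by
      intro w
      by_cases hzD : z ∈ DD (Lp V L) (Ep V E)
      · rw [hφ, hη0 z hzD hz, Complex.ofReal_zero, zero_mul, zero_mul]
      · rw [S_zero L E hs V κ k (x := (z : X) + w), mul_zero]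
        rw [neqv_coe]
        exact hzD
    simp only [h0]
    exact integral_zero _ _

/-- a bump function at `z₀` which is `0` at the other points of a locally finite set -/
private theorem neqv_bump {Y : Type*} [NormedAddCommGroup Y] [InnerProductSpace ℝ Y]
    [FiniteDimensional ℝ Y] {n' : ℕ} (b' : Module.Basis (Fin n') ℝ Y) (L : AddSubgroup Y)
    (hL : ∀ l ∈ L, ∀ i, ∃ m : ℤ, inner ℝ (b' i) l = (m : ℝ)) (E : Finset Y) (z₀ : Y) :
    ∃ η : Y → ℝ, ContDiff ℝ ∞ η ∧ HasCompactSupport η ∧ η z₀ = 1 ∧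
      ∀ z ∈ DD L E, z ≠ z₀ → η z = 0 := by
  have hfin := disc b' L hL E (‖z₀‖ + 1)
  have hU : ({x | x ∈ DD L E ∧ ‖x‖ ≤ ‖z₀‖ + 1} \ {z₀})ᶜ ∈ 𝓝 z₀ :=
    (hfin.subset Set.sdiff_subset).isClosed.isOpen_compl.mem_nhds fun h => h.2 rfl
  obtain ⟨r, hr, hrU⟩ := Metric.mem_nhds_iff.1 hU
  set r' := min r 1 with hr'
  have hr'0 : 0 < r' := lt_min hr one_pos
  set f : ContDiffBump z₀ := ⟨r' / 2, r', by positivity, by linarith⟩ with hf
  refine ⟨f, f.contDiff, f.hasCompactSupport, ?_, ?_⟩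
  · exact f.one_of_mem_closedBall (Metric.mem_closedBall_self f.rIn_pos.le)
  · intro z hz hne
    refine f.zero_of_le_dist ?_
    by_contra hlt
    rw [not_le] at hlt
    have hrO : f.rOut = r' := rfl
    rw [hrO] at hlt
    have h1 : z ∈ Metric.ball z₀ r := lt_of_lt_of_le hlt (min_le_left _ _)
    refine hrU h1 ⟨⟨hz, ?_⟩, hne⟩
    have h2 : dist z z₀ < 1 := lt_of_lt_of_le hlt (min_le_right _ _)
    rw [dist_eq_norm] at h2
    calc ‖z‖ = ‖z₀ + (z - z₀)‖ := by rw [add_sub_cancel]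
      _ ≤ ‖z₀‖ + ‖z - z₀‖ := norm_add_le _ _
      _ ≤ ‖z₀‖ + 1 := by linarith

/-- **`S` is `V`-equivariant.**  PROOF: let `v ∈ V`, `z₀ ∈ Vᗮ`; `η` a bump function at `z₀` which is
`0` at the other points of `π(D)` (`disc` for `b'`), `η z₀ = 1`; `χ` any smooth function with compact
support on `V`; `φ = η χ` (`exists_prod`).  `hE`, `regroup` for `φ` and for `φ(· - v)`
(`SchwartzMap.compSubConstCLM`, `II μ κ k (FF g φ) v = II μ κ k (FF g (φ(·-v))) 0`) give
`∫ χ(w - v) S(z₀+w) dw = e⟨κ,v⟩ ∫ χ(w) S(z₀+w) dw`, so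
`∫ χ(w) (S(z₀+w+v) - e⟨κ,v⟩ S(z₀+w)) dw = 0`, so the continuous function in brackets is `0`
(`ae_eq_zero_of_integral_contDiff_smul_eq_zero`). -/
theorem S_eqv {n : ℕ} (b : Module.Basis (Fin n) ℝ X) (L : AddSubgroup X)
    (hL : ∀ l ∈ L, ∀ i, ∃ m : ℤ, inner ℝ (b i) l = (m : ℝ)) (E : Finset X)
    {n' : ℕ} (b' : Module.Basis (Fin n') ℝ Vᗮ)
    (hb' : ∀ i, ∀ l ∈ L, ∃ m : ℤ, inner ℝ ((b' i : Vᗮ) : X) l = (m : ℝ)) {g : X → ℂ}
    {C : ℝ} (hg : ∀ x, ‖g x‖ ≤ C) (hs : ∀ x, g x ≠ 0 → x ∈ DD L E) {κ : X} {k : X → ℝ}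
    (hk : Continuous k) (hks : HasCompactSupport k)
    (hE : ∀ φ : 𝓢(X, ℂ), Eqv V κ (II μ κ k (FF g φ))) : Eqv V κ (FF g (kk V κ k)) := by
  intro v hv x
  set z₀ : Vᗮ := pp V x with hz₀
  set v' : V := ⟨v, hv⟩ with hv'
  set F : V → ℂ := fun w => FF g (kk V κ k) ((z₀ : X) + w) with hF
  have hFc : Continuous F := S_cont b L hL E hs V κ hk hks (z₀ : X)
  set G : V → ℂ := fun w => F (w + v') - e (inner ℝ κ v) * F w with hG
  have hGc : Continuous G := by
    rw [hG]
    exact (hFc.comp (continuous_id.add continuous_const)).sub (continuous_const.mul hFc)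
  obtain ⟨η, hη, hηs, hη1, hη0⟩ :=
    neqv_bump b' (Lp V L) (Lp_int b' L hb') (Ep V E) z₀
  have hint : ∀ χ : V → ℝ, ContDiff ℝ ∞ χ → HasCompactSupport χ → ∫ w, χ w • G w ∂μ = 0 := by
    intro χ hχ hχs
    obtain ⟨φ, hφ⟩ := exists_prod hη hηs hχ hχs
    have h1 := neqv_reg μ b L hL E hg hs (κ := κ) hk hks hη1 hη0 φ hφ
    have h2 := neqv_reg μ b L hL E hg hs (κ := κ) hk hks hη1 hη0 (χ := fun w => χ (w - v'))
      (φ.compSubConstCLM ℝ v) (fun z w => by
        rw [SchwartzMap.compSubConstCLM_apply, ← hφ]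
        congr 1
        rw [Submodule.coe_sub]
        abel)
    have h3 : II μ κ k (FF g (φ.compSubConstCLM ℝ v)) 0 = II μ κ k (FF g φ) v := by
      unfold II
      refine integral_congr_ae (Filter.Eventually.of_forall fun w => ?_)
      simp only
      congr 1
      rw [zero_add, add_comm v (w : X), cFF_sh']
      rfl
    have h4 := hE φ v hv 0
    rw [zero_add, ← h3, h2, h1] at h4
    have h5 : ∫ w : V, ((χ (w - v') : ℝ) : ℂ) * F w ∂μ = ∫ w : V, (χ w : ℂ) * F (w + v') ∂μ := by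
      rw [← integral_add_right_eq_self (fun w : V => ((χ (w - v') : ℝ) : ℂ) * F w) v']
      simp only [add_sub_cancel_right]
    have hχc : Continuous fun w : V => (χ w : ℂ) := Complex.continuous_ofReal.comp hχ.continuous
    have hχcs : HasCompactSupport fun w : V => (χ w : ℂ) :=
      hχs.comp_left (g := fun t : ℝ => (t : ℂ)) Complex.ofReal_zero
    have hi1 : Integrable (fun w : V => (χ w : ℂ) * F (w + v')) μ :=
      (hχc.mul (hFc.comp (continuous_id.add continuous_const))).integrable_of_hasCompactSupport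
        hχcs.mul_right
    have hi2 : Integrable (fun w : V => (χ w : ℂ) * F w) μ :=
      (hχc.mul hFc).integrable_of_hasCompactSupport hχcs.mul_right
    have h6 : (fun w : V => χ w • G w) =
        fun w : V => (χ w : ℂ) * F (w + v') - e (inner ℝ κ v) * ((χ w : ℂ) * F w) := by
      funext w
      rw [hG, Complex.real_smul]
      ring
    rw [h6, integral_sub hi1 (hi2.const_mul _), integral_const_mul, ← h5]
    have h7 : ∫ w : V, ((χ (w - v') : ℝ) : ℂ) * F w ∂μ =
        e (inner ℝ κ v) * ∫ w : V, (χ w : ℂ) * F w ∂μ := h4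
    rw [h7, sub_self]
  have hae := ae_eq_zero_of_integral_contDiff_smul_eq_zero
    (hGc.locallyIntegrable (μ := μ)) hint
  have hG0 : G = fun _ => 0 := (hGc.ae_eq_iff_eq μ continuous_const).1 hae
  have h8 := congrFun hG0 (V.orthogonalProjectionOnto x)
  have h9 : F (V.orthogonalProjectionOnto x + v') =
      e (inner ℝ κ v) * F (V.orthogonalProjectionOnto x) := sub_eq_zero.1 h8
  simp only [hF] at h9
  rw [Submodule.coe_add, ← add_assoc, hz₀, neqv_dec] at h9
  exact h9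

end Pool.Agent.ST53
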