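import Pool.Agent.Lib.MP_53fa4a_an_ST.NDef

/-!
# C5: regrouping of the sum over the cosets of `V`
-/

set_option autoImplicit false

open MeasureTheory
open scoped BigOperators Topology SchwartzMap ContDiff

noncomputable section

namespace Pool.Agent.ST53

variable {X : Type*} [NormedAddCommGroup X] [InnerProductSpace ℝ X] [FiniteDimensional ℝ X]
  [MeasurableSpace X] [BorelSpace X] {V : Submodule ℝ X} (μ : Measure V) [μ.IsAddHaarMeasure]

private lemma supp_rad {k : X → ℝ} (hks : HasCompactSupport k) :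
    ∃ R, ∀ x, k x ≠ 0 → ‖x‖ ≤ R := by
  obtain ⟨R, hR⟩ := hks.isCompact.isBounded.exists_norm_le
  exact ⟨R, fun x hx => hR x (subset_tsupport _ hx)⟩

private lemma emb (V : Submodule ℝ X) :
    Topology.IsClosedEmbedding (Subtype.val : V → X) :=
  V.closed_of_finiteDimensional.isClosedEmbedding_subtypeVal

private lemma int_k {k : X → ℝ} (hk : Continuous k) (hks : HasCompactSupport k) :
    Integrable (fun w : V => k w) μ :=
  (hk.comp continuous_subtype_val).integrable_of_hasCompactSupport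
    (hks.comp_isClosedEmbedding (emb V))

private lemma int_term (κ : X) {k : X → ℝ} (hk : Continuous k) (hks : HasCompactSupport k)
    (φ : 𝓢(X, ℂ)) (y : X) :
    Integrable (fun w : V => (k w : ℂ) * e (-(inner ℝ κ (w : X))) * φ (y - w)) μ := by
  have h1 : HasCompactSupport (fun w : V => k w) := hks.comp_isClosedEmbedding (emb V)
  have h2 : HasCompactSupport (fun w : V => (k w : ℂ)) :=
    h1.comp_left (g := fun r : ℝ => (r : ℂ)) Complex.ofReal_zero
  have h3 : HasCompactSupport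
      (fun w : V => (k w : ℂ) * e (-(inner ℝ κ (w : X))) * φ (y - w)) := by
    have h4 := (h2.mul_right (f' := fun w : V => e (-(inner ℝ κ (w : X))))).mul_right
      (f' := fun w : V => φ (y - w))
    exact h4
  refine Continuous.integrable_of_hasCompactSupport ?_ h3
  refine Continuous.mul (Continuous.mul ?_ ?_) ?_
  · exact Complex.continuous_ofReal.comp (hk.comp continuous_subtype_val)
  · refine continuous_e.comp (Continuous.neg ?_)
    exact continuous_const.inner continuous_subtype_val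
  · exact φ.continuous.comp (continuous_const.sub continuous_subtype_val)

private lemma integral_tsum_c {ι α : Type*} [MeasurableSpace α] {ν : Measure α} {F : ι → α → ℂ}
    (hF : ∀ i, Integrable (F i) ν) (hs : Summable fun i => ∫ a, ‖F i a‖ ∂ν)
    (hc : ∃ S : Set ι, S.Countable ∧ ∀ i ∉ S, ∀ a, F i a = 0) :
    ∑' i, ∫ a, F i a ∂ν = ∫ a, ∑' i, F i a ∂ν := by
  obtain ⟨S, hS, h0⟩ := hc
  haveI := hS.to_subtype
  have h1 : ∑' i : S, ∫ a, F i a ∂ν = ∑' i, ∫ a, F i a ∂ν := by
    refine tsum_subtype_eq_of_support_subset (f := fun i => ∫ a, F i a ∂ν) ?_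
    intro i hi
    by_contra hiS
    apply hi
    simp only [h0 i hiS, integral_zero]
  have h2 : ∀ a, ∑' i : S, F i a = ∑' i, F i a := by
    intro a
    refine tsum_subtype_eq_of_support_subset (f := fun i => F i a) ?_
    intro i hi
    by_contra hiS
    exact hi (h0 i hiS a)
  have hs3 : Summable fun i : S => ∫ a, ‖F i a‖ ∂ν :=
    hs.comp_injective (i := (Subtype.val : S → ι)) Subtype.val_injective
  have h3 := integral_tsum_of_summable_integral_norm (μ := ν)
    (F := fun (i : S) a => F (i : ι) a) (fun i => hF i) hs3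
  rw [← h1, h3]
  simp only [h2]

/-- the dominating function and a countable set -/
private lemma main_bound {n : ℕ} (b : Module.Basis (Fin n) ℝ X) (L : AddSubgroup X)
    (hL : ∀ l ∈ L, ∀ i, ∃ m : ℤ, inner ℝ (b i) l = (m : ℝ)) (E : Finset X) {g : X → ℂ}
    {C : ℝ} (hg : ∀ x, ‖g x‖ ≤ C) (hs : ∀ x, g x ≠ 0 → x ∈ DD L E) (κ : X) {k : X → ℝ}
    (hks : HasCompactSupport k) (φ : 𝓢(X, ℂ)) :
    ∃ B : X → ℝ, Summable B ∧ (∀ y, 0 ≤ B y) ∧ ∀ (y : X) (w : V),
      ‖g y * ((k w : ℂ) * e (-(inner ℝ κ (w : X))) * φ (y - w))‖ ≤ C * |k w| * B y := by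
  obtain ⟨R, hR⟩ := supp_rad hks
  obtain ⟨B, hB, hB0, hBφ⟩ := exists_bound b L hL E φ R
  have hC : 0 ≤ C := le_trans (norm_nonneg _) (hg 0)
  refine ⟨B, hB, hB0, fun y w => ?_⟩
  by_cases hgy : g y = 0
  · rw [hgy, zero_mul, norm_zero]
    have := hB0 y
    positivity
  by_cases hkw : k w = 0
  · rw [hkw]
    simp
  rw [norm_mul, norm_mul, norm_mul, norm_e, Complex.norm_real, Real.norm_eq_abs, mul_one]
  have h1 := hBφ w (hR w hkw) y (hs y hgy)
  calc ‖g y‖ * (|k w| * ‖φ (y - w)‖) ≤ C * (|k w| * B y) := by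
        refine mul_le_mul (hg y) ?_ (by positivity) hC
        exact mul_le_mul_of_nonneg_left h1 (abs_nonneg _)
    _ = C * |k w| * B y := by ring

/-- integral and sum (dominated by `exists_bound` for the radius of the support of `k`) -/
theorem II_sum {n : ℕ} (b : Module.Basis (Fin n) ℝ X) (L : AddSubgroup X)
    (hL : ∀ l ∈ L, ∀ i, ∃ m : ℤ, inner ℝ (b i) l = (m : ℝ)) (E : Finset X) {g : X → ℂ}
    {C : ℝ} (hg : ∀ x, ‖g x‖ ≤ C) (hs : ∀ x, g x ≠ 0 → x ∈ DD L E) (κ : X) {k : X → ℝ}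
    (hk : Continuous k) (hks : HasCompactSupport k) (φ : 𝓢(X, ℂ)) :
    Summable (fun y : X => ∫ w : V, ‖g y * ((k w : ℂ) * e (-(inner ℝ κ (w : X))) * φ (y - w))‖ ∂μ) ∧
    II μ κ k (FF g φ) 0 =
      ∑' y : X, g y * ∫ w : V, (k w : ℂ) * e (-(inner ℝ κ (w : X))) * φ (y - w) ∂μ := by
  obtain ⟨B, hB, hB0, hBd⟩ := main_bound (V := V) b L hL E hg hs κ hks φ
  have hC : 0 ≤ C := le_trans (norm_nonneg _) (hg 0)
  have hint : ∀ y : X, Integrable
      (fun w : V => g y * ((k w : ℂ) * e (-(inner ℝ κ (w : X))) * φ (y - w))) μ :=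
    fun y => (int_term μ κ hk hks φ y).const_mul (g y)
  have hik : Integrable (fun w : V => |k w|) μ := (int_k μ hk hks).abs
  have hsum : Summable (fun y : X =>
      ∫ w : V, ‖g y * ((k w : ℂ) * e (-(inner ℝ κ (w : X))) * φ (y - w))‖ ∂μ) := by
    refine Summable.of_nonneg_of_le (fun y => integral_nonneg fun w => norm_nonneg _)
      (fun y => ?_) (hB.mul_left (C * ∫ w : V, |k w| ∂μ))
    calc ∫ w : V, ‖g y * ((k w : ℂ) * e (-(inner ℝ κ (w : X))) * φ (y - w))‖ ∂μ
        ≤ ∫ w : V, C * |k w| * B y ∂μ :=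
          integral_mono (hint y).norm ((hik.const_mul C).mul_const (B y)) (fun w => hBd y w)
      _ = C * (∫ w : V, |k w| ∂μ) * B y := by
          rw [integral_mul_const, integral_const_mul]
  refine ⟨hsum, ?_⟩
  have hcount : ∃ S : Set X, S.Countable ∧ ∀ y ∉ S, ∀ w : V,
      g y * ((k w : ℂ) * e (-(inner ℝ κ (w : X))) * φ (y - w)) = 0 := by
    refine ⟨Function.support B, hB.countable_support, fun y hy w => ?_⟩
    have h0 : B y = 0 := by
      by_contra h
      exact hy h
    have h1 := hBd y w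
    rw [h0, mul_zero] at h1
    exact norm_le_zero_iff.mp h1
  have hsw := integral_tsum_c hint hsum hcount
  have hl : II μ κ k (FF g φ) 0 = ∫ w : V, ∑' y : X,
      g y * ((k w : ℂ) * e (-(inner ℝ κ (w : X))) * φ (y - w)) ∂μ := by
    unfold II FF
    refine integral_congr_ae (Filter.Eventually.of_forall fun w => ?_)
    simp only
    rw [← tsum_mul_left, zero_add]
    refine tsum_congr fun y => ?_
    ring
  rw [hl, ← hsw]
  refine tsum_congr fun y => ?_
  rw [integral_const_mul]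

/-- the decomposition `X = Vᗮ × V` -/
theorem exists_equiv (V : Submodule ℝ X) :
    ∃ Θ : X ≃ Vᗮ × V, ∀ (z : Vᗮ) (v : V), Θ.symm (z, v) = (z : X) + v := by
  have h : IsCompl Vᗮ V := (Submodule.isCompl_orthogonal (K := V)).symm
  refine ⟨(Submodule.prodEquivOfIsCompl Vᗮ V h).symm.toEquiv, fun z v => ?_⟩
  simp

/-- **Regrouping.**  PROOF: `II_sum`; the substitution `w ↦ v - w` in `V` for `y = z + v`
(`exists_equiv`): `∫ k(w) e(-⟨κ,w⟩) φ(z+v-w) dw = ∫ kk(v-w) φ(z+w) dw`; for fixed `z` sum over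
`v ∈ V` and integral (same bound); `∑_v g(z+v) kk(v-w) = FF g kk (z+w)` (`kk` is `0` outside `V`);
sum over `Vᗮ × V` (`Summable.tsum_prod`). -/
theorem regroup {n : ℕ} (b : Module.Basis (Fin n) ℝ X) (L : AddSubgroup X)
    (hL : ∀ l ∈ L, ∀ i, ∃ m : ℤ, inner ℝ (b i) l = (m : ℝ)) (E : Finset X) {g : X → ℂ}
    {C : ℝ} (hg : ∀ x, ‖g x‖ ≤ C) (hs : ∀ x, g x ≠ 0 → x ∈ DD L E) (κ : X) {k : X → ℝ}
    (hk : Continuous k) (hks : HasCompactSupport k) (φ : 𝓢(X, ℂ)) :
    II μ κ k (FF g φ) 0 =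
      ∑' z : Vᗮ, ∫ w : V, φ ((z : X) + w) * FF g (kk V κ k) ((z : X) + w) ∂μ := by
  obtain ⟨hsum, hII⟩ := II_sum μ b L hL E hg hs κ hk hks φ
  obtain ⟨B, hB, hB0, hBd⟩ := main_bound (V := V) b L hL E hg hs κ hks φ
  obtain ⟨Θ, hΘ⟩ := exists_equiv V
  -- the integrand
  let H : X → V → ℂ := fun y w => g y * ((k w : ℂ) * e (-(inner ℝ κ (w : X))) * φ (y - w))
  have hH : ∀ y, Integrable (H y) μ := fun y => (int_term μ κ hk hks φ y).const_mul (g y)
  have hsub : ∀ (z : Vᗮ) (v w : V), H ((z : X) + v) (v - w) =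
      φ ((z : X) + w) * (g ((z : X) + v) * kk V κ k ((z : X) + v - ((z : X) + w))) := by
    intro z v w
    have e1 : ((z : X) + v - ((z : X) + w)) = ((v - w : V) : X) := by
      push_cast
      abel
    have e2 : (z : X) + v - ((v - w : V) : X) = (z : X) + w := by
      push_cast
      abel
    have e3 : kk V κ k ((v - w : V) : X) =
        (k ((v - w : V) : X) : ℂ) * e (-(inner ℝ κ ((v - w : V) : X))) := by
      unfold kk
      rw [Set.indicator_of_mem]
      exact (v - w).2
    rw [e1, e3]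
    change g ((z : X) + v) * ((k ((v - w : V) : X) : ℂ) *
      e (-(inner ℝ κ ((v - w : V) : X))) * φ ((z : X) + v - ((v - w : V) : X))) = _
    rw [e2]
    ring
  have hFF : ∀ (z : Vᗮ) (w : V), FF g (kk V κ k) ((z : X) + w) =
      ∑' v : V, g ((z : X) + v) * kk V κ k ((z : X) + v - ((z : X) + w)) := by
    intro z w
    unfold FF
    have hinj : Function.Injective (fun v : V => (z : X) + v) := by
      intro v v' h
      exact Subtype.ext (add_left_cancel h)
    refine (hinj.tsum_eq ?_).symm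
    intro y hy
    obtain ⟨⟨z', v'⟩, rfl⟩ := Θ.symm.surjective y
    rw [hΘ] at hy ⊢
    have h1 : (z' : X) + v' - ((z : X) + w) ∈ V := by
      by_contra h
      apply hy
      simp only
      unfold kk
      rw [Set.indicator_of_notMem (by exact h), mul_zero]
    have h2 : ((z' - z : Vᗮ) : X) ∈ V := by
      have h3 := V.sub_mem h1 (v' - w).2
      have h4 : (z' : X) + v' - ((z : X) + w) - ((v' - w : V) : X) = ((z' - z : Vᗮ) : X) := by
        push_cast
        abel
      rwa [h4] at h3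
    have h5 : ((z' - z : Vᗮ) : X) = 0 := by
      have h6 := Submodule.inner_right_of_mem_orthogonal h2 (z' - z).2
      exact inner_self_eq_zero.mp h6
    have h7 : z' = z := by
      have : z' - z = 0 := Subtype.ext h5
      exact sub_eq_zero.mp this
    exact ⟨v', by rw [h7]⟩
  have hsumΘ : Summable (fun p : Vᗮ × V => ∫ w : V, ‖H (Θ.symm p) w‖ ∂μ) :=
    (Θ.symm.summable_iff (f := fun y => ∫ w : V, ‖H y w‖ ∂μ)).mpr hsum
  have hsumI : Summable (fun p : Vᗮ × V => ∫ w : V, H (Θ.symm p) w ∂μ) := by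
    refine Summable.of_norm_bounded hsumΘ fun p => ?_
    exact norm_integral_le_integral_norm _
  rw [hII]
  have hA : ∑' y : X, g y * ∫ w : V, (k w : ℂ) * e (-(inner ℝ κ (w : X))) * φ (y - w) ∂μ =
      ∑' p : Vᗮ × V, ∫ w : V, H (Θ.symm p) w ∂μ := by
    rw [Θ.symm.tsum_eq (fun y => ∫ w : V, H y w ∂μ)]
    refine tsum_congr fun y => ?_
    rw [← integral_const_mul]
  rw [hA, hsumI.tsum_prod]
  refine tsum_congr fun z => ?_
  -- the substitution
  have hB1 : ∀ v : V, ∫ w : V, H (Θ.symm (z, v)) w ∂μ =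
      ∫ w : V, H ((z : X) + v) (v - w) ∂μ := by
    intro v
    rw [hΘ, integral_sub_left_eq_self (fun w => H ((z : X) + v) w) μ v]
  have hB2 : ∀ v : V, ∫ w : V, ‖H (Θ.symm (z, v)) w‖ ∂μ =
      ∫ w : V, ‖H ((z : X) + v) (v - w)‖ ∂μ := by
    intro v
    rw [hΘ, integral_sub_left_eq_self (fun w => ‖H ((z : X) + v) w‖) μ v]
  simp only [hB1]
  have hs2 : Summable (fun v : V => ∫ w : V, ‖H ((z : X) + v) (v - w)‖ ∂μ) := by
    have h1 := hsumΘ.comp_injective (i := fun v : V => (z, v)) (fun v v' h => (Prod.mk.inj h).2)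
    refine h1.congr fun v => ?_
    exact (hB2 v)
  have hi2 : ∀ v : V, Integrable (fun w : V => H ((z : X) + v) (v - w)) μ :=
    fun v => (hH _).comp_sub_left v
  have hc2 : ∃ S : Set V, S.Countable ∧ ∀ v ∉ S, ∀ w : V, H ((z : X) + v) (v - w) = 0 := by
    refine ⟨(fun v : V => (z : X) + v) ⁻¹' Function.support B,
      hB.countable_support.preimage_of_injOn ?_, fun v hv w => ?_⟩
    · intro v _ v' _ h
      exact Subtype.ext (add_left_cancel h)
    · have h0 : B ((z : X) + v) = 0 := by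
        by_contra h
        exact hv h
      have h1 := hBd ((z : X) + v) (v - w)
      rw [h0, mul_zero] at h1
      exact norm_le_zero_iff.mp h1
  rw [integral_tsum_c hi2 hs2 hc2]
  refine integral_congr_ae (Filter.Eventually.of_forall fun w => ?_)
  simp only
  rw [hFF, ← tsum_mul_left]
  exact tsum_congr fun v => hsub z v w

end Pool.Agent.ST53
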